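import Pool.Agent.SvS.Defs

/-!
MP_7fa120_al, solvable subgroups. More definitions.
-/

set_option autoImplicit false

namespace Pool.Agent.SvS

open Equiv Pool.Agent.NilS Pool.Agent.BdO

/-- The subgroups `L ≥ N, Y` with `L M = G`, `L ≠ G`. -/
def Cm {G : Type} [Group G] (Y N M : Subgroup G) : Type :=
  {L : Subgroup G // N ≤ L ∧ Y ≤ L ∧ L ⊔ M = ⊤ ∧ L ≠ ⊤}

/-- `C` is the centraliser of `M / N`. -/
def Czr {G : Type} [Group G] (C N M : Subgroup G) : Prop := ∀ g : G, g ∈ C ↔ ∀ m ∈ M, g * m * g⁻¹ * m⁻¹ ∈ N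

/-- `H` is generated by a nilpotent group whose order has odd part at least `e`, and by `k` elements. -/
def Nil {G : Type} [Group G] (H : Subgroup G) (e k : ℕ) : Prop :=
  ∃ (Y : Subgroup G) (S : Finset G) (a m : ℕ), Group.IsNilpotent Y ∧ Nat.card Y = 2 ^ a * m ∧ Odd m ∧ e ≤ m ∧ S.card ≤ k ∧
    Y ⊔ Subgroup.closure (S : Set G) = H

/-- The bound of `LargeB`. -/
noncomputable def LB (n L s : ℕ) : ℕ :=
  ∑ t ∈ ((Finset.range (n + 1)) ×ˢ ((Finset.range (n + 1)) ×ˢ (Finset.range (n + 1)))).filter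
    (fun t => s ≤ 2 * (L * t.1 + t.2.2) ∧ L * t.2.1 ≤ t.2.2 ∧ t.1 + t.2.2 ≤ n),
    n ^ t.1 * n ^ ((Nat.log 2 n + 1) * t.2.1 * (2 * n)) * nTwo (n - t.2.2 + t.2.1 - t.1)

/-- The number of solvable subgroups with odd part at most 3 which are not 2-groups. -/
noncomputable def nY (n : ℕ) : ℕ := Nat.card {H : Subgroup (Perm (Fin n)) // Group.IsSolvable H ∧ Bdd 3 H ∧ ¬ Two H}

/-- The number of solvable subgroups with odd part more than `26 !`. -/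
noncomputable def nBig (n : ℕ) : ℕ :=
  Nat.card {H : Subgroup (Perm (Fin n)) // Group.IsSolvable H ∧ ¬ Bdd (Nat.factorial 26) H}

/-- `n ^ (1 / 4)`. -/
def sg (n : ℕ) : ℕ := Nat.sqrt (Nat.sqrt n)

/-- `n ^ (29 / 32)`. -/
noncomputable def kb (n : ℕ) : ℕ := ⌊(n : ℝ) ^ (29 / 32 : ℝ)⌋₊

/-- `n ^ (25 / 32)`. -/
noncomputable def ka (n : ℕ) : ℕ := ⌊(n : ℝ) ^ (25 / 32 : ℝ)⌋₊

/-- `n ^ (3 / 64)`. -/
noncomputable def LL (n : ℕ) : ℕ := ⌊(n : ℝ) ^ (3 / 64 : ℝ)⌋₊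

/-- The exponent in case (a). -/
def ga (k : ℕ) : ℕ := ((k - 1) / 2) * (k - 1 - (k - 1) / 2)

/-- The number of generators in case (a), `b = log_2 (n !)`. -/
def ja (b k : ℕ) : ℕ := (b / (k - 1) + 1) ^ 2

/-- The number of steps of the process in case (b), `b = log_2 (n !)`. -/
def ta (b k : ℕ) : ℕ := b / (k - 2)

end Pool.Agent.SvS
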