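import Pool.Agent.SvS.Defs
import Pool.Agent.NilS.SupT

/-!
MP_7fa120_al, solvable subgroups. The number of 2-groups normalising a given group of odd order.

Proof: (A), (B), (C) of `Pool.Agent.BdO.norm_count` (`BdO/NormX.lean`, proved there; copy it): `k` is the number of the orbits of `U` with
more than one point; they have odd length, at least 3, so `3 * k ≤ (mv U).card`; a 2-group `D` normalising `U` has an invariant set `X`
which meets every such orbit in exactly one point, and `D` is determined by `X` and its restriction to the complement of `X`. If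
`k = 1` then `mv U` is an orbit. The second statement is the same for groups `D` which move only points of a set `W` containing
`mv U` (then the restriction moves only points of `W \ X`).
-/

set_option autoImplicit false

namespace Pool.Agent.SvS

open Equiv Pool.Agent.NilS Pool.Agent.BdO Finset

/-- A 2-group acting on an odd set has a fixed point. -/
private theorem exists_fixed {Ω : Type} (S : Subgroup (Perm Ω)) (hS : Two S) (Δ : Finset Ω)
    (hI : Inv S Δ) (ho : Odd Δ.card) : ∃ y ∈ Δ, ∀ s ∈ S, s y = y := by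
  classical
  obtain ⟨k, hk⟩ := hS
  have hp : IsPGroup 2 S := IsPGroup.of_card hk
  let A : MulAction S {y // y ∈ Δ} :=
    { smul := fun s y => ⟨(s : Perm Ω) y.1, hI s.1 s.2 y.1 y.2⟩
      one_smul := fun y => Subtype.ext rfl
      mul_smul := fun s t y => Subtype.ext rfl }
  have : Fact (Nat.Prime 2) := ⟨Nat.prime_two⟩
  have h1 : ¬ 2 ∣ Nat.card {y // y ∈ Δ} := by
    rw [Nat.card_eq_fintype_card, Fintype.card_coe]
    exact ho.not_two_dvd_nat
  obtain ⟨y, hy⟩ := hp.nonempty_fixed_point_of_prime_not_dvd_card {y // y ∈ Δ} h1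
  refine ⟨y.1, y.2, fun s hs => ?_⟩
  exact congrArg Subtype.val (hy ⟨s, hs⟩)

/-- `y` is in the orbit of `x`. -/
private def rel {Ω : Type} (C : Subgroup (Perm Ω)) (x y : Ω) : Prop := ∃ c ∈ C, c x = y

private theorem rel_refl {Ω : Type} (C : Subgroup (Perm Ω)) (x : Ω) : rel C x x := ⟨1, C.one_mem, rfl⟩

private theorem rel_symm {Ω : Type} {C : Subgroup (Perm Ω)} {x y : Ω} (h : rel C x y) : rel C y x := by
  obtain ⟨c, hc, rfl⟩ := h
  exact ⟨c⁻¹, C.inv_mem hc, by simp⟩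

private theorem rel_trans {Ω : Type} {C : Subgroup (Perm Ω)} {x y z : Ω} (h : rel C x y) (h' : rel C y z) :
    rel C x z := by
  obtain ⟨c, hc, rfl⟩ := h
  obtain ⟨d, hd, rfl⟩ := h'
  exact ⟨d * c, C.mul_mem hd hc, rfl⟩

private theorem rel_map {Ω : Type} {C D : Subgroup (Perm Ω)} (hN : Nz D C) {d : Perm Ω} (hd : d ∈ D) {x y : Ω}
    (h : rel C x y) : rel C (d x) (d y) := by
  obtain ⟨c, hc, rfl⟩ := h
  exact ⟨d * c * d⁻¹, hN d hd c hc, by simp⟩

/-- `x` is moved by `C`. -/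
private def mvd {Ω : Type} (C : Subgroup (Perm Ω)) (x : Ω) : Prop := ∃ c ∈ C, c x ≠ x

private theorem mvd_map {Ω : Type} {C D : Subgroup (Perm Ω)} (hN : Nz D C) {d : Perm Ω} (hd : d ∈ D) {x : Ω}
    (h : mvd C x) : mvd C (d x) := by
  obtain ⟨c, hc, hx⟩ := h
  refine ⟨d * c * d⁻¹, hN d hd c hc, ?_⟩
  simpa using hx

private theorem mvd_rel {Ω : Type} {C : Subgroup (Perm Ω)} {x y : Ω} (h : mvd C x) (hr : rel C x y) : mvd C y := by
  obtain ⟨c, hc, rfl⟩ := hr
  exact mvd_map (D := C) (fun l hl o ho => C.mul_mem (C.mul_mem hl ho) (C.inv_mem hl)) hc h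

/-- The orbit of `x`. -/
private noncomputable def orb {n : ℕ} (C : Subgroup (Perm (Fin n))) (x : Fin n) : Finset (Fin n) := by
  classical
  exact univ.filter (fun y => rel C x y)

private theorem mem_orb {n : ℕ} {C : Subgroup (Perm (Fin n))} {x y : Fin n} : y ∈ orb C x ↔ rel C x y := by
  simp [orb]

private theorem orb_eq {n : ℕ} {C : Subgroup (Perm (Fin n))} {x y : Fin n} (h : rel C x y) : orb C x = orb C y := by
  ext z
  rw [mem_orb, mem_orb]
  exact ⟨fun h1 => rel_trans (rel_symm h) h1, fun h1 => rel_trans h h1⟩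

private theorem orb_card {n : ℕ} (C : Subgroup (Perm (Fin n))) (x : Fin n) : (orb C x).card ∣ Nat.card C := by
  have h1 : ((orb C x : Finset (Fin n)) : Set (Fin n)) = MulAction.orbit C x := by
    ext y
    rw [mem_coe, mem_orb]
    constructor
    · rintro ⟨c, hc, rfl⟩
      exact ⟨⟨c, hc⟩, rfl⟩
    · rintro ⟨c, rfl⟩
      exact ⟨c.1, c.2, rfl⟩
  rw [← Set.ncard_coe_finset, h1, ← MulAction.index_stabilizer]
  exact Subgroup.index_dvd_card _

private theorem orb_three {n : ℕ} {C : Subgroup (Perm (Fin n))} (ho : Odd (Nat.card C)) {x : Fin n}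
    (h : mvd C x) : 3 ≤ (orb C x).card := by
  have h1 : Odd (orb C x).card := Odd.of_dvd_nat ho (orb_card C x)
  have h2 : 1 < (orb C x).card := by
    obtain ⟨c, hc, hx⟩ := h
    rw [Finset.one_lt_card]
    exact ⟨c x, mem_orb.2 ⟨c, hc, rfl⟩, x, mem_orb.2 (rel_refl C x), hx⟩
  obtain ⟨m, hm⟩ := h1
  omega

/-- `X` is `D`-invariant and meets every nontrivial orbit of `C` in exactly one point. -/
private def Tr {Ω : Type} (C D : Subgroup (Perm Ω)) (X : Finset Ω) : Prop :=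
  Inv D X ∧ (∀ x ∈ X, mvd C x) ∧ (∀ x ∈ X, ∀ y ∈ X, rel C x y → x = y) ∧ ∀ x, mvd C x → ∃ y ∈ X, rel C x y

private theorem exists_tr {n : ℕ} {C D : Subgroup (Perm (Fin n))} (ho : Odd (Nat.card C)) (hD : Two D)
    (hN : Nz D C) : ∃ X, Tr C D X := by
  classical
  let Good : Finset (Fin n) → Prop := fun X =>
    Inv D X ∧ (∀ x ∈ X, mvd C x ∧ ∀ d ∈ D, rel C x (d x) → d x = x) ∧ ∀ x, mvd C x → ∃ y ∈ X, rel C x y
  let Y : Finset (Fin n) := univ.filter (fun x => mvd C x ∧ ∀ d ∈ D, rel C x (d x) → d x = x)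
  have hY : Good Y := by
    refine ⟨?_, fun x hx => (mem_filter.1 hx).2, ?_⟩
    · intro d hd x hx
      obtain ⟨-, h1, h2⟩ := mem_filter.1 hx
      refine mem_filter.2 ⟨mem_univ _, mvd_map hN hd h1, fun e he h3 => ?_⟩
      have h4 := rel_map hN (D.inv_mem hd) h3
      have h5 : d⁻¹ (d x) = x := by simp
      rw [h5] at h4
      have h6 := h2 (d⁻¹ * e * d) (D.mul_mem (D.mul_mem (D.inv_mem hd) he) hd) h4
      have h7 : d ((d⁻¹ * e * d) x) = d x := by rw [h6]
      simpa using h7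
    · intro x hx
      let S : Subgroup (Perm (Fin n)) :=
        { carrier := {d | d ∈ D ∧ rel C x (d x)}
          mul_mem' := by
            rintro a b ⟨ha, ha'⟩ ⟨hb, hb'⟩
            exact ⟨D.mul_mem ha hb, rel_trans ha' (rel_map hN ha hb')⟩
          one_mem' := ⟨D.one_mem, rel_refl C x⟩
          inv_mem' := by
            rintro a ⟨ha, ha'⟩
            refine ⟨D.inv_mem ha, ?_⟩
            have h4 := rel_map hN (D.inv_mem ha) ha'
            have h5 : a⁻¹ (a x) = x := by simp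
            rw [h5] at h4
            exact rel_symm h4 }
      have hSD : S ≤ D := fun a ha => ha.1
      have hS : Two S := by
        obtain ⟨k, hk⟩ := hD
        have h1 := Subgroup.card_dvd_of_le hSD
        rw [hk] at h1
        obtain ⟨j, -, hj⟩ := (Nat.dvd_prime_pow Nat.prime_two).1 h1
        exact ⟨j, hj⟩
      have hI : Inv S (orb C x) := by
        intro d hd y hy
        rw [mem_orb] at hy ⊢
        exact rel_trans hd.2 (rel_map hN hd.1 hy)
      obtain ⟨y, hy, hfix⟩ := exists_fixed S hS (orb C x) hI (Odd.of_dvd_nat ho (orb_card C x))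
      rw [mem_orb] at hy
      refine ⟨y, mem_filter.2 ⟨mem_univ _, mvd_rel hx hy, fun d hd h3 => ?_⟩, hy⟩
      exact hfix d ⟨hd, rel_trans (rel_trans hy h3) (rel_symm (rel_map hN hd hy))⟩
  obtain ⟨X, hX, hmin⟩ := exists_min_image (univ.filter Good) card ⟨Y, mem_filter.2 ⟨mem_univ _, hY⟩⟩
  obtain ⟨-, h1, h2, h3⟩ := mem_filter.1 hX
  refine ⟨X, h1, fun x hx => (h2 x hx).1, fun x hx y hy hxy => ?_, h3⟩
  by_contra hne
  let X' : Finset (Fin n) := X.filter (fun z => ∀ d ∈ D, d x ≠ z)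
  have hX' : Good X' := by
    refine ⟨?_, fun z hz => h2 z (mem_filter.1 hz).1, ?_⟩
    · intro d hd z hz
      obtain ⟨hz1, hz2⟩ := mem_filter.1 hz
      refine mem_filter.2 ⟨h1 d hd z hz1, fun e he h4 => ?_⟩
      refine hz2 (d⁻¹ * e) (D.mul_mem (D.inv_mem hd) he) ?_
      rw [Perm.mul_apply, h4]
      simp
    · intro z hz
      obtain ⟨w, hw, hzw⟩ := h3 z hz
      by_cases h4 : ∀ d ∈ D, d x ≠ w
      · exact ⟨w, mem_filter.2 ⟨hw, h4⟩, hzw⟩
      · push Not at h4
        obtain ⟨d, hd, rfl⟩ := h4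
        refine ⟨d y, mem_filter.2 ⟨h1 d hd y hy, fun e he h5 => ?_⟩, rel_trans hzw (rel_map hN hd hxy)⟩
        have h6 : (d⁻¹ * e) x = y := by
          rw [Perm.mul_apply, h5]
          simp
        have h7 := (h2 x hx).2 (d⁻¹ * e) (D.mul_mem (D.inv_mem hd) he) (by rw [h6]; exact hxy)
        exact hne (h7.symm.trans h6)
  have h4 := hmin X' (mem_filter.2 ⟨mem_univ _, hX'⟩)
  have h5 : X' ⊂ X := by
    refine (filter_subset _ _).ssubset_of_mem_notMem hx ?_
    intro h6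
    exact (mem_filter.1 h6).2 1 D.one_mem rfl
  exact absurd (card_lt_card h5) (not_lt.2 h4)

/-- The nontrivial orbits of `C`. -/
private noncomputable def orbs {n : ℕ} (C : Subgroup (Perm (Fin n))) : Finset (Finset (Fin n)) := by
  classical
  exact (univ.filter (fun x => mvd C x)).image (orb C)

private theorem mem_orbs {n : ℕ} {C : Subgroup (Perm (Fin n))} {Δ : Finset (Fin n)} :
    Δ ∈ orbs C ↔ ∃ x, mvd C x ∧ orb C x = Δ := by
  simp [orbs]

private theorem tr_card {n : ℕ} {C D : Subgroup (Perm (Fin n))} {X : Finset (Fin n)} (h : Tr C D X) :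
    X.card = (orbs C).card := by
  classical
  obtain ⟨-, h1, h2, h3⟩ := h
  have h4 : X.image (orb C) = orbs C := by
    ext Δ
    rw [mem_image, mem_orbs]
    constructor
    · rintro ⟨x, hx, rfl⟩
      exact ⟨x, h1 x hx, rfl⟩
    · rintro ⟨x, hx, rfl⟩
      obtain ⟨y, hy, hxy⟩ := h3 x hx
      exact ⟨y, hy, (orb_eq hxy).symm⟩
  rw [← h4, card_image_of_injOn]
  intro x hx y hy hxy
  refine h2 x hx y hy ?_
  have h5 : orb C x = orb C y := hxy
  rw [← mem_orb, h5, mem_orb]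
  exact rel_refl C y

private theorem mem_mv' {n : ℕ} {C : Subgroup (Perm (Fin n))} {x : Fin n} : x ∈ mv C ↔ mvd C x := mem_mv

private theorem three_orbs {n : ℕ} {C : Subgroup (Perm (Fin n))} (ho : Odd (Nat.card C)) :
    3 * (orbs C).card ≤ (mv C).card := by
  classical
  have h1 : ((orbs C).biUnion id).card = ∑ Δ ∈ orbs C, Δ.card := by
    refine card_biUnion ?_
    intro Δ hΔ Δ' hΔ' hne
    obtain ⟨x, -, rfl⟩ := mem_orbs.1 hΔ
    obtain ⟨y, -, rfl⟩ := mem_orbs.1 hΔ'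
    change Disjoint (orb C x) (orb C y)
    rw [Finset.disjoint_left]
    intro z hz hz'
    rw [mem_orb] at hz hz'
    exact hne ((orb_eq hz).trans (orb_eq hz').symm)
  have h2 : ((orbs C).biUnion id).card ≤ (mv C).card := by
    refine card_le_card fun z hz => ?_
    obtain ⟨Δ, hΔ, hz'⟩ := mem_biUnion.1 hz
    obtain ⟨x, hx, rfl⟩ := mem_orbs.1 hΔ
    exact mem_mv'.2 (mvd_rel hx (mem_orb.1 hz'))
  have h3 : ∑ Δ ∈ orbs C, 3 ≤ ∑ Δ ∈ orbs C, Δ.card := by
    refine sum_le_sum fun Δ hΔ => ?_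
    obtain ⟨x, hx, rfl⟩ := mem_orbs.1 hΔ
    exact orb_three ho hx
  rw [sum_const, smul_eq_mul] at h3
  omega

/-- `D` is determined by a transversal and the restriction to its complement. -/
private theorem le_of_res {n : ℕ} {C D₁ D₂ : Subgroup (Perm (Fin n))} (hN₁ : Nz D₁ C) (hN₂ : Nz D₂ C)
    {X : Finset (Fin n)} (h₁ : Tr C D₁ X) (h₂ : Tr C D₂ X) (hr : res D₁ (univ \ X) ≤ res D₂ (univ \ X)) :
    D₁ ≤ D₂ := by
  classical
  have hinv : Inv D₁ (univ \ X) := by
    intro d hd x hx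
    rw [mem_sdiff] at hx ⊢
    refine ⟨mem_univ _, fun h3 => hx.2 ?_⟩
    have h4 := h₁.1 d⁻¹ (D₁.inv_mem hd) _ h3
    simpa using h4
  obtain ⟨f, hf1, hf2, -, -⟩ := exists_resHom D₁ (univ \ X) hinv
  intro d hd
  have h3 : f ⟨d, hd⟩ ∈ res D₂ (univ \ X) := by
    apply hr
    rw [← hf1]
    exact ⟨_, rfl⟩
  obtain ⟨-, e, he, h4⟩ := h3
  have h5 : ∀ x, x ∉ X → d x = e x := by
    intro x hx
    have h6 : x ∈ univ \ X := mem_sdiff.2 ⟨mem_univ _, hx⟩
    rw [← h4 x h6, hf2 _ x h6]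
  have h6 : d = e := by
    ext x
    congr 1
    by_cases hx : x ∈ X
    · obtain ⟨c, hc, hw⟩ := h₁.2.1 x hx
      have h7 : rel C (c x) x := rel_symm ⟨c, hc, rfl⟩
      have h8 : c x ∉ X := fun h9 => hw (h₁.2.2.1 _ h9 x hx h7)
      refine h₁.2.2.1 _ (h₁.1 d hd x hx) _ (h₂.1 e he x hx) ?_
      refine rel_trans (rel_symm (rel_map hN₁ hd h7)) ?_
      rw [h5 _ h8]
      exact rel_map hN₂ he h7
    · exact h5 x hx
  rw [h6]
  exact he

/-- A union bound. -/
private theorem count_union {α β : Type} [Finite α] (P : α → Prop) (Q : β → α → Prop) (I : Finset β) (M : ℕ)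
    (h1 : ∀ a, P a → ∃ b ∈ I, Q b a) (h2 : ∀ b ∈ I, Nat.card {a // P a ∧ Q b a} ≤ M) :
    Nat.card {a // P a} ≤ I.card * M := by
  classical
  have : Fintype α := Fintype.ofFinite α
  have h3 : Nat.card {a // P a} = (univ.filter P).card := by
    rw [Nat.card_eq_fintype_card, Fintype.card_subtype]
  have h4 : univ.filter P ⊆ I.biUnion fun b => univ.filter (fun a => P a ∧ Q b a) := by
    intro a ha
    obtain ⟨b, hb, h5⟩ := h1 a (mem_filter.1 ha).2
    exact mem_biUnion.2 ⟨b, hb, mem_filter.2 ⟨mem_univ _, (mem_filter.1 ha).2, h5⟩⟩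
  rw [h3]
  refine (card_le_card h4).trans (card_biUnion_le_card_mul _ _ _ fun b hb => ?_)
  have h6 := h2 b hb
  rwa [Nat.card_eq_fintype_card, Fintype.card_subtype] at h6

/-- The number of the 2-groups which normalise `U` and move only points of `W`. -/
private theorem norm_gen {n : ℕ} (U : Subgroup (Perm (Fin n))) (ho : Odd (Nat.card U)) (W : Finset (Fin n))
    (hW : mv U ⊆ W) :
    Nat.card {D : Subgroup (Perm (Fin n)) // Two D ∧ Nz D U ∧ ∀ d ∈ D, ∀ x, x ∉ W → d x = x} ≤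
      n ^ (orbs U).card * nTwo (W.card - (orbs U).card) := by
  classical
  have h3 := count_union (fun D : Subgroup (Perm (Fin n)) => Two D ∧ Nz D U ∧ ∀ d ∈ D, ∀ x, x ∉ W → d x = x)
    (fun X D => Tr U D X) (powersetCard (orbs U).card (univ : Finset (Fin n))) (nTwo (W.card - (orbs U).card))
    (fun D hD => by
      obtain ⟨X, hX⟩ := exists_tr ho hD.1 hD.2.1
      exact ⟨X, mem_powersetCard.2 ⟨subset_univ _, tr_card hX⟩, hX⟩)
    (fun X hX => ?_)
  · refine h3.trans (Nat.mul_le_mul_right _ ?_)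
    rw [card_powersetCard, card_univ, Fintype.card_fin]
    exact Nat.choose_le_pow n _
  have hXk : X.card = (orbs U).card := (mem_powersetCard.1 hX).2
  by_cases hXW : X ⊆ W
  · have h1 : (W \ X).card = W.card - (orbs U).card := by
      rw [card_sdiff_of_subset hXW, hXk]
    rw [← h1]
    refine le_trans ?_ (two_support n (W \ X))
    refine Nat.card_le_card_of_injective (fun D => ⟨res D.1 (univ \ X), ?_, ?_⟩) ?_
    · refine two_res D.2.1.1 ?_
      intro d hd x hx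
      rw [mem_sdiff] at hx ⊢
      refine ⟨mem_univ _, fun h3 => hx.2 ?_⟩
      have h4 := D.2.2.1 d⁻¹ (D.1.inv_mem hd) _ h3
      simpa using h4
    · rintro h ⟨h5, d, hd, h6⟩ x hx
      by_cases hxX : x ∈ X
      · exact h5 x fun h7 => (mem_sdiff.1 h7).2 hxX
      · rw [h6 x (mem_sdiff.2 ⟨mem_univ _, hxX⟩)]
        exact D.2.1.2.2 d hd x fun h7 => hx (mem_sdiff.2 ⟨h7, hxX⟩)
    · intro D₁ D₂ h
      have h2 : res D₁.1 (univ \ X) = res D₂.1 (univ \ X) := congrArg Subtype.val h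
      exact Subtype.ext (le_antisymm (le_of_res D₁.2.1.2.1 D₂.2.1.2.1 D₁.2.2 D₂.2.2 h2.le)
        (le_of_res D₂.2.1.2.1 D₁.2.1.2.1 D₂.2.2 D₁.2.2 h2.ge))
  · have h1 : IsEmpty {D : Subgroup (Perm (Fin n)) // (Two D ∧ Nz D U ∧ ∀ d ∈ D, ∀ x, x ∉ W → d x = x) ∧
        Tr U D X} := by
      refine ⟨fun D => hXW fun x hx => hW ?_⟩
      exact mem_mv'.2 (D.2.2.2.1 x hx)
    rw [Nat.card_of_isEmpty]
    exact Nat.zero_le _

theorem norm_k {n : ℕ} (U : Subgroup (Perm (Fin n))) (ho : Odd (Nat.card U)) (hU : U ≠ ⊥) :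
    ∃ k : ℕ, 1 ≤ k ∧ 3 * k ≤ (mv U).card ∧ (k = 1 → Orb U (mv U)) ∧
      Nat.card {D : Subgroup (Perm (Fin n)) // Two D ∧ Nz D U} ≤ n ^ k * nTwo (n - k) := by
  classical
  have hk1 : 1 ≤ (orbs U).card := by
    rw [Nat.one_le_iff_ne_zero, Ne, card_eq_zero]
    intro h
    apply hU
    rw [Subgroup.eq_bot_iff_forall]
    intro c hc
    ext x
    congr 1
    by_contra hx
    have h1 : orb U x ∈ orbs U := mem_orbs.2 ⟨x, ⟨c, hc, hx⟩, rfl⟩
    rw [h] at h1
    exact absurd h1 (notMem_empty _)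
  refine ⟨(orbs U).card, hk1, three_orbs ho, fun h1 => ?_, ?_⟩
  · obtain ⟨Δ, hΔ⟩ := card_eq_one.1 h1
    have h2 : ∀ x, mvd U x → orb U x = Δ := by
      intro x hx
      have h3 : orb U x ∈ orbs U := mem_orbs.2 ⟨x, hx, rfl⟩
      rw [hΔ, mem_singleton] at h3
      exact h3
    refine ⟨?_, ?_, ?_⟩
    · intro u hu x hx
      exact mem_mv'.2 (mvd_rel (mem_mv'.1 hx) ⟨u, hu, rfl⟩)
    · have h3 : Δ ∈ orbs U := by rw [hΔ]; exact mem_singleton_self _
      obtain ⟨x, hx, -⟩ := mem_orbs.1 h3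
      exact ⟨x, mem_mv'.2 hx⟩
    · intro x hx y hy
      have h3 : y ∈ orb U x := by
        rw [h2 x (mem_mv'.1 hx), ← h2 y (mem_mv'.1 hy), mem_orb]
        exact rel_refl U y
      exact mem_orb.1 h3
  · have h1 := norm_gen U ho univ (subset_univ _)
    rw [card_univ, Fintype.card_fin] at h1
    refine le_trans (le_of_eq ?_) h1
    refine Nat.card_congr (Equiv.subtypeEquivRight fun D => ?_)
    constructor
    · rintro ⟨h3, h4⟩
      exact ⟨h3, h4, fun d _ x hx => absurd (mem_univ x) hx⟩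
    · rintro ⟨h3, h4, -⟩
      exact ⟨h3, h4⟩

theorem norm_k_on {n : ℕ} (U : Subgroup (Perm (Fin n))) (ho : Odd (Nat.card U)) (W : Finset (Fin n)) (hW : mv U ⊆ W)
    (k : ℕ) (hk : ∃ T : Finset (Fin n), T ⊆ mv U ∧ T.card = k ∧ ∀ x ∈ mv U, ∃! y, y ∈ T ∧ ∃ u ∈ U, u x = y) :
    Nat.card {D : Subgroup (Perm (Fin n)) // Two D ∧ Nz D U ∧ ∀ d ∈ D, ∀ x, x ∉ W → d x = x} ≤
      n ^ k * nTwo (W.card - k) := by
  classical
  have h1 : k = (orbs U).card := by
    obtain ⟨T, hT, hTk, hu⟩ := hk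
    have h4 : T.image (orb U) = orbs U := by
      ext Δ
      rw [mem_image, mem_orbs]
      constructor
      · rintro ⟨x, hx, rfl⟩
        exact ⟨x, mem_mv'.1 (hT hx), rfl⟩
      · rintro ⟨x, hx, rfl⟩
        obtain ⟨y, ⟨hy, hxy⟩, -⟩ := hu x (mem_mv'.2 hx)
        exact ⟨y, hy, (orb_eq hxy).symm⟩
    rw [← hTk, ← h4, card_image_of_injOn]
    intro x hx y hy hxy
    have h5 : orb U x = orb U y := hxy
    have h6 : rel U x y := by
      rw [← mem_orb, h5, mem_orb]
      exact rel_refl U y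
    obtain ⟨z, -, hz⟩ := hu x (hT hx)
    rw [hz x ⟨hx, rel_refl U x⟩, hz y ⟨hy, h6⟩]
  rw [h1]
  exact norm_gen U ho W hW

end Pool.Agent.SvS
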