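import Pool.Agent.SvS.Ext
import Pool.Agent.NilS.GrpA

/-!
MP_7fa120_al, solvable subgroups. The number of 2-groups normalising an abelian group of odd order with only one nontrivial orbit.

Proof. `E = mv U`, `m = E.card` is odd (an orbit of a group of odd order), `U` acts regularly on `E` (abelian, transitive and faithful).
Let `Γ` be a 2-group of permutations moving only points of `E` and normalising `U`. It fixes a point of `E` (`m` is odd). Conjugation by
`γ ∈ Γ` is an automorphism of `U`, trivial only for `γ = 1` (`γ (u x) = (γ u γ⁻¹) x` for the fixed point `x`). `U` has order `m` and all its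
subgroups have odd order, so it is generated by at most `Nat.log 3 m` elements `u_i ≠ 1`. The orbit of `u_i` under `Γ` has length a power of
two at most `m - 1`, so at most `2 ^ Nat.log 2 (m - 1)`, and `γ` is determined by the images of the `u_i`. So `|Γ| = 2 ^ a` with
`a ≤ Nat.log 2 (m - 1) * Nat.log 3 m ≤ (m - 3) / 2` for odd `m ≥ 27` (`27 ≤ m ≤ 31`: `4 * 3 = 12 ≤ (m - 3) / 2`; `33 ≤ m ≤ 64`: `5 * 3 = 15`;
`65 ≤ m ≤ 80`: `6 * 3 = 18`; and so on; for large `m` by an easy estimate).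
For a 2-group `D` normalising `U` (so preserving `E`) let `Γ` be its restriction to `E` (extended by the identity); `D` is a
2-subgroup of the group of the permutations which are in `Γ` on `E` and arbitrary on the complement, which is `Γ × S_(n - m)`.
There are at most `nSub m` groups `Γ`, so by `ext_count` the number of `D` is at most
`nSub m * nTwo (n - m + 2 * a) ≤ nSub m * nTwo (n - 3)` (`nTwo_mono`).
-/

set_option autoImplicit false

namespace Pool.Agent.SvS

open Equiv Pool.Agent.NilS Pool.Agent.BdO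

private theorem sg_sq : ∀ L : ℕ, 7 ≤ L → 2 * L ^ 2 + 2 ≤ 2 ^ L := by
  intro L hL
  induction L, hL using Nat.le_induction with
  | base => norm_num
  | succ L hL ih =>
    have h : 2 ^ (L + 1) = 2 * 2 ^ L := by ring
    rw [h]
    nlinarith

private theorem sg_arith {m : ℕ} (hm : 27 ≤ m) : 2 * (Nat.log 2 (m - 1) * Nat.log 3 m) + 3 ≤ m := by
  obtain ⟨L, hL⟩ : ∃ L, L = Nat.log 2 (m - 1) := ⟨_, rfl⟩
  obtain ⟨T, hT⟩ : ∃ T, T = Nat.log 3 m := ⟨_, rfl⟩
  have h1 : 2 ^ L ≤ m - 1 := by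
    rw [hL]
    exact Nat.pow_log_le_self 2 (by omega)
  have h2 : m - 1 < 2 ^ (L + 1) := by
    rw [hL]
    exact Nat.lt_pow_succ_log_self (by norm_num) _
  have h3 : 3 ^ T ≤ m := by
    rw [hT]
    exact Nat.pow_log_le_self 3 (by omega)
  rw [← hL, ← hT]
  rcases le_or_gt 7 L with h7 | h7
  · have hTL : T ≤ L := by
      by_contra hc
      push Not at hc
      have h4 : 3 ^ (L + 1) ≤ 3 ^ T := Nat.pow_le_pow_right (by norm_num) hc
      have h5 : 2 ^ (L + 1) < 3 ^ (L + 1) := Nat.pow_lt_pow_left (by norm_num) (by omega)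
      omega
    have h4 := sg_sq L h7
    have h5 : L * T ≤ L ^ 2 := by
      rw [pow_two]
      exact Nat.mul_le_mul_left _ hTL
    omega
  · have hT4 : T ≤ 4 := by
      by_contra hc
      push Not at hc
      have h4 : 3 ^ 5 ≤ 3 ^ T := Nat.pow_le_pow_right (by norm_num) hc
      have h5 : 2 ^ (L + 1) ≤ 2 ^ 7 := Nat.pow_le_pow_right (by norm_num) (by omega)
      omega
    interval_cases L <;> interval_cases T <;> omega

/-- A 2-group normalising a regular abelian group of odd order has small order. -/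
private theorem sg_key {m : ℕ} (hm : 27 ≤ m) (U Γ : Subgroup (Perm (Fin m)))
    (hab : ∀ a ∈ U, ∀ b ∈ U, a * b = b * a) (ho : Odd (Nat.card U))
    (htr : ∀ x y, ∃ u ∈ U, u x = y) (h2 : Two Γ) (hN : Nz Γ U) :
    ∃ a, Nat.card Γ = 2 ^ a ∧ 2 * a + 3 ≤ m := by
  classical
  have hreg : ∀ x, ∀ u ∈ U, ∀ v ∈ U, u x = v x → u = v := by
    intro x u hu v hv h
    ext y
    obtain ⟨w, hw, rfl⟩ := htr x y
    rw [← Perm.mul_apply, ← Perm.mul_apply, hab u hu w hw, hab v hv w hw, Perm.mul_apply,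
      Perm.mul_apply, h]
  have hcU : Nat.card U = m := by
    have hb : Function.Bijective (fun u : U => (u : Perm (Fin m)) ⟨0, by omega⟩) := by
      constructor
      · intro u v h
        exact Subtype.ext (hreg _ u u.2 v v.2 h)
      · intro y
        obtain ⟨u, hu, h⟩ := htr ⟨0, by omega⟩ y
        exact ⟨⟨u, hu⟩, h⟩
    rw [Nat.card_congr (Equiv.ofBijective _ hb), Nat.card_fin]
  obtain ⟨a, ha⟩ := h2
  refine ⟨a, ha, ?_⟩
  have : Fact (Nat.Prime 2) := ⟨Nat.prime_two⟩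
  obtain ⟨x₀, hx₀⟩ : ∃ x : Fin m, ∀ γ ∈ Γ, γ x = x := by
    have hp : IsPGroup 2 Γ := IsPGroup.of_card ha
    obtain ⟨x, hx⟩ := hp.nonempty_fixed_point_of_prime_not_dvd_card (Fin m) (by
      rw [Nat.card_fin, ← hcU]
      exact ho.not_two_dvd_nat)
    exact ⟨x, fun γ hγ => hx ⟨γ, hγ⟩⟩
  obtain ⟨S, hS1, hS2⟩ := gen_log U ho
  rw [hcU] at hS1
  have hSU : ∀ s ∈ S, s ∈ U := by
    intro s hs
    rw [← hS2]
    exact Subgroup.subset_closure hs
  let act : MulAction Γ (Perm (Fin m)) := MulAction.compHom _ (MulAut.conj.comp Γ.subtype)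
  let C : S → Subgroup Γ := fun s => @MulAction.stabilizer Γ (Perm (Fin m)) _ act s.1
  have hC : ∀ (s : S) (γ : Γ), γ ∈ C s ↔ (γ : Perm (Fin m)) * s.1 * (γ : Perm (Fin m))⁻¹ = s.1 :=
    fun s γ => Iff.rfl
  have hbot : (⨅ s, C s) = ⊥ := by
    rw [eq_bot_iff]
    intro γ hγ
    rw [Subgroup.mem_iInf] at hγ
    have hcom : ∀ u ∈ U, (γ : Perm (Fin m)) * u = u * (γ : Perm (Fin m)) := by
      intro u hu
      have h1 : Subgroup.closure (S : Set (Perm (Fin m))) ≤
          Subgroup.centralizer {(γ : Perm (Fin m))} := by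
        rw [Subgroup.closure_le]
        intro s hs
        rw [SetLike.mem_coe, Subgroup.mem_centralizer_iff]
        intro g hg
        rw [Set.mem_singleton_iff] at hg
        subst hg
        have h2 := (hC ⟨s, hs⟩ γ).1 (hγ ⟨s, hs⟩)
        rw [mul_inv_eq_iff_eq_mul] at h2
        exact h2
      rw [hS2] at h1
      have h3 := h1 hu
      rw [Subgroup.mem_centralizer_iff] at h3
      exact h3 _ rfl
    rw [Subgroup.mem_bot]
    apply Subtype.ext
    ext y
    obtain ⟨u, hu, rfl⟩ := htr x₀ y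
    rw [← Perm.mul_apply, hcom u hu, Perm.mul_apply, hx₀ γ γ.2]
    rfl
  have hidx : ∀ s, (C s).index ≤ 2 ^ Nat.log 2 (m - 1) := by
    intro s
    have h1 : (C s).index ∣ 2 ^ a := by
      rw [← ha]
      exact Subgroup.index_dvd_card _
    obtain ⟨b, -, hb⟩ := (Nat.dvd_prime_pow Nat.prime_two).1 h1
    rw [hb]
    refine Nat.pow_le_pow_right (by norm_num) ?_
    by_cases hs : s.1 = 1
    · have h3 : C s = ⊤ := by
        rw [eq_top_iff]
        intro γ _
        rw [hC, hs, mul_one, mul_inv_cancel]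
      rw [h3, Subgroup.index_top] at hb
      have h4 : b = 0 := by
        by_contra h5
        have h6 : 1 < 2 ^ b := Nat.one_lt_two_pow h5
        omega
      rw [h4]
      exact Nat.zero_le _
    · refine Nat.le_log_of_pow_le (by norm_num) ?_
      rw [← hb]
      have h3 : (C s).index = (@MulAction.orbit Γ (Perm (Fin m)) act.toSMul s.1).ncard :=
        @MulAction.index_stabilizer Γ (Perm (Fin m)) _ act s.1
      rw [h3]
      have h4 : (@MulAction.orbit Γ (Perm (Fin m)) act.toSMul s.1) ⊆ (U : Set (Perm (Fin m))) \ {1} := by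
        rintro _ ⟨γ, rfl⟩
        have h5 : (fun g : Γ => @HSMul.hSMul Γ (Perm (Fin m)) (Perm (Fin m))
            (@instHSMul _ _ act.toSMul) g s.1) γ =
            (γ : Perm (Fin m)) * s.1 * (γ : Perm (Fin m))⁻¹ := rfl
        rw [h5]
        refine ⟨hN _ γ.2 _ (hSU _ s.2), ?_⟩
        intro h6
        rw [Set.mem_singleton_iff, mul_inv_eq_one] at h6
        exact hs (mul_eq_left.1 h6)
      refine (Set.ncard_le_ncard h4 (Set.toFinite _)).trans ?_
      rw [Set.ncard_diff_singleton_of_mem U.one_mem]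
      have h5 : (U : Set (Perm (Fin m))).ncard = m :=
        (Nat.card_coe_set_eq (U : Set (Perm (Fin m)))).symm.trans hcU
      rw [h5]
  have hfin : 2 ^ a ≤ 2 ^ (Nat.log 2 (m - 1) * Nat.log 3 m) := by
    calc 2 ^ a = (⨅ s, C s).index := by rw [hbot, Subgroup.index_bot, ha]
      _ ≤ ∏ s, (C s).index := Subgroup.index_iInf_le _
      _ ≤ ∏ _s : S, 2 ^ Nat.log 2 (m - 1) := Finset.prod_le_prod' fun s _ => hidx s
      _ = 2 ^ (Nat.log 2 (m - 1) * S.card) := by
        rw [Finset.prod_const, Finset.card_univ, Fintype.card_coe, ← pow_mul]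
      _ ≤ 2 ^ (Nat.log 2 (m - 1) * Nat.log 3 m) :=
        Nat.pow_le_pow_right (by norm_num) (Nat.mul_le_mul_left _ hS1)
  have h8 : a ≤ Nat.log 2 (m - 1) * Nat.log 3 m := (Nat.pow_le_pow_iff_right (by norm_num)).1 hfin
  have h9 := sg_arith hm
  omega

private theorem sg_count {k n a : ℕ} {Γ : Type} [Group Γ] [Finite Γ] (ha : Nat.card Γ = 2 ^ a)
    (F : Γ × Perm (Fin k) →* Perm (Fin n)) (hF : Function.Injective F) :
    Nat.card {D : Subgroup (Perm (Fin n)) // Two D ∧ D ≤ F.range} ≤ nTwo (k + 2 * a) := by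
  refine le_trans ?_ (ext_count a Γ ha k)
  refine Nat.card_le_card_of_injective
    (fun D : {D : Subgroup (Perm (Fin n)) // Two D ∧ D ≤ F.range} =>
      (⟨D.1.comap F, ?_⟩ : {B : Subgroup (Γ × Perm (Fin k)) // ∃ k : ℕ, Nat.card B = 2 ^ k})) ?_
  · obtain ⟨j, hj⟩ := D.2.1
    have h1 : Nat.card (D.1.comap F) ∣ 2 ^ j := by
      rw [← hj]
      exact Subgroup.card_comap_dvd_of_injective D.1 F hF
    obtain ⟨i, -, hi⟩ := (Nat.dvd_prime_pow Nat.prime_two).1 h1
    exact ⟨i, hi⟩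
  · intro D D' h
    have h1 : D.1.comap F = D'.1.comap F := congrArg Subtype.val h
    apply Subtype.ext
    rw [← Subgroup.map_comap_eq_self D.2.2, ← Subgroup.map_comap_eq_self D'.2.2, h1]

/-- A homomorphism which describes the stabiliser of a set. -/
private theorem sg_hom {n : ℕ} (E : Finset (Fin n)) :
    ∃ (ψ : Fin E.card → Fin n) (J : Perm (Fin E.card) × Perm (Fin (n - E.card)) →* Perm (Fin n)),
      Function.Injective J ∧ (∀ i, ψ i ∈ E) ∧ (∀ x ∈ E, ∃ i, ψ i = x) ∧ Function.Injective ψ ∧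
      (∀ p i, J p (ψ i) = ψ (p.1 i)) ∧ ∀ σ : Perm (Fin n), (∀ x ∈ E, σ x ∈ E) → σ ∈ J.range := by
  classical
  let e1 : {x // x ∈ E} ≃ Fin E.card := E.equivFin
  let e2 : {x // ¬ x ∈ E} ≃ Fin (n - E.card) := Fintype.equivFinOfCardEq (by
    rw [Fintype.card_subtype_compl, Fintype.card_fin, Fintype.card_coe])
  let f : Fin E.card ⊕ Fin (n - E.card) ≃ Fin n :=
    (Equiv.sumCongr e1.symm e2.symm).trans (Equiv.sumCompl (fun x => x ∈ E))
  have hf : ∀ i, f (Sum.inl i) = (e1.symm i : Fin n) := fun i => rfl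
  let J : Perm (Fin E.card) × Perm (Fin (n - E.card)) →* Perm (Fin n) :=
    f.permCongrHom.toMonoidHom.comp (Perm.sumCongrHom (Fin E.card) (Fin (n - E.card)))
  refine ⟨fun i => f (Sum.inl i), J, ?_, ?_, ?_, ?_, ?_, ?_⟩
  · exact f.permCongrHom.injective.comp Perm.sumCongrHom_injective
  · intro i
    change f (Sum.inl i) ∈ E
    rw [hf]
    exact (e1.symm i).2
  · intro x hx
    refine ⟨e1 ⟨x, hx⟩, ?_⟩
    change f (Sum.inl (e1 ⟨x, hx⟩)) = x
    rw [hf, Equiv.symm_apply_apply]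
  · intro i j h
    exact Sum.inl_injective (f.injective h)
  · intro p i
    change f ((Perm.sumCongrHom _ _ p) (f.symm (f (Sum.inl i)))) = f (Sum.inl (p.1 i))
    rw [Equiv.symm_apply_apply]
    rfl
  · intro σ hσ
    have h1 : Set.MapsTo (f.permCongrHom.symm σ) (Set.range Sum.inl) (Set.range Sum.inl) := by
      rintro _ ⟨i, rfl⟩
      have h2 : f.permCongrHom.symm σ (Sum.inl i) = f.symm (σ (f (Sum.inl i))) := rfl
      rw [h2, hf]
      have h3 := hσ _ (e1.symm i).2
      refine ⟨e1 ⟨_, h3⟩, ?_⟩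
      rw [Equiv.eq_symm_apply, hf, Equiv.symm_apply_apply]
    obtain ⟨p, hp⟩ := Perm.mem_sumCongrHom_range_of_perm_mapsTo_inl h1
    refine ⟨p, ?_⟩
    change f.permCongrHom (Perm.sumCongrHom _ _ p) = σ
    rw [hp, MulEquiv.apply_symm_apply]

theorem single {n : ℕ} (U : Subgroup (Perm (Fin n))) (hab : ∀ a ∈ U, ∀ b ∈ U, a * b = b * a) (ho : Odd (Nat.card U))
    (hE : Orb U (mv U)) (hm : 27 ≤ (mv U).card) :
    Nat.card {D : Subgroup (Perm (Fin n)) // Two D ∧ Nz D U} ≤ nSub (mv U).card * nTwo (n - 3) := by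
  classical
  obtain ⟨E, hEU⟩ : ∃ E, E = mv U := ⟨_, rfl⟩
  rw [← hEU] at hE hm ⊢
  have hmn : E.card ≤ n := by
    have := Finset.card_le_univ E
    rwa [Fintype.card_fin] at this
  obtain ⟨ψ, J, hJ, hψE, hψs, hψi, hJψ, hJr⟩ := sg_hom E
  have hDE : ∀ D : Subgroup (Perm (Fin n)), Nz D U → D ≤ J.range := by
    intro D hD d hd
    refine hJr d fun x hx => ?_
    rw [hEU, mem_mv] at hx ⊢
    obtain ⟨q, hq, hqx⟩ := hx
    refine ⟨d * q * d⁻¹, hD d hd q hq, ?_⟩
    have h1 : (d * q * d⁻¹) (d x) = d (q x) := by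
      simp
    rw [h1]
    exact fun h => hqx (d.injective h)
  have hUJ : U ≤ J.range := hDE U fun l hl o ho => U.mul_mem (U.mul_mem hl ho) (U.inv_mem hl)
  let R : Subgroup (Perm (Fin n)) → Subgroup (Perm (Fin E.card)) := fun V =>
    (V.comap J).map (MonoidHom.fst _ _)
  have hR : ∀ (V : Subgroup (Perm (Fin n))) (σ : Perm (Fin E.card)),
      σ ∈ R V ↔ ∃ p, J p ∈ V ∧ p.1 = σ := fun V σ => Iff.rfl
  have hRc : ∀ V : Subgroup (Perm (Fin n)), Nat.card (R V) ∣ Nat.card V := fun V =>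
    (Subgroup.card_map_dvd _ _).trans (Subgroup.card_comap_dvd_of_injective V J hJ)
  have hkey : ∀ D : Subgroup (Perm (Fin n)), Two D → Nz D U →
      ∃ a, Nat.card (R D) = 2 ^ a ∧ 2 * a + 3 ≤ E.card := by
    intro D hD2 hDN
    refine sg_key hm (R U) (R D) ?_ ?_ ?_ ?_ ?_
    · intro σ hσ τ hτ
      obtain ⟨p, hp, rfl⟩ := (hR U σ).1 hσ
      obtain ⟨q, hq, rfl⟩ := (hR U τ).1 hτ
      have h1 : p * q = q * p := by
        apply hJ
        rw [map_mul, map_mul]
        exact hab _ hp _ hq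
      exact congrArg Prod.fst h1
    · exact ho.of_dvd_nat (hRc U)
    · intro x y
      obtain ⟨u, hu, hxy⟩ := hE.2.2 (ψ x) (hψE x) (ψ y) (hψE y)
      obtain ⟨p, rfl⟩ := hUJ hu
      refine ⟨p.1, (hR U _).2 ⟨p, hu, rfl⟩, ?_⟩
      rw [hJψ] at hxy
      exact hψi hxy
    · obtain ⟨k, hk⟩ := hD2
      have h1 := hRc D
      rw [hk] at h1
      obtain ⟨i, -, hi⟩ := (Nat.dvd_prime_pow Nat.prime_two).1 h1
      exact ⟨i, hi⟩
    · intro σ hσ τ hτ
      obtain ⟨p, hp, rfl⟩ := (hR D σ).1 hσ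
      obtain ⟨q, hq, rfl⟩ := (hR U τ).1 hτ
      refine (hR U _).2 ⟨p * q * p⁻¹, ?_, rfl⟩
      rw [map_mul, map_mul, map_inv]
      exact hDN _ hp _ hq
  let f : {D : Subgroup (Perm (Fin n)) // Two D ∧ Nz D U} → Subgroup (Perm (Fin E.card)) :=
    fun D => R D.1
  have : Fintype (Subgroup (Perm (Fin E.card))) := Fintype.ofFinite _
  rw [← Nat.card_congr (Equiv.sigmaFiberEquiv f), Nat.card_sigma]
  have hle : ∀ Γ : Subgroup (Perm (Fin E.card)), Nat.card {D // f D = Γ} ≤ nTwo (n - 3) := by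
    intro Γ
    by_cases hne : Nonempty {D // f D = Γ}
    · obtain ⟨D₀, hD₀⟩ := hne
      obtain ⟨a, ha, ha2⟩ := hkey D₀.1 D₀.2.1 D₀.2.2
      have hΓ : Nat.card Γ = 2 ^ a := by
        rw [← hD₀]
        exact ha
      let F : Γ × Perm (Fin (n - E.card)) →* Perm (Fin n) :=
        J.comp (Γ.subtype.prodMap (MonoidHom.id _))
      have hF : Function.Injective F := by
        refine hJ.comp ?_
        rintro ⟨x, y⟩ ⟨x', y'⟩ h
        have h1 : (x : Perm (Fin E.card)) = x' := congrArg Prod.fst h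
        have h2 : y = y' := congrArg Prod.snd h
        rw [Subtype.ext h1, h2]
      refine le_trans ?_ ((sg_count hΓ F hF).trans (nTwo_mono (by omega)))
      refine Nat.card_le_card_of_injective (fun D : {D // f D = Γ} =>
        (⟨D.1.1, D.1.2.1, ?_⟩ : {D : Subgroup (Perm (Fin n)) // Two D ∧ D ≤ F.range})) ?_
      · intro d hd
        obtain ⟨p, rfl⟩ := hDE D.1.1 D.1.2.2 hd
        have h3 : p.1 ∈ Γ := by
          rw [← D.2]
          exact (hR _ _).2 ⟨p, hd, rfl⟩
        exact ⟨(⟨p.1, h3⟩, p.2), rfl⟩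
      · intro D D' h
        have h3 : D.1.1 = D'.1.1 := congrArg
          (fun X : {D : Subgroup (Perm (Fin n)) // Two D ∧ D ≤ F.range} => X.1) h
        exact Subtype.ext (Subtype.ext h3)
    · rw [not_nonempty_iff] at hne
      rw [Nat.card_of_isEmpty]
      exact Nat.zero_le _
  calc ∑ Γ, Nat.card {D // f D = Γ} ≤ ∑ _Γ : Subgroup (Perm (Fin E.card)), nTwo (n - 3) :=
        Finset.sum_le_sum fun Γ _ => hle Γ
    _ = nSub E.card * nTwo (n - 3) := by
        rw [Finset.sum_const, Finset.card_univ, smul_eq_mul, nSub, Nat.card_eq_fintype_card]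

end Pool.Agent.SvS
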