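import Pool.Agent.SvS.HallP
import Pool.Agent.SvS.ULem
import Pool.Agent.SvS.NormK
import Pool.Agent.SvS.Single
import Pool.Agent.SvS.Defs2
import Pool.Agent.NilS.NSub

/-!
MP_7fa120_al, solvable subgroups. The groups such that `oddGen H` moves few points.

Proof (compare `Pool.Agent.BdO.cnt_S`, `BdO/CntS.lean`). Let `H` be in the set, `R = oddGen H`, `Q`, `D` from `exists_hall`. As `|H| = 2 ^ a |Q|` and `H` is not
`Bdd (26 !)`, `|Q| > 26 !`. `Q ≤ R ≤ H` is solvable. Let `U` be from `exists_U`: `Full U`, `Nz D U`, `mv U = mv Q ⊆ mv R`. `U ≠ ⊥` (as `Q ≠ ⊥`). Let `B ⊇ mv R` with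
`B.card = s`. `H = R ⊔ D` is determined by `(B, R, U, D)`: at most `n ^ s` sets `B`, `nSub s` groups `R` and `nSub s` groups `U` moving only points of `B`, and for
given `U` the number of `D` is: by `norm_k` with `k = k(U) ≥ 1`, if `k ≥ 2` at most `n ^ k * nTwo (n - k)` (`k ≤ n`); if `k = 1` then `mv U` is an orbit of
`U`; `|Q| ≤ ((mv Q).card) !` as `Q` moves only points of `mv Q = mv U`, so `(mv U).card ≥ 27` and `single` gives at most
`nSub (mv U).card * nTwo (n - 3)`, with `nSub (mv U).card ≤ nSub s` (`nSub_mono`).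
-/

set_option autoImplicit false

namespace Pool.Agent.SvS

open Equiv Pool.Agent.NilS Pool.Agent.BdO

/-- The permutations fixing all points outside `S` are a copy of the symmetric group on `|S|` points. -/
private theorem exists_hom (n : ℕ) (S : Finset (Fin n)) : ∃ φ : Perm (Fin S.card) →* Perm (Fin n),
    Function.Injective φ ∧ ∀ σ : Perm (Fin n), (∀ x, x ∉ S → σ x = x) → ∃ τ, φ τ = σ := by
  classical
  let e : Fin S.card ≃ {x // x ∈ S} := (S.equivFin).symm
  refine ⟨(Perm.ofSubtype (p := fun x => x ∈ S)).comp e.permCongrHom.toMonoidHom, ?_, ?_⟩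
  · exact (Perm.ofSubtype_injective (p := fun x => x ∈ S)).comp e.permCongrHom.injective
  · intro σ hσ
    have h1 : ∀ x, σ x ∈ S ↔ x ∈ S := by
      intro x
      constructor
      · intro hx
        by_contra h
        rw [hσ x h] at hx
        exact h hx
      · intro hx
        by_contra h
        have h2 := hσ (σ x) h
        have h3 : σ x = x := σ.injective h2
        rw [h3] at h
        exact h hx
    obtain ⟨τ, hτ⟩ := e.permCongrHom.surjective (σ.subtypePerm h1)
    refine ⟨τ, ?_⟩
    have h2 : Perm.ofSubtype (σ.subtypePerm h1) = σ :=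
      Perm.ofSubtype_subtypePerm h1 (fun x hx => by
        by_contra h
        exact hx (hσ x h))
    change Perm.ofSubtype (e.permCongrHom τ) = σ
    rw [hτ, h2]

/-- Counting subgroups which move only points of `S`. -/
private theorem sub_support (n : ℕ) (S : Finset (Fin n)) :
    Nat.card {U : Subgroup (Perm (Fin n)) // ∀ u ∈ U, ∀ x, x ∉ S → u x = x} ≤ nSub S.card := by
  obtain ⟨φ, hφ, hs⟩ := exists_hom n S
  have hmap : ∀ U : Subgroup (Perm (Fin n)), (∀ u ∈ U, ∀ x, x ∉ S → u x = x) → (U.comap φ).map φ = U := by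
    intro U hU
    apply le_antisymm
    · exact Subgroup.map_comap_le _ _
    · intro u hu
      obtain ⟨τ, hτ⟩ := hs u (hU u hu)
      exact ⟨τ, by simpa [hτ] using hu, hτ⟩
  unfold nSub
  refine Nat.card_le_card_of_injective
    (fun U : {U : Subgroup (Perm (Fin n)) // ∀ u ∈ U, ∀ x, x ∉ S → u x = x} => U.1.comap φ) ?_
  intro U₁ U₂ h
  have h1 : U₁.1.comap φ = U₂.1.comap φ := h
  apply Subtype.ext
  rw [← hmap U₁.1 U₁.2, ← hmap U₂.1 U₂.2, h1]

/-- The number of sets with `s` elements. -/
private theorem set_count (n s : ℕ) : Nat.card {B : Finset (Fin n) // B.card = s} ≤ n ^ s := by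
  have h1 : Nat.card {B : Finset (Fin n) // B.card = s} ≤ Nat.card (Fin s → Fin n) := by
    refine Nat.card_le_card_of_injective
      (fun B : {B : Finset (Fin n) // B.card = s} => fun i : Fin s => B.1.orderEmbOfFin B.2 i) ?_
    intro B₁ B₂ h
    apply Subtype.ext
    have h2 : Set.range (B₁.1.orderEmbOfFin B₁.2) = Set.range (B₂.1.orderEmbOfFin B₂.2) := by
      have h3 : (fun i : Fin s => B₁.1.orderEmbOfFin B₁.2 i) = fun i : Fin s => B₂.1.orderEmbOfFin B₂.2 i := h
      exact congrArg Set.range h3
    rw [Finset.range_orderEmbOfFin, Finset.range_orderEmbOfFin] at h2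
    exact Finset.coe_injective h2
  refine h1.trans (le_of_eq ?_)
  rw [Nat.card_fun, Nat.card_eq_fintype_card, Nat.card_eq_fintype_card, Fintype.card_fin, Fintype.card_fin]

/-- For a sigma type the cardinality is at most the number of base points times a bound for the fibres. -/
private theorem card_sigma_le {α : Type} [Finite α] (β : α → Type) [∀ a, Finite (β a)] (m c : ℕ)
    (h1 : Nat.card α ≤ m) (h2 : ∀ a, Nat.card (β a) ≤ c) : Nat.card (Σ a, β a) ≤ m * c := by
  have : Fintype α := Fintype.ofFinite α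
  rw [Nat.card_sigma]
  calc ∑ a, Nat.card (β a) ≤ ∑ _a : α, c := Finset.sum_le_sum fun a _ => h2 a
    _ = Nat.card α * c := by rw [Finset.sum_const, smul_eq_mul, Finset.card_univ, Nat.card_eq_fintype_card]
    _ ≤ m * c := Nat.mul_le_mul_right c h1

theorem nSub_mono {a b : ℕ} (h : a ≤ b) : nSub a ≤ nSub b := by
  unfold nSub
  refine Nat.card_le_card_of_injective
    (fun U : Subgroup (Perm (Fin a)) => U.map (Perm.viaEmbeddingHom (Fin.castLEEmb h))) ?_
  exact Subgroup.map_injective (Perm.viaEmbeddingHom_injective _)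

/-- A subgroup of `S_s` is generated by `s (log_2 s + 1)` elements. -/
theorem nSub_log (s : ℕ) : nSub s ≤ 2 ^ ((s * (Nat.log 2 s + 1)) ^ 2) := by
  classical
  rcases Nat.eq_zero_or_pos s with rfl | hs
  · have h1 := nSub_le 0
    simpa using h1
  · obtain ⟨D, hD⟩ : ∃ D, D = s * (Nat.log 2 s + 1) := ⟨_, rfl⟩
    rw [← hD]
    have hfac : s.factorial < 2 ^ D := by
      calc s.factorial ≤ s ^ s := Nat.factorial_le_pow s
        _ < (2 ^ (Nat.log 2 s + 1)) ^ s :=
          Nat.pow_lt_pow_left (Nat.lt_pow_succ_log_self (by norm_num) s) hs.ne'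
        _ = 2 ^ D := by rw [← pow_mul, hD, mul_comm]
    have hgen : ∀ H : Subgroup (Perm (Fin s)), Gen H D := by
      intro H
      have hc : Nat.card H < 2 ^ D := by
        have h1 := Subgroup.card_le_card_group H
        rw [Nat.card_eq_fintype_card (α := Perm (Fin s)), Fintype.card_perm, Fintype.card_fin] at h1
        omega
      obtain ⟨f, hf⟩ := Pool.Agent.AbS.exists_fin_closure H D hc
      refine ⟨Finset.univ.image fun i => (f i : Perm (Fin s)), ?_, ?_⟩
      · exact Finset.card_image_le.trans (by simp)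
      · have h2 : (((Finset.univ.image fun i => (f i : Perm (Fin s))) : Finset (Perm (Fin s))) : Set (Perm (Fin s))) =
            H.subtype '' (Set.range f) := by
          ext x
          simp
        rw [h2, ← MonoidHom.map_closure, hf, ← MonoidHom.range_eq_map, Subgroup.range_subtype]
    have h3 : nSub s ≤ Nat.card {P : Subgroup (Perm (Fin s)) // Gen P D} :=
      Nat.card_le_card_of_injective (fun H => (⟨H, hgen H⟩ : {P : Subgroup (Perm (Fin s)) // Gen P D}))
        fun a b h => congrArg Subtype.val h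
    calc nSub s ≤ s.factorial ^ D := h3.trans (gen_count s D)
      _ ≤ (2 ^ D) ^ D := Nat.pow_le_pow_left hfac.le _
      _ = 2 ^ (D ^ 2) := by rw [← pow_mul, pow_two]

/-- A group has order at most the factorial of the number of the moved points. -/
private theorem card_le_fact {n : ℕ} (Q : Subgroup (Perm (Fin n))) :
    Nat.card Q ≤ (mv Q).card.factorial := by
  classical
  have h2 : Nat.card {σ : Perm (Fin n) // ∀ x, ¬ x ∈ mv Q → σ x = x} = (mv Q).card.factorial := by
    rw [← Nat.card_congr (Equiv.Perm.subtypeEquivSubtypePerm (fun x : Fin n => x ∈ mv Q)),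
      Nat.card_eq_fintype_card, Fintype.card_perm, Fintype.card_coe]
  rw [← h2]
  refine Nat.card_le_card_of_injective
    (fun q : Q => (⟨q.1, fun x hx => ?_⟩ : {σ : Perm (Fin n) // ∀ x, ¬ x ∈ mv Q → σ x = x})) ?_
  · by_contra hne
    exact hx (mem_mv.mpr ⟨q.1, q.2, hne⟩)
  · intro a b h
    have h3 : a.1 = b.1 := congrArg
      (fun σ : {σ : Perm (Fin n) // ∀ x, ¬ x ∈ mv Q → σ x = x} => σ.1) h
    exact Subtype.ext h3

theorem cnt_small {n : ℕ} (s : ℕ) (hs : s ≤ n) :
    Nat.card {H : Subgroup (Perm (Fin n)) // Group.IsSolvable H ∧ ¬ Bdd (Nat.factorial 26) H ∧ (mv (oddGen H)).card ≤ s} ≤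
      n ^ s * nSub s ^ 2 * (∑ k ∈ Finset.Icc 2 n, n ^ k * nTwo (n - k) + nSub s * nTwo (n - 3)) := by
  classical
  obtain ⟨c, hc⟩ : ∃ c, c = ∑ k ∈ Finset.Icc 2 n, n ^ k * nTwo (n - k) + nSub s * nTwo (n - 3) := ⟨_, rfl⟩
  rw [← hc]
  -- the data
  let SB : Finset (Fin n) → Type := fun B => {U : Subgroup (Perm (Fin n)) // ∀ u ∈ U, ∀ x, x ∉ B → u x = x}
  let CB : Finset (Fin n) → Type := fun B => {U : Subgroup (Perm (Fin n)) //
    (Full U ∧ 27 ≤ (mv U).card) ∧ ∀ u ∈ U, ∀ x, x ∉ B → u x = x}
  let DC : (B : Finset (Fin n)) → CB B → Type := fun B C => {D : Subgroup (Perm (Fin n)) // Two D ∧ Nz D C.1}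
  let T : Type := Σ B : {B : Finset (Fin n) // B.card = s}, Σ _R : SB B.1, Σ C : CB B.1, DC B.1 C
  have hfin1 : ∀ B, Finite (SB B) := fun B => inferInstanceAs (Finite {U : Subgroup (Perm (Fin n)) // _})
  have hfin2 : ∀ B, Finite (CB B) := fun B => inferInstanceAs (Finite {U : Subgroup (Perm (Fin n)) // _})
  have hfin3 : ∀ B C, Finite (DC B C) := fun B C => inferInstanceAs (Finite {U : Subgroup (Perm (Fin n)) // _})
  have hfinT : Finite T := by
    have : ∀ B : {B : Finset (Fin n) // B.card = s}, Finite (Σ _R : SB B.1, Σ C : CB B.1, DC B.1 C) := by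
      intro B
      have := hfin1 B.1
      have := hfin2 B.1
      have := hfin3 B.1
      infer_instance
    infer_instance
  have hT : Nat.card T ≤ n ^ s * (nSub s * (nSub s * c)) := by
    refine @card_sigma_le _ _ _ ?_ _ _ (set_count n s) ?_
    · intro B
      have := hfin1 B.1
      have := hfin2 B.1
      have := hfin3 B.1
      infer_instance
    · rintro ⟨B, hB⟩
      have i1 := hfin1 B
      have i2 := hfin2 B
      have i3 := hfin3 B
      have hsub : Nat.card (SB B) ≤ nSub s := by
        have h1 := sub_support n B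
        rw [hB] at h1
        exact h1
      refine card_sigma_le _ _ _ hsub ?_
      · intro _
        refine card_sigma_le _ _ _ ?_ ?_
        · refine le_trans ?_ hsub
          refine Nat.card_le_card_of_injective (fun C : CB B => (⟨C.1, C.2.2⟩ : SB B)) ?_
          intro C₁ C₂ h
          exact Subtype.ext (congrArg (fun U : SB B => U.1) h)
        · rintro ⟨U, ⟨⟨hab, ho, hh⟩, h27⟩, hU3⟩
          have hne : U ≠ ⊥ := by
            rintro rfl
            have h1 : mv (⊥ : Subgroup (Perm (Fin n))) = ∅ := by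
              rw [Finset.eq_empty_iff_forall_notMem]
              intro x hx
              obtain ⟨q, hq, hqx⟩ := mem_mv.mp hx
              rw [Subgroup.mem_bot] at hq
              subst hq
              exact hqx rfl
            rw [h1, Finset.card_empty] at h27
            omega
          have hmvn : (mv U).card ≤ n := by
            have := Finset.card_le_univ (mv U)
            rwa [Fintype.card_fin] at this
          have hmvs : (mv U).card ≤ s := by
            rw [← hB]
            refine Finset.card_le_card fun x hx => ?_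
            obtain ⟨q, hq, hqx⟩ := mem_mv.mp hx
            by_contra hxB
            exact hqx (hU3 q hq x hxB)
          obtain ⟨k, hk1, hk3, hk4, hk5⟩ := norm_k U ho hne
          show Nat.card {D : Subgroup (Perm (Fin n)) // Two D ∧ Nz D U} ≤ c
          rcases Nat.lt_or_ge k 2 with hk | hk
          · have hk1' : k = 1 := by omega
            have h1 := single U hab ho (hk4 hk1') h27
            refine h1.trans ?_
            rw [hc]
            exact (Nat.mul_le_mul_right _ (nSub_mono hmvs)).trans (Nat.le_add_left _ _)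
          · refine hk5.trans ?_
            rw [hc]
            refine le_trans ?_ (Nat.le_add_right _ _)
            exact Finset.single_le_sum (f := fun k => n ^ k * nTwo (n - k)) (fun i _ => Nat.zero_le _)
              (Finset.mem_Icc.2 ⟨hk, by omega⟩)
  -- the choice of the data
  have hch : ∀ H : {H : Subgroup (Perm (Fin n)) // Group.IsSolvable H ∧ ¬ Bdd (Nat.factorial 26) H ∧
      (mv (oddGen H)).card ≤ s}, ∃ t : T, t.2.1.1 ⊔ t.2.2.2.1 = H.1 := by
    rintro ⟨H, hsol, hbdd, hmv⟩
    obtain ⟨B, hBB, -, hBs⟩ := Finset.exists_subsuperset_card_eq (Finset.subset_univ (mv (oddGen H))) hmv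
      (by rw [Finset.card_univ, Fintype.card_fin]; exact hs)
    have hmove' : ∀ g ∈ oddGen H, ∀ x, x ∉ B → g x = x := by
      intro g hg x hx
      by_contra hne
      exact hx (hBB (mem_mv.mpr ⟨g, hg, hne⟩))
    obtain ⟨Q, D, a, hQR, hQo, hQc, hD2, hDQ, hRD, -⟩ := exists_hall H hsol
    have hRH : oddGen H ≤ H := by
      unfold oddGen
      rw [Subgroup.closure_le]
      exact fun g hg => hg.1
    have hQs : Group.IsSolvable Q :=
      Group.isSolvable_of_isSolvable_injective (Subgroup.inclusion_injective (hQR.trans hRH))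
    obtain ⟨U, hUf, hDU, hUQ⟩ := exists_U Q D hQs hQo hDQ
    have h27 : 27 ≤ (mv U).card := by
      by_contra hlt
      apply hbdd
      refine ⟨a, Nat.card Q, hQc, hQo, (card_le_fact Q).trans (Nat.factorial_le ?_)⟩
      rw [← hUQ]
      omega
    have hUB : ∀ u ∈ U, ∀ x, x ∉ B → u x = x := by
      intro u hu x hx
      by_contra hne
      have h1 : x ∈ mv Q := by
        rw [← hUQ]
        exact mem_mv.mpr ⟨u, hu, hne⟩
      obtain ⟨q, hq, hqx⟩ := mem_mv.mp h1
      exact hqx (hmove' q (hQR hq) x hx)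
    exact ⟨⟨⟨B, hBs⟩, ⟨oddGen H, hmove'⟩, ⟨U, ⟨hUf, h27⟩, hUB⟩, ⟨D, hD2, hDU⟩⟩, hRD⟩
  choose F hF using hch
  have hinj : Function.Injective F := by
    intro H₁ H₂ h
    apply Subtype.ext
    rw [← hF H₁, ← hF H₂, h]
  calc _ ≤ Nat.card T := Nat.card_le_card_of_injective F hinj
    _ ≤ n ^ s * (nSub s * (nSub s * c)) := hT
    _ = n ^ s * nSub s ^ 2 * c := by ring

end Pool.Agent.SvS
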