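import Pool.Agent.SvS.GrowQ
import Pool.Agent.SvS.CntSm

/-!
MP_7fa120_al, solvable subgroups. Real analysis: case (S).

Proof. Let `s = sg n ≤ n ^ (1/4)`. By `nSub_log`, `nSub s ≤ exp ((s (log_2 s + 1)) ^ 2) ≤ exp (n ^ (5/8))` for large `n`, `n ^ s = exp (s log n)` also. By `grow_all`,
`n ^ k * nTwo (n - k) ≤ nTwo n * exp (k log n - k n ^ (31/32) / 96) ≤ nTwo n * exp (- k n ^ (31/32) / 200)` for large `n`, `2 ≤ k ≤ n`. So the quotient is at most
`exp (4 n ^ (5/8)) * (n + 1) * exp (- n ^ (31/32) / 100) → 0`.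
-/

set_option autoImplicit false

namespace Pool.Agent.SvS

open Equiv Pool.Agent.NilS Filter Topology

private theorem ansm_log : ∀ᶠ n : ℕ in atTop, ((Nat.log 2 n : ℝ) + 1) ≤ (n : ℝ) ^ (1 / 32 : ℝ) := by
  have h := (isLittleO_log_rpow_atTop (show (0 : ℝ) < 1 / 32 by norm_num)).bound
    (show (0 : ℝ) < Real.log 2 / 2 by positivity)
  have h' := tendsto_natCast_atTop_atTop (R := ℝ) |>.eventually h
  have h2 : ∀ᶠ m : ℕ in atTop, (2 : ℝ) ≤ (m : ℝ) ^ (1 / 32 : ℝ) :=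
    ((tendsto_rpow_atTop (show (0 : ℝ) < 1 / 32 by norm_num)).comp
      (tendsto_natCast_atTop_atTop (R := ℝ))).eventually_ge_atTop 2
  filter_upwards [h', h2, eventually_ge_atTop 1] with m h3 h4 hm1
  have hmR : (1 : ℝ) ≤ m := by exact_mod_cast hm1
  have h5 : Real.log m ≤ Real.log 2 / 2 * (m : ℝ) ^ (1 / 32 : ℝ) := by
    have := h3
    rw [Real.norm_of_nonneg (Real.log_nonneg hmR), Real.norm_of_nonneg (by positivity)] at this
    exact this
  have hl2 : (0 : ℝ) < Real.log 2 := Real.log_pos (by norm_num)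
  have h7 : ((2 : ℝ) ^ (Nat.log 2 m)) ≤ m := by exact_mod_cast Nat.pow_log_le_self 2 (by omega)
  have h8 : (Nat.log 2 m : ℝ) * Real.log 2 ≤ Real.log m := by
    rw [← Real.log_pow]
    exact Real.log_le_log (by positivity) h7
  have h9 : (Nat.log 2 m : ℝ) * Real.log 2 ≤ (m : ℝ) ^ (1 / 32 : ℝ) / 2 * Real.log 2 := by
    refine h8.trans (h5.trans (le_of_eq ?_))
    ring
  have h10 := le_of_mul_le_mul_right h9 hl2
  linarith

private theorem ansm_main (n : ℕ) (v T : ℝ) (hv : 2 ≤ v) (hn3 : 3 ≤ n) (hv32 : v ^ 32 = n)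
    (hx : (n : ℝ) ^ (31 / 32 : ℝ) = v ^ 31) (hlog : (Nat.log 2 n : ℝ) + 1 ≤ v) (hT : T = nTwo n)
    (hT0 : 0 < T)
    (hg : ∀ k : ℕ, 2 ≤ k → k ≤ n →
      (nTwo (n - k) : ℝ) * Real.exp (k * (n : ℝ) ^ (31 / 32 : ℝ) / 96) ≤ (nTwo n : ℝ)) :
    ((n ^ sg n * nSub (sg n) ^ 2 * (∑ k ∈ Finset.Icc 2 n, n ^ k * nTwo (n - k) +
      nSub (sg n) * nTwo (n - 3)) : ℕ) : ℝ) ≤ T * Real.exp (-v) := by
  have hv0 : 0 < v := by linarith
  have hv1 : 1 ≤ v := by linarith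
  set s := sg n with hs
  have hs4 : (s : ℝ) ≤ v ^ 8 := by
    have h1 : s ^ 4 ≤ n := by
      have h2 : s ^ 2 ≤ Nat.sqrt n := Nat.sqrt_le' _
      have h3 : (Nat.sqrt n) ^ 2 ≤ n := Nat.sqrt_le' _
      calc s ^ 4 = (s ^ 2) ^ 2 := by ring
        _ ≤ (Nat.sqrt n) ^ 2 := Nat.pow_le_pow_left h2 2
        _ ≤ n := h3
    have h2 : (s : ℝ) ^ 4 ≤ (v ^ 8) ^ 4 := by
      rw [← pow_mul, hv32]
      exact_mod_cast h1
    exact (pow_le_pow_iff_left₀ (Nat.cast_nonneg s) (by positivity) (by norm_num)).1 h2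
  have hsn : s ≤ n := (Nat.sqrt_le_self _).trans (Nat.sqrt_le_self _)
  have hn0 : (0 : ℝ) < n := by exact_mod_cast (by omega : 0 < n)
  have hnv : (n : ℝ) ≤ Real.exp v := by
    have h1 : (n : ℝ) ≤ 2 ^ (Nat.log 2 n + 1) := by
      exact_mod_cast (Nat.lt_pow_succ_log_self (by norm_num) n).le
    have h2 : (2 : ℝ) ≤ Real.exp 1 := by
      have := Real.add_one_le_exp (1 : ℝ)
      linarith
    calc (n : ℝ) ≤ 2 ^ (Nat.log 2 n + 1) := h1
      _ ≤ (Real.exp 1) ^ (Nat.log 2 n + 1) := pow_le_pow_left₀ (by norm_num) h2 _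
      _ = Real.exp ((Nat.log 2 n : ℝ) + 1) := by
          rw [← Real.exp_nat_mul]
          push_cast
          ring_nf
      _ ≤ Real.exp v := Real.exp_le_exp.2 hlog
  have hvpow : ∀ a b : ℕ, a ≤ b → v ^ a ≤ v ^ b := fun a b hab => pow_le_pow_right₀ hv1 hab
  set E := Real.exp (v ^ 18) with hE
  have hE0 : 0 < E := Real.exp_pos _
  have hnE : (n : ℝ) ≤ E := by
    refine hnv.trans (Real.exp_le_exp.2 ?_)
    calc v = v ^ 1 := (pow_one v).symm
      _ ≤ v ^ 18 := hvpow 1 18 (by norm_num)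
  have hnsE : (n : ℝ) ^ s ≤ E := by
    calc (n : ℝ) ^ s ≤ (Real.exp v) ^ s := pow_le_pow_left₀ hn0.le hnv s
      _ = Real.exp (s * v) := by rw [← Real.exp_nat_mul]
      _ ≤ E := by
          refine Real.exp_le_exp.2 ?_
          calc (s : ℝ) * v ≤ v ^ 8 * v := mul_le_mul_of_nonneg_right hs4 hv0.le
            _ = v ^ 9 := by ring
            _ ≤ v ^ 18 := hvpow 9 18 (by norm_num)
  have hsubE : (nSub s : ℝ) ≤ E := by
    have h1 : (nSub s : ℝ) ≤ 2 ^ ((s * (Nat.log 2 s + 1)) ^ 2) := by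
      exact_mod_cast nSub_log s
    have h2 : (2 : ℝ) ≤ Real.exp 1 := by
      have := Real.add_one_le_exp (1 : ℝ)
      linarith
    have h3 : ((s * (Nat.log 2 s + 1) : ℕ) : ℝ) ≤ v ^ 9 := by
      have h4 : (Nat.log 2 s : ℝ) + 1 ≤ v := by
        have h5 : Nat.log 2 s ≤ Nat.log 2 n := Nat.log_mono_right hsn
        have h6 : (Nat.log 2 s : ℝ) ≤ Nat.log 2 n := by exact_mod_cast h5
        linarith
      push_cast
      calc (s : ℝ) * ((Nat.log 2 s : ℝ) + 1) ≤ v ^ 8 * v :=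
            mul_le_mul hs4 h4 (by positivity) (by positivity)
        _ = v ^ 9 := by ring
    calc (nSub s : ℝ) ≤ 2 ^ ((s * (Nat.log 2 s + 1)) ^ 2) := h1
      _ ≤ (Real.exp 1) ^ ((s * (Nat.log 2 s + 1)) ^ 2) := pow_le_pow_left₀ (by norm_num) h2 _
      _ = Real.exp (((s * (Nat.log 2 s + 1) : ℕ) : ℝ) ^ 2) := by
          rw [← Real.exp_nat_mul, mul_one]
          push_cast
          rfl
      _ ≤ E := by
          refine Real.exp_le_exp.2 ?_
          calc (((s * (Nat.log 2 s + 1) : ℕ) : ℝ)) ^ 2 ≤ (v ^ 9) ^ 2 :=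
                pow_le_pow_left₀ (Nat.cast_nonneg _) h3 2
            _ = v ^ 18 := by ring
  have hv31 : 96 * v ≤ v ^ 31 := by
    have h1 : (2 : ℝ) ^ 30 ≤ v ^ 30 := pow_le_pow_left₀ (by norm_num) hv 30
    have h2 : (96 : ℝ) ≤ v ^ 30 := le_trans (by norm_num) h1
    calc 96 * v ≤ v ^ 30 * v := mul_le_mul_of_nonneg_right h2 hv0.le
      _ = v ^ 31 := by ring
  set c := Real.exp (2 * v - v ^ 31 / 48) with hc
  have hc0 : 0 < c := Real.exp_pos _
  have hterm : ∀ k : ℕ, 2 ≤ k → k ≤ n → (n : ℝ) ^ k * nTwo (n - k) ≤ T * c := by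
    intro k hk2 hkn
    have h1 := hg k hk2 hkn
    rw [hx, ← hT] at h1
    have h2 : (nTwo (n - k) : ℝ) ≤ T * Real.exp (-(k * v ^ 31 / 96)) := by
      rw [Real.exp_neg, ← div_eq_mul_inv, le_div_iff₀ (Real.exp_pos _)]
      exact h1
    have h3 : (n : ℝ) ^ k ≤ Real.exp (k * v) := by
      calc (n : ℝ) ^ k ≤ (Real.exp v) ^ k := pow_le_pow_left₀ hn0.le hnv k
        _ = Real.exp (k * v) := by rw [← Real.exp_nat_mul]
    have hk : (2 : ℝ) ≤ k := by exact_mod_cast hk2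
    calc (n : ℝ) ^ k * nTwo (n - k) ≤ Real.exp (k * v) * (T * Real.exp (-(k * v ^ 31 / 96))) :=
          mul_le_mul h3 h2 (Nat.cast_nonneg _) (Real.exp_pos _).le
      _ = T * Real.exp (k * v + -(k * v ^ 31 / 96)) := by rw [Real.exp_add]; ring
      _ ≤ T * c := by
          refine mul_le_mul_of_nonneg_left (Real.exp_le_exp.2 ?_) hT0.le
          nlinarith [mul_nonneg (sub_nonneg.2 hk) (sub_nonneg.2 hv31)]
  have h3t : (nTwo (n - 3) : ℝ) ≤ T * c := by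
    refine le_trans ?_ (hterm 3 (by norm_num) hn3)
    have h1 : (1 : ℝ) ≤ (n : ℝ) ^ 3 := one_le_pow₀ (by exact_mod_cast (by omega : 1 ≤ n))
    exact le_mul_of_one_le_left (Nat.cast_nonneg _) h1
  have hsum : ∑ k ∈ Finset.Icc 2 n, (n : ℝ) ^ k * nTwo (n - k) ≤ E * (T * c) := by
    calc ∑ k ∈ Finset.Icc 2 n, (n : ℝ) ^ k * nTwo (n - k) ≤ ∑ _k ∈ Finset.Icc 2 n, T * c :=
          Finset.sum_le_sum fun k hk => hterm k (Finset.mem_Icc.1 hk).1 (Finset.mem_Icc.1 hk).2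
      _ = (n + 1 - 2 : ℕ) * (T * c) := by rw [Finset.sum_const, Nat.card_Icc, nsmul_eq_mul]
      _ ≤ E * (T * c) := by
          refine mul_le_mul_of_nonneg_right ?_ (by positivity)
          refine le_trans ?_ hnE
          exact_mod_cast (by omega : n + 1 - 2 ≤ n)
  have hall : ((n ^ s * nSub s ^ 2 * (∑ k ∈ Finset.Icc 2 n, n ^ k * nTwo (n - k) +
      nSub s * nTwo (n - 3)) : ℕ) : ℝ) ≤ E * E ^ 2 * (E * (T * c) + E * (T * c)) := by
    push_cast
    have h1 : (nSub s : ℝ) * (nTwo (n - 3) : ℝ) ≤ E * (T * c) :=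
      mul_le_mul hsubE h3t (Nat.cast_nonneg _) hE0.le
    have h2 : (nSub s : ℝ) ^ 2 ≤ E ^ 2 := pow_le_pow_left₀ (Nat.cast_nonneg _) hsubE 2
    refine mul_le_mul (mul_le_mul hnsE h2 (by positivity) hE0.le) (add_le_add hsum h1)
      (by positivity) (by positivity)
  refine hall.trans ?_
  have h2 : (2 : ℝ) ≤ Real.exp 1 := by
    have := Real.add_one_le_exp (1 : ℝ)
    linarith
  have h4 : E * E ^ 2 * (E * (T * c) + E * (T * c)) = T * (2 * (E ^ 4 * c)) := by ring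
  rw [h4]
  refine mul_le_mul_of_nonneg_left ?_ hT0.le
  have h5 : E ^ 4 = Real.exp (4 * v ^ 18) := by
    rw [hE, ← Real.exp_nat_mul]
    norm_num
  calc 2 * (E ^ 4 * c) ≤ Real.exp 1 * (E ^ 4 * c) :=
        mul_le_mul_of_nonneg_right h2 (by positivity)
    _ = Real.exp (1 + (4 * v ^ 18 + (2 * v - v ^ 31 / 48))) := by
        rw [h5, hc, Real.exp_add, Real.exp_add]
    _ ≤ Real.exp (-v) := by
        refine Real.exp_le_exp.2 ?_
        have h6 : v ≤ v ^ 18 := by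
          calc v = v ^ 1 := (pow_one v).symm
            _ ≤ v ^ 18 := hvpow 1 18 (by norm_num)
        have h7 : (1 : ℝ) ≤ v ^ 18 := one_le_pow₀ hv1
        have h8 : (2 : ℝ) ^ 13 ≤ v ^ 13 := pow_le_pow_left₀ (by norm_num) hv 13
        have h9 : 384 * v ^ 18 ≤ v ^ 31 := by
          calc 384 * v ^ 18 ≤ v ^ 13 * v ^ 18 :=
                mul_le_mul_of_nonneg_right (le_trans (by norm_num) h8) (by positivity)
            _ = v ^ 31 := by ring
        linarith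

theorem an_small : Tendsto (fun n : ℕ => ((n ^ sg n * nSub (sg n) ^ 2 * (∑ k ∈ Finset.Icc 2 n, n ^ k * nTwo (n - k) +
    nSub (sg n) * nTwo (n - 3)) : ℕ) : ℝ) / nTwo n) atTop (𝓝 0) := by
  have hv : Tendsto (fun n : ℕ => (n : ℝ) ^ (1 / 32 : ℝ)) atTop atTop :=
    (tendsto_rpow_atTop (show (0 : ℝ) < 1 / 32 by norm_num)).comp
      (tendsto_natCast_atTop_atTop (R := ℝ))
  have hlim : Tendsto (fun n : ℕ => Real.exp (-((n : ℝ) ^ (1 / 32 : ℝ)))) atTop (𝓝 0) :=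
    Real.tendsto_exp_neg_atTop_nhds_zero.comp hv
  obtain ⟨n₀, hn₀⟩ := grow_all
  refine squeeze_zero' (Eventually.of_forall fun n => by positivity) ?_ hlim
  filter_upwards [ansm_log, hv.eventually_ge_atTop 2, eventually_ge_atTop n₀,
    eventually_ge_atTop 3] with n h1 h2 h3 h4
  have hT0 : (0 : ℝ) < nTwo n := by
    have h5 : 0 < nTwo n := lt_of_lt_of_le (by positivity) (nTwo_lower n)
    exact_mod_cast h5
  have hn0 : (0 : ℝ) ≤ n := Nat.cast_nonneg n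
  rw [div_le_iff₀ hT0, mul_comm (Real.exp _)]
  refine ansm_main n _ _ h2 h4 ?_ ?_ h1 rfl hT0 (hn₀ n h3)
  · rw [← Real.rpow_natCast, ← Real.rpow_mul hn0]
    norm_num
  · rw [← Real.rpow_natCast, ← Real.rpow_mul hn0]
    norm_num

end Pool.Agent.SvS
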