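import Pool.Agent.SvS.PCnt2
import Pool.Agent.NilS.PairS

/-!
MP_7fa120_al, solvable subgroups. The number of the groups of case (b).

Proof. Let `Nil H (2 ^ e) j`, `Y`, `S`, `a`, `m` as there. `NilS.exists_pair` gives `P`, `Q` with `CP P Q`, `P ⊔ Q = Y`; they commute and their orders are coprime, so
`|Y| = |P| |Q|` and `|Q| = m ≥ 2 ^ e ≥ 2`; `Q ≠ ⊥`. `Q` moves only points of `mv Q`, so `2 ^ e ≤ |Q| ≤ ((mv Q).card) ! ≤ n ^ (mv Q).card` and
`n < 2 ^ (Nat.log 2 n + 1)`, so `e ≤ (mv Q).card * (Nat.log 2 n + 1)`. `H` is determined by `(P, Q)` and a map `Fin j → Perm (Fin n)` coding `S`. The number of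
pairs is at most the sum of `pair_count2` with `q = (e + Nat.log 2 n) / (Nat.log 2 n + 1)` (rounding up), and `q ≤ 2 * s` implies
`e ≤ 2 * s * (Nat.log 2 n + 1)`.
-/

set_option autoImplicit false

namespace Pool.Agent.SvS

open Equiv Pool.Agent.NilS

private theorem code_fin {G : Type} [Group G] (S : Finset G) {j : ℕ} (hj : S.card ≤ j) :
    ∃ f : Fin j → G, Subgroup.closure (Set.range f) = Subgroup.closure (S : Set G) := by
  classical
  refine ⟨fun i => if h : (i : ℕ) < S.card then (S.equivFin.symm ⟨i, h⟩ : G) else 1, ?_⟩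
  apply le_antisymm
  · rw [Subgroup.closure_le]
    rintro _ ⟨i, rfl⟩
    by_cases h : (i : ℕ) < S.card
    · simp only [dif_pos h]
      exact Subgroup.subset_closure (S.equivFin.symm ⟨i, h⟩).2
    · simp only [dif_neg h]
      exact one_mem _
  · rw [Subgroup.closure_le]
    intro s hs
    refine Subgroup.subset_closure ⟨⟨S.equivFin ⟨s, hs⟩, lt_of_lt_of_le (S.equivFin ⟨s, hs⟩).2 hj⟩, ?_⟩
    have h : ((S.equivFin ⟨s, hs⟩ : Fin S.card) : ℕ) < S.card := (S.equivFin ⟨s, hs⟩).2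
    simp only [dif_pos h]
    rw [Fin.eta, Equiv.symm_apply_apply]

private theorem odd_le {G : Type} [Group G] [Finite G] {P Q : Subgroup G} (hP : ∃ k : ℕ, Nat.card P = 2 ^ k)
    (hc : ∀ p ∈ P, ∀ q ∈ Q, p * q = q * p) {a m : ℕ} (h : Nat.card ↥(P ⊔ Q) = 2 ^ a * m) (hm : Odd m) :
    m ≤ Nat.card Q := by
  obtain ⟨k, hk⟩ := hP
  have hcomm : ∀ (p : P) (q : Q), Commute (P.subtype p) (Q.subtype q) := fun p q => hc p p.2 q q.2
  have h1 := Subgroup.card_range_dvd (MonoidHom.noncommCoprod P.subtype Q.subtype hcomm)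
  rw [MonoidHom.noncommCoprod_range, Subgroup.range_subtype, Subgroup.range_subtype, Nat.card_prod, h, hk] at h1
  have h2 : m ∣ 2 ^ k * Nat.card Q := (Dvd.intro_left _ rfl).trans h1
  have h3 : Nat.Coprime m (2 ^ k) := (Nat.Coprime.pow_right k (Nat.coprime_two_right.mpr hm))
  exact Nat.le_of_dvd Nat.card_pos (h3.dvd_of_dvd_mul_left h2)

private theorem card_le_mv {n : ℕ} (Q : Subgroup (Perm (Fin n))) : Nat.card Q ≤ n ^ (mv Q).card := by
  classical
  let f : Q → (mv Q → Fin n) := fun q x => (q : Perm (Fin n)) x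
  have hf : Function.Injective f := by
    intro q r h
    apply Subtype.ext
    apply Equiv.ext
    intro x
    by_cases hx : x ∈ mv Q
    · exact congrFun h ⟨x, hx⟩
    · have h1 : ∀ s ∈ Q, s x = x := by
        intro s hs
        by_contra hne
        exact hx (mem_mv.mpr ⟨s, hs, hne⟩)
      rw [h1 _ q.2, h1 _ r.2]
  have h1 := Nat.card_le_card_of_injective f hf
  rwa [Nat.card_eq_fintype_card (α := mv Q → Fin n), Fintype.card_fun, Fintype.card_fin, Fintype.card_coe] at h1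

theorem cnt_nil (n e j : ℕ) (he : 1 ≤ e) :
    Nat.card {H : Subgroup (Perm (Fin n)) // Nil H (2 ^ e) j} ≤
      n.factorial ^ j * ∑ s ∈ (Finset.Icc 2 n).filter (fun s => e ≤ 2 * s * (Nat.log 2 n + 1)),
        n ^ (5 * s) * nTwo (n - s) * nOdn s := by
  classical
  set L := Nat.log 2 n with hL
  set q := (e + L) / (L + 1) with hq
  have hn : n < 2 ^ (L + 1) := Nat.lt_pow_succ_log_self (by norm_num) n
  have key : ∀ H : {H : Subgroup (Perm (Fin n)) // Nil H (2 ^ e) j},
      ∃ (p : {p : Subgroup (Perm (Fin n)) × Subgroup (Perm (Fin n)) // CP p.1 p.2 ∧ p.2 ≠ ⊥ ∧ q ≤ (mv p.2).card})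
        (f : Fin j → Perm (Fin n)), (p.1.1 ⊔ p.1.2) ⊔ Subgroup.closure (Set.range f) = H.1 := by
    rintro ⟨H, Y, S, a, m, hY, hYc, hm, hem, hS, hH⟩
    obtain ⟨P, Q, hPQ, hsup⟩ := exists_pair Y hY
    obtain ⟨f, hf⟩ := code_fin S hS
    have h1 : m ≤ Nat.card Q := by
      refine odd_le hPQ.1 hPQ.2.2 (a := a) ?_ hm
      rw [hsup]
      exact hYc
    have h2 : 2 ^ e ≤ Nat.card Q := hem.trans h1
    have h3 : 2 ^ e ≤ 2 ^ ((L + 1) * (mv Q).card) := by
      refine h2.trans ((card_le_mv Q).trans ?_)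
      rw [pow_mul]
      exact Nat.pow_le_pow_left hn.le _
    have h4 : e ≤ (L + 1) * (mv Q).card := (Nat.pow_le_pow_iff_right (by norm_num)).mp h3
    have h5 : q ≤ (mv Q).card := by
      rw [hq, ← Nat.lt_succ_iff, Nat.div_lt_iff_lt_mul (by omega)]
      have : ((mv Q).card).succ * (L + 1) = (L + 1) * (mv Q).card + (L + 1) := by
        rw [Nat.succ_mul, mul_comm]
      omega
    have h6 : Q ≠ ⊥ := by
      rintro rfl
      rw [Subgroup.card_bot] at h2
      have h7 : 2 ^ 1 ≤ 2 ^ e := Nat.pow_le_pow_right (by norm_num) he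
      omega
    refine ⟨⟨(P, Q), hPQ, h6, h5⟩, f, ?_⟩
    rw [hf, hsup]
    exact hH
  choose p f hpf using key
  have hinj : Function.Injective fun H => (p H, f H) := by
    intro H H' h
    have h1 : p H = p H' := congrArg Prod.fst h
    have h2 : f H = f H' := congrArg Prod.snd h
    apply Subtype.ext
    rw [← hpf H, ← hpf H', h1, h2]
  have h1 := Nat.card_le_card_of_injective _ hinj
  rw [Nat.card_prod] at h1
  have h2 : Nat.card (Fin j → Perm (Fin n)) = n.factorial ^ j := by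
    rw [Nat.card_eq_fintype_card, Fintype.card_fun, Fintype.card_perm, Fintype.card_fin, Fintype.card_fin]
  rw [h2, mul_comm] at h1
  refine h1.trans (Nat.mul_le_mul_left _ ((pair_count2 n q).trans ?_))
  refine Finset.sum_le_sum_of_subset ?_
  intro s hs
  rw [Finset.mem_filter] at hs ⊢
  refine ⟨hs.1, ?_⟩
  have h3 : e + L < (L + 1) * (q + 1) := Nat.lt_mul_div_succ (e + L) (by omega)
  have h4 : (L + 1) * (q + 1) = (L + 1) * q + (L + 1) := by ring
  have h5 : (L + 1) * q ≤ (L + 1) * (2 * s) := Nat.mul_le_mul_left _ hs.2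
  have h6 : 2 * s * (L + 1) = (L + 1) * (2 * s) := by ring
  omega

end Pool.Agent.SvS
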