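import Pool.Agent.SvS.Defs2

/-!
MP_7fa120_al, solvable subgroups. Transfer of `Many` and `Nil` between a subgroup and the whole group.

`many_of_rec`: `C` and `S` are mapped to `X` by `H.subtype`; `M ∈ Rec C S` is mapped to `M.map H.subtype`, injective; if `L ≤ X` contains `M.map H.subtype` and is
invariant under the image of `S` then `L.comap H.subtype` contains `M` and is invariant under `S`, so it contains `C`.
`many_mono`: clear. `many_up`: if `C ⊔ closure S = H₁` and `H₁ ⊔ closure T = H` use `C` and `S ∪ T`; `Rec C S` is contained in `Rec C (S ∪ T)` (fewer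
groups `L` are invariant). `nil_up`: the same for `Nil`. `many_of_indep`: from `2 ^ g ≤ Nat.card (Rec C S)` for a subgroup.
-/

set_option autoImplicit false

namespace Pool.Agent.SvS

private theorem finite_rec {X : Type} [Group X] [Finite X] (C : Subgroup X) (S : Finset X) : Finite (Rec C S) := by
  unfold Rec
  infer_instance

theorem many_of_rec {X : Type} [Group X] [Finite X] (H : Subgroup X) (C : Subgroup H) (S : Finset H)
    (hCS : C ⊔ Subgroup.closure (S : Set H) = ⊤) (g j : ℕ) (hS : S.card ≤ j) (hg : 2 ^ g ≤ Nat.card (Rec C S)) : Many H g j := by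
  have hfin := finite_rec (C.map H.subtype) (S.map ⟨H.subtype, H.subtype_injective⟩)
  refine ⟨C.map H.subtype, S.map ⟨H.subtype, H.subtype_injective⟩, ?_, ?_, ?_⟩
  · rw [Finset.card_map]
    exact hS
  · rw [Finset.coe_map]
    change C.map H.subtype ⊔ Subgroup.closure (H.subtype '' (S : Set H)) = H
    rw [← MonoidHom.map_closure, ← Subgroup.map_sup, hCS, ← MonoidHom.range_eq_map, Subgroup.range_subtype]
  · refine hg.trans (Nat.card_le_card_of_injective (fun M => ⟨M.1.map H.subtype, Subgroup.map_mono M.2.1, ?_⟩) ?_)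
    · intro L hL hinv
      rw [Subgroup.map_le_iff_le_comap] at hL ⊢
      refine M.2.2 _ hL fun y hy x hx => ?_
      rw [Subgroup.mem_comap] at hx ⊢
      have h1 : H.subtype y ∈ S.map ⟨H.subtype, H.subtype_injective⟩ := Finset.mem_map.2 ⟨y, hy, rfl⟩
      have h2 := hinv _ h1 _ hx
      simpa using h2
    · intro M₁ M₂ h
      have h1 : M₁.1.map H.subtype = M₂.1.map H.subtype := congrArg Subtype.val h
      exact Subtype.ext (Subgroup.map_injective H.subtype_injective h1)

theorem many_mono {X : Type} [Group X] {H : Subgroup X} {g g' j j' : ℕ} (h : Many H g j) (hg : g' ≤ g) (hj : j ≤ j') :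
    Many H g' j' := by
  obtain ⟨C, S, h1, h2, h3⟩ := h
  exact ⟨C, S, h1.trans hj, h2, (Nat.pow_le_pow_right (by norm_num) hg).trans h3⟩

theorem many_up {X : Type} [Group X] [Finite X] {H H₁ : Subgroup X} {g j t : ℕ} (h : Many H₁ g j) (T : Finset X) (hT : T.card ≤ t)
    (hH : H₁ ⊔ Subgroup.closure (T : Set X) = H) : Many H g (j + t) := by
  classical
  obtain ⟨C, S, h1, h2, h3⟩ := h
  have hfin := finite_rec C (S ∪ T)
  refine ⟨C, S ∪ T, (Finset.card_union_le S T).trans (Nat.add_le_add h1 hT), ?_, ?_⟩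
  · rw [Finset.coe_union, Subgroup.closure_union, ← sup_assoc, h2, hH]
  · refine h3.trans (Nat.card_le_card_of_injective (fun M => ⟨M.1, M.2.1, ?_⟩) ?_)
    · intro L hL hinv
      exact M.2.2 L hL fun y hy => hinv y (Finset.mem_union_left T hy)
    · intro M₁ M₂ h
      have h4 : M₁.1 = M₂.1 := congrArg (fun L => L.1) h
      exact Subtype.ext h4

theorem nil_up {X : Type} [Group X] {H H₁ : Subgroup X} {e e' k t : ℕ} (h : Nil H₁ e k) (he : e' ≤ e) (T : Finset X)
    (hT : T.card ≤ t) (hH : H₁ ⊔ Subgroup.closure (T : Set X) = H) : Nil H e' (k + t) := by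
  classical
  obtain ⟨Y, S, a, m, h1, h2, h3, h4, h5, h6⟩ := h
  refine ⟨Y, S ∪ T, a, m, h1, h2, h3, he.trans h4, (Finset.card_union_le S T).trans (Nat.add_le_add h5 hT), ?_⟩
  rw [Finset.coe_union, Subgroup.closure_union, ← sup_assoc, h6, hH]

end Pool.Agent.SvS
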