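import Pool.Agent.SvS.IndC

/-!
MP_7fa120_al, solvable subgroups. Case (a): many subgroups `M` of `C` which generate `C` under conjugation by `S`.

Proof. Let `K₀ = C ⊓ ⨅ K j`, normal in `G`. `C / K₀` is abelian (`[c, c'] ∈ K i` for all `i`), and for a prime `p` dividing `q` all `p`-th powers of
elements of `C` are in `K₀` (`C / K i` is an abelian group of order `q`, minimal normal in `G / K i`, so its elements with `p`-th power 1 form the
whole group). Let `V i = C ⊓ ⨅_{j ≠ i} K j`. Choose `u i ∈ V i`, `u i ∉ K i`. Claim: there is `g i ∈ G` such that `v i = g i * u i * (g i)⁻¹` is not in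
`K i ⊔ zpowers (u i)`. Otherwise `(K i ⊔ zpowers (u i))` is normal in `G` (the conjugates of `u i` are in it), it is between `K i` and `C` and not `K i`, so it is
`C`, and `C / K i` is cyclic of exponent `p`, of prime order `q = p`, a contradiction. Note `v i ∈ V i`. So (*) if `u i ^ a * v i ^ b ∈ K i` then `p` divides
`a` and `b`.
Let `I` be a set of `δ / 2` indices, `J` the other `δ - δ / 2` ones. For a function `Φ : I × J → {0, 1}` let `M Φ` be the group generated by `K₀`, the `u i`,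
`i ∈ I`, and the elements `w j = u j * ∏_{i ∈ I} (v i) ^ (Φ i j)`, `j ∈ J`. Then `M Φ ≤ C`.
(1) `M Φ ∈ Rec C S`: let `L ≥ M Φ` be invariant under conjugation by the elements of `S`. As `G` is finite `L` is also invariant under their inverses, so
under `closure S`. `E = L ⊓ C` contains `K₀`, is invariant under `closure S` and (as `C / K₀` is abelian and `K₀ ≤ E`) under `C`; so it is normal in
`G = C ⊔ closure S`. It contains `u i`, so `v i`, for `i ∈ I`, and then `u j` for `j ∈ J`. By `indep_gen`, `C ≤ E ≤ L`.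
(2) `Φ` can be recovered from `M Φ`: if `M Φ = M Ψ` then for `j ∈ J`, `w j (Φ) * (w j (Ψ))⁻¹ ≡ ∏_{i ∈ I} (v i) ^ (Φ i j - Ψ i j)` modulo `K₀` is in `M Φ`, so it is
congruent to `∏_{i ∈ I} (u i) ^ (a i) * ∏_{j ∈ J} (w j) ^ (b j)` modulo `K₀`. Modulo `K l` for `l ∈ J`: `u l ^ (b l) ∈ K l`, so `p` divides `b l` for all `l ∈ J`, and
`(w l) ^ (b l) ∈ K₀`. Modulo `K i`, `i ∈ I`: `(v i) ^ (Φ i j - Ψ i j) * (u i) ^ (- a i) ∈ K i`, so by (*) `p` divides `Φ i j - Ψ i j ∈ {-1, 0, 1}`.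
(The case `δ ≤ 1` is trivial: `C ∈ Rec C S`.)
-/

set_option autoImplicit false

namespace Pool.Agent.SvS

/-- Linear algebra: the matrix can be recovered from the span. -/
private theorem span_inj {I J M : Type} [Fintype I] [Fintype J] [DecidableEq J] [AddCommGroup M]
    (U : I ⊕ J → M) (V : I → M) {p : ℕ} (hp : 2 ≤ p)
    (hind : ∀ (α : I ⊕ J → ℤ) (β : I → ℤ), ∑ s, α s • U s + ∑ i, β i • V i = 0 →
      (∀ s, (p : ℤ) ∣ α s) ∧ ∀ i, (p : ℤ) ∣ β i)
    (Φ Ψ : I → J → Bool)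
    (h : ∀ j, U (Sum.inr j) + ∑ i, (if Φ i j then (1 : ℤ) else 0) • V i ∈
      AddSubgroup.closure (Set.range (Sum.elim (fun i => U (Sum.inl i))
        (fun j => U (Sum.inr j) + ∑ i, (if Ψ i j then (1 : ℤ) else 0) • V i)))) : Φ = Ψ := by
  have key : ∀ i j, (if Φ i j then (1 : ℤ) else 0) = (if Ψ i j then (1 : ℤ) else 0) := by
    intro i j
    obtain ⟨c, hc⟩ := AddSubgroup.exists_of_mem_closure_range _ _ (h j)
    rw [Fintype.sum_sum_type] at hc
    simp only [Sum.elim_inl, Sum.elim_inr, smul_add, Finset.sum_add_distrib, Finset.smul_sum,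
      smul_smul] at hc
    rw [Finset.sum_comm] at hc
    simp only [← Finset.sum_smul] at hc
    have h1 := hind (Sum.elim (fun i => c (Sum.inl i)) (fun j' => c (Sum.inr j') -
      if j' = j then 1 else 0)) (fun i => ∑ j', c (Sum.inr j') * (if Ψ i j' then (1 : ℤ) else 0) -
        (if Φ i j then (1 : ℤ) else 0)) (by
      rw [Fintype.sum_sum_type]
      simp only [Sum.elim_inl, Sum.elim_inr, sub_smul, Finset.sum_sub_distrib, ite_smul, one_smul,
        zero_smul, Finset.sum_ite_eq', Finset.mem_univ, if_true] at hc ⊢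
      rw [eq_comm, ← sub_eq_zero] at hc
      refine Eq.trans ?_ hc
      abel)
    have h2 := h1.2 i
    have h3 : ∀ j', (p : ℤ) ∣ c (Sum.inr j') - if j' = j then 1 else 0 := fun j' => h1.1 (Sum.inr j')
    have h4 : (p : ℤ) ∣ ∑ j', (c (Sum.inr j') - if j' = j then 1 else 0) *
        (if Ψ i j' then (1 : ℤ) else 0) :=
      Finset.dvd_sum fun j' _ => Dvd.dvd.mul_right (h3 j') _
    have h5 : ∑ j', (c (Sum.inr j') - if j' = j then 1 else 0) * (if Ψ i j' then (1 : ℤ) else 0) =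
        ∑ j', c (Sum.inr j') * (if Ψ i j' then (1 : ℤ) else 0) -
          (if Ψ i j then (1 : ℤ) else 0) := by
      simp only [sub_mul, Finset.sum_sub_distrib, ite_mul, one_mul, zero_mul, Finset.sum_ite_eq',
        Finset.mem_univ, if_true]
    rw [h5] at h4
    have h6 := dvd_sub h4 h2
    have h7 : ∑ j', c (Sum.inr j') * (if Ψ i j' then (1 : ℤ) else 0) -
        (if Ψ i j then (1 : ℤ) else 0) -
        (∑ j', c (Sum.inr j') * (if Ψ i j' then (1 : ℤ) else 0) -
        (if Φ i j then (1 : ℤ) else 0)) =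
        (if Φ i j then (1 : ℤ) else 0) - (if Ψ i j then (1 : ℤ) else 0) := by ring
    rw [h7] at h6
    obtain ⟨k, hk⟩ := h6
    have hp' : (2 : ℤ) ≤ p := by exact_mod_cast hp
    rcases Bool.eq_false_or_eq_true (Φ i j) with e1 | e1 <;>
      rcases Bool.eq_false_or_eq_true (Ψ i j) with e2 | e2 <;>
      simp only [e1, e2, if_true, Bool.false_eq_true, if_false] at hk ⊢
    · exfalso
      have : k * p = 1 := by linarith
      have h8 := Int.eq_one_or_neg_one_of_mul_eq_one' (by linarith : (p : ℤ) * k = 1)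
      rcases h8 with ⟨h8, _⟩ | ⟨h8, _⟩ <;> omega
    · exfalso
      have h8 := Int.eq_one_or_neg_one_of_mul_eq_one' (by linarith : (p : ℤ) * (-k) = 1)
      rcases h8 with ⟨h8, _⟩ | ⟨h8, _⟩ <;> omega
  funext i j
  have h1 := key i j
  rcases Bool.eq_false_or_eq_true (Φ i j) with e1 | e1 <;>
    rcases Bool.eq_false_or_eq_true (Ψ i j) with e2 | e2 <;>
    simp only [e1, e2, if_true, Bool.false_eq_true, if_false] at h1 ⊢
  · omega
  · omega

/-- The quotient of `C` by the intersection of the `K j`, written additively. -/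
private theorem exists_M {G : Type} [Group G] {C : Subgroup G} {δ : ℕ} {K : Fin δ → Subgroup G}
    (hK : ∀ j, (K j).Normal) (hcomm : ∀ j, ∀ a ∈ C, ∀ b ∈ C, a * b * a⁻¹ * b⁻¹ ∈ K j) :
    ∃ (M : Type) (_ : AddCommGroup M) (g : C → M), (∀ x y, g (x * y) = g x + g y) ∧
      (∀ x (n : ℤ), g (x ^ n) = n • g x) ∧ Function.Surjective g ∧
      ∀ x : C, g x = 0 ↔ ∀ j, (x : G) ∈ K j := by
  set N : Subgroup C := (⨅ j, K j).subgroupOf C with hN
  have hmem : ∀ x : C, x ∈ N ↔ ∀ j, (x : G) ∈ K j := by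
    intro x
    rw [hN, Subgroup.mem_subgroupOf, Subgroup.mem_iInf]
  have hNn : N.Normal := by
    constructor
    intro n hn c
    rw [hmem] at hn ⊢
    intro j
    have h1 := (hK j).conj_mem n (hn j) c
    exact h1
  let A : CommGroup (C ⧸ N) :=
    { (inferInstance : Group (C ⧸ N)) with
      mul_comm := by
        intro a b
        induction a using QuotientGroup.induction_on with
        | H a =>
          induction b using QuotientGroup.induction_on with
          | H b =>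
            show ((a * b : C) : C ⧸ N) = ((b * a : C) : C ⧸ N)
            rw [QuotientGroup.eq, hmem]
            intro j
            have h1 := hcomm j _ (C.inv_mem b.2) _ (C.inv_mem a.2)
            have h2 : (((a * b)⁻¹ * (b * a) : C) : G) =
                (b : G)⁻¹ * (a : G)⁻¹ * ((b : G)⁻¹)⁻¹ * ((a : G)⁻¹)⁻¹ := by
              push_cast
              rw [mul_inv_rev, inv_inv, inv_inv]
              group
            rw [h2]
            exact h1 }
  refine ⟨Additive (C ⧸ N), inferInstance, fun x => Additive.ofMul ((x : C) : C ⧸ N), ?_, ?_, ?_,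
    ?_⟩
  · intro x y
    rfl
  · intro x n
    rfl
  · intro m
    obtain ⟨x, hx⟩ := QuotientGroup.mk_surjective (Additive.toMul m)
    refine ⟨x, ?_⟩
    show Additive.ofMul ((x : C) : C ⧸ N) = m
    rw [hx]
    rfl
  · intro x
    rw [← hmem, ← QuotientGroup.eq_one_iff]
    rfl

/-- Exponent `p`. -/
private theorem pow_mem_K {G : Type} [Group G] [Finite G] {C K : Subgroup G} {q p : ℕ} (h : Chief K C)
    (hq : K.relIndex C = q) (hcomm : ∀ a ∈ C, ∀ b ∈ C, a * b * a⁻¹ * b⁻¹ ∈ K) (hp : p.Prime)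
    (hpq : p ∣ q) : ∀ x ∈ C, x ^ p ∈ K := by
  obtain ⟨hKn, hCn, hlt, hch⟩ := h
  have hmem : ∀ x : G, x ^ p ∈ K ↔ ((x : G) : G ⧸ K) ^ p = 1 := by
    intro x
    rw [← QuotientGroup.mk_pow, QuotientGroup.eq_one_iff]
  have hcm : ∀ a ∈ C, ∀ b ∈ C, Commute ((a : G) : G ⧸ K) ((b : G) : G ⧸ K) := by
    intro a ha b hb
    show ((a * b : G) : G ⧸ K) = ((b * a : G) : G ⧸ K)
    rw [QuotientGroup.eq]
    have h1 := hcomm _ (C.inv_mem hb) _ (C.inv_mem ha)
    have h2 : (a * b)⁻¹ * (b * a) = b⁻¹ * a⁻¹ * (b⁻¹)⁻¹ * (a⁻¹)⁻¹ := by group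
    rw [h2]
    exact h1
  let T : Subgroup G :=
    { carrier := {x | x ∈ C ∧ x ^ p ∈ K}
      one_mem' := ⟨C.one_mem, by rw [one_pow]; exact K.one_mem⟩
      mul_mem' := by
        rintro a b ⟨ha, ha'⟩ ⟨hb, hb'⟩
        refine ⟨C.mul_mem ha hb, ?_⟩
        rw [hmem] at ha' hb' ⊢
        rw [QuotientGroup.mk_mul, (hcm a ha b hb).mul_pow, ha', hb', one_mul]
      inv_mem' := by
        rintro a ⟨ha, ha'⟩
        refine ⟨C.inv_mem ha, ?_⟩
        rw [inv_pow]
        exact K.inv_mem ha' }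
  have hTmem : ∀ x, x ∈ T ↔ x ∈ C ∧ x ^ p ∈ K := fun x => Iff.rfl
  have hTn : T.Normal := by
    constructor
    intro x hx g
    rw [hTmem] at hx ⊢
    refine ⟨hCn.conj_mem x hx.1 g, ?_⟩
    rw [conj_pow]
    exact hKn.conj_mem _ hx.2 g
  rcases hch T hTn (fun x hx => ⟨hlt.le hx, K.pow_mem hx p⟩) (fun x hx => hx.1) with h1 | h1
  · exfalso
    have hNn : (K.subgroupOf C).Normal := inferInstance
    have hcard : Nat.card (C ⧸ K.subgroupOf C) = q := hq
    have := Fact.mk hp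
    obtain ⟨y, hy⟩ := exists_prime_orderOf_dvd_card' (G := C ⧸ K.subgroupOf C) p (by
      rw [hcard]; exact hpq)
    obtain ⟨x, rfl⟩ := QuotientGroup.mk_surjective y
    have h2 : ((x : C) : C ⧸ K.subgroupOf C) ^ p = 1 := by rw [← hy]; exact pow_orderOf_eq_one _
    rw [← QuotientGroup.mk_pow, QuotientGroup.eq_one_iff, Subgroup.mem_subgroupOf] at h2
    have h3 : (x : G) ∈ T := ⟨x.2, h2⟩
    rw [h1] at h3
    have h4 : ((x : C) : C ⧸ K.subgroupOf C) = 1 := by
      rw [QuotientGroup.eq_one_iff, Subgroup.mem_subgroupOf]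
      exact h3
    rw [h4, orderOf_one] at hy
    exact hp.one_lt.ne hy
  · intro x hx
    rw [← h1] at hx
    exact hx.2

/-- A conjugate of `u` which is independent of `u`. -/
private theorem exists_conj {G : Type} [Group G] [Finite G] {C K : Subgroup G} {q p : ℕ}
    (h : Chief K C) (hq : K.relIndex C = q) (hp : p.Prime) (hqp : ¬ q.Prime)
    (hexp : ∀ x ∈ C, x ^ p ∈ K) {u : G} (hu : u ∈ C) (hu' : u ∉ K) :
    ∃ g : G, g * u * g⁻¹ ∉ K ⊔ Subgroup.zpowers u := by
  obtain ⟨hKn, hCn, hlt, hch⟩ := h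
  by_contra hcon
  push Not at hcon
  have hmem : ∀ x : G, x ∈ K ⊔ Subgroup.zpowers u ↔ ∃ k ∈ K, ∃ m : ℤ, k * u ^ m = x := by
    intro x
    rw [Subgroup.mem_sup_of_normal_left]
    constructor
    · rintro ⟨k, hk, z, hz, rfl⟩
      obtain ⟨m, rfl⟩ := Subgroup.mem_zpowers_iff.1 hz
      exact ⟨k, hk, m, rfl⟩
    · rintro ⟨k, hk, m, rfl⟩
      exact ⟨k, hk, _, Subgroup.zpow_mem_zpowers u m, rfl⟩
  have hWn : (K ⊔ Subgroup.zpowers u).Normal := by
    constructor
    intro x hx g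
    obtain ⟨k, hk, m, rfl⟩ := (hmem x).1 hx
    have h1 : g * (k * u ^ m) * g⁻¹ = (g * k * g⁻¹) * (g * u * g⁻¹) ^ m := by
      rw [conj_zpow]
      group
    rw [h1]
    refine Subgroup.mul_mem _ (Subgroup.mem_sup_left (hKn.conj_mem k hk g)) ?_
    exact Subgroup.zpow_mem _ (hcon g) m
  have hle : K ⊔ Subgroup.zpowers u ≤ C :=
    sup_le hlt.le (Subgroup.zpowers_le.2 hu)
  have huW : u ∈ K ⊔ Subgroup.zpowers u := Subgroup.mem_sup_right (Subgroup.mem_zpowers u)
  rcases hch _ hWn le_sup_left hle with h1 | h1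
  · rw [h1] at huW
    exact hu' huW
  · have hNn : (K.subgroupOf C).Normal := inferInstance
    have hcard : Nat.card (C ⧸ K.subgroupOf C) = q := hq
    have h2 : ∀ y : C ⧸ K.subgroupOf C, y ∈ Subgroup.zpowers (((⟨u, hu⟩ : C)) : C ⧸ K.subgroupOf C) := by
      intro y
      obtain ⟨x, rfl⟩ := QuotientGroup.mk_surjective y
      have h3 : (x : G) ∈ K ⊔ Subgroup.zpowers u := by rw [h1]; exact x.2
      obtain ⟨k, hk, m, hkm⟩ := (hmem _).1 h3
      rw [Subgroup.mem_zpowers_iff]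
      refine ⟨m, ?_⟩
      rw [← QuotientGroup.mk_zpow, QuotientGroup.eq, Subgroup.mem_subgroupOf]
      have h4 : (((⟨u, hu⟩ : C) ^ m)⁻¹ * x : C) = (u ^ m)⁻¹ * (x : G) := by
        push_cast
        rfl
      rw [h4, ← hkm]
      have h5 := hKn.conj_mem k hk ((u ^ m)⁻¹)
      rw [inv_inv] at h5
      rw [← mul_assoc]
      exact h5
    have h3 := orderOf_eq_card_of_forall_mem_zpowers h2
    rw [hcard] at h3
    have h4 : (((⟨u, hu⟩ : C)) : C ⧸ K.subgroupOf C) ^ p = 1 := by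
      rw [← QuotientGroup.mk_pow, QuotientGroup.eq_one_iff, Subgroup.mem_subgroupOf]
      exact hexp u hu
    have h5 := orderOf_dvd_of_pow_eq_one h4
    rw [h3] at h5
    rcases (Nat.dvd_prime hp).1 h5 with h6 | h6
    · have h7 : C ≤ K := by
        rw [← Subgroup.relIndex_eq_one, hq, h6]
      exact absurd h7 (not_le_of_gt hlt)
    · rw [h6] at hqp
      exact hqp hp

/-- Independence of the two conjugates. -/
private theorem star {G : Type} [Group G] {K : Subgroup G} {p : ℕ} (hp : p.Prime) {u v : G}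
    (hup : u ^ p ∈ K) (hvp : v ^ p ∈ K) (hu : u ∉ K) (hv : v ∉ K ⊔ Subgroup.zpowers u) {a b : ℤ}
    (h : u ^ a * v ^ b ∈ K) : (p : ℤ) ∣ a ∧ (p : ℤ) ∣ b := by
  have hpp : Prime (p : ℤ) := Nat.prime_iff_prime_int.1 hp
  have cop : ∀ c : ℤ, ¬ (p : ℤ) ∣ c → ∃ s t : ℤ, p * s + c * t = 1 := by
    intro c hc
    have h1 : IsCoprime (p : ℤ) c := (Prime.coprime_iff_not_dvd hpp).2 hc
    obtain ⟨s, t, hst⟩ := h1
    exact ⟨s, t, by linarith⟩
  have hb : (p : ℤ) ∣ b := by
    by_contra hb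
    obtain ⟨s, t, hst⟩ := cop b hb
    apply hv
    have h1 : v = (v ^ p) ^ s * (v ^ b) ^ t := by
      rw [← zpow_natCast, ← zpow_mul, ← zpow_mul, ← zpow_add, hst, zpow_one]
    have h2 : v ^ b = (u ^ a)⁻¹ * (u ^ a * v ^ b) := by group
    have h3 : v ^ b ∈ K ⊔ Subgroup.zpowers u := by
      rw [h2]
      refine Subgroup.mul_mem _ (Subgroup.mem_sup_right ?_) (Subgroup.mem_sup_left h)
      exact Subgroup.inv_mem _ (Subgroup.zpow_mem_zpowers u a)
    rw [h1]
    exact Subgroup.mul_mem _ (Subgroup.zpow_mem _ (Subgroup.mem_sup_left hvp) s)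
      (Subgroup.zpow_mem _ h3 t)
  refine ⟨?_, hb⟩
  by_contra ha
  obtain ⟨s, t, hst⟩ := cop a ha
  apply hu
  obtain ⟨c, rfl⟩ := hb
  have h1 : v ^ ((p : ℤ) * c) ∈ K := by
    rw [zpow_mul, zpow_natCast]
    exact K.zpow_mem hvp c
  have h2 : u ^ a ∈ K := by
    have h3 := K.mul_mem h (K.inv_mem h1)
    rwa [mul_inv_cancel_right] at h3
  have h4 : u = (u ^ p) ^ s * (u ^ a) ^ t := by
    rw [← zpow_natCast, ← zpow_mul, ← zpow_mul, ← zpow_add, hst, zpow_one]
  rw [h4]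
  exact K.mul_mem (K.zpow_mem hup s) (K.zpow_mem h2 t)

theorem type_r {G : Type} [Group G] [Finite G] {C : Subgroup G} {q δ : ℕ} {K : Fin δ → Subgroup G} (h : Indep C q δ K)
    (hq : ¬ q.Prime) (S : Finset G) (hS : C ⊔ Subgroup.closure (S : Set G) = ⊤) :
    2 ^ ((δ / 2) * (δ - δ / 2)) ≤ Nat.card (Rec C S) := by
  classical
  have hfin : Finite (Rec C S) := by unfold Rec; infer_instance
  by_cases hδ : δ / 2 = 0
  · rw [hδ, zero_mul, pow_zero]
    have : Nonempty (Rec C S) := ⟨⟨C, le_rfl, fun L hL _ => hL⟩⟩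
    exact Nat.card_pos
  have hδ1 : 0 < δ := by
    rcases Nat.eq_zero_or_pos δ with h0 | h0
    · rw [h0] at hδ
      exact absurd rfl hδ
    · exact h0
  -- the prime
  have hq1 : q ≠ 1 := by
    intro h1
    have h2 := (h.1 ⟨0, hδ1⟩).2.1
    rw [h1, Subgroup.relIndex_eq_one] at h2
    exact absurd h2 (not_le_of_gt (h.1 ⟨0, hδ1⟩).1.2.2.1)
  obtain ⟨p, hp, hpq⟩ : ∃ p, p.Prime ∧ p ∣ q := ⟨q.minFac, Nat.minFac_prime hq1, Nat.minFac_dvd q⟩
  have hKn : ∀ j, (K j).Normal := fun j => (h.1 j).1.1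
  have hCn : C.Normal := (h.1 ⟨0, hδ1⟩).1.2.1
  have hcomm : ∀ j, ∀ a ∈ C, ∀ b ∈ C, a * b * a⁻¹ * b⁻¹ ∈ K j :=
    fun j a ha b hb => ((h.1 j).2.2 a).1 ha b hb
  have hexp : ∀ j, ∀ x ∈ C, x ^ p ∈ K j :=
    fun j => pow_mem_K (h.1 j).1 (h.1 j).2.1 (hcomm j) hp hpq
  -- the elements `u i` and `v i`
  have hu : ∀ i, ∃ u : C, (∀ j, j ≠ i → (u : G) ∈ K j) ∧ (u : G) ∉ K i := by
    intro i
    obtain ⟨x, hx, hx'⟩ := SetLike.not_le_iff_exists.1 (h.2 i)
    rw [Subgroup.mem_inf, Subgroup.mem_iInf] at hx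
    refine ⟨⟨x, hx.1⟩, fun j hj => ?_, hx'⟩
    have h1 := hx.2 j
    rw [Subgroup.mem_iInf] at h1
    exact h1 hj
  choose u hu1 hu2 using hu
  have hv : ∀ i, ∃ v : C, (∀ j, j ≠ i → (v : G) ∈ K j) ∧
      (v : G) ∉ K i ⊔ Subgroup.zpowers (u i : G) ∧ ∃ y : G, (v : G) = y * (u i : G) * y⁻¹ := by
    intro i
    obtain ⟨y, hy⟩ := exists_conj (h.1 i).1 (h.1 i).2.1 hp hq (hexp i) (u i).2 (hu2 i)
    exact ⟨⟨y * (u i : G) * y⁻¹, hCn.conj_mem _ (u i).2 y⟩,
      fun j hj => (hKn j).conj_mem _ (hu1 i j hj) y, hy, y, rfl⟩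
  choose v hv1 hv2 cg hcg using hv
  obtain ⟨M, _, g, hg1, hg2, hg3, hg4⟩ := exists_M hKn hcomm
  have hgone : g 1 = 0 := (hg4 1).2 fun j => (K j).one_mem
  have hginv : ∀ x, g x⁻¹ = - g x := by
    intro x
    have h1 := hg2 x (-1)
    rwa [zpow_neg_one, neg_one_zsmul] at h1
  -- subgroups containing the intersection
  have im : ∀ H : Subgroup G, (∀ x ∈ C, (∀ j, x ∈ K j) → x ∈ H) →
      ∃ N : AddSubgroup M, ∀ z : C, g z ∈ N ↔ (z : G) ∈ H := by
    intro H hH
    refine ⟨{ carrier := {m | ∃ x : C, (x : G) ∈ H ∧ g x = m}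
              zero_mem' := ⟨1, H.one_mem, hgone⟩
              add_mem' := ?_
              neg_mem' := ?_ }, ?_⟩
    · rintro a b ⟨x, hx, rfl⟩ ⟨y, hy, rfl⟩
      exact ⟨x * y, H.mul_mem hx hy, hg1 x y⟩
    · rintro a ⟨x, hx, rfl⟩
      exact ⟨x⁻¹, H.inv_mem hx, hginv x⟩
    · intro z
      constructor
      · rintro ⟨x, hx, hxz⟩
        have h1 : g (x⁻¹ * z) = 0 := by rw [hg1, hginv, hxz, neg_add_cancel]
        have h2 := hH _ (x⁻¹ * z).2 ((hg4 _).1 h1)
        have h3 : (z : G) = (x : G) * ((x⁻¹ * z : C) : G) := by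
          push_cast
          rw [mul_inv_cancel_left]
        rw [h3]
        exact H.mul_mem hx h2
      · intro hz
        exact ⟨z, hz, rfl⟩
  -- independence
  have hstar : ∀ l, ∃ N : AddSubgroup M, (∀ z : C, g z ∈ N ↔ (z : G) ∈ K l) ∧
      ∀ a b : ℤ, a • g (u l) + b • g (v l) ∈ N → (p : ℤ) ∣ a ∧ (p : ℤ) ∣ b := by
    intro l
    obtain ⟨N, hN⟩ := im (K l) (fun x _ hx => hx l)
    refine ⟨N, hN, fun a b hab => ?_⟩
    rw [← hg2, ← hg2, ← hg1, hN] at hab
    have h1 : (u l : G) ^ a * (v l : G) ^ b ∈ K l := by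
      have h2 : ((u l ^ a * v l ^ b : C) : G) = (u l : G) ^ a * (v l : G) ^ b := by
        push_cast
        rfl
      rw [← h2]
      exact hab
    exact star hp (hexp l _ (u l).2) (hexp l _ (v l).2) (hu2 l) (hv2 l) h1
  let e : Fin (δ / 2) ⊕ Fin (δ - δ / 2) ≃ Fin δ :=
    finSumFinEquiv.trans (finCongr (by omega))
  set U : Fin (δ / 2) ⊕ Fin (δ - δ / 2) → M := fun s => g (u (e s)) with hU
  set V : Fin (δ / 2) → M := fun i => g (v (e (Sum.inl i))) with hV
  have hind : ∀ (α : Fin (δ / 2) ⊕ Fin (δ - δ / 2) → ℤ) (β : Fin (δ / 2) → ℤ),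
      ∑ s, α s • U s + ∑ i, β i • V i = 0 → (∀ s, (p : ℤ) ∣ α s) ∧ ∀ i, (p : ℤ) ∣ β i := by
    intro α β h0
    have key : ∀ i, (p : ℤ) ∣ α (Sum.inl i) ∧ (p : ℤ) ∣ β i := by
      intro i
      obtain ⟨N, hN, hN'⟩ := hstar (e (Sum.inl i))
      apply hN'
      rw [← Finset.add_sum_erase _ _ (Finset.mem_univ (Sum.inl i : Fin (δ / 2) ⊕ Fin (δ - δ / 2))),
        ← Finset.add_sum_erase _ (fun i => β i • V i) (Finset.mem_univ i)] at h0
      have h1 : ∑ s ∈ Finset.univ.erase (Sum.inl i : Fin (δ / 2) ⊕ Fin (δ - δ / 2)), α s • U s ∈ N := by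
        refine AddSubgroup.sum_mem _ fun s hs => N.zsmul_mem ?_ _
        rw [hU, hN]
        exact hu1 _ _ fun h2 => (Finset.ne_of_mem_erase hs) (e.injective h2).symm
      have h2 : ∑ s ∈ Finset.univ.erase i, β s • V s ∈ N := by
        refine AddSubgroup.sum_mem _ fun s hs => N.zsmul_mem ?_ _
        rw [hV, hN]
        exact hv1 _ _ fun h2 => (Finset.ne_of_mem_erase hs) (Sum.inl_injective (e.injective h2)).symm
      have h3 : α (Sum.inl i) • g (u (e (Sum.inl i))) + β i • g (v (e (Sum.inl i))) =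
          -(∑ s ∈ Finset.univ.erase (Sum.inl i : Fin (δ / 2) ⊕ Fin (δ - δ / 2)), α s • U s +
            ∑ s ∈ Finset.univ.erase i, β s • V s) := by
        rw [eq_neg_iff_add_eq_zero]
        refine Eq.trans ?_ h0
        simp only [hU, hV]
        abel
      rw [h3]
      exact N.neg_mem (N.add_mem h1 h2)
    refine ⟨?_, fun i => (key i).2⟩
    rintro (i | j)
    · exact (key i).1
    · obtain ⟨N, hN, hN'⟩ := hstar (e (Sum.inr j))
      refine (hN' (α (Sum.inr j)) 0 ?_).1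
      rw [← Finset.add_sum_erase _ _ (Finset.mem_univ (Sum.inr j : Fin (δ / 2) ⊕ Fin (δ - δ / 2)))] at h0
      have h1 : ∑ s ∈ Finset.univ.erase (Sum.inr j : Fin (δ / 2) ⊕ Fin (δ - δ / 2)), α s • U s ∈ N := by
        refine AddSubgroup.sum_mem _ fun s hs => N.zsmul_mem ?_ _
        rw [hU, hN]
        exact hu1 _ _ fun h2 => (Finset.ne_of_mem_erase hs) (e.injective h2).symm
      have h2 : ∑ s, β s • V s ∈ N := by
        refine AddSubgroup.sum_mem _ fun s _ => N.zsmul_mem ?_ _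
        rw [hV, hN]
        refine hv1 _ _ fun h2 => ?_
        have h3 := e.injective h2
        exact Sum.inr_ne_inl h3
      have h3 : α (Sum.inr j) • g (u (e (Sum.inr j))) + (0 : ℤ) • g (v (e (Sum.inr j))) =
          -(∑ s ∈ Finset.univ.erase (Sum.inr j : Fin (δ / 2) ⊕ Fin (δ - δ / 2)), α s • U s +
            ∑ s, β s • V s) := by
        rw [eq_neg_iff_add_eq_zero, zero_smul, add_zero]
        refine Eq.trans ?_ h0
        simp only [hU, hV]
        abel
      rw [h3]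
      exact N.neg_mem (N.add_mem h1 h2)
  -- the subgroups
  obtain ⟨F, hFl, hFr⟩ : ∃ F : (Fin (δ / 2) → Fin (δ - δ / 2) → Bool) → AddSubgroup M,
      (∀ Φ i, U (Sum.inl i) ∈ F Φ) ∧ ∀ Φ, F Φ = AddSubgroup.closure (Set.range
        (Sum.elim (fun i => U (Sum.inl i))
        (fun j => U (Sum.inr j) + ∑ i, (if Φ i j then (1 : ℤ) else 0) • V i))) := by
    refine ⟨_, ?_, fun Φ => rfl⟩
    intro Φ i
    exact AddSubgroup.subset_closure ⟨Sum.inl i, rfl⟩
  have hFr' : ∀ Φ j, U (Sum.inr j) + ∑ i, (if Φ i j then (1 : ℤ) else 0) • V i ∈ F Φ := by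
    intro Φ j
    rw [hFr]
    exact AddSubgroup.subset_closure ⟨Sum.inr j, rfl⟩
  have hMM : ∀ Φ, ∃ T : Subgroup G, T ≤ C ∧ ∀ x : C, (x : G) ∈ T ↔ g x ∈ F Φ := by
    intro Φ
    refine ⟨{ carrier := {x | ∃ hx : x ∈ C, g ⟨x, hx⟩ ∈ F Φ}
              one_mem' := ⟨C.one_mem, ?_⟩
              mul_mem' := ?_
              inv_mem' := ?_ }, ?_, ?_⟩
    · rintro a b ⟨ha, ha'⟩ ⟨hb, hb'⟩
      refine ⟨C.mul_mem ha hb, ?_⟩
      show g (⟨a, ha⟩ * ⟨b, hb⟩) ∈ F Φ
      rw [hg1]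
      exact (F Φ).add_mem ha' hb'
    · show g 1 ∈ F Φ
      rw [hgone]
      exact (F Φ).zero_mem
    · rintro a ⟨ha, ha'⟩
      refine ⟨C.inv_mem ha, ?_⟩
      show g (⟨a, ha⟩⁻¹) ∈ F Φ
      rw [hginv]
      exact (F Φ).neg_mem ha'
    · rintro x ⟨hx, _⟩
      exact hx
    · intro x
      constructor
      · rintro ⟨hx, hx'⟩
        exact hx'
      · intro hx
        exact ⟨x.2, hx⟩
  choose T hTC hT using hMM
  have hrec : ∀ Φ, ∀ L : Subgroup G, T Φ ≤ L → (∀ y ∈ S, ∀ x ∈ L, y * x * y⁻¹ ∈ L) → C ≤ L := by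
    intro Φ L hTL hSL
    have h0 : ∀ x ∈ C, (∀ j, x ∈ K j) → x ∈ L := by
      intro x hx hxK
      apply hTL
      have h1 := (hT Φ ⟨x, hx⟩).2
      apply h1
      rw [(hg4 ⟨x, hx⟩).2 hxK]
      exact (F Φ).zero_mem
    have hnorm : C ⊔ Subgroup.closure (S : Set G) ≤ Subgroup.normalizer ((L ⊓ C : Subgroup G) : Set G) := by
      refine sup_le ?_ ((Subgroup.closure_le _).2 ?_)
      · intro c hc
        apply Subgroup.mem_normalizer_fintype
        intro n hn
        rw [SetLike.mem_coe, Subgroup.mem_inf] at hn ⊢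
        have h1 : c * n * c⁻¹ = (c * n * c⁻¹ * n⁻¹) * n := by rw [inv_mul_cancel_right]
        refine ⟨?_, hCn.conj_mem n hn.2 c⟩
        rw [h1]
        refine L.mul_mem (h0 _ ?_ fun j => hcomm j c hc n hn.2) hn.1
        exact C.mul_mem (hCn.conj_mem n hn.2 c) (C.inv_mem hn.2)
      · intro y hy
        rw [SetLike.mem_coe]
        apply Subgroup.mem_normalizer_fintype
        intro n hn
        rw [SetLike.mem_coe, Subgroup.mem_inf] at hn ⊢
        exact ⟨hSL y hy n hn.1, hCn.conj_mem n hn.2 y⟩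
    have hEn : (L ⊓ C).Normal := by
      constructor
      intro n hn y
      have h1 : y ∈ Subgroup.normalizer ((L ⊓ C : Subgroup G) : Set G) := by
        apply hnorm
        rw [hS]
        exact Subgroup.mem_top y
      exact (Subgroup.mem_normalizer_iff.1 h1 n).1 hn
    have h0' : ∀ x ∈ C, (∀ j, x ∈ K j) → x ∈ L ⊓ C :=
      fun x hx hxK => Subgroup.mem_inf.2 ⟨h0 x hx hxK, hx⟩
    obtain ⟨N, hN⟩ := im (L ⊓ C) h0'
    have hul : ∀ i, (u (e (Sum.inl i)) : G) ∈ L ⊓ C := by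
      intro i
      refine Subgroup.mem_inf.2 ⟨hTL ((hT Φ _).2 (hFl Φ i)), (u _).2⟩
    have hres := indep_gen h (fun i => (u i : G)) (fun i => ⟨(u i).2, hu1 i, hu2 i⟩) (L ⊓ C) hEn
      (by
        intro x hx
        rw [Subgroup.mem_inf, Subgroup.mem_iInf] at hx
        exact h0' x hx.1 hx.2)
      (by
        intro i
        obtain ⟨s, rfl⟩ := e.surjective i
        rcases s with i | j
        · exact hul i
        · obtain ⟨x, hx⟩ := hg3 (U (Sum.inr j) + ∑ i, (if Φ i j then (1 : ℤ) else 0) • V i)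
          have h1 : (x : G) ∈ L := hTL ((hT Φ x).2 (by rw [hx]; exact hFr' Φ j))
          have h2 : g x ∈ N := (hN x).2 (Subgroup.mem_inf.2 ⟨h1, x.2⟩)
          have h3 : ∑ i, (if Φ i j then (1 : ℤ) else 0) • V i ∈ N := by
            refine AddSubgroup.sum_mem _ fun i _ => N.zsmul_mem ?_ _
            rw [hV, hN, hcg]
            exact hEn.conj_mem _ (hul i) _
          have h4 : g (u (e (Sum.inr j))) ∈ N := by
            have h5 : g (u (e (Sum.inr j))) = g x - ∑ i, (if Φ i j then (1 : ℤ) else 0) • V i := by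
              rw [hx, add_sub_cancel_right]
            rw [h5]
            exact N.sub_mem h2 h3
          exact (hN _).1 h4)
    exact hres.trans inf_le_left
  have hinj : Function.Injective fun Φ : Fin (δ / 2) → Fin (δ - δ / 2) → Bool =>
      (⟨T Φ, hTC Φ, hrec Φ⟩ : Rec C S) := by
    intro Φ Ψ hΦΨ
    have h1 : T Φ = T Ψ := congrArg Subtype.val hΦΨ
    refine span_inj U V hp.two_le hind Φ Ψ fun j => ?_
    obtain ⟨x, hx⟩ := hg3 (U (Sum.inr j) + ∑ i, (if Φ i j then (1 : ℤ) else 0) • V i)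
    have h2 : (x : G) ∈ T Φ := (hT Φ x).2 (by rw [hx]; exact hFr' Φ j)
    rw [h1, hT Ψ, hx, hFr] at h2
    exact h2
  have hc := Nat.card_le_card_of_injective _ hinj
  have h1 : Nat.card (Fin (δ / 2) → Fin (δ - δ / 2) → Bool) = 2 ^ ((δ / 2) * (δ - δ / 2)) := by
    rw [Nat.card_eq_fintype_card, Fintype.card_fun, Fintype.card_fun, Fintype.card_bool,
      Fintype.card_fin, Fintype.card_fin, ← pow_mul, mul_comm]
  rw [← h1]
  exact hc

end Pool.Agent.SvS
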