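import Pool.Agent.SvS.Defs2
import Pool.Agent.BdO.Core

/-!
MP_7fa120_al, solvable subgroups. Case (a): `G / C` needs few generators.

Proof. `C = {g : [g, c] ∈ K for all c ∈ C}` and `K` are normal, and `V = C / K` is an abelian group of order `q` (apply the condition to `g ∈ C`), which is
minimal normal in `G / K`, so for a prime `p` dividing `q` the elements of `V` with `p`-th power 1 are all of `V`. `G` acts on `V` by conjugation with
kernel `C`. `V` is generated by at most `d = Nat.log 2 q` elements (any finite group of order `q`), so an automorphism is determined by their images: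
`|G / C| ≤ q ^ d ≤ 2 ^ ((Nat.log 2 q + 1) * Nat.log 2 q)`. So `G / C` is generated by at most `Nat.log 2 (Nat.card (G ⧸ C)) ≤ (Nat.log 2 q + 1) ^ 2`
elements (compare `Pool.Agent.AbS.exists_fin_closure`, `Pool.Agent.BdO.chain_gen` in `BdO/Core.lean`); take preimages.
-/

set_option autoImplicit false

namespace Pool.Agent.SvS

open Pool.Agent.NilS Pool.Agent.BdO

/-- If conjugation by `h` fixes generators of `C` modulo `K` then it fixes `C` modulo `K`. -/
private theorem fix_gen {G : Type} [Group G] {C K : Subgroup G} (hK : K.Normal) {S : Set G}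
    (hS : (C : Set G) ⊆ (Subgroup.closure S ⊔ K : Subgroup G)) {h : G}
    (hh : ∀ s ∈ S, h * s * h⁻¹ * s⁻¹ ∈ K) : ∀ c ∈ C, h * c * h⁻¹ * c⁻¹ ∈ K := by
  have key : ∀ c : G, h * c * h⁻¹ * c⁻¹ ∈ K ↔
      c ∈ (Subgroup.centralizer {(QuotientGroup.mk' K) h}).comap (QuotientGroup.mk' K) := by
    intro c
    have e : ((h * c * h⁻¹ * c⁻¹ : G) : G ⧸ K) = (QuotientGroup.mk' K) h *
        (QuotientGroup.mk' K) c * ((QuotientGroup.mk' K) h)⁻¹ * ((QuotientGroup.mk' K) c)⁻¹ := rfl
    rw [Subgroup.mem_comap, Subgroup.mem_centralizer_singleton_iff, ← QuotientGroup.eq_one_iff, e,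
      mul_inv_eq_one, mul_inv_eq_iff_eq_mul]
    exact eq_comm
  intro c hc
  rw [key]
  have h1 : Subgroup.closure S ⊔ K ≤
      (Subgroup.centralizer {(QuotientGroup.mk' K) h}).comap (QuotientGroup.mk' K) := by
    refine sup_le ((Subgroup.closure_le _).2 fun s hs => ?_) fun k hk => ?_
    · exact (key s).1 (hh s hs)
    · refine (key k).1 ?_
      exact K.mul_mem (hK.conj_mem k hk h) (K.inv_mem hk)
  exact h1 (hS hc)

theorem type_s {G : Type} [Group G] [Finite G] {C K : Subgroup G} {q : ℕ} (h : Chief K C) (hq : K.relIndex C = q)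
    (hC : ∀ g : G, g ∈ C ↔ ∀ c ∈ C, g * c * g⁻¹ * c⁻¹ ∈ K) :
    ∃ S : Finset G, S.card ≤ (Nat.log 2 q + 1) ^ 2 ∧ C ⊔ Subgroup.closure (S : Set G) = ⊤ := by
  classical
  obtain ⟨hK, hCn, hlt, -⟩ := h
  have hKC : Nat.card C = q * Nat.card K := by
    have h1 := (K.subgroupOf C).index_mul_card
    have h2 : Nat.card (K.subgroupOf C) = Nat.card K :=
      Nat.card_congr (Subgroup.subgroupOfEquivOfLe hlt.le).toEquiv
    rw [h2] at h1
    rw [← hq]
    exact h1.symm
  obtain ⟨S1, hS1, hS1c, hS1g⟩ := chain_gen C K hlt.le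
    (fun d _ c hc => hK.conj_mem c hc d) q hKC.le (C : Set G) subset_rfl
  -- the index of C
  have hidx : C.index ≤ q ^ S1.card := by
    let F : G ⧸ C → (S1 → C ⧸ K.subgroupOf C) := fun x s =>
      QuotientGroup.mk ⟨x.out * s.1 * x.out⁻¹, hCn.conj_mem _ (hS1 s.2) _⟩
    have hF : Function.Injective F := by
      intro x y hxy
      have h1 : ∀ s ∈ (S1 : Set G), (x.out⁻¹ * y.out) * s * (x.out⁻¹ * y.out)⁻¹ * s⁻¹ ∈ K := by
        intro s hs
        have h2 := congrFun hxy ⟨s, hs⟩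
        have h3 := QuotientGroup.eq.1 h2
        rw [Subgroup.mem_subgroupOf] at h3
        have h4 : (x.out * s * x.out⁻¹)⁻¹ * (y.out * s * y.out⁻¹) ∈ K := h3
        have h5 := hK.conj_mem _ h4 (s * x.out⁻¹)
        have e : (s * x.out⁻¹) * ((x.out * s * x.out⁻¹)⁻¹ * (y.out * s * y.out⁻¹)) *
            (s * x.out⁻¹)⁻¹ = (x.out⁻¹ * y.out) * s * (x.out⁻¹ * y.out)⁻¹ * s⁻¹ := by
          group
        rwa [e] at h5
      have h6 : x.out⁻¹ * y.out ∈ C := (hC _).2 (fix_gen hK hS1g h1)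
      have h7 : (QuotientGroup.mk x.out : G ⧸ C) = QuotientGroup.mk y.out := QuotientGroup.eq.2 h6
      rw [QuotientGroup.out_eq', QuotientGroup.out_eq'] at h7
      exact h7
    calc C.index = Nat.card (G ⧸ C) := rfl
      _ ≤ Nat.card (S1 → C ⧸ K.subgroupOf C) := Nat.card_le_card_of_injective F hF
      _ = q ^ S1.card := by
          rw [Nat.card_fun, Nat.card_eq_fintype_card (α := S1), Fintype.card_coe]
          congr 1
  have hcard : Nat.card (⊤ : Subgroup G) ≤ q ^ S1.card * Nat.card C := by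
    rw [Subgroup.card_top, ← C.index_mul_card]
    exact Nat.mul_le_mul_right _ hidx
  obtain ⟨S2, -, hS2c, hS2g⟩ := chain_gen ⊤ C le_top
    (fun d _ c hc => hCn.conj_mem c hc d) (q ^ S1.card) hcard Set.univ
    (by rw [Subgroup.coe_top])
  refine ⟨S2, ?_, ?_⟩
  · set L := Nat.log 2 q with hL
    have h1 : q < 2 ^ (L + 1) := Nat.lt_pow_succ_log_self (by norm_num) q
    have h2 : q ^ S1.card ≤ 2 ^ ((L + 1) * L) := by
      calc q ^ S1.card ≤ (2 ^ (L + 1)) ^ S1.card := Nat.pow_le_pow_left h1.le _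
        _ = 2 ^ ((L + 1) * S1.card) := (pow_mul _ _ _).symm
        _ ≤ 2 ^ ((L + 1) * L) := Nat.pow_le_pow_right (by norm_num) (Nat.mul_le_mul_left _ hS1c)
    have h3 : Nat.log 2 (q ^ S1.card) ≤ (L + 1) * L := by
      calc Nat.log 2 (q ^ S1.card) ≤ Nat.log 2 (2 ^ ((L + 1) * L)) := Nat.log_mono_right h2
        _ = (L + 1) * L := Nat.log_pow (by norm_num) _
    calc S2.card ≤ (L + 1) * L := hS2c.trans h3
      _ ≤ (L + 1) ^ 2 := by rw [pow_two]; exact Nat.mul_le_mul_left _ (Nat.le_succ L)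
  · rw [eq_top_iff]
    intro g _
    rw [sup_comm]
    exact hS2g (Set.mem_univ g)

end Pool.Agent.SvS
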