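import Pool.Agent.SvS.PrimeB

/-!
MP_7fa120_al, solvable subgroups. Case (b) with a nontrivial action: the largest elementary abelian quotient of odd order grows.

Proof. Let `e G = (no G).index`. By `prime_x`, `q ≠ 2` and `C.index ≤ q - 1`. Let `K₀ = C ⊓ ⨅ K j`, index `q ^ δ` in `C` (`indep_index`), and `E = no G ⊓ C`.
(1) `no C` (mapped to `G`) is contained in `K₀` (every `K j` is normal in `C` of odd prime index `q`) and in `E`: `no G` is the intersection of
the normal subgroups `T` of `G` of odd prime index `r`, and `T ⊓ C` is normal in `C` of index 1 or `r`. So `e C ≥ (E ⊓ K₀).relIndex C`.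
(2) `E K₀ = C`. `G / no G` is abelian (it embeds in a product of groups of prime order), so `[g, c] ∈ E` for `g ∈ G`, `c ∈ C` (`C` is normal). For every `i`
and `u ∈ C ⊓ ⨅_{j ≠ i} K j` with `u ∉ K i` (exists by `Indep`) there is `g ∈ G` with `v = g u g⁻¹ u⁻¹ ∉ K i`: otherwise, as `C / K i` has prime
order and is generated by `u`, `g` centralises `C / K i` for all `g ∈ G`, so `G = C`. `v ∈ C ⊓ ⨅_{j ≠ i} K j`, `v ∉ K i`, `v ∈ E`. By `indep_gen` the normal
subgroup `E K₀` of `G` contains `C`.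
(3) So `(E ⊓ K₀).relIndex C = E.relIndex C * K₀.relIndex C = E.relIndex C * q ^ δ` and `E.relIndex C = (no G).relIndex C`, with
`(no G).relIndex C * C.index ≥ e G` (`C no G / no G` has index at most `C.index` in `G / no G`). So `e C * (q - 1) ≥ e C * C.index ≥ e G * q ^ δ`, hence
`e C ≥ e G * q ^ (δ - 1) ≥ e G * 2 ^ (δ - 1)`.
-/

set_option autoImplicit false

namespace Pool.Agent.SvS

private theorem primec_mem_no {G : Type} [Group G] {x : G} :
    x ∈ no G ↔ ∀ T : Subgroup G, T.Normal → (∃ p : ℕ, p.Prime ∧ p ≠ 2 ∧ T.index = p) → x ∈ T := by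
  unfold no
  rw [Subgroup.mem_sInf]
  constructor
  · intro h T h1 h2
    exact h T ⟨h1, h2⟩
  · intro h T hT
    exact h T hT.1 hT.2

private theorem primec_no_normal {G : Type} [Group G] : (no G).Normal := by
  constructor
  intro x hx g
  rw [primec_mem_no] at hx ⊢
  intro T hT hp
  exact hT.conj_mem x (hx T hT hp) g

private theorem primec_comm {G : Type} [Group G] {T : Subgroup G} (hT : T.Normal) {p : ℕ} (hp : p.Prime)
    (hi : T.index = p) (g c : G) : g * c * g⁻¹ * c⁻¹ ∈ T := by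
  haveI := hT
  haveI : Fact p.Prime := ⟨hp⟩
  have hcard : Nat.card (G ⧸ T) = p := hi
  haveI hcy : IsCyclic (G ⧸ T) := isCyclic_of_prime_card hcard
  rw [← QuotientGroup.eq_one_iff]
  have hcomm : ∀ a b : G ⧸ T, a * b = b * a := fun a b =>
    (IsCyclic.commGroup (α := G ⧸ T)).mul_comm a b
  have h1 : ((g * c * g⁻¹ * c⁻¹ : G) : G ⧸ T) = (g : G ⧸ T) * (c : G ⧸ T) * (g : G ⧸ T)⁻¹ * (c : G ⧸ T)⁻¹ := rfl
  rw [h1, hcomm (g : G ⧸ T) (c : G ⧸ T)]
  group

/-- If `G ≠ C` then no `u ∉ K` in `C` is central modulo `K`. -/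
private theorem primec_exists {G : Type} [Group G] {C K : Subgroup G} (h : Chief K C)
    (hg : ∀ g : G, g ∈ C ↔ ∀ c ∈ C, g * c * g⁻¹ * c⁻¹ ∈ K) (hC : C ≠ ⊤) {u : G} (hu : u ∈ C) (huK : u ∉ K) :
    ∃ g : G, g * u * g⁻¹ * u⁻¹ ∉ K := by
  by_contra hne
  push Not at hne
  obtain ⟨hKn, hCn, hlt, hch⟩ := h
  haveI := hKn
  set Z : Subgroup G := C ⊓ (Subgroup.center (G ⧸ K)).comap (QuotientGroup.mk' K) with hZ
  have hmem : ∀ c : G, (∀ g : G, g * c * g⁻¹ * c⁻¹ ∈ K) ↔ c ∈ (Subgroup.center (G ⧸ K)).comap (QuotientGroup.mk' K) := by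
    intro c
    rw [Subgroup.mem_comap, Subgroup.mem_center_iff]
    constructor
    · intro h1 x
      obtain ⟨g, rfl⟩ := QuotientGroup.mk'_surjective K x
      have h2 := (QuotientGroup.eq_one_iff (N := K) (g * c * g⁻¹ * c⁻¹)).2 (h1 g)
      have h3 : (QuotientGroup.mk' K g) * (QuotientGroup.mk' K c) * (QuotientGroup.mk' K g)⁻¹ * (QuotientGroup.mk' K c)⁻¹ = 1 := h2
      rw [mul_inv_eq_one, mul_inv_eq_iff_eq_mul] at h3
      exact h3
    · intro h1 g
      rw [← QuotientGroup.eq_one_iff]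
      have h3 := h1 (QuotientGroup.mk' K g)
      change (QuotientGroup.mk' K g) * (QuotientGroup.mk' K c) * (QuotientGroup.mk' K g)⁻¹ * (QuotientGroup.mk' K c)⁻¹ = 1
      rw [mul_inv_eq_one, mul_inv_eq_iff_eq_mul]
      exact h3
  have hZn : Z.Normal := by
    haveI := hCn
    infer_instance
  have hKZ : K ≤ Z := by
    intro k hk
    refine Subgroup.mem_inf.2 ⟨hlt.le hk, (hmem k).1 fun g => ?_⟩
    exact K.mul_mem (hKn.conj_mem k hk g) (K.inv_mem hk)
  rcases hch Z hZn hKZ inf_le_left with h1 | h1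
  · apply huK
    rw [← h1]
    exact Subgroup.mem_inf.2 ⟨hu, (hmem u).1 hne⟩
  · apply hC
    rw [Subgroup.eq_top_iff']
    intro g
    rw [hg]
    intro c hc
    rw [← h1] at hc
    exact (hmem c).2 (Subgroup.mem_inf.1 hc).2 g

theorem prime_c {G : Type} [Group G] [Finite G] {C : Subgroup G} {q δ : ℕ} {K : Fin δ → Subgroup G} (h : Indep C q δ K)
    (hq : q.Prime) (hδ : 1 ≤ δ) (hC : C ≠ ⊤) : (no G).index * 2 ^ (δ - 1) ≤ (no C).index := by
  classical
  have i0 : Fin δ := ⟨0, hδ⟩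
  obtain ⟨_, hCq, hq2⟩ := prime_x (h.1 i0).1 (h.1 i0).2.1 hq (h.1 i0).2.2
  have hq2 := hq2 hC
  have hCn : C.Normal := (h.1 i0).1.2.1
  have hKn : ∀ i, (K i).Normal := fun i => (h.1 i).1.1
  have hKC : ∀ i, K i ≤ C := fun i => (h.1 i).1.2.2.1.le
  have hNn : (no G).Normal := primec_no_normal
  set K₀ : Subgroup G := C ⊓ ⨅ j, K j with hK₀
  set E : Subgroup G := no G ⊓ C with hE
  have hmemK : ∀ x, x ∈ K₀ ↔ x ∈ C ∧ ∀ j, x ∈ K j := by
    intro x
    rw [hK₀, Subgroup.mem_inf, Subgroup.mem_iInf]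
  have hK₀n : K₀.Normal := by
    constructor
    intro x hx g
    rw [hmemK] at hx ⊢
    exact ⟨hCn.conj_mem x hx.1 g, fun j => (hKn j).conj_mem x (hx.2 j) g⟩
  have hEn : E.Normal := by
    haveI := hNn
    haveI := hCn
    exact Subgroup.normal_inf_normal _ _
  have hK₀i : K₀.relIndex C = q ^ δ := by
    have h1 := indep_index h Finset.univ
    rw [Finset.card_univ, Fintype.card_fin] at h1
    rw [← h1]
    congr 1
    ext x
    rw [hmemK, Subgroup.mem_inf, Subgroup.mem_iInf]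
    simp
  -- (1)
  have h1 : (E ⊓ K₀).relIndex C ≤ (no C).index := by
    have hle : no C ≤ (E ⊓ K₀).subgroupOf C := by
      intro x hx
      rw [primec_mem_no] at hx
      rw [Subgroup.mem_subgroupOf, Subgroup.mem_inf, hE, Subgroup.mem_inf, hmemK]
      refine ⟨⟨?_, x.2⟩, x.2, fun j => ?_⟩
      · rw [primec_mem_no]
        rintro T hT ⟨p, hp, hp2, hTi⟩
        haveI := hT
        have hd : (T.subgroupOf C).index ∣ p := by
          rw [← hTi]
          exact Subgroup.relIndex_dvd_index_of_normal T C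
        rcases (Nat.dvd_prime hp).1 hd with h2 | h2
        · rw [Subgroup.index_eq_one] at h2
          have h3 : x ∈ T.subgroupOf C := by
            rw [h2]
            exact Subgroup.mem_top x
          exact Subgroup.mem_subgroupOf.1 h3
        · exact Subgroup.mem_subgroupOf.1 (hx (T.subgroupOf C) inferInstance ⟨p, hp, hp2, h2⟩)
      · haveI := hKn j
        exact Subgroup.mem_subgroupOf.1 (hx ((K j).subgroupOf C) inferInstance ⟨q, hq, hq2, (h.1 j).2.1⟩)
    exact Nat.le_of_dvd (Nat.pos_of_ne_zero Subgroup.index_ne_zero_of_finite) (Subgroup.index_dvd_of_le hle)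
  -- (2)
  have h2 : E ⊔ K₀ = C := by
    apply le_antisymm (sup_le inf_le_right inf_le_left)
    have hex : ∀ i, ∃ v : G, (v ∈ C ∧ (∀ j, j ≠ i → v ∈ K j) ∧ v ∉ K i) ∧ v ∈ E := by
      intro i
      obtain ⟨u, hu, huK⟩ := SetLike.not_le_iff_exists.1 (h.2 i)
      rw [Subgroup.mem_inf] at hu
      have huj : ∀ j, j ≠ i → u ∈ K j := by
        intro j hj
        have h3 := Subgroup.mem_iInf.1 hu.2 j
        exact Subgroup.mem_iInf.1 h3 hj
      obtain ⟨g, hgv⟩ := primec_exists (h.1 i).1 (h.1 i).2.2 hC hu.1 huK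
      have hvC : g * u * g⁻¹ * u⁻¹ ∈ C := C.mul_mem (hCn.conj_mem u hu.1 g) (C.inv_mem hu.1)
      refine ⟨g * u * g⁻¹ * u⁻¹, ⟨hvC, fun j hj => ?_, hgv⟩, ?_⟩
      · exact (K j).mul_mem ((hKn j).conj_mem u (huj j hj) g) ((K j).inv_mem (huj j hj))
      · rw [hE, Subgroup.mem_inf]
        refine ⟨?_, hvC⟩
        rw [primec_mem_no]
        rintro T hT ⟨p, hp, _, hTi⟩
        exact primec_comm hT hp hTi g u
    choose v hv hvE using hex
    haveI := hEn
    haveI := hK₀n
    exact indep_gen h v hv (E ⊔ K₀) (Subgroup.sup_normal E K₀) le_sup_right fun i =>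
      (le_sup_left : E ≤ E ⊔ K₀) (hvE i)
  -- (3)
  have h3 : (E ⊓ K₀).relIndex C = (no G).relIndex C * q ^ δ := by
    rw [← Subgroup.relIndex_mul_relIndex (E ⊓ K₀) K₀ C inf_le_right inf_le_left, hK₀i,
      Subgroup.inf_relIndex_right]
    congr 1
    haveI := hEn
    have h4 := Subgroup.relIndex_sup_right K₀ E
    rw [sup_comm, h2] at h4
    rw [← h4, hE, Subgroup.inf_relIndex_right]
  have h4 : (no G).index ≤ (no G).relIndex C * C.index := by
    have h5 : (no G ⊓ C).relIndex C * C.index = (no G ⊓ C).index :=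
      Subgroup.relIndex_mul_index inf_le_right
    rw [Subgroup.inf_relIndex_right] at h5
    rw [h5]
    exact Nat.le_of_dvd (Nat.pos_of_ne_zero Subgroup.index_ne_zero_of_finite)
      (Subgroup.index_dvd_of_le inf_le_left)
  rw [h3] at h1
  obtain ⟨d, rfl⟩ : ∃ d, δ = d + 1 := ⟨δ - 1, by omega⟩
  rw [Nat.add_sub_cancel]
  have hq0 : 0 < q := hq.pos
  have h5 : (no G).index * q ^ d ≤ (no C).index := by
    have h6 : q * ((no G).index * q ^ d) ≤ q * (no C).index := by
      calc q * ((no G).index * q ^ d) = (no G).index * q ^ (d + 1) := by ring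
        _ ≤ ((no G).relIndex C * C.index) * q ^ (d + 1) := Nat.mul_le_mul_right _ h4
        _ = C.index * ((no G).relIndex C * q ^ (d + 1)) := by ring
        _ ≤ C.index * (no C).index := Nat.mul_le_mul_left _ h1
        _ ≤ q * (no C).index := Nat.mul_le_mul_right _ (hCq.trans (Nat.sub_le _ _))
    exact Nat.le_of_mul_le_mul_left h6 hq0
  refine le_trans (Nat.mul_le_mul_left _ ?_) h5
  exact Nat.pow_le_pow_left hq.two_le d

end Pool.Agent.SvS
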