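import Pool.Agent.SvS.Defs2

/-!
MP_7fa120_al, solvable subgroups. A nilpotent supplement.

`nil_supp`. Let `N = na G`; `G / N` is abelian (it embeds in a product of groups of prime order, `commutator G ≤ na G`). Let `Y` be a minimal
subgroup with `Y ⊔ N = ⊤`. For a maximal subgroup `M` of `Y`: `Y ⊓ N ≤ M`, otherwise `M (Y ⊓ N) = Y` and `M ⊔ N = ⊤`, against the minimality. As
`[Y, Y] ≤ Y ⊓ N ≤ M`, `M` is normal in `Y`. A finite group all of whose maximal subgroups are normal is nilpotent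
(`Group.isNilpotent_of_finite_tfae`).
`nil_odd`. `no G ≥ na G` so `Y ⊔ no G = ⊤`, `(no G).index` is the index of `Y ⊓ no G` in `Y`, so it divides `|Y| = 2 ^ a * m`; it is odd, because `G / no G`
embeds in a product of groups of odd prime order (an element of order 2 of `G / no G` would have trivial image in all of them); so it divides `m`.
`top_na`: if `L` is a normal subgroup of prime index then `na G ≤ L`.
-/

set_option autoImplicit false

namespace Pool.Agent.SvS

private theorem comm_mem {G : Type} [Group G] {K : Subgroup G} (hK : K.Normal) {p : ℕ} (hp : p.Prime)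
    (hi : K.index = p) (x y : G) : y * x * y⁻¹ * x⁻¹ ∈ K := by
  have hp' : Fact p.Prime := ⟨hp⟩
  have hc : IsCyclic (G ⧸ K) := isCyclic_of_prime_card (p := p) hi
  rw [← QuotientGroup.eq_one_iff]
  have h1 : ∀ a b : G ⧸ K, a * b = b * a := by
    intro a b
    obtain ⟨g, hg⟩ := hc.exists_generator
    obtain ⟨i, rfl⟩ := Subgroup.mem_zpowers_iff.1 (hg a)
    obtain ⟨j, rfl⟩ := Subgroup.mem_zpowers_iff.1 (hg b)
    rw [← zpow_add, ← zpow_add, add_comm]
  rw [QuotientGroup.mk_mul, QuotientGroup.mk_mul, QuotientGroup.mk_mul, h1 (y : G ⧸ K) (x : G ⧸ K)]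
  rw [QuotientGroup.mk_inv, QuotientGroup.mk_inv, mul_inv_cancel_right, mul_inv_cancel]

private theorem comm_na {G : Type} [Group G] (x y : G) : y * x * y⁻¹ * x⁻¹ ∈ na G := by
  refine Subgroup.mem_sInf.2 ?_
  rintro K ⟨hK, p, hp, hi⟩
  exact comm_mem hK hp hi x y

theorem nil_supp (G : Type) [Group G] [Finite G] : ∃ Y : Subgroup G, Group.IsNilpotent Y ∧ Y ⊔ na G = ⊤ := by
  have hfin : {Y : Subgroup G | Y ⊔ na G = ⊤}.Finite := Set.toFinite _
  obtain ⟨Y, hY⟩ := hfin.exists_minimal ⟨⊤, top_sup_eq (na G)⟩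
  refine ⟨Y, ?_, hY.prop⟩
  refine ((Group.isNilpotent_of_finite_tfae (G := Y)).out 0 2).2 ?_
  intro M hM
  have h1 : (na G).subgroupOf Y ≤ M := by
    by_contra hn
    have h2 : M < M ⊔ (na G).subgroupOf Y := by
      refine lt_of_le_of_ne le_sup_left ?_
      intro h
      exact hn (h ▸ le_sup_right)
    have h3 : M ⊔ (na G).subgroupOf Y = ⊤ := hM.2 _ h2
    have h4 : M.map Y.subtype ⊔ na G = ⊤ := by
      rw [eq_top_iff, ← hY.prop]
      refine sup_le ?_ le_sup_right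
      intro y hy
      have h5 : (⟨y, hy⟩ : Y) ∈ M ⊔ (na G).subgroupOf Y := h3 ▸ Subgroup.mem_top _
      have h6 : (M ⊔ (na G).subgroupOf Y).map Y.subtype ≤ M.map Y.subtype ⊔ na G := by
        rw [Subgroup.map_sup]
        refine sup_le_sup_left ?_ _
        rintro _ ⟨z, hz, rfl⟩
        exact hz
      exact h6 ⟨_, h5, rfl⟩
    have h5 : Y ≤ M.map Y.subtype := hY.le_of_le h4 (by
      rintro _ ⟨z, _, rfl⟩
      exact z.2)
    apply hM.1
    rw [eq_top_iff]
    intro y _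
    obtain ⟨z, hz, hzy⟩ := h5 y.2
    have : z = y := Subtype.ext hzy
    exact this ▸ hz
  refine ⟨fun x hx y => ?_⟩
  have h2 : y * x * y⁻¹ * x⁻¹ ∈ M := h1 (comm_na (x : G) (y : G))
  have h3 := mul_mem h2 hx
  rwa [inv_mul_cancel_right] at h3

theorem na_normal (G : Type) [Group G] : (na G).Normal :=
  ⟨fun n hn g => Subgroup.mem_sInf.2 fun K hK => hK.1.conj_mem n (Subgroup.mem_sInf.1 hn K hK) g⟩

theorem no_normal (G : Type) [Group G] : (no G).Normal :=
  ⟨fun n hn g => Subgroup.mem_sInf.2 fun K hK => hK.1.conj_mem n (Subgroup.mem_sInf.1 hn K hK) g⟩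

private theorem no_index_odd (G : Type) [Group G] [Finite G] : Odd (no G).index := by
  have hN := no_normal G
  rw [← Nat.not_even_iff_odd, even_iff_two_dvd]
  intro h
  have h2 : Fact (Nat.Prime 2) := ⟨Nat.prime_two⟩
  have h' : 2 ∣ Nat.card (G ⧸ no G) := h
  obtain ⟨x, hx⟩ := exists_prime_orderOf_dvd_card' 2 h'
  obtain ⟨g, rfl⟩ := QuotientGroup.mk_surjective x
  have hg1 : g ∉ no G := by
    intro hg
    rw [(QuotientGroup.eq_one_iff g).2 hg, orderOf_one] at hx
    omega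
  have hg2 : g ^ 2 ∈ no G := by
    rw [← QuotientGroup.eq_one_iff, QuotientGroup.mk_pow, ← hx, pow_orderOf_eq_one]
  apply hg1
  refine Subgroup.mem_sInf.2 ?_
  rintro K ⟨hK, p, hp, hp2, hi⟩
  have h3 : g ^ 2 ∈ K := Subgroup.mem_sInf.1 hg2 K ⟨hK, p, hp, hp2, hi⟩
  rw [← QuotientGroup.eq_one_iff] at h3 ⊢
  rw [QuotientGroup.mk_pow] at h3
  have h4 : orderOf (g : G ⧸ K) ∣ 2 := orderOf_dvd_of_pow_eq_one h3
  have h5 : orderOf (g : G ⧸ K) ∣ p := by
    have h6 := orderOf_dvd_natCard (g : G ⧸ K)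
    have h7 : Nat.card (G ⧸ K) = p := hi
    rwa [h7] at h6
  have h6 : Nat.gcd 2 p = 1 := (Nat.coprime_primes Nat.prime_two hp).2 (Ne.symm hp2)
  have h7 : orderOf (g : G ⧸ K) ∣ 1 := h6 ▸ Nat.dvd_gcd h4 h5
  exact orderOf_eq_one_iff.1 (Nat.dvd_one.1 h7)

theorem nil_odd {G : Type} [Group G] [Finite G] (Y : Subgroup G) (h : Y ⊔ na G = ⊤) :
    ∃ a m : ℕ, Nat.card Y = 2 ^ a * m ∧ Odd m ∧ (no G).index ≤ m := by
  have hN := no_normal G
  obtain ⟨a, m, hm, hY⟩ := Nat.exists_eq_two_pow_mul_odd (n := Nat.card Y) Nat.card_pos.ne'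
  refine ⟨a, m, hY, hm, ?_⟩
  have h1 : na G ≤ no G := by
    refine sInf_le_sInf ?_
    rintro K ⟨hK, p, hp, _, hi⟩
    exact ⟨hK, p, hp, hi⟩
  have h2 : Y ⊔ no G = ⊤ := by
    rw [eq_top_iff, ← h]
    exact sup_le_sup_left h1 _
  have h3 : (no G).index = (no G).relIndex Y := by
    rw [← Subgroup.relIndex_top_right, ← h2, Subgroup.relIndex_sup_right]
  have h4 : (no G).index ∣ 2 ^ a * m := by
    rw [h3, ← hY]
    exact Subgroup.relIndex_dvd_card (no G) Y
  have h5 : Nat.Coprime (no G).index (2 ^ a) := by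
    refine Nat.Coprime.pow_right a ?_
    exact (Nat.coprime_two_right).2 (no_index_odd G)
  exact Nat.le_of_dvd hm.pos (h5.dvd_of_dvd_mul_left h4)

end Pool.Agent.SvS
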