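import Pool.Agent.SvS.ExtC
import Pool.Agent.SvS.TypeS
import Pool.Agent.SvS.TypeR
import Pool.Agent.SvS.PrimeC
import Pool.Agent.SvS.NilSupp
import Pool.Agent.SvS.Tr

/-!
MP_7fa120_al, solvable subgroups. One step of the process.

`type_m`. `δ ≥ 2`. `type_s` (with `K = K 0`) gives `S`, `type_r` the count, `many_of_rec` gives `Many H ((δ / 2) * (δ - δ / 2)) ((Nat.log 2 q + 1) ^ 2)`, and
`many_mono`: `ga k ≤ (δ / 2) * (δ - δ / 2)` as `k - 1 ≤ δ`; `q ^ δ ≤ |H| ≤ |X|` (`indep_card`) gives `δ * Nat.log 2 q ≤ Nat.log 2 |X|`.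
`step_b`. Let `G = H` (as a group), `Y` nilpotent with `Y ⊔ na G = ⊤` (`nil_supp`), and apply `gen` with `R = na G`. First alternative: `Nil H (no H).index k`
(`nil_odd`; map everything to `X`). Second alternative: `extr` gives `C`, `δ`, `K` with `q = N.relIndex M` and `k ≤ δ + 1`, so `δ ≥ 2`. If `q` is not prime
`type_m`. Let `q` be prime. `C ≠ ⊤`: otherwise `[g, m] ∈ N` for all `g ∈ G`, `m ∈ M`; `Cm Y N M` is not empty (`1 ≤ q ^ k`), let `L` be in it;
`L` is normalised by `L` and by `M` (`[l, m] ∈ N ≤ L`), so it is normal, and its index is `q` (`L ⊓ M = N`, `cm_inf`), a prime; so `na G ≤ L` and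
`M ≤ na G ≤ L`, `L = ⊤`, a contradiction. `prime_x` gives `x`, `prime_c` the inequality; `H' = C.map H.subtype`, and `(no H').index = (no C).index` as `H'` and `C` are
isomorphic (`no_iso`).
-/

set_option autoImplicit false

namespace Pool.Agent.SvS

theorem no_iso {G G' : Type} [Group G] [Group G'] (e : G ≃* G') : (no G).index = (no G').index := by
  have h : (no G').comap e.toMonoidHom = no G := by
    ext x
    rw [Subgroup.mem_comap]
    unfold no
    rw [Subgroup.mem_sInf, Subgroup.mem_sInf]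
    constructor
    · rintro hx K ⟨hK, p, hp, hp2, hi⟩
      have h1 := hx (K.comap e.symm.toMonoidHom) ⟨hK.comap _, p, hp, hp2, by
        rw [Subgroup.index_comap_of_surjective K (f := e.symm.toMonoidHom) e.symm.surjective]
        exact hi⟩
      rw [Subgroup.mem_comap] at h1
      simpa using h1
    · rintro hx K ⟨hK, p, hp, hp2, hi⟩
      exact hx (K.comap e.toMonoidHom) ⟨hK.comap _, p, hp, hp2, by
        rw [Subgroup.index_comap_of_surjective K (f := e.toMonoidHom) e.surjective]
        exact hi⟩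
  rw [← h]
  exact Subgroup.index_comap_of_surjective (no G') (f := e.toMonoidHom) e.surjective

theorem type_m {X : Type} [Group X] [Finite X] (H : Subgroup X) (C : Subgroup H) (q δ : ℕ) (K : Fin δ → Subgroup H)
    (h : Indep C q δ K) (hq : ¬ q.Prime) (k : ℕ) (hk : 3 ≤ k) (hδ : k ≤ δ + 1) :
    Many H (ga k) (ja (Nat.log 2 (Nat.card X)) k) := by
  have i0 : Fin δ := ⟨0, by omega⟩
  obtain ⟨S, hS1, hS2⟩ := type_s (h.1 i0).1 (h.1 i0).2.1 (h.1 i0).2.2
  have h1 := type_r h hq S hS2
  have h2 := many_of_rec H C S hS2 _ _ hS1 h1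
  refine many_mono h2 ?_ ?_
  · unfold ga
    exact Nat.mul_le_mul (by omega) (by omega)
  · unfold ja
    refine Nat.pow_le_pow_left (Nat.succ_le_succ ?_) 2
    rw [Nat.le_div_iff_mul_le (by omega)]
    have hq0 : q ≠ 0 := by
      rw [← (h.1 i0).2.1]
      exact (Subgroup.index_ne_zero_of_finite : ((K i0).subgroupOf C).index ≠ 0)
    have h3 : q ^ δ ≤ Nat.card H := indep_card h
    have h4 : Nat.card H ≤ Nat.card X := Subgroup.card_le_card_group H
    have h5 : 2 ^ Nat.log 2 q ≤ q := Nat.pow_log_le_self 2 hq0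
    refine Nat.le_log_of_pow_le (by norm_num) ?_
    calc 2 ^ (Nat.log 2 q * (k - 1)) = (2 ^ Nat.log 2 q) ^ (k - 1) := pow_mul _ _ _
      _ ≤ q ^ (k - 1) := Nat.pow_le_pow_left h5 _
      _ ≤ q ^ δ := Nat.pow_le_pow_right (Nat.pos_of_ne_zero hq0) (by omega)
      _ ≤ Nat.card X := h3.trans h4

theorem step_b {X : Type} [Group X] [Finite X] (H : Subgroup X) (hs : Group.IsSolvable H) (k : ℕ) (hk : 3 ≤ k) :
    Nil H (no H).index k ∨ Many H (ga k) (ja (Nat.log 2 (Nat.card X)) k) ∨
      ∃ (H' : Subgroup X) (x : X), H' ≤ H ∧ H' ⊔ Subgroup.zpowers x = H ∧ (no H).index * 2 ^ (k - 2) ≤ (no H').index := by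
  obtain ⟨Y, hY1, hY2⟩ := nil_supp H
  rcases gen H hs Y (na H) (na_normal H) hY2 k with ⟨S, _, hS2, hS3⟩ | ⟨N, M, hch, hM, hcard⟩
  · left
    obtain ⟨a, m, hm1, hm2, hm3⟩ := nil_odd Y hY2
    refine ⟨Y.map H.subtype, S.map ⟨H.subtype, H.subtype_injective⟩, a, m, ?_, ?_, hm2, hm3, ?_, ?_⟩
    · have e := Y.equivMapOfInjective H.subtype H.subtype_injective
      exact (Group.isNilpotent_congr e).1 hY1
    · rw [← hm1]
      exact Subgroup.card_map_of_injective H.subtype_injective
    · rw [Finset.card_map]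
      exact hS2
    · rw [Finset.coe_map]
      change Y.map H.subtype ⊔ Subgroup.closure (H.subtype '' (S : Set H)) = H
      rw [← MonoidHom.map_closure, ← Subgroup.map_sup, hS3, ← MonoidHom.range_eq_map, Subgroup.range_subtype]
  · right
    obtain ⟨C, δ, K, hC, hI, hδ⟩ := extr hs Y N M hch k hcard
    by_cases hq : (N.relIndex M).Prime
    · right
      have i0 : Fin δ := ⟨0, by omega⟩
      have hCtop : C ≠ ⊤ := by
        intro htop
        have hpos : 0 < Nat.card (Cm Y N M) :=
          lt_of_lt_of_le (Nat.pow_pos hq.pos) hcard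
        obtain ⟨⟨L, hL1, hL2, hL3, hL4⟩⟩ := (Nat.card_pos_iff.1 hpos).1
        have hinf := cm_inf hs hch hL1 hL3 hL4
        obtain ⟨hNn, hMn, hlt, _⟩ := hch
        have hLn : L.Normal := by
          refine ⟨fun x hx g => ?_⟩
          have hg : g ∈ L ⊔ M := by rw [hL3]; exact Subgroup.mem_top g
          obtain ⟨l, hl, m, hm, rfl⟩ := Subgroup.mem_sup_of_normal_right.1 hg
          have h1 : x * m * x⁻¹ * m⁻¹ ∈ N := (hC x).1 (by rw [htop]; exact Subgroup.mem_top x) m hm
          have e1 : l * m * x * (l * m)⁻¹ = l * ((x * m * x⁻¹ * m⁻¹)⁻¹ * x) * l⁻¹ := by group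
          rw [e1]
          exact mul_mem (mul_mem hl (mul_mem (inv_mem (hL1 h1)) hx)) (inv_mem hl)
        have hidx : L.index = N.relIndex M := by
          rw [← hinf, Subgroup.inf_relIndex_right, ← Subgroup.relIndex_sup_right (H := M) (K := L),
            sup_comm, hL3, Subgroup.relIndex_top_right]
        have h2 : na H ≤ L := sInf_le ⟨hLn, N.relIndex M, hq, hidx⟩
        apply hL4
        rw [← hL3]
        exact (sup_eq_left.2 (hM.trans h2)).symm
      obtain ⟨⟨x, hx⟩, _, _⟩ := prime_x (hI.1 i0).1 (hI.1 i0).2.1 hq (hI.1 i0).2.2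
      have h1 := prime_c hI hq (by omega) hCtop
      refine ⟨C.map H.subtype, (x : X), Subgroup.map_subtype_le C, ?_, ?_⟩
      · have h2 : (Subgroup.zpowers x).map H.subtype = Subgroup.zpowers (x : X) :=
          MonoidHom.map_zpowers H.subtype x
        rw [← h2, ← Subgroup.map_sup, hx, ← MonoidHom.range_eq_map, Subgroup.range_subtype]
      · rw [← no_iso (C.equivMapOfInjective H.subtype H.subtype_injective)]
        refine le_trans (Nat.mul_le_mul_left _ ?_) h1
        exact Nat.pow_le_pow_right (by norm_num) (by omega)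
    · left
      exact type_m H C _ δ K hI hq k hk hδ

end Pool.Agent.SvS
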