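import Pool.Agent.SvS.Defs2
import Pool.Agent.BdO.OddLow

/-!
MP_7fa120_al, solvable subgroups. Many solvable subgroups of order `3 * 2 ^ a` for `n = 3 mod 4`.

This is `Pool.Agent.BdO.odd_low` (`BdO/OddLow.lean`, proved there; copy it) with `K = 3`, for the solvable groups among those counted: the groups
`H = P ⊔ zpowers c` constructed there (`c` a 3-cycle with `p c p⁻¹ = c` or `c⁻¹` for all `p ∈ P`) are solvable: `zpowers c` is an abelian normal subgroup of `H`
and the quotient is a 2-group. (Or: every group of order `3 * 2 ^ a` with a normal subgroup of order 3 is solvable.)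
Shorter, as done here: EVERY group of order `3 * 2 ^ a` is solvable (action on the three cosets of a Sylow 2-subgroup), so `nX 3 n ≤ nY n`.
-/

set_option autoImplicit false

namespace Pool.Agent.SvS

open Equiv Pool.Agent.NilS Pool.Agent.BdO

private theorem perm_three_solvable : Group.IsSolvable (Perm (Fin 3)) := by
  have h1 : Nat.card (alternatingGroup (Fin 3)) = 3 := by
    rw [nat_card_alternatingGroup, Nat.card_fin]
    rfl
  have h2 : Fact (Nat.Prime 3) := ⟨Nat.prime_three⟩
  have h3 : IsCyclic (alternatingGroup (Fin 3)) := isCyclic_of_prime_card h1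
  have h4 : Group.IsSolvable (alternatingGroup (Fin 3)) := by
    refine Group.isSolvable_of_comm fun a b => ?_
    exact (IsCyclic.isMulCommutative (α := alternatingGroup (Fin 3))).is_comm.comm a b
  refine Group.isSolvable_of_ker_le_range (alternatingGroup (Fin 3)).subtype Perm.sign ?_
  rw [Subgroup.range_subtype]
  exact le_of_eq rfl

/-- A group of order `2 ^ a * 3` is solvable. -/
private theorem sol_three {G : Type} [Group G] [Finite G] {a : ℕ} (h : Nat.card G = 2 ^ a * 3) :
    Group.IsSolvable G := by
  have : Fact (Nat.Prime 2) := ⟨Nat.prime_two⟩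
  obtain ⟨P⟩ : Nonempty (Sylow 2 G) := inferInstance
  have hfac : (Nat.card G).factorization 2 = a := by
    rw [h, Nat.factorization_mul (by positivity) (by norm_num), Nat.Prime.factorization_pow Nat.prime_two,
      Finsupp.add_apply, Finsupp.single_eq_same, Nat.factorization_eq_zero_of_not_dvd (by norm_num), add_zero]
  have hcard : Nat.card P = 2 ^ a := by rw [P.card_eq_multiplicity, hfac]
  have hidx : (P : Subgroup G).index = 3 := by
    have h3 := (P : Subgroup G).card_mul_index
    have h4 : Nat.card (P : Subgroup G) = 2 ^ a := hcard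
    rw [h4, h] at h3
    exact Nat.eq_of_mul_eq_mul_left (by positivity) h3
  have hP : Group.IsSolvable (P : Subgroup G) := by
    have h5 := P.isPGroup'.isNilpotent
    infer_instance
  have hQ : Group.IsSolvable (Perm (G ⧸ (P : Subgroup G))) := by
    have f : (G ⧸ (P : Subgroup G)) ≃ Fin 3 := Finite.equivFinOfCardEq hidx
    have := perm_three_solvable
    exact Group.isSolvable_of_isSolvable_injective (f := (f.permCongrHom : _ ≃* _).toMonoidHom)
      (f.permCongrHom.injective)
  refine Group.isSolvable_of_ker_le_range (P : Subgroup G).subtype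
    (MulAction.toPermHom G (G ⧸ (P : Subgroup G))) ?_
  rw [Subgroup.range_subtype, ← Subgroup.normalCore_eq_ker]
  exact Subgroup.normalCore_le _

private theorem sol_of_bdd {n : ℕ} {H : Subgroup (Perm (Fin n))} (hB : Bdd 3 H) (hT : ¬ Two H) :
    Group.IsSolvable H := by
  obtain ⟨a, k, h1, h2, h3⟩ := hB
  have h4 : k = 1 ∨ k = 3 := by
    obtain ⟨m, hm⟩ := h2
    omega
  rcases h4 with rfl | rfl
  · exact absurd ⟨a, by rw [h1, mul_one]⟩ hT
  · exact sol_three h1

private theorem nX_le (n : ℕ) : nX 3 n ≤ nY n :=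
  Nat.card_le_card_of_injective (fun H : {H : Subgroup (Perm (Fin n)) // Bdd 3 H ∧ ¬ Two H} =>
    (⟨H.1, sol_of_bdd H.2.1 H.2.2, H.2.1, H.2.2⟩ :
      {H : Subgroup (Perm (Fin n)) // Group.IsSolvable H ∧ Bdd 3 H ∧ ¬ Two H}))
    fun _ _ h => Subtype.ext (congrArg (fun z : {H : Subgroup (Perm (Fin n)) //
      Group.IsSolvable H ∧ Bdd 3 H ∧ ¬ Two H} => z.1) h)

theorem odd_low_sol {n : ℕ} (hn : n % 4 = 3) : nTwo n ≤ 3 * nY n + n ^ 3 * nTwo (n - 3) :=
  (odd_low hn le_rfl).trans (Nat.add_le_add_right (Nat.mul_le_mul_left 3 (nX_le n)) _)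

end Pool.Agent.SvS
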