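import Pool.Agent.SvS.GrowQ
import Pool.Agent.SvS.Defs2

/-!
MP_7fa120_al, solvable subgroups. Real analysis: case (L1).

Proof. Let `n` be large, `L = LL n` (`n ^ (3/64) / 2 ≤ L ≤ n ^ (3/64)`), `k = kb n ≤ n ^ (29/32)`, `sg n < s ≤ n`, `(k₁, k₂, s₂)` in the index set of `LB n L s`,
`z = s₂ - k₂ + k₁`. `k₂ ≤ s₂ / L ≤ s₂ / 2`, so `(k₁ + s₂) / 2 ≤ z ≤ n`, and `s ≤ 2 L (k₁ + s₂)`, so `k₁ + s₂ ≥ s / (2 L)` is large (`sg n ≥ n ^ (1/4) / 2`), `z ≥ 2`.
`nTwo (n - s₂ + k₂ - k₁) ≤ nTwo (n - z)` (equal), and by `grow_all` it is at most `nTwo n * exp (- z n ^ (31/32) / 96)`. The logarithm of the other factors is at most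
`(s + s k + s log_2 n + k₁ + (log_2 n + 1) k₂ 2 n) log n`, where `s (1 + k + log_2 n) ≤ 4 (L k₁ + s₂) n ^ (29/32) ≤ 4 (k₁ + s₂) n ^ (61/64)` and
`k₂ n ≤ 2 s₂ n ^ (61/64)`; with the logarithms everything is at most `(k₁ + s₂) n ^ (123/128) ≤ z n ^ (31/32) / 200` for large `n`. So every term is at most
`nTwo n * exp (- z n ^ (31/32) / 400) ≤ nTwo n * exp (- n ^ (31/32) / 200)`, and there are at most `n (n + 1) ^ 3` terms.
-/

set_option autoImplicit false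

namespace Pool.Agent.SvS

open Equiv Pool.Agent.NilS Filter Topology

/-- The sizes in terms of `a = n ^ (1 / 128)`. -/
private theorem anL_size : ∃ n₀ : ℕ, ∀ n : ℕ, n₀ ≤ n → ∃ a : ℝ, 200 ≤ a ∧ Real.log n ≤ a / 100 ∧
    (Nat.log 2 n : ℝ) + 1 ≤ a / 100 ∧ a ^ 128 = n ∧ (n : ℝ) ^ (31 / 32 : ℝ) = a ^ 124 ∧
    (n : ℝ) ^ (29 / 32 : ℝ) = a ^ 116 ∧ (n : ℝ) ^ (3 / 64 : ℝ) = a ^ 6 := by
  have h := (isLittleO_log_rpow_atTop (show (0 : ℝ) < 1 / 128 by norm_num)).bound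
    (show (0 : ℝ) < Real.log 2 / 200 by positivity)
  have h' := tendsto_natCast_atTop_atTop (R := ℝ) |>.eventually h
  have h2 : ∀ᶠ m : ℕ in atTop, (200 : ℝ) ≤ (m : ℝ) ^ (1 / 128 : ℝ) :=
    ((tendsto_rpow_atTop (show (0 : ℝ) < 1 / 128 by norm_num)).comp
      (tendsto_natCast_atTop_atTop (R := ℝ))).eventually_ge_atTop 200
  obtain ⟨m₀, hm₀⟩ := eventually_atTop.1 (h'.and h2)
  refine ⟨max m₀ 1, fun n hn => ?_⟩
  obtain ⟨h3, h4⟩ := hm₀ n ((le_max_left _ _).trans hn)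
  have hn1 : 1 ≤ n := (le_max_right _ _).trans hn
  have hnR : (1 : ℝ) ≤ n := by exact_mod_cast hn1
  have hn0 : (0 : ℝ) < n := by linarith
  have h5 : Real.log n ≤ Real.log 2 / 200 * (n : ℝ) ^ (1 / 128 : ℝ) := by
    have := h3
    rw [Real.norm_of_nonneg (Real.log_nonneg hnR), Real.norm_of_nonneg (by positivity)] at this
    exact this
  have hl2 : (0 : ℝ) < Real.log 2 := Real.log_pos (by norm_num)
  have hl3 : Real.log 2 ≤ 1 := by
    have := Real.log_two_lt_d9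
    linarith
  have h6 : (Nat.log 2 n : ℝ) ≤ (n : ℝ) ^ (1 / 128 : ℝ) / 200 := by
    have h7 : ((2 : ℝ) ^ (Nat.log 2 n)) ≤ n := by exact_mod_cast Nat.pow_log_le_self 2 (by omega)
    have h8 : (Nat.log 2 n : ℝ) * Real.log 2 ≤ Real.log n := by
      rw [← Real.log_pow]
      exact Real.log_le_log (by positivity) h7
    have h9 : (Nat.log 2 n : ℝ) * Real.log 2 ≤ (n : ℝ) ^ (1 / 128 : ℝ) / 200 * Real.log 2 := by
      refine h8.trans (h5.trans (le_of_eq ?_))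
      ring
    exact le_of_mul_le_mul_right h9 hl2
  refine ⟨(n : ℝ) ^ (1 / 128 : ℝ), h4, ?_, by linarith, ?_, ?_, ?_, ?_⟩
  · refine h5.trans ?_
    have : Real.log 2 / 200 ≤ 1 / 200 := by linarith
    nlinarith
  · rw [← Real.rpow_natCast, ← Real.rpow_mul hn0.le]
    norm_num
  · rw [← Real.rpow_natCast, ← Real.rpow_mul hn0.le]
    norm_num
  · rw [← Real.rpow_natCast, ← Real.rpow_mul hn0.le]
    norm_num
  · rw [← Real.rpow_natCast, ← Real.rpow_mul hn0.le]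
    norm_num

/-- The estimate of the exponent. -/
private theorem anL_real (a l s k L k₁ k₂ s₂ z N : ℝ) (ha : 200 ≤ a) (hl : l + 1 ≤ a / 100) (hl0 : 0 ≤ l)
    (hN : N = a ^ 128) (hk : k ≤ a ^ 116) (hk0 : 0 ≤ k) (hL : L ≤ a ^ 6) (hL0 : a ^ 6 ≤ 2 * L) (hs0 : 0 ≤ s)
    (hk1 : 0 ≤ k₁) (hk2 : 0 ≤ k₂) (hs2 : 0 ≤ s₂) (hz : k₁ + s₂ ≤ 2 * z) (hz2 : 2 ≤ z)
    (h1 : s ≤ 2 * (L * k₁ + s₂)) (h2 : L * k₂ ≤ s₂) :
    (s + s * k + s * l + (k₁ + (l + 1) * k₂ * (2 * N)) + 9) * (a / 100) ≤ z * a ^ 124 / 96 := by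
  have ha1 : (1 : ℝ) ≤ a := by linarith
  have ha0 : (0 : ℝ) < a := by linarith
  have hp6 : (1 : ℝ) ≤ a ^ 6 := one_le_pow₀ ha1
  have hp116 : a ≤ a ^ 116 := by
    calc a = a ^ 1 := (pow_one a).symm
      _ ≤ a ^ 116 := pow_le_pow_right₀ ha1 (by norm_num)
  have hp122 : a ≤ a ^ 122 := by
    calc a = a ^ 1 := (pow_one a).symm
      _ ≤ a ^ 122 := pow_le_pow_right₀ ha1 (by norm_num)
  set w := k₁ + s₂ with hw
  have hw0 : 0 ≤ w := by positivity
  -- the part with `s`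
  have e1 : L * k₁ + s₂ ≤ a ^ 6 * w := by
    have i1 : L * k₁ ≤ a ^ 6 * k₁ := mul_le_mul_of_nonneg_right hL hk1
    have i2 : 1 * s₂ ≤ a ^ 6 * s₂ := mul_le_mul_of_nonneg_right hp6 hs2
    rw [hw]
    nlinarith
  have e2 : s ≤ 2 * (a ^ 6 * w) := by linarith
  have e3 : 1 + k + l ≤ 2 * a ^ 116 := by linarith
  have e4 : s * (1 + k + l) ≤ 4 * a ^ 122 * w := by
    calc s * (1 + k + l) ≤ (2 * (a ^ 6 * w)) * (2 * a ^ 116) :=
          mul_le_mul e2 e3 (by positivity) (by positivity)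
      _ = 4 * a ^ 122 * w := by ring
  -- the part with `k₂`
  have e5 : a ^ 6 * k₂ ≤ 2 * s₂ := by
    have : a ^ 6 * k₂ ≤ 2 * L * k₂ := mul_le_mul_of_nonneg_right hL0 hk2
    linarith
  have e6 : (l + 1) * k₂ * (2 * N) ≤ (a / 100) * (4 * a ^ 122 * w) := by
    have i1 : k₂ * (2 * N) ≤ 4 * a ^ 122 * w := by
      rw [hN]
      calc k₂ * (2 * a ^ 128) = 2 * a ^ 122 * (a ^ 6 * k₂) := by ring
        _ ≤ 2 * a ^ 122 * (2 * s₂) := mul_le_mul_of_nonneg_left e5 (by positivity)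
        _ = 4 * a ^ 122 * s₂ := by ring
        _ ≤ 4 * a ^ 122 * w := mul_le_mul_of_nonneg_left (by linarith) (by positivity)
    calc (l + 1) * k₂ * (2 * N) = (l + 1) * (k₂ * (2 * N)) := by ring
      _ ≤ (a / 100) * (4 * a ^ 122 * w) := by
        refine mul_le_mul hl i1 ?_ (by positivity)
        rw [hN]
        positivity
  have e7 : k₁ + 9 ≤ a ^ 122 * (w + 9) := by
    have : (1 : ℝ) ≤ a ^ 122 := by linarith
    nlinarith
  have e8 : s + s * k + s * l + (k₁ + (l + 1) * k₂ * (2 * N)) + 9 ≤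
      4 * a ^ 122 * w + (a / 100) * (4 * a ^ 122 * w) + a ^ 122 * (w + 9) := by
    have : s + s * k + s * l = s * (1 + k + l) := by ring
    linarith
  -- `w ≤ 2 z`, `9 ≤ 5 z`
  have e9 : 4 * a ^ 122 * w + (a / 100) * (4 * a ^ 122 * w) + a ^ 122 * (w + 9) ≤
      (15 + 8 * (a / 100)) * (a ^ 122 * z) := by
    have hA : 0 ≤ a ^ 122 := by positivity
    have i1 : a ^ 122 * w ≤ a ^ 122 * (2 * z) := mul_le_mul_of_nonneg_left hz hA
    have i2 : a ^ 122 * 9 ≤ a ^ 122 * (5 * z) := mul_le_mul_of_nonneg_left (by linarith) hA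
    have i3 : (a / 100) * (4 * (a ^ 122 * w)) ≤ (a / 100) * (4 * (a ^ 122 * (2 * z))) :=
      mul_le_mul_of_nonneg_left (by linarith) (by positivity)
    nlinarith
  have e10 : (15 + 8 * (a / 100)) * (a / 100) ≤ a ^ 2 / 96 := by nlinarith
  have hzA : 0 ≤ a ^ 122 * z := by positivity
  calc (s + s * k + s * l + (k₁ + (l + 1) * k₂ * (2 * N)) + 9) * (a / 100)
      ≤ ((15 + 8 * (a / 100)) * (a ^ 122 * z)) * (a / 100) :=
        mul_le_mul_of_nonneg_right (e8.trans e9) (by positivity)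
    _ = ((15 + 8 * (a / 100)) * (a / 100)) * (a ^ 122 * z) := by ring
    _ ≤ (a ^ 2 / 96) * (a ^ 122 * z) := mul_le_mul_of_nonneg_right e10 hzA
    _ = z * a ^ 124 / 96 := by ring

/-- Every term is small. -/
private theorem anL_term : ∃ n₀ : ℕ, ∀ n : ℕ, n₀ ≤ n → ∀ s k₁ k₂ s₂ : ℕ, sg n < s →
    s ≤ 2 * (LL n * k₁ + s₂) → LL n * k₂ ≤ s₂ → k₁ + s₂ ≤ n →
    n ^ s * n ^ (s * kb n) * n ^ (s * Nat.log 2 n) *
      (n ^ k₁ * n ^ ((Nat.log 2 n + 1) * k₂ * (2 * n)) * nTwo (n - s₂ + k₂ - k₁)) * n ^ 9 ≤ nTwo n := by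
  obtain ⟨n₁, hn₁⟩ := anL_size
  obtain ⟨n₂, hn₂⟩ := grow_all
  refine ⟨max n₁ (max n₂ 1), fun n hn s k₁ k₂ s₂ hs h1 h2 h3 => ?_⟩
  obtain ⟨a, ha, hlog, hl, hN, h31, h29, h3'⟩ := hn₁ n ((le_max_left _ _).trans hn)
  have hn2 : n₂ ≤ n := (le_max_left _ _).trans ((le_max_right _ _).trans hn)
  have hn1 : 1 ≤ n := (le_max_right _ _).trans ((le_max_right _ _).trans hn)
  have hnR : (1 : ℝ) ≤ n := by exact_mod_cast hn1
  have hn0 : (0 : ℝ) < n := by linarith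
  have ha1 : (1 : ℝ) ≤ a := by linarith
  -- the size of `L`
  have hL : (LL n : ℝ) ≤ a ^ 6 := by
    unfold LL
    rw [h3']
    exact Nat.floor_le (by positivity)
  have hp6 : (200 : ℝ) ≤ a ^ 6 := by
    calc (200 : ℝ) ≤ a ^ 1 := by rw [pow_one]; exact ha
      _ ≤ a ^ 6 := pow_le_pow_right₀ ha1 (by norm_num)
  have hL0 : a ^ 6 ≤ 2 * (LL n : ℝ) := by
    have : a ^ 6 < (LL n : ℝ) + 1 := by
      unfold LL
      rw [h3']
      exact Nat.lt_floor_add_one _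
    linarith
  have hL2 : 2 ≤ LL n := by
    have : (2 : ℝ) ≤ LL n := by linarith
    exact_mod_cast this
  have hkb : (kb n : ℝ) ≤ a ^ 116 := by
    unfold kb
    rw [h29]
    exact Nat.floor_le (by positivity)
  -- `sg n` is at least `4 L`
  have hsg : 4 * LL n ≤ sg n := by
    unfold sg
    rw [Nat.le_sqrt, Nat.le_sqrt]
    have : ((4 * LL n * (4 * LL n) * (4 * LL n * (4 * LL n)) : ℕ) : ℝ) ≤ (n : ℝ) := by
      push_cast
      have i1 : (LL n : ℝ) ^ 4 ≤ (a ^ 6) ^ 4 := pow_le_pow_left₀ (by positivity) hL 4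
      have i2 : (256 : ℝ) ≤ a ^ 104 := by
        calc (256 : ℝ) ≤ (200 : ℝ) ^ 2 := by norm_num
          _ ≤ a ^ 2 := pow_le_pow_left₀ (by norm_num) ha 2
          _ ≤ a ^ 104 := pow_le_pow_right₀ ha1 (by norm_num)
      calc (4 * (LL n : ℝ) * (4 * LL n) * (4 * LL n * (4 * LL n))) = 256 * (LL n : ℝ) ^ 4 := by ring
        _ ≤ a ^ 104 * (a ^ 6) ^ 4 := mul_le_mul i2 i1 (by positivity) (by positivity)
        _ = a ^ 128 := by ring
        _ = n := hN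
    exact_mod_cast this
  -- `z`
  have hk2s : 2 * k₂ ≤ s₂ := (Nat.mul_le_mul_right k₂ hL2).trans h2
  obtain ⟨z, hz⟩ : ∃ z, z = s₂ - k₂ + k₁ := ⟨_, rfl⟩
  have hzw : k₁ + s₂ ≤ 2 * z := by omega
  have hzn : z ≤ n := by omega
  have hw3 : 3 ≤ k₁ + s₂ := by
    by_contra hcon
    have i1 : k₁ + s₂ ≤ 2 := by omega
    have i2 : LL n * k₁ + s₂ ≤ LL n * (k₁ + s₂) := by
      have : 1 * s₂ ≤ LL n * s₂ := Nat.mul_le_mul_right _ (by omega)
      rw [Nat.mul_add]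
      omega
    have i3 : LL n * (k₁ + s₂) ≤ LL n * 2 := Nat.mul_le_mul_left _ i1
    omega
  have hz2 : 2 ≤ z := by omega
  have hsub : n - s₂ + k₂ - k₁ = n - z := by omega
  have hgrow := hn₂ n hn2 z hz2 hzn
  rw [h31] at hgrow
  -- the exponent
  set E := s + s * kb n + s * Nat.log 2 n + (k₁ + (Nat.log 2 n + 1) * k₂ * (2 * n)) + 9 with hE
  have hEr : (E : ℝ) * (a / 100) ≤ z * a ^ 124 / 96 := by
    have := anL_real a (Nat.log 2 n) s (kb n) (LL n) k₁ k₂ s₂ z n ha hl (by positivity) hN.symm hkb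
      (by positivity) hL hL0 (by positivity) (by positivity) (by positivity) (by positivity)
      (by exact_mod_cast hzw) (by exact_mod_cast hz2) (by exact_mod_cast h1) (by exact_mod_cast h2)
    rw [hE]
    push_cast
    exact this
  have hpow : (n : ℝ) ^ E ≤ Real.exp (z * a ^ 124 / 96) := by
    have i1 : (n : ℝ) ^ E = Real.exp (E * Real.log n) := by
      rw [Real.exp_nat_mul, Real.exp_log hn0]
    rw [i1]
    refine Real.exp_le_exp.2 ?_
    exact (mul_le_mul_of_nonneg_left hlog (by positivity)).trans hEr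
  have hmain : (nTwo (n - z) : ℝ) * (n : ℝ) ^ E ≤ nTwo n :=
    (mul_le_mul_of_nonneg_left hpow (by positivity)).trans hgrow
  have hnat : nTwo (n - z) * n ^ E ≤ nTwo n := by exact_mod_cast hmain
  rw [hsub]
  refine le_trans (le_of_eq ?_) hnat
  rw [hE, pow_add, pow_add, pow_add, pow_add, pow_add]
  ring

theorem an_L : Tendsto (fun n : ℕ => ((∑ s ∈ Finset.Ioc (sg n) n, n ^ s * n ^ (s * kb n) * n ^ (s * Nat.log 2 n) *
    LB n (LL n) s : ℕ) : ℝ) / nTwo n) atTop (𝓝 0) := by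
  obtain ⟨n₀, hn₀⟩ := anL_term
  have hup : Tendsto (fun n : ℕ => (1 : ℝ) / (n : ℝ)) atTop (𝓝 0) :=
    tendsto_one_div_atTop_nhds_zero_nat
  refine tendsto_of_tendsto_of_tendsto_of_le_of_le' tendsto_const_nhds hup
    (Filter.Eventually.of_forall fun n => by positivity) ?_
  filter_upwards [eventually_ge_atTop (max n₀ 2)] with n hn
  have hn1 : n₀ ≤ n := (le_max_left _ _).trans hn
  have hn2 : 2 ≤ n := (le_max_right _ _).trans hn
  -- the bound for the sum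
  have hbound : (∑ s ∈ Finset.Ioc (sg n) n, n ^ s * n ^ (s * kb n) * n ^ (s * Nat.log 2 n) *
      LB n (LL n) s) * n ^ 9 ≤ n ^ 8 * nTwo n := by
    have h1 : ∀ s ∈ Finset.Ioc (sg n) n, n ^ s * n ^ (s * kb n) * n ^ (s * Nat.log 2 n) *
        LB n (LL n) s * n ^ 9 ≤ (n + 1) ^ 3 * nTwo n := by
      intro s hs
      obtain ⟨hs1, hs2⟩ := Finset.mem_Ioc.1 hs
      unfold LB
      rw [Finset.mul_sum, Finset.sum_mul]
      refine (Finset.sum_le_card_nsmul _ _ (nTwo n) ?_).trans ?_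
      · intro t ht
        obtain ⟨-, h2, h3, h4⟩ := Finset.mem_filter.1 ht
        exact hn₀ n hn1 s t.1 t.2.1 t.2.2 hs1 h2 h3 h4
      · rw [smul_eq_mul]
        refine Nat.mul_le_mul_right _ ?_
        refine (Finset.card_filter_le _ _).trans ?_
        rw [Finset.card_product, Finset.card_product, Finset.card_range]
        exact le_of_eq (by ring)
    rw [Finset.sum_mul]
    refine (Finset.sum_le_card_nsmul _ _ _ h1).trans ?_
    rw [smul_eq_mul, ← mul_assoc]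
    refine Nat.mul_le_mul_right _ ?_
    have h2 : (Finset.Ioc (sg n) n).card ≤ n := by
      rw [Nat.card_Ioc]
      omega
    have h3 : n + 1 ≤ n ^ 2 := by nlinarith
    calc (Finset.Ioc (sg n) n).card * (n + 1) ^ 3 ≤ n * (n ^ 2) ^ 3 :=
          Nat.mul_le_mul h2 (Nat.pow_le_pow_left h3 3)
      _ = n ^ 7 := by ring
      _ ≤ n ^ 8 := Nat.pow_le_pow_right (by omega) (by norm_num)
  set S := ∑ s ∈ Finset.Ioc (sg n) n, n ^ s * n ^ (s * kb n) * n ^ (s * Nat.log 2 n) * LB n (LL n) s with hS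
  have hS1 : S * n ≤ nTwo n := by
    have h1 : n ^ 8 * (S * n) ≤ n ^ 8 * nTwo n := by
      calc n ^ 8 * (S * n) = S * n ^ 9 := by ring
        _ ≤ n ^ 8 * nTwo n := hbound
    exact Nat.le_of_mul_le_mul_left h1 (by positivity)
  have hT : (0 : ℝ) ≤ nTwo n := by positivity
  have hnR : (0 : ℝ) < n := by exact_mod_cast (by omega : 0 < n)
  have hS2 : (S : ℝ) * n ≤ nTwo n := by exact_mod_cast hS1
  refine div_le_of_le_mul₀ hT (by positivity) ?_
  rw [div_mul_eq_mul_div, one_mul, le_div_iff₀ hnR]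
  exact hS2

end Pool.Agent.SvS
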