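import Pool.Agent.SvS.Defs2

/-!
MP_7fa120_al, solvable subgroups. Real analysis: case (a).

Proof. Let `n` be large, `b = Nat.log 2 (n !) ≤ n (log_2 n + 1)`, `k = ka n` (`n ^ (25/32) / 2 ≤ k - 2 ≤ k ≤ n ^ (25/32)`). `ja b k = (b / (k - 1) + 1) ^ 2` is at most
`(4 n ^ (7/32) (log_2 n + 1)) ^ 2 ≤ n ^ (15/32)` and `ta b k + 1 ≤ n ^ (8/32)`, so the logarithm of the numerator is at most
`2 n ^ (15/32) * n log n ≤ n ^ (48/32)`, and `ga k ≥ (k - 1) ^ 2 / 4 - 1 ≥ n ^ (50/32) / 32`.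
-/

set_option autoImplicit false

namespace Pool.Agent.SvS

open Filter Topology

private theorem anM_ev_log (a : ℝ) (ha : 0 < a) :
    ∀ᶠ n : ℕ in atTop, Real.log (n : ℝ) ≤ (n : ℝ) ^ a := by
  have h1 := (isLittleO_log_rpow_atTop ha).bound (c := 1) one_pos
  have h2 := tendsto_natCast_atTop_atTop (R := ℝ) |>.eventually h1
  filter_upwards [h2] with n hn
  rw [one_mul, Real.norm_eq_abs, Real.norm_eq_abs] at hn
  calc Real.log n ≤ |Real.log n| := le_abs_self _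
    _ ≤ |(n : ℝ) ^ a| := hn
    _ = (n : ℝ) ^ a := abs_of_nonneg (by positivity)

private theorem anM_ev_pow (a C : ℝ) (ha : 0 < a) :
    ∀ᶠ n : ℕ in atTop, C ≤ (n : ℝ) ^ a :=
  ((tendsto_rpow_atTop ha).comp tendsto_natCast_atTop_atTop).eventually_ge_atTop C

private theorem anM_hlog2 : (1 : ℝ) / 2 ≤ Real.log 2 := by
  have := Real.log_two_gt_d9
  linarith

/-- `log_2 (n !) ≤ 2 n log n` -/
private theorem anM_b {n : ℕ} (hn : 1 ≤ n) :
    ((Nat.log 2 n.factorial : ℕ) : ℝ) ≤ 2 * ((n : ℝ) * Real.log n) := by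
  have hn0 : (0 : ℝ) < n := by exact_mod_cast hn
  have h1 : 2 ^ (Nat.log 2 n.factorial) ≤ n ^ n :=
    (Nat.pow_log_le_self 2 (Nat.factorial_ne_zero n)).trans (Nat.factorial_le_pow n)
  have h2 : (2 : ℝ) ^ (Nat.log 2 n.factorial) ≤ (n : ℝ) ^ n := by exact_mod_cast h1
  have h3 := Real.log_le_log (by positivity) h2
  rw [Real.log_pow, Real.log_pow] at h3
  have h4 : (0 : ℝ) ≤ (Nat.log 2 n.factorial : ℕ) := Nat.cast_nonneg _
  nlinarith [anM_hlog2]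

private theorem anM_div {b m : ℕ} {B c t : ℝ} (hb : (b : ℝ) ≤ B) (hm : c ≤ m) (hc : 0 < c)
    (h : B ≤ t * c) (ht : 0 ≤ t) : ((b / m : ℕ) : ℝ) ≤ t := by
  have hm0 : (0 : ℝ) < m := lt_of_lt_of_le hc hm
  have h1 : ((b / m : ℕ) : ℝ) ≤ (b : ℝ) / m := Nat.cast_div_le
  refine h1.trans ?_
  rw [div_le_iff₀ hm0]
  nlinarith [mul_le_mul_of_nonneg_left hm ht]

private theorem anM_main {n : ℕ} (hn : 1 ≤ n) {t : ℝ} (ht : 6 ≤ t) (htn : t ^ 128 = n)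
    (hlog : Real.log n ≤ t) (hk : (ka n : ℝ) > t ^ 100 - 1) :
    (n.factorial : ℝ) ^ (ja (Nat.log 2 n.factorial) (ka n) + ta (Nat.log 2 n.factorial) (ka n) + 1) /
    2 ^ ga (ka n) ≤ Real.exp (-(n : ℝ)) := by
  have hn0 : (0 : ℝ) < n := by exact_mod_cast hn
  have hn1 : (1 : ℝ) ≤ n := by exact_mod_cast hn
  have ht1 : (1 : ℝ) ≤ t := by linarith
  have ht0 : (0 : ℝ) < t := by linarith
  have hlog0 : 0 ≤ Real.log n := Real.log_nonneg hn1
  have hT6 : (6 : ℝ) ≤ t ^ 100 := ht.trans (le_self_pow₀ ht1 (by norm_num))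
  have hnl : (n : ℝ) * Real.log n ≤ t ^ 129 := by
    rw [← htn] at *
    calc t ^ 128 * Real.log (t ^ 128) ≤ t ^ 128 * t := mul_le_mul_of_nonneg_left hlog (by positivity)
      _ = t ^ 129 := by ring
  set k := ka n with hkdef
  set b := Nat.log 2 n.factorial with hbdef
  have hb : (b : ℝ) ≤ 2 * t ^ 129 := (anM_b hn).trans (by linarith)
  have hk2 : t ^ 100 / 2 ≤ ((k - 2 : ℕ) : ℝ) := by
    have h1 : (k : ℝ) ≤ ((k - 2 : ℕ) : ℝ) + 2 := by
      have : k ≤ (k - 2) + 2 := by omega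
      exact_mod_cast this
    linarith
  have hk1 : t ^ 100 / 2 ≤ ((k - 1 : ℕ) : ℝ) := by
    have h1 : ((k - 2 : ℕ) : ℝ) ≤ ((k - 1 : ℕ) : ℝ) := by
      have : k - 2 ≤ k - 1 := by omega
      exact_mod_cast this
    linarith
  have hc0 : (0 : ℝ) < t ^ 100 / 2 := by positivity
  have hBc : 2 * t ^ 129 ≤ (4 * t ^ 29) * (t ^ 100 / 2) := by
    apply le_of_eq
    ring
  have h29 : (1 : ℝ) ≤ t ^ 29 := one_le_pow₀ ht1
  have h2958 : t ^ 29 ≤ t ^ 58 := pow_le_pow_right₀ ht1 (by norm_num)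
  have hd1 : ((b / (k - 1) : ℕ) : ℝ) ≤ 4 * t ^ 29 := anM_div hb hk1 hc0 hBc (by positivity)
  have hd2 : ((b / (k - 2) : ℕ) : ℝ) ≤ 4 * t ^ 29 := anM_div hb hk2 hc0 hBc (by positivity)
  have hja : (ja b k : ℝ) ≤ 25 * t ^ 58 := by
    unfold ja
    push_cast
    have h1 : (0 : ℝ) ≤ ((b / (k - 1) : ℕ) : ℝ) + 1 := by positivity
    have h2 : ((b / (k - 1) : ℕ) : ℝ) + 1 ≤ 5 * t ^ 29 := by linarith
    calc (((b / (k - 1) : ℕ) : ℝ) + 1) ^ 2 ≤ (5 * t ^ 29) ^ 2 := pow_le_pow_left₀ h1 h2 2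
      _ = 25 * t ^ 58 := by ring
  have hta : (ta b k : ℝ) + 1 ≤ 5 * t ^ 58 := by
    unfold ta
    linarith
  set E1 : ℕ := ja b k + ta b k + 1 with hE1
  have hE1' : (E1 : ℝ) ≤ 30 * t ^ 58 := by
    rw [hE1]
    push_cast
    linarith
  set E : ℕ := ga k with hE
  have hE2 : t ^ 200 / 32 ≤ (E : ℝ) := by
    set m : ℕ := k - 1 with hm
    have h5 : m ≤ 2 * (m / 2) + 1 := by omega
    have h6 : m ≤ 2 * (m - m / 2) := by omega
    have h5' : (m : ℝ) ≤ 2 * ((m / 2 : ℕ) : ℝ) + 1 := by exact_mod_cast h5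
    have h6' : (m : ℝ) ≤ 2 * ((m - m / 2 : ℕ) : ℝ) := by exact_mod_cast h6
    have hm2 : (2 : ℝ) ≤ m := by linarith
    have h7 : (m : ℝ) ^ 2 / 8 ≤ (E : ℝ) := by
      have h8 : (E : ℝ) = ((m / 2 : ℕ) : ℝ) * ((m - m / 2 : ℕ) : ℝ) := by
        rw [hE]
        unfold ga
        rw [Nat.cast_mul]
      rw [h8]
      nlinarith
    have h8 : (t ^ 100 / 2) ^ 2 ≤ (m : ℝ) ^ 2 := pow_le_pow_left₀ hc0.le hk1 2
    calc t ^ 200 / 32 = (t ^ 100 / 2) ^ 2 / 8 := by ring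
      _ ≤ (m : ℝ) ^ 2 / 8 := by linarith
      _ ≤ E := h7
  have hmain : (E1 : ℝ) * ((n : ℝ) * Real.log n) + n ≤ E * Real.log 2 := by
    have h1 : (E1 : ℝ) * ((n : ℝ) * Real.log n) ≤ 30 * t ^ 58 * t ^ 129 :=
      mul_le_mul hE1' hnl (by positivity) (by positivity)
    have h2 : (n : ℝ) ≤ t ^ 187 := by
      rw [← htn]
      exact pow_le_pow_right₀ ht1 (by norm_num)
    have h3 : t ^ 200 / 32 * (1 / 2) ≤ (E : ℝ) * Real.log 2 :=
      mul_le_mul hE2 anM_hlog2 (by norm_num) (Nat.cast_nonneg _)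
    have h4 : (1984 : ℝ) ≤ t ^ 13 := by
      calc (1984 : ℝ) ≤ 6 ^ 13 := by norm_num
        _ ≤ t ^ 13 := pow_le_pow_left₀ (by norm_num) ht 13
    have h5 : t ^ 187 * 1984 ≤ t ^ 187 * t ^ 13 := mul_le_mul_of_nonneg_left h4 (by positivity)
    have h6 : t ^ 187 * t ^ 13 = t ^ 200 := by ring
    have h7 : 30 * t ^ 58 * t ^ 129 = 30 * t ^ 187 := by ring
    rw [h7] at h1
    rw [h6] at h5
    linarith
  have hfac : (n.factorial : ℝ) ^ E1 ≤ Real.exp ((E1 : ℝ) * ((n : ℝ) * Real.log n)) := by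
    have h5 : (n.factorial : ℝ) ≤ (n : ℝ) ^ n := by exact_mod_cast Nat.factorial_le_pow n
    have h6 : (n : ℝ) ^ n = Real.exp ((n : ℝ) * Real.log n) := by
      rw [← Real.rpow_natCast, Real.rpow_def_of_pos hn0]
      congr 1
      ring
    calc (n.factorial : ℝ) ^ E1 ≤ (Real.exp ((n : ℝ) * Real.log n)) ^ E1 :=
          pow_le_pow_left₀ (by positivity) (h5.trans h6.le) _
      _ = _ := by
        rw [← Real.exp_nat_mul]
  have h2E : (2 : ℝ) ^ E = Real.exp (E * Real.log 2) := by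
    rw [mul_comm, ← Real.rpow_def_of_pos two_pos, Real.rpow_natCast]
  rw [h2E, div_le_iff₀ (Real.exp_pos _), ← Real.exp_add]
  refine hfac.trans (Real.exp_le_exp.2 ?_)
  linarith

theorem an_M : Tendsto (fun n : ℕ => (n.factorial : ℝ) ^ (ja (Nat.log 2 n.factorial) (ka n) + ta (Nat.log 2 n.factorial) (ka n) + 1) /
    2 ^ ga (ka n)) atTop (𝓝 0) := by
  have hexp : Tendsto (fun n : ℕ => Real.exp (-(n : ℝ))) atTop (nhds 0) :=
    Real.tendsto_exp_neg_atTop_nhds_zero.comp tendsto_natCast_atTop_atTop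
  refine squeeze_zero' (Eventually.of_forall fun n => by positivity) ?_ hexp
  filter_upwards [anM_ev_log (1 / 128) (by norm_num), anM_ev_pow (1 / 128) 6 (by norm_num),
    eventually_ge_atTop 1] with n h1 h2 h4
  have hn0 : (0 : ℝ) < n := by exact_mod_cast h4
  refine anM_main h4 h2 ?_ h1 ?_
  · rw [← Real.rpow_natCast, ← Real.rpow_mul hn0.le]
    norm_num
  · have h5 : ((n : ℝ) ^ (1 / 128 : ℝ)) ^ 100 = (n : ℝ) ^ (25 / 32 : ℝ) := by
      rw [← Real.rpow_natCast, ← Real.rpow_mul hn0.le]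
      norm_num
    rw [h5]
    have := Nat.lt_floor_add_one ((n : ℝ) ^ (25 / 32 : ℝ))
    unfold ka
    linarith

end Pool.Agent.SvS
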