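import Pool.Agent.SvS.GrowQ
import Pool.Agent.SvS.Defs2
import Pool.Agent.NilS.OFin
import Pool.Agent.NilS.SupT

/-!
MP_7fa120_al, solvable subgroups. Real analysis: case (b).

Proof. Let `n` be large. With `b = Nat.log 2 (n !)`, `k = ka n`: `k + ta b k + 1 ≤ 2 n ^ (25/32)` (`ta b k = b / (k - 2) ≤ n ^ (8/32)`), so
`(n !) ^ (k + ta b k + 1) ≤ exp (2 n ^ (57/32) log n)`. Let `s` be in the index set: `2 ≤ s ≤ n`, `s ≥ (kb n - 1) / (2 (log_2 n + 1)) ≥ n ^ (57/64)` (as `29/32 = 58/64`;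
so `s` is large and the bound for `nOdn s` applies: `nOdn s ≤ exp (log 2 / 17 * s ^ 2)`, the main theorem of `NilS/OFin.lean`).
(1) `s ≤ n ^ (31/32) / 10`: by `grow_all` the term is at most `nTwo n * exp (5 s log n + s ^ 2 log 2 / 17 - s n ^ (31/32) / 96) ≤
nTwo n * exp (- s n ^ (31/32) / 400)`, since `s ^ 2 log 2 / 17 ≤ s n ^ (31/32) / 245`; and `s n ^ (31/32) ≥ n ^ (119/64)`, `119/64 > 57/32 = 114/64`.
(2) `s > n ^ (31/32) / 10`: `nTwo (n - s) * nTwo s ≤ nTwo n` (`nTwo_mul`, compare `NilS/AnaL.lean`), `nTwo s ≥ 2 ^ ((s / 2 / 2) * (s / 2 - s / 2 / 2))` (`nTwo_lower`), exponent at least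
`s ^ 2 / 16 - s`, so the term is at most `nTwo n * exp (5 s log n + log 2 (s + s ^ 2 / 17 - s ^ 2 / 16)) ≤ nTwo n * exp (- s ^ 2 / 1000)` and
`s ^ 2 ≥ n ^ (62/32) / 100`. Sum over at most `n` values of `s`.
-/

set_option autoImplicit false

namespace Pool.Agent.SvS

open Equiv Pool.Agent.NilS Filter Topology

private theorem nil_f {y s : ℝ} (hy : 100 ≤ y) (hs : y ^ 57 ≤ s) :
    y ^ 115 * 10 ^ 8 ≤ s * y ^ 62 ∧ y * 10 ^ 6 ≤ y ^ 62 ∧ 1 ≤ s := by
  have hy0 : (0 : ℝ) < y := by linarith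
  have hy1 : (1 : ℝ) ≤ y := by linarith
  refine ⟨?_, ?_, ?_⟩
  · calc y ^ 115 * 10 ^ 8 = y ^ 115 * 100 ^ 4 := by norm_num
      _ ≤ y ^ 115 * y ^ 4 := by gcongr
      _ = y ^ 57 * y ^ 62 := by ring
      _ ≤ s * y ^ 62 := by gcongr
  · calc y * 10 ^ 6 = y * 100 ^ 3 := by norm_num
      _ ≤ y * y ^ 3 := by gcongr
      _ ≤ y * y ^ 61 := by
        gcongr
        norm_num
      _ = y ^ 62 := by ring
  · exact (one_le_pow₀ hy1).trans hs

private theorem nil_c1 {y s L : ℝ} (hy : 100 ≤ y) (hL : L ≤ y / 100) (hs : y ^ 57 ≤ s)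
    (hs2 : s ≤ y ^ 62 / 10) :
    3 * (y ^ 114 * L) + (5 * s * L + Real.log 2 / 17 * s ^ 2) + 2 * L ≤ s * y ^ 62 / 96 := by
  obtain ⟨f1, f2, f3⟩ := nil_f hy hs
  have hy0 : (0 : ℝ) < y := by linarith
  have hl2 : Real.log 2 < 0.6932 := lt_trans Real.log_two_lt_d9 (by norm_num)
  have g1 : y ^ 114 * L ≤ y ^ 115 / 100 := by
    calc y ^ 114 * L ≤ y ^ 114 * (y / 100) := by gcongr
      _ = y ^ 115 / 100 := by ring
  have g2 : s * L ≤ s * y / 100 := by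
    calc s * L ≤ s * (y / 100) := by gcongr
      _ = s * y / 100 := by ring
  have g3 : s * y * 10 ^ 6 ≤ s * y ^ 62 := by
    calc s * y * 10 ^ 6 = s * (y * 10 ^ 6) := by ring
      _ ≤ s * y ^ 62 := by gcongr
  have g4 : y ^ 62 ≤ s * y ^ 62 := by
    calc y ^ 62 = 1 * y ^ 62 := by ring
      _ ≤ s * y ^ 62 := by gcongr
  have g5 : s ^ 2 ≤ s * y ^ 62 / 10 := by
    calc s ^ 2 = s * s := by ring
      _ ≤ s * (y ^ 62 / 10) := by gcongr
      _ = s * y ^ 62 / 10 := by ring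
  have g6 : Real.log 2 / 17 * s ^ 2 ≤ 0.6932 / 17 * (s * y ^ 62 / 10) := by
    gcongr
  nlinarith

private theorem nil_c2 {y s L : ℝ} (hy : 100 ≤ y) (hL : L ≤ y / 100) (hs : y ^ 57 ≤ s)
    (hs2 : y ^ 62 / 10 ≤ s) :
    3 * (y ^ 114 * L) + (5 * s * L + Real.log 2 / 17 * s ^ 2) + 2 * L ≤
      Real.log 2 * (s ^ 2 / 16 - s) := by
  obtain ⟨f1, f2, f3⟩ := nil_f hy hs
  have hy0 : (0 : ℝ) < y := by linarith
  have hl2 : Real.log 2 < 0.6932 := lt_trans Real.log_two_lt_d9 (by norm_num)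
  have hl1 : 0.6931 < Real.log 2 := lt_trans (by norm_num) Real.log_two_gt_d9
  have g1 : y ^ 114 * L ≤ y ^ 115 / 100 := by
    calc y ^ 114 * L ≤ y ^ 114 * (y / 100) := by gcongr
      _ = y ^ 115 / 100 := by ring
  have g2 : s * L ≤ s * y / 100 := by
    calc s * L ≤ s * (y / 100) := by gcongr
      _ = s * y / 100 := by ring
  have g3 : s * y * 10 ^ 6 ≤ s * y ^ 62 := by
    calc s * y * 10 ^ 6 = s * (y * 10 ^ 6) := by ring
      _ ≤ s * y ^ 62 := by gcongr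
  have g4 : y ^ 62 ≤ s * y ^ 62 := by
    calc y ^ 62 = 1 * y ^ 62 := by ring
      _ ≤ s * y ^ 62 := by gcongr
  have g5 : s * y ^ 62 / 10 ≤ s ^ 2 := by
    calc s * y ^ 62 / 10 = s * (y ^ 62 / 10) := by ring
      _ ≤ s * s := by gcongr
      _ = s ^ 2 := by ring
  have g6 : 0.6931 / 272 * (s * y ^ 62 / 10) ≤ Real.log 2 / 272 * s ^ 2 := by
    gcongr
  have g7 : Real.log 2 * s ≤ s := by
    nlinarith
  have g8 : s ≤ s * y := by
    nlinarith
  have g9 : Real.log 2 * (s ^ 2 / 16 - s) = Real.log 2 / 17 * s ^ 2 + Real.log 2 / 272 * s ^ 2 -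
      Real.log 2 * s := by ring
  rw [g9]
  nlinarith

private theorem nil_low_aux (s : ℕ) : s ^ 2 ≤ 16 * ((s / 2 / 2) * (s / 2 - s / 2 / 2)) + 16 * s := by
  obtain ⟨k, r, hr, hs⟩ : ∃ k r, r < 4 ∧ s = 4 * k + r :=
    ⟨s / 4, s % 4, Nat.mod_lt _ (by norm_num), (Nat.div_add_mod s 4).symm⟩
  subst hs
  have h1 : (4 * k + r) / 2 / 2 = k := by omega
  have h2 : k ≤ (4 * k + r) / 2 - k := by omega
  rw [h1]
  have h3 : k * k ≤ k * ((4 * k + r) / 2 - k) := Nat.mul_le_mul_left k h2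
  have h4 : (4 * k + r) ^ 2 ≤ 16 * (k * k) + 16 * (4 * k + r) := by
    interval_cases r <;> nlinarith
  omega

private theorem nil_low (s : ℕ) : Real.exp (Real.log 2 * ((s : ℝ) ^ 2 / 16 - s)) ≤ nTwo s := by
  have h1 : ((2 : ℝ) ^ ((s / 2 / 2) * (s / 2 - s / 2 / 2)) : ℝ) ≤ nTwo s := by
    exact_mod_cast nTwo_lower s
  refine le_trans ?_ h1
  have h2 : ((2 : ℝ) ^ ((s / 2 / 2) * (s / 2 - s / 2 / 2)) : ℝ) =
      Real.exp (Real.log 2 * (((s / 2 / 2) * (s / 2 - s / 2 / 2) : ℕ) : ℝ)) := by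
    rw [mul_comm (Real.log 2), ← Real.log_pow, Real.exp_log (by positivity)]
  rw [h2, Real.exp_le_exp]
  refine mul_le_mul_of_nonneg_left ?_ (Real.log_nonneg (by norm_num))
  have h3 : ((s : ℝ) ^ 2) ≤ 16 * (((s / 2 / 2) * (s / 2 - s / 2 / 2) : ℕ) : ℝ) + 16 * s := by
    exact_mod_cast nil_low_aux s
  linarith

/-- The logarithm of `n !`. -/
private theorem nil_fac {n : ℕ} (hn : 1 ≤ n) : Real.log (n.factorial : ℝ) ≤ n * Real.log n := by
  have h1 : (n.factorial : ℝ) ≤ (n : ℝ) ^ n := by exact_mod_cast Nat.factorial_le_pow n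
  have h2 := Real.log_le_log (by exact_mod_cast Nat.factorial_pos n) h1
  rwa [Real.log_pow] at h2

private theorem nil_log2 {m : ℕ} (hm : 1 ≤ m) : (Nat.log 2 m : ℝ) ≤ 2 * Real.log m := by
  have h7 : ((2 : ℝ) ^ (Nat.log 2 m)) ≤ m := by exact_mod_cast Nat.pow_log_le_self 2 (by omega)
  have h8 : (Nat.log 2 m : ℝ) * Real.log 2 ≤ Real.log m := by
    rw [← Real.log_pow]
    exact Real.log_le_log (by positivity) h7
  have hl1 : 0.6931 < Real.log 2 := lt_trans (by norm_num) Real.log_two_gt_d9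
  have h9 : (0 : ℝ) ≤ Nat.log 2 m := Nat.cast_nonneg _
  nlinarith

/-- The number of generators. -/
private theorem nil_K {n : ℕ} {y : ℝ} (hy : 100 ≤ y) (hn : y ^ 64 = n)
    (h50 : (n : ℝ) ^ (25 / 32 : ℝ) = y ^ 50) (hL : Real.log n ≤ y / 100) :
    ((ka n + ta (Nat.log 2 n.factorial) (ka n) + 1 : ℕ) : ℝ) ≤ 3 * y ^ 50 := by
  have hy0 : (0 : ℝ) < y := by linarith
  have hy1 : (1 : ℝ) ≤ y := by linarith
  have hn1 : 1 ≤ n := by
    have h : (1 : ℝ) ≤ n := by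
      rw [← hn]
      exact one_le_pow₀ hy1
    exact_mod_cast h
  have hk1 : (ka n : ℝ) ≤ y ^ 50 := by
    rw [ka, ← h50]
    exact Nat.floor_le (by positivity)
  have hk2 : y ^ 50 < (ka n : ℝ) + 1 := by
    rw [ka, ← h50]
    exact Nat.lt_floor_add_one _
  have h100 : (100 : ℝ) ≤ y ^ 50 := hy.trans (le_self_pow₀ hy1 (by norm_num))
  have hk3 : 2 ≤ ka n := by
    have h : (2 : ℝ) ≤ ka n := by linarith
    exact_mod_cast h
  have hdiv : ta (Nat.log 2 n.factorial) (ka n) * (ka n - 2) ≤ Nat.log 2 n.factorial :=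
    Nat.div_mul_le_self _ _
  have hdiv' : (ta (Nat.log 2 n.factorial) (ka n) : ℝ) * ((ka n : ℝ) - 2) ≤
      (Nat.log 2 n.factorial : ℝ) := by
    have h : ((ta (Nat.log 2 n.factorial) (ka n) * (ka n - 2) : ℕ) : ℝ) ≤
        (Nat.log 2 n.factorial : ℝ) := by exact_mod_cast hdiv
    rwa [Nat.cast_mul, Nat.cast_sub hk3, Nat.cast_ofNat] at h
  have hb : (Nat.log 2 n.factorial : ℝ) ≤ 2 * (y ^ 64 * (y / 100)) := by
    refine (nil_log2 (Nat.factorial_pos n)).trans ?_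
    have h1 := nil_fac hn1
    have h2 : (n : ℝ) * Real.log n ≤ y ^ 64 * (y / 100) := by
      rw [hn]
      gcongr
    linarith
  have hta : (ta (Nat.log 2 n.factorial) (ka n) : ℝ) ≤ y ^ 50 := by
    have h1 : (ta (Nat.log 2 n.factorial) (ka n) : ℝ) * (y ^ 50 / 2) ≤ 2 * (y ^ 64 * (y / 100)) := by
      refine le_trans ?_ (hdiv'.trans hb)
      gcongr
      linarith
    have h2 : 2 * (y ^ 64 * (y / 100)) = y ^ 15 / 25 * (y ^ 50 / 2) := by ring
    rw [h2] at h1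
    have h3 := le_of_mul_le_mul_right h1 (by positivity)
    have h4 : y ^ 15 ≤ y ^ 50 := pow_le_pow_right₀ hy1 (by norm_num)
    have h5 : 0 ≤ y ^ 15 := by positivity
    linarith
  push_cast
  linarith

/-- The index set. -/
private theorem nil_s {n s : ℕ} {y : ℝ} (hy : 100 ≤ y) (hn1 : 1 ≤ n)
    (h58 : (n : ℝ) ^ (29 / 32 : ℝ) = y ^ 58) (hL : Real.log n ≤ y / 100)
    (hs : kb n - 1 ≤ 2 * s * (Nat.log 2 n + 1)) : y ^ 57 ≤ s := by
  have hy0 : (0 : ℝ) < y := by linarith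
  have hy1 : (1 : ℝ) ≤ y := by linarith
  have hk2 : y ^ 58 < (kb n : ℝ) + 1 := by
    rw [kb, ← h58]
    exact Nat.lt_floor_add_one _
  have h1 : (kb n : ℝ) ≤ 2 * s * ((Nat.log 2 n : ℝ) + 1) + 1 := by
    have h : kb n ≤ 2 * s * (Nat.log 2 n + 1) + 1 := by omega
    exact_mod_cast h
  have h2 := nil_log2 hn1
  have hs0 : (0 : ℝ) ≤ s := Nat.cast_nonneg s
  have h3 : 2 * (s : ℝ) * ((Nat.log 2 n : ℝ) + 1) ≤ 2 * s * (y * (3 / 100)) := by
    gcongr
    linarith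
  have h4 : (4 : ℝ) ≤ y ^ 58 := by
    have : y ≤ y ^ 58 := le_self_pow₀ hy1 (by norm_num)
    linarith
  have h5 : y ^ 57 * y ≤ s * y := by
    have h6 : y ^ 57 * y = y ^ 58 := by ring
    have h7 : (0 : ℝ) ≤ s * y := by positivity
    rw [h6]
    linarith
  exact le_of_mul_le_mul_right h5 hy0

/-- The bound for one term. -/
private theorem nil_term {n s : ℕ} {y : ℝ} (hy : 100 ≤ y) (hn : y ^ 64 = n)
    (h50 : (n : ℝ) ^ (25 / 32 : ℝ) = y ^ 50) (h58 : (n : ℝ) ^ (29 / 32 : ℝ) = y ^ 58)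
    (h62 : (n : ℝ) ^ (31 / 32 : ℝ) = y ^ 62) (hL : Real.log n ≤ y / 100)
    (hg : ∀ k : ℕ, 2 ≤ k → k ≤ n →
      (nTwo (n - k) : ℝ) * Real.exp (k * (n : ℝ) ^ (31 / 32 : ℝ) / 96) ≤ (nTwo n : ℝ))
    (hO : ∀ m : ℕ, y ≤ m → (nOdn m : ℝ) ≤ Real.exp (Real.log 2 / 17 * (m : ℝ) ^ 2))
    (hs2 : 2 ≤ s) (hsn : s ≤ n) (hs : kb n - 1 ≤ 2 * s * (Nat.log 2 n + 1)) :
    ((n.factorial ^ (ka n + ta (Nat.log 2 n.factorial) (ka n) + 1) *
      (n ^ (5 * s) * nTwo (n - s) * nOdn s) : ℕ) : ℝ) ≤ (nTwo n : ℝ) * Real.exp (-(2 * Real.log n)) := by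
  have hy0 : (0 : ℝ) < y := by linarith
  have hy1 : (1 : ℝ) ≤ y := by linarith
  have hn1 : 1 ≤ n := by omega
  have hnr : (1 : ℝ) ≤ n := by exact_mod_cast hn1
  have hL0 : 0 ≤ Real.log n := Real.log_nonneg hnr
  have hsy := nil_s hy hn1 h58 hL hs
  have hK := nil_K hy hn h50 hL
  have hOs := hO s ((le_self_pow₀ hy1 (by norm_num)).trans hsy)
  -- the factorial
  have hfac : ((n.factorial : ℝ)) ^ (ka n + ta (Nat.log 2 n.factorial) (ka n) + 1) ≤
      Real.exp (3 * (y ^ 114 * Real.log n)) := by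
    have h1 : (0 : ℝ) < n.factorial := by exact_mod_cast Nat.factorial_pos n
    rw [← Real.exp_log (pow_pos h1 _), Real.log_pow, Real.exp_le_exp]
    calc ((ka n + ta (Nat.log 2 n.factorial) (ka n) + 1 : ℕ) : ℝ) * Real.log (n.factorial : ℝ)
        ≤ 3 * y ^ 50 * (n * Real.log n) := by
          refine mul_le_mul hK (nil_fac hn1) ?_ (by positivity)
          exact Real.log_nonneg (by exact_mod_cast Nat.factorial_pos n)
      _ = 3 * (y ^ 114 * Real.log n) := by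
        rw [← hn]
        ring
  have hpow : ((n : ℝ) ^ (5 * s)) = Real.exp (5 * s * Real.log n) := by
    have h1 : (5 * s * Real.log n : ℝ) = ((5 * s : ℕ) : ℝ) * Real.log n := by push_cast; ring
    rw [h1, ← Real.log_pow, Real.exp_log (by positivity)]
  -- the number of 2-groups
  have hT : ∃ E : ℝ, (nTwo (n - s) : ℝ) * Real.exp E ≤ nTwo n ∧
      3 * (y ^ 114 * Real.log n) + (5 * s * Real.log n + Real.log 2 / 17 * (s : ℝ) ^ 2) +
        2 * Real.log n ≤ E := by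
    rcases le_total (s : ℝ) (y ^ 62 / 10) with h | h
    · refine ⟨_, hg s hs2 hsn, ?_⟩
      rw [h62]
      exact nil_c1 hy hL hsy h
    · refine ⟨Real.log 2 * ((s : ℝ) ^ 2 / 16 - s), ?_, nil_c2 hy hL hsy h⟩
      refine (mul_le_mul_of_nonneg_left (nil_low s) (Nat.cast_nonneg _)).trans ?_
      have h1 := nTwo_mul (n - s) s
      rw [Nat.sub_add_cancel hsn] at h1
      exact_mod_cast h1
  obtain ⟨E, hE1, hE2⟩ := hT
  push_cast
  rw [hpow]
  calc (n.factorial : ℝ) ^ (ka n + ta (Nat.log 2 n.factorial) (ka n) + 1) *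
        (Real.exp (5 * s * Real.log n) * nTwo (n - s) * nOdn s)
      ≤ Real.exp (3 * (y ^ 114 * Real.log n)) *
        (Real.exp (5 * s * Real.log n) * nTwo (n - s) * Real.exp (Real.log 2 / 17 * (s : ℝ) ^ 2)) := by
        gcongr
    _ = nTwo (n - s) * Real.exp (3 * (y ^ 114 * Real.log n) + (5 * s * Real.log n +
        Real.log 2 / 17 * (s : ℝ) ^ 2)) := by
      rw [Real.exp_add, Real.exp_add]
      ring
    _ ≤ nTwo (n - s) * Real.exp (E + -(2 * Real.log n)) :=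
      mul_le_mul_of_nonneg_left (Real.exp_le_exp.2 (by linarith)) (Nat.cast_nonneg _)
    _ = nTwo (n - s) * Real.exp E * Real.exp (-(2 * Real.log n)) := by
      rw [Real.exp_add]
      ring
    _ ≤ nTwo n * Real.exp (-(2 * Real.log n)) := by
      gcongr

theorem an_nil : Tendsto (fun n : ℕ => ((n.factorial ^ (ka n + ta (Nat.log 2 n.factorial) (ka n) + 1) *
    ∑ s ∈ (Finset.Icc 2 n).filter (fun s => kb n - 1 ≤ 2 * s * (Nat.log 2 n + 1)), n ^ (5 * s) * nTwo (n - s) * nOdn s : ℕ) : ℝ) /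
    nTwo n) atTop (𝓝 0) := by
  obtain ⟨n₀, hg⟩ := grow_all
  obtain ⟨m₁, hO⟩ := odn_bound
  have hNpos : ∀ n, (0 : ℝ) < nTwo n := fun n => by exact_mod_cast one_le_nTwo n
  have hy : ∀ᶠ n : ℕ in atTop, max 100 (m₁ : ℝ) ≤ (n : ℝ) ^ (1 / 64 : ℝ) :=
    ((tendsto_rpow_atTop (show (0 : ℝ) < 1 / 64 by norm_num)).comp
      (tendsto_natCast_atTop_atTop (R := ℝ))).eventually_ge_atTop _
  have hL := tendsto_natCast_atTop_atTop (R := ℝ) |>.eventually
    ((isLittleO_log_rpow_atTop (show (0 : ℝ) < 1 / 64 by norm_num)).bound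
      (show (0 : ℝ) < 1 / 100 by norm_num))
  refine squeeze_zero' (g := fun n : ℕ => 1 / (n : ℝ)) ?_ ?_ tendsto_one_div_atTop_nhds_zero_nat
  · exact Filter.Eventually.of_forall fun n => div_nonneg (Nat.cast_nonneg _) (hNpos n).le
  · filter_upwards [eventually_ge_atTop (max n₀ 1), hy, hL] with n hn hyn hLn
    rw [max_le_iff] at hn hyn
    have hn1 : (1 : ℝ) ≤ n := by exact_mod_cast hn.2
    have hn0 : (0 : ℝ) ≤ n := by linarith
    obtain ⟨y, hyd⟩ : ∃ y, y = (n : ℝ) ^ (1 / 64 : ℝ) := ⟨_, rfl⟩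
    rw [← hyd] at hyn
    have hLn' : Real.log n ≤ y / 100 := by
      rw [Real.norm_of_nonneg (Real.log_nonneg hn1), Real.norm_of_nonneg (by positivity), ← hyd] at hLn
      linarith
    have hpw : ∀ j : ℕ, (n : ℝ) ^ ((j : ℝ) / 64) = y ^ j := by
      intro j
      rw [hyd, ← Real.rpow_natCast, ← Real.rpow_mul hn0]
      congr 1
      ring
    have h64 : y ^ 64 = n := by
      rw [← hpw 64]
      norm_num
    have h50 : (n : ℝ) ^ (25 / 32 : ℝ) = y ^ 50 := by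
      rw [← hpw 50]
      norm_num
    have h58 : (n : ℝ) ^ (29 / 32 : ℝ) = y ^ 58 := by
      rw [← hpw 58]
      norm_num
    have h62 : (n : ℝ) ^ (31 / 32 : ℝ) = y ^ 62 := by
      rw [← hpw 62]
      norm_num
    rw [div_le_iff₀ (hNpos n), Finset.mul_sum, Nat.cast_sum]
    have hterm : ∀ s ∈ (Finset.Icc 2 n).filter (fun s => kb n - 1 ≤ 2 * s * (Nat.log 2 n + 1)),
        ((n.factorial ^ (ka n + ta (Nat.log 2 n.factorial) (ka n) + 1) *
          (n ^ (5 * s) * nTwo (n - s) * nOdn s) : ℕ) : ℝ) ≤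
          (nTwo n : ℝ) * Real.exp (-(2 * Real.log n)) := by
      intro s hs
      rw [Finset.mem_filter, Finset.mem_Icc] at hs
      refine nil_term hyn.1 h64 h50 h58 h62 hLn' (hg n hn.1) ?_ hs.1.1 hs.1.2 hs.2
      intro m hm
      exact hO m (by exact_mod_cast hyn.2.trans hm)
    refine (Finset.sum_le_sum hterm).trans ?_
    rw [Finset.sum_const, nsmul_eq_mul]
    have hcard : (((Finset.Icc 2 n).filter (fun s => kb n - 1 ≤ 2 * s * (Nat.log 2 n + 1))).card : ℝ) ≤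
        n := by
      have h3 : ((Finset.Icc 2 n).filter (fun s => kb n - 1 ≤ 2 * s * (Nat.log 2 n + 1))).card ≤ n := by
        refine (Finset.card_filter_le _ _).trans ?_
        rw [Nat.card_Icc]
        omega
      exact_mod_cast h3
    have hexp : Real.exp (-(2 * Real.log n)) = 1 / (n : ℝ) ^ 2 := by
      rw [Real.exp_neg, mul_comm, Real.exp_mul, Real.exp_log (by linarith)]
      norm_num
    rw [hexp]
    calc (((Finset.Icc 2 n).filter (fun s => kb n - 1 ≤ 2 * s * (Nat.log 2 n + 1))).card : ℝ) *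
          ((nTwo n : ℝ) * (1 / (n : ℝ) ^ 2))
        ≤ n * ((nTwo n : ℝ) * (1 / (n : ℝ) ^ 2)) := mul_le_mul_of_nonneg_right hcard (by positivity)
      _ = 1 / (n : ℝ) * nTwo n := by
        field_simp

end Pool.Agent.SvS
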