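import Pool.Agent.SvS.Defs
import Pool.Agent.AbS.HatA

/-!
MP_7fa120_al, solvable subgroups. The number of the groups `U`.

Proof. Let `E` be an orbit of `U`; the restriction `U|E` is abelian and transitive on `E`, so it is regular and has order
`E.card ≤ n`; it is generated by `l = Nat.log 2 n` elements (every proper chain has length at most `Nat.log 2 n`). For `i < l` let `w_i` be
the permutation which on every orbit `E` of `U` is the `i`-th generator chosen for `E`; `w_i ∈ AbS.hat U = U`. Let `V` be the group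
generated by `w_0, …, w_(l-1)`: it has the same restrictions to the orbits of `U`, so the same orbits, and `AbS.hat V = AbS.hat U = U`. So
`U` is determined by `l` permutations moving only points of `B`, and there are at most `(s !) ^ l ≤ n ^ (s * l)` of these.
-/

set_option autoImplicit false

namespace Pool.Agent.SvS

open Equiv Pool.Agent.NilS Pool.Agent.BdO

section

open Pool.Agent.AbS

private theorem closure_snoc_one {G : Type} [Group G] {j : ℕ} (f : Fin j → G)
    (h : Subgroup.closure (Set.range f) = ⊤) (x : G) :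
    Subgroup.closure (Set.range (Fin.snoc f x : Fin (j + 1) → G)) = ⊤ := by
  rw [eq_top_iff, ← h]
  refine Subgroup.closure_mono ?_
  rintro _ ⟨i, rfl⟩
  exact ⟨Fin.castSucc i, by simp⟩

private theorem greedy (G : Type) [Group G] [Finite G] (j : ℕ) :
    ∃ f : Fin j → G, Subgroup.closure (Set.range f) = ⊤ ∨
      2 ^ j ≤ Nat.card (Subgroup.closure (Set.range f)) := by
  induction j with
  | zero =>
    refine ⟨fun i => i.elim0, Or.inr ?_⟩
    simp
  | succ j ih =>
    obtain ⟨f, hf⟩ := ih
    by_cases htop : Subgroup.closure (Set.range f) = ⊤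
    · exact ⟨Fin.snoc f 1, Or.inl (closure_snoc_one f htop 1)⟩
    · have hcard := hf.resolve_left htop
      obtain ⟨x, hx⟩ : ∃ x : G, x ∉ Subgroup.closure (Set.range f) := by
        by_contra hcon
        push Not at hcon
        exact htop (eq_top_iff.2 fun x _ => hcon x)
      refine ⟨Fin.snoc f x, Or.inr ?_⟩
      set A := Subgroup.closure (Set.range f) with hA
      set B := Subgroup.closure (Set.range (Fin.snoc f x : Fin (j + 1) → G)) with hB
      have hAB : A ≤ B := by
        refine Subgroup.closure_mono ?_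
        rintro _ ⟨i, rfl⟩
        exact ⟨Fin.castSucc i, by simp⟩
      have hxB : x ∈ B := Subgroup.subset_closure ⟨Fin.last j, by simp⟩
      have hdvd : Nat.card A ∣ Nat.card B := Subgroup.card_dvd_of_le hAB
      obtain ⟨c, hc⟩ := hdvd
      have hBpos : 0 < Nat.card B := Nat.card_pos
      have hc0 : c ≠ 0 := by
        rintro rfl
        rw [hc] at hBpos
        simp at hBpos
      have hc1 : c ≠ 1 := by
        rintro rfl
        rw [mul_one] at hc
        have : A = B := Subgroup.eq_of_le_of_card_ge hAB (le_of_eq hc)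
        rw [this] at hx
        exact hx hxB
      have hc2 : 2 ≤ c := by omega
      calc 2 ^ (j + 1) = 2 ^ j * 2 := pow_succ _ _
        _ ≤ Nat.card A * c := Nat.mul_le_mul hcard hc2
        _ = Nat.card B := hc.symm

private theorem exists_fin_closure (G : Type) [Group G] [Finite G] (ℓ : ℕ) (h : Nat.card G < 2 ^ (ℓ + 1)) :
    ∃ f : Fin ℓ → G, Subgroup.closure (Set.range f) = ⊤ := by
  obtain ⟨f, hf⟩ := greedy G ℓ
  refine ⟨f, ?_⟩
  rcases hf with hf | hf
  · exact hf
  · obtain ⟨c, hc⟩ := Subgroup.card_subgroup_dvd_card (Subgroup.closure (Set.range f))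
    have hpos : 0 < Nat.card G := Nat.card_pos
    have hc0 : c ≠ 0 := by
      rintro rfl
      rw [hc] at hpos
      simp at hpos
    have hc2 : ¬ 2 ≤ c := by
      intro h2
      have : 2 ^ ℓ * 2 ≤ Nat.card G := by
        rw [hc]
        exact Nat.mul_le_mul hf h2
      rw [pow_succ] at h
      omega
    have hc1 : c = 1 := by omega
    rw [hc1, mul_one] at hc
    exact Subgroup.eq_top_of_card_eq _ hc.symm

/-- Few elements of `H` which reach the orbit of `x`. -/
private theorem exists_reach {Ω : Type} [Finite Ω] {H : Subgroup (Perm Ω)}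
    (hab : ∀ a ∈ H, ∀ b ∈ H, a * b = b * a) (ℓ : ℕ) (hℓ : Nat.card Ω < 2 ^ (ℓ + 1)) (x : Ω) :
    ∃ f : Fin ℓ → Perm Ω, (∀ i, f i ∈ H) ∧
      ∀ k ∈ H, ∃ k' ∈ Subgroup.closure (Set.range f), k' x = k x := by
  classical
  have : (MulAction.stabilizer H x).Normal := by
    constructor
    intro n hn g
    have : g * n * g⁻¹ = n := by
      apply Subtype.ext
      have := hab g g.2 n n.2
      simp only [Subgroup.coe_mul, Subgroup.coe_inv]
      rw [this]
      simp
    rw [this]
    exact hn
  have hcard : Nat.card (H ⧸ MulAction.stabilizer H x) < 2 ^ (ℓ + 1) := by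
    have h1 : Nat.card (H ⧸ MulAction.stabilizer H x) = Nat.card (MulAction.orbit H x) :=
      (Nat.card_congr (MulAction.orbitEquivQuotientStabilizer H x)).symm
    rw [h1]
    exact (Nat.card_le_card_of_injective _ (Subtype.val_injective (p := fun y => y ∈ MulAction.orbit H x))).trans_lt hℓ
  obtain ⟨f, hf⟩ := exists_fin_closure (H ⧸ MulAction.stabilizer H x) ℓ hcard
  choose F hF using fun i => QuotientGroup.mk_surjective (f i)
  refine ⟨fun i => (F i : Perm Ω), fun i => (F i).2, fun k hk => ?_⟩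
  have h1 : (QuotientGroup.mk (⟨k, hk⟩ : H) : H ⧸ MulAction.stabilizer H x) ∈
      (Subgroup.closure (Set.range F)).map (QuotientGroup.mk' (MulAction.stabilizer H x)) := by
    rw [MonoidHom.map_closure]
    have : (QuotientGroup.mk' (MulAction.stabilizer H x)) '' (Set.range F) = Set.range f := by
      rw [← Set.range_comp]
      congr 1
      funext i
      exact hF i
    rw [this, hf]
    trivial
  obtain ⟨w, hw, hwk⟩ := h1
  refine ⟨(w : Perm Ω), ?_, ?_⟩
  · have h2 : (w : Perm Ω) ∈ (Subgroup.closure (Set.range F)).map H.subtype := ⟨w, hw, rfl⟩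
    rw [MonoidHom.map_closure, ← Set.range_comp] at h2
    exact h2
  · have h3 : w⁻¹ * (⟨k, hk⟩ : H) ∈ MulAction.stabilizer H x := QuotientGroup.eq.1 hwk
    rw [MulAction.mem_stabilizer_iff, mul_smul, inv_smul_eq_iff] at h3
    have h4 : k x = (w : Perm Ω) x := h3
    exact h4.symm

private theorem exists_gen2 {Ω : Type} [Finite Ω] {H : Subgroup (Perm Ω)} (hab : ∀ a ∈ H, ∀ b ∈ H, a * b = b * a)
    (ℓ : ℕ) (hℓ : Nat.card Ω < 2 ^ (ℓ + 1)) :
    ∃ g : Fin ℓ → Perm Ω, hat (Subgroup.closure (Set.range g)) = hat H := by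
  classical
  choose F hFH hF using exists_reach hab ℓ hℓ
  -- representatives of the orbits
  let r : Ω → Ω := fun y => Quotient.out (s := MulAction.orbitRel H Ω) (Quotient.mk (MulAction.orbitRel H Ω) y)
  have hr1 : ∀ y, r y ∈ MulAction.orbit H y := by
    intro y
    have := Quotient.mk_out (s := MulAction.orbitRel H Ω) y
    exact (MulAction.orbitRel_apply).1 this
  have hr2 : ∀ y z, y ∈ MulAction.orbit H z → r y = r z := by
    intro y z h
    have : (Quotient.mk (MulAction.orbitRel H Ω) y) = Quotient.mk (MulAction.orbitRel H Ω) z :=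
      Quotient.sound ((MulAction.orbitRel_apply).2 h)
    simp only [r, this]
  have hap : ∀ k ∈ H, ∀ y, k y ∈ MulAction.orbit H y := by
    intro k hk y
    exact ⟨⟨k, hk⟩, rfl⟩
  have hself : ∀ y : Ω, y ∈ MulAction.orbit H y := fun y => MulAction.mem_orbit_self y
  let g : Fin ℓ → Perm Ω := fun i =>
    { toFun := fun y => F (r y) i y
      invFun := fun y => (F (r y) i)⁻¹ y
      left_inv := by
        intro y
        have : r (F (r y) i y) = r y := hr2 _ _ (hap _ (hFH _ _) _)
        simp [this]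
      right_inv := by
        intro y
        have : r ((F (r y) i)⁻¹ y) = r y := hr2 _ _ (hap _ (H.inv_mem (hFH _ _)) _)
        simp only [this]
        simp }
  have hg : ∀ i y, g i y = F (r y) i y := fun i y => rfl
  have hgx : ∀ x i, ∀ y ∈ MulAction.orbit H x, g i y = F (r x) i y := by
    intro x i y hy
    rw [hg, hr2 y x hy]
  refine ⟨g, ?_⟩
  set K := Subgroup.closure (Set.range g) with hK
  have hKH : K ≤ hat H := by
    rw [hK, Subgroup.closure_le]
    rintro _ ⟨i, rfl⟩ x
    exact ⟨F (r x) i, hFH _ _, fun y hy => hgx x i y hy⟩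
  have hcl : ∀ x, Subgroup.closure (Set.range (F (r x))) ≤ H := by
    intro x
    rw [Subgroup.closure_le]
    rintro _ ⟨i, rfl⟩
    exact hFH _ _
  -- an element of the closure at `x` is the restriction of an element of `K`
  have hB : ∀ x, ∀ w ∈ Subgroup.closure (Set.range (F (r x))),
      ∃ w' ∈ K, ∀ y ∈ MulAction.orbit H x, w' y = w y := by
    intro x w hw
    induction hw using Subgroup.closure_induction with
    | mem w hw =>
      obtain ⟨i, rfl⟩ := hw
      exact ⟨g i, Subgroup.subset_closure ⟨i, rfl⟩, fun y hy => hgx x i y hy⟩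
    | one => exact ⟨1, K.one_mem, fun y _ => rfl⟩
    | mul a b ha hb iha ihb =>
      obtain ⟨a', ha', h1⟩ := iha
      obtain ⟨b', hb', h2⟩ := ihb
      refine ⟨a' * b', K.mul_mem ha' hb', fun y hy => ?_⟩
      have hby : b y ∈ MulAction.orbit H x := by
        have := MulAction.mem_orbit_of_mem_orbit (⟨b, hcl x hb⟩ : H) hy
        simpa [Subgroup.smul_def] using this
      simp only [Perm.mul_apply]
      rw [h2 y hy, h1 _ hby]
    | inv a ha iha =>
      obtain ⟨a', ha', h1⟩ := iha
      refine ⟨a'⁻¹, K.inv_mem ha', fun y hy => ?_⟩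
      have hay : a⁻¹ y ∈ MulAction.orbit H x := by
        have := MulAction.mem_orbit_of_mem_orbit (⟨a⁻¹, H.inv_mem (hcl x ha)⟩ : H) hy
        simpa [Subgroup.smul_def] using this
      have := h1 _ hay
      rw [Perm.inv_eq_iff_eq, this]
      simp
  -- every element of `H` agrees on the orbit of `x` with an element of `K`
  have hA : ∀ x, ∀ h ∈ H, ∃ w' ∈ K, ∀ y ∈ MulAction.orbit H x, w' y = h y := by
    intro x h hh
    obtain ⟨w, hw, hwr⟩ := hF (r x) h hh
    obtain ⟨w', hw', h1⟩ := hB x w hw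
    refine ⟨w', hw', fun y hy => ?_⟩
    rw [h1 y hy]
    refine hat_eq_on_orbit hab (le_hat H (hcl x hw)) (le_hat H hh) hwr y ?_
    have h2 : MulAction.orbit H (r x) = MulAction.orbit H x := MulAction.orbit_eq_iff.2 (hr1 x)
    rw [h2]
    exact hy
  have horb1 : ∀ x : Ω, MulAction.orbit K x ⊆ MulAction.orbit H x := by
    rintro x _ ⟨⟨k, hk⟩, rfl⟩
    obtain ⟨h, hh, h1⟩ := hKH hk x
    have : k x = h x := h1 x (hself x)
    change k x ∈ MulAction.orbit H x
    rw [this]
    exact hap h hh x
  have horb2 : ∀ x : Ω, MulAction.orbit H x ⊆ MulAction.orbit K x := by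
    rintro x _ ⟨⟨h, hh⟩, rfl⟩
    obtain ⟨w', hw', h1⟩ := hA x h hh
    change h x ∈ MulAction.orbit K x
    rw [← h1 x (hself x)]
    exact ⟨⟨w', hw'⟩, rfl⟩
  ext σ
  constructor
  · intro hσ x
    obtain ⟨k, hk, h1⟩ := hσ x
    obtain ⟨h, hh, h2⟩ := hKH hk x
    exact ⟨h, hh, fun y hy => (h1 y (horb2 x hy)).trans (h2 y hy)⟩
  · intro hσ x
    obtain ⟨h, hh, h1⟩ := hσ x
    obtain ⟨w', hw', h2⟩ := hA x h hh
    exact ⟨w', hw', fun y hy => (h1 y (horb1 x hy)).trans (h2 y (horb1 x hy)).symm⟩


end

theorem u_count {n : ℕ} (B : Finset (Fin n)) (s : ℕ) (hB : B.card ≤ s) (hs : s ≤ n) :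
    Nat.card {U : Subgroup (Perm (Fin n)) // Full U ∧ mv U ⊆ B} ≤ n ^ (s * Nat.log 2 n) := by
  classical
  have hn : Nat.card (Fin n) < 2 ^ (Nat.log 2 n + 1) := by
    rw [Nat.card_eq_fintype_card, Fintype.card_fin]
    exact Nat.lt_pow_succ_log_self (by norm_num) n
  have hex : ∀ U : {U : Subgroup (Perm (Fin n)) // Full U ∧ mv U ⊆ B},
      ∃ g : Fin (Nat.log 2 n) → {σ : Perm (Fin n) // ∀ x, ¬ x ∈ B → σ x = x},
        AbS.hat (Subgroup.closure (Set.range fun i => (g i : Perm (Fin n)))) = U.1 := by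
    rintro ⟨U, ⟨hab, -, hU⟩, hm⟩
    obtain ⟨g, hg⟩ := exists_gen2 hab (Nat.log 2 n) hn
    have hgU : ∀ i, g i ∈ U := by
      intro i
      rw [← hU, ← hg]
      exact AbS.le_hat _ (Subgroup.subset_closure ⟨i, rfl⟩)
    refine ⟨fun i => ⟨g i, fun x hx => ?_⟩, ?_⟩
    · by_contra hcon
      exact hx (hm (mem_mv.2 ⟨g i, hgU i, hcon⟩))
    · show AbS.hat (Subgroup.closure (Set.range g)) = U
      rw [hg, hU]
  choose G hG using hex
  have h1 : Nat.card {U : Subgroup (Perm (Fin n)) // Full U ∧ mv U ⊆ B} ≤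
      Nat.card (Fin (Nat.log 2 n) → {σ : Perm (Fin n) // ∀ x, ¬ x ∈ B → σ x = x}) := by
    refine Nat.card_le_card_of_injective G ?_
    intro U U' h
    apply Subtype.ext
    rw [← hG U, ← hG U', h]
  refine h1.trans ?_
  have h2 : Nat.card {σ : Perm (Fin n) // ∀ x, ¬ x ∈ B → σ x = x} = B.card.factorial := by
    rw [← Nat.card_congr (Equiv.Perm.subtypeEquivSubtypePerm (fun x : Fin n => x ∈ B)),
      Nat.card_eq_fintype_card, Fintype.card_perm, Fintype.card_coe]
  rw [Nat.card_fun, h2, Nat.card_eq_fintype_card, Fintype.card_fin, pow_mul]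
  refine Nat.pow_le_pow_left ?_ _
  exact ((Nat.factorial_le hB).trans (Nat.factorial_le_pow s)).trans (Nat.pow_le_pow_left hs s)

end Pool.Agent.SvS
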