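import Pool.Agent.SvS.Defs2

/-!
MP_7fa120_al, solvable subgroups. The number of the groups of case (a).

Proof. For every `H` in the set choose `C`, `S`; for `M ∈ Rec C S` the group `L = closure (M ∪ S)` contains `M` and is invariant under
conjugation by the elements of `S`, so `C ≤ L`, and `H = C ⊔ closure S ≤ L ≤ H`: `H = closure (M ∪ S)`. `M ≤ H` is solvable. Code `S` by a map
`Fin j → Perm (Fin n)` (pad with `1`). So the pairs `(H, M)`, at least `2 ^ g` for every `H`, map injectively to the pairs (solvable subgroup `M`, map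
`Fin j → Perm (Fin n)`). Compare `Pool.Agent.BdO.cnt_M` (`BdO/CntM.lean`).
-/

set_option autoImplicit false

namespace Pool.Agent.SvS

open Equiv

private theorem cntMany_enum {α : Type} [One α] [DecidableEq α] (S : Finset α) (J : ℕ) (h : S.card ≤ J) :
    ∃ s : Fin J → α, (S : Set α) ⊆ Set.range s ∧ Set.range s ⊆ insert 1 (S : Set α) := by
  classical
  refine ⟨fun i => if h : (i : ℕ) < S.card then ((S.equivFin.symm ⟨i, h⟩ : S) : α) else 1, ?_, ?_⟩
  · intro x hx
    have hlt := (S.equivFin ⟨x, hx⟩).2
    refine ⟨⟨(S.equivFin ⟨x, hx⟩ : Fin S.card), lt_of_lt_of_le hlt h⟩, ?_⟩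
    simp only
    rw [dif_pos hlt]
    simp
  · rintro _ ⟨i, rfl⟩
    simp only
    split_ifs with h
    · exact Set.mem_insert_of_mem _ (S.equivFin.symm ⟨i, h⟩).2
    · exact Set.mem_insert _ _

/-- every `M ∈ Rec C S` generates `C ⊔ closure S` together with `S` -/
private theorem cntMany_rec {G : Type} [Group G] {C : Subgroup G} {S : Finset G} {M : Subgroup G}
    (hMC : M ≤ C) (hM : ∀ L : Subgroup G, M ≤ L → (∀ y ∈ S, ∀ x ∈ L, y * x * y⁻¹ ∈ L) → C ≤ L) :
    Subgroup.closure ((M : Set G) ∪ (S : Set G)) = C ⊔ Subgroup.closure (S : Set G) := by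
  apply le_antisymm
  · rw [Subgroup.closure_le]
    rintro x (hx | hx)
    · exact Subgroup.mem_sup_left (hMC hx)
    · exact Subgroup.mem_sup_right (Subgroup.subset_closure hx)
  · have hML : M ≤ Subgroup.closure ((M : Set G) ∪ (S : Set G)) := fun x hx =>
      Subgroup.subset_closure (Or.inl hx)
    have hSL : ∀ y ∈ S, y ∈ Subgroup.closure ((M : Set G) ∪ (S : Set G)) := fun y hy =>
      Subgroup.subset_closure (Or.inr hy)
    refine sup_le (hM _ hML ?_) ?_
    · intro y hy x hx
      exact Subgroup.mul_mem _ (Subgroup.mul_mem _ (hSL y hy) hx) (Subgroup.inv_mem _ (hSL y hy))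
    · rw [Subgroup.closure_le]
      exact fun y hy => hSL y hy

private theorem cntMany_sol {G : Type} [Group G] {M H : Subgroup G} (h : M ≤ H) (hH : Group.IsSolvable H) :
    Group.IsSolvable M := by
  have := hH
  exact Group.isSolvable_of_isSolvable_injective (f := Subgroup.inclusion h) (Subgroup.inclusion_injective h)

theorem cnt_many (n g j : ℕ) :
    2 ^ g * Nat.card {H : Subgroup (Perm (Fin n)) // Group.IsSolvable H ∧ Many H g j} ≤ n.factorial ^ j * nSol n := by
  classical
  set T := {H : Subgroup (Perm (Fin n)) // Group.IsSolvable H ∧ Many H g j} with hT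
  choose C S hS hcl hM using fun H : T => H.2.2
  choose s hs1 hs2 using fun H : T => cntMany_enum (S H) j (hS H)
  let Mt : T → Type := fun H => Rec (C H) (S H)
  have hle : ∀ (H : T) (M : Mt H), M.1 ≤ H.1 := by
    intro H M
    rw [← hcl H]
    exact le_trans M.2.1 le_sup_left
  let φ : (Σ H : T, Mt H) → (Fin j → Perm (Fin n)) × {M : Subgroup (Perm (Fin n)) // Group.IsSolvable M} :=
    fun x => (s x.1, ⟨x.2.1, cntMany_sol (hle x.1 x.2) x.1.2.1⟩)
  have hcl' : ∀ (H : T) (M : Mt H),
      Subgroup.closure ((M.1 : Set (Perm (Fin n))) ∪ Set.range (s H)) = H.1 := by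
    intro H M
    rw [← hcl H, ← cntMany_rec M.2.1 M.2.2]
    apply le_antisymm
    · rw [Subgroup.closure_le]
      rintro x (hx | hx)
      · exact Subgroup.subset_closure (Or.inl hx)
      · rcases hs2 H hx with h1 | h1
        · rw [h1]
          exact Subgroup.one_mem _
        · exact Subgroup.subset_closure (Or.inr h1)
    · apply Subgroup.closure_mono
      exact Set.union_subset_union_right _ (hs1 H)
  have hinj : Function.Injective φ := by
    rintro ⟨H, M⟩ ⟨H', M'⟩ h
    have h1 : s H = s H' := congrArg Prod.fst h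
    have h2 : (M.1 : Subgroup (Perm (Fin n))) = M'.1 :=
      congrArg (fun t => (t.2 : {M : Subgroup (Perm (Fin n)) // Group.IsSolvable M}).1) h
    have hHH : H = H' := by
      apply Subtype.ext
      rw [← hcl' H M, ← hcl' H' M', h1, h2]
    subst hHH
    congr 1
    exact Subtype.ext h2
  have hfin : Finite T := inferInstance
  have : Fintype T := Fintype.ofFinite T
  have hfinM : ∀ H : T, Finite (Mt H) := fun H => inferInstanceAs (Finite {M : Subgroup (Perm (Fin n)) // M ≤ C H ∧
        ∀ L : Subgroup (Perm (Fin n)), M ≤ L → (∀ y ∈ S H, ∀ x ∈ L, y * x * y⁻¹ ∈ L) → C H ≤ L})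
  have hcard := Nat.card_le_card_of_injective φ hinj
  have hright : Nat.card ((Fin j → Perm (Fin n)) × {M : Subgroup (Perm (Fin n)) // Group.IsSolvable M}) =
      n.factorial ^ j * nSol n := by
    rw [Nat.card_prod, Nat.card_eq_fintype_card, Fintype.card_fun, Fintype.card_fin, Fintype.card_perm,
      Fintype.card_fin]
    rfl
  rw [hright, Nat.card_sigma] at hcard
  refine le_trans ?_ hcard
  calc 2 ^ g * Nat.card T = ∑ _H : T, 2 ^ g := by
        rw [Finset.sum_const, Finset.card_univ, Nat.card_eq_fintype_card, smul_eq_mul, mul_comm]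
    _ ≤ ∑ H : T, Nat.card (Mt H) := Finset.sum_le_sum fun H _ => hM H

end Pool.Agent.SvS
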