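import Pool.Agent.SvS.Split
import Pool.Agent.SvS.CntSm
import Pool.Agent.SvS.CntL
import Pool.Agent.SvS.CntMany
import Pool.Agent.SvS.CntNil
import Pool.Agent.SvS.AnSm
import Pool.Agent.SvS.AnL
import Pool.Agent.SvS.AnM
import Pool.Agent.SvS.AnNil

/-!
MP_7fa120_al, solvable subgroups. Almost all solvable subgroups have odd part at most `26 !`.

Proof. For large `n`: `3 ≤ ka n ≤ kb n`, `1 ≤ LL n`, `sg n ≤ n`, `2 ≤ kb n`. By `split_sol` (with `s₀ = sg n`, `k = ka n`, `k' = kb n`) every group counted by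
`nBig n` is in one of the four sets counted in `cnt_small`, `cnt_L`, `cnt_many` (`g = ga (ka n)`, `j = ja + ta + 1`) and `cnt_nil` (`e = kb n - 1`,
`j = ka n + ta + 1`). Divide by `nSol n ≥ nTwo n ≥ 1` (2-groups are solvable) and use `an_small`, `an_L`, `an_M`, `an_nil`.
-/

set_option autoImplicit false

namespace Pool.Agent.SvS

open Equiv Pool.Agent.NilS Filter Topology

private theorem card_or {α : Type} [Finite α] (P Q : α → Prop) :
    Nat.card {x // P x ∨ Q x} ≤ Nat.card {x // P x} + Nat.card {x // Q x} :=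
  Set.ncard_union_le {x | P x} {x | Q x}

private theorem card_imp {α : Type} [Finite α] {P Q : α → Prop} (h : ∀ x, P x → Q x) :
    Nat.card {x // P x} ≤ Nat.card {x // Q x} :=
  Nat.card_le_card_of_injective (Subtype.map id h) (Subtype.map_injective _ Function.injective_id)

private theorem two_sol {n : ℕ} {H : Subgroup (Perm (Fin n))} (h : Two H) : Group.IsSolvable H := by
  obtain ⟨k, hk⟩ := h
  have : Fact (Nat.Prime 2) := ⟨Nat.prime_two⟩
  have h1 : IsPGroup 2 H := IsPGroup.of_card hk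
  have h2 : Group.IsNilpotent H := h1.isNilpotent
  infer_instance

theorem nTwo_le_nSol (n : ℕ) : nTwo n ≤ nSol n :=
  card_imp fun _ h => two_sol h

private theorem nTwo_pos (n : ℕ) : 0 < nTwo n := by
  have : Nonempty {H : Subgroup (Perm (Fin n)) // Two H} := ⟨⟨⊥, 0, by simp⟩⟩
  exact Nat.card_pos

private theorem cases_bound {n : ℕ} (h3 : 3 ≤ ka n) (hab : ka n ≤ kb n) (hL : 1 ≤ LL n) :
    nBig n ≤
      n ^ sg n * nSub (sg n) ^ 2 * (∑ k ∈ Finset.Icc 2 n, n ^ k * nTwo (n - k) + nSub (sg n) * nTwo (n - 3)) +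
      (∑ s ∈ Finset.Ioc (sg n) n, n ^ s * n ^ (s * kb n) * n ^ (s * Nat.log 2 n) * LB n (LL n) s +
      (Nat.card {H : Subgroup (Perm (Fin n)) // Group.IsSolvable H ∧
        Many H (ga (ka n)) (ja (Nat.log 2 n.factorial) (ka n) + ta (Nat.log 2 n.factorial) (ka n) + 1)} +
      n.factorial ^ (ka n + ta (Nat.log 2 n.factorial) (ka n) + 1) *
        ∑ s ∈ (Finset.Icc 2 n).filter (fun s => kb n - 1 ≤ 2 * s * (Nat.log 2 n + 1)),
          n ^ (5 * s) * nTwo (n - s) * nOdn s)) := by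
  have hs : sg n ≤ n := (Nat.sqrt_le_self _).trans (Nat.sqrt_le_self _)
  have h1 := cnt_small (n := n) (sg n) hs
  have h2 := cnt_L (n := n) (sg n) (kb n) (LL n) hL
  have h4 := cnt_nil n (kb n - 1) (ka n + ta (Nat.log 2 n.factorial) (ka n) + 1) (by omega)
  refine le_trans ?_ (Nat.add_le_add h1 (Nat.add_le_add h2 (Nat.add_le_add le_rfl h4)))
  refine le_trans ?_ (Nat.add_le_add le_rfl (Nat.add_le_add le_rfl (card_or _ _)))
  refine le_trans ?_ (Nat.add_le_add le_rfl (card_or _ _))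
  refine le_trans ?_ (card_or _ _)
  refine card_imp fun H hH => ?_
  rcases split_sol (sg n) (ka n) (kb n) h3 hab H hH.1 with h | h | h | h
  · exact Or.inl ⟨hH.1, hH.2, h⟩
  · exact Or.inr (Or.inl h)
  · exact Or.inr (Or.inr (Or.inl ⟨hH.1, h⟩))
  · exact Or.inr (Or.inr (Or.inr h))

private theorem ev_ka : ∀ᶠ n : ℕ in atTop, 3 ≤ ka n ∧ ka n ≤ kb n ∧ 1 ≤ LL n := by
  have h1 : Tendsto ka atTop atTop :=
    (tendsto_nat_floor_atTop (α := ℝ)).comp
      ((tendsto_rpow_atTop (by norm_num : (0 : ℝ) < 25 / 32)).comp tendsto_natCast_atTop_atTop)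
  have h2 : Tendsto LL atTop atTop :=
    (tendsto_nat_floor_atTop (α := ℝ)).comp
      ((tendsto_rpow_atTop (by norm_num : (0 : ℝ) < 3 / 64)).comp tendsto_natCast_atTop_atTop)
  filter_upwards [h1.eventually_ge_atTop 3, h2.eventually_ge_atTop 1, eventually_ge_atTop 1] with n h3 h4 h5
  refine ⟨h3, Nat.floor_mono ?_, h4⟩
  exact Real.rpow_le_rpow_of_exponent_le (by exact_mod_cast h5) (by norm_num)

theorem big_zero : Tendsto (fun n : ℕ => (nBig n : ℝ) / nSol n) atTop (𝓝 0) := by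
  have hlim := an_small.add (an_L.add (an_M.add an_nil))
  rw [add_zero, add_zero, add_zero] at hlim
  refine squeeze_zero' (Eventually.of_forall fun n => by positivity) ?_ hlim
  filter_upwards [ev_ka] with n hn
  obtain ⟨h3, hab, hL⟩ := hn
  have hT : (0 : ℝ) < nTwo n := by exact_mod_cast nTwo_pos n
  have hTS : (nTwo n : ℝ) ≤ nSol n := by exact_mod_cast nTwo_le_nSol n
  have hS : (0 : ℝ) < nSol n := hT.trans_le hTS
  have hb := cases_bound h3 hab hL
  have hm := cnt_many n (ga (ka n)) (ja (Nat.log 2 n.factorial) (ka n) + ta (Nat.log 2 n.factorial) (ka n) + 1)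
  have key : ∀ a : ℕ, (a : ℝ) / nSol n ≤ (a : ℝ) / nTwo n := fun a =>
    div_le_div_of_nonneg_left (Nat.cast_nonneg a) hT hTS
  have hm' : (Nat.card {H : Subgroup (Perm (Fin n)) // Group.IsSolvable H ∧
        Many H (ga (ka n)) (ja (Nat.log 2 n.factorial) (ka n) + ta (Nat.log 2 n.factorial) (ka n) + 1)} : ℝ) / nSol n ≤
      (n.factorial : ℝ) ^ (ja (Nat.log 2 n.factorial) (ka n) + ta (Nat.log 2 n.factorial) (ka n) + 1) /
        2 ^ ga (ka n) := by
    rw [div_le_div_iff₀ hS (by positivity)]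
    have h4 : ((2 ^ ga (ka n) * Nat.card {H : Subgroup (Perm (Fin n)) // Group.IsSolvable H ∧
        Many H (ga (ka n)) (ja (Nat.log 2 n.factorial) (ka n) + ta (Nat.log 2 n.factorial) (ka n) + 1)} : ℕ) : ℝ) ≤
        ((n.factorial ^ (ja (Nat.log 2 n.factorial) (ka n) + ta (Nat.log 2 n.factorial) (ka n) + 1) * nSol n : ℕ) : ℝ) := by
      exact_mod_cast hm
    push_cast at h4
    linarith
  have hb' : (nBig n : ℝ) ≤ _ := Nat.cast_le.mpr hb
  rw [Nat.cast_add, Nat.cast_add, Nat.cast_add] at hb'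
  calc (nBig n : ℝ) / nSol n ≤ _ / nSol n := div_le_div_of_nonneg_right hb' hS.le
    _ ≤ _ := by
      rw [add_div, add_div, add_div]
      exact add_le_add (key _) (add_le_add (key _) (add_le_add hm' (key _)))

end Pool.Agent.SvS
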