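import Pool.Agent.BdO.Defs
import Pool.Agent.AbS.Defs

/-!
MP_7fa120_al: the solvable subgroups of the symmetric groups. Definitions and overview.

Theorem (`Main.lean`). Among the solvable subgroups of `S_n`: along even `n` almost all are 2-groups; along `n = 3 mod 4` at least
`1 / 4 - o (1)` are not 2-groups; almost all have odd part at most `26 !`; so for some odd prime `r` the proportion of those with order
divisible by `r` has no limit (the negated form of Q1 for solvable subgroups).

Proof. `t(n) = nTwo n`, `f(n) = nSol n`. KEY STATEMENT (T): the number of solvable `H` whose odd part exceeds `26 !` is `o (f(n))`; the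
rest is `Pool.Agent.BdO` (bounded odd part) with `K = 26 !`.
For such an `H` let `R = oddGen H`, `Q` a Hall subgroup of odd order of `R`, `D` a 2-group normalising `Q` with `R D = H` (`HallP`);
`Q` moves at least half of the points moved by `R`. `D` also normalises an abelian group `U` of odd order with `hat U = U` moving the
same points as `Q` (`ULem`). Number of 2-groups normalising `U`: `NormK`, `Single`, `LargeB` (redundant points).
(S) `R` moves at most `n ^ (1/4)` points: few `(R, U)`, and `U` leaves at least 2 redundant points (`CntSm`).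
(L1) `R` moves `s > n ^ (1/4)` points and `H` is generated by `D` and `n ^ (29/32)` elements of `R`: redundant points (`CntL`).
(L2) Otherwise (`Gen`, `Extr`) `H` has normal subgroups `C > L` with `C / L` a direct sum of `δ ≥ n ^ (29/32) - 2` isomorphic irreducible
modules `A`. If `A` is not of prime order there are `2 ^ (δ² / 4)` subgroups `M` of `C` from which `H` can be recovered with few
elements (`TypeA`, `CntMany`). If it is of prime order `p`, `p` is odd, `C` is generated by few elements over a subgroup
`G₁` (`ProcB`) which either has such a section with `A` not of prime order, or is generated by a nilpotent subgroup `Y` and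
`n ^ (25/32)` elements, where the odd part of `Y` is large; nilpotent groups with large odd part are rare (`Pool.Agent.NilS`, `PCnt2`).
-/

set_option autoImplicit false

namespace Pool.Agent.SvS

open Equiv Pool.Agent.NilS Pool.Agent.BdO

/-- The number of solvable subgroups of `S_n`. -/
noncomputable def nSol (n : ℕ) : ℕ := Nat.card {H : Subgroup (Perm (Fin n)) // Group.IsSolvable H}

/-- The proportion of the solvable subgroups whose order is a multiple of `m`. -/
noncomputable def dens (n m : ℕ) : ℝ :=
  (Nat.card {H : Subgroup (Perm (Fin n)) // Group.IsSolvable H ∧ m ∣ Nat.card H} : ℝ) /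
    (Nat.card {H : Subgroup (Perm (Fin n)) // Group.IsSolvable H} : ℝ)

/-- The points moved by `Q`. -/
noncomputable def mv {n : ℕ} (Q : Subgroup (Perm (Fin n))) : Finset (Fin n) := by
  classical exact Finset.univ.filter (fun x => ∃ q ∈ Q, q x ≠ x)

theorem mem_mv {n : ℕ} {Q : Subgroup (Perm (Fin n))} {x : Fin n} : x ∈ mv Q ↔ ∃ q ∈ Q, q x ≠ x := by
  classical
  unfold mv
  simp

/-- `U` is abelian of odd order and contains all permutations which agree on every orbit with an element of `U`. -/
def Full {n : ℕ} (U : Subgroup (Perm (Fin n))) : Prop :=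
  (∀ a ∈ U, ∀ b ∈ U, a * b = b * a) ∧ Odd (Nat.card U) ∧ AbS.hat U = U

/-- `M < C` are consecutive normal subgroups. -/
def Chief {G : Type} [Group G] (N M : Subgroup G) : Prop :=
  N.Normal ∧ M.Normal ∧ N < M ∧ ∀ T : Subgroup G, T.Normal → N ≤ T → T ≤ M → T = N ∨ T = M

/-- Independent chief factors `C / K i`, all of order `q`, with centraliser `C`. -/
def Indep {G : Type} [Group G] (C : Subgroup G) (q δ : ℕ) (K : Fin δ → Subgroup G) : Prop :=
  (∀ i, Chief (K i) C ∧ (K i).relIndex C = q ∧ ∀ g : G, g ∈ C ↔ ∀ c ∈ C, g * c * g⁻¹ * c⁻¹ ∈ K i) ∧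
    ∀ i, ¬ (C ⊓ ⨅ j ∈ {j | j ≠ i}, K j) ≤ K i

/-- The subgroups `M` of `C` such that every subgroup containing `M` and invariant under `S` contains `C`. -/
def Rec {G : Type} [Group G] (C : Subgroup G) (S : Finset G) : Type :=
  {M : Subgroup G // M ≤ C ∧ ∀ L : Subgroup G, M ≤ L → (∀ y ∈ S, ∀ x ∈ L, y * x * y⁻¹ ∈ L) → C ≤ L}

/-- `H` can be recovered in `2 ^ g` ways. -/
def Many {G : Type} [Group G] (H : Subgroup G) (g j : ℕ) : Prop :=
  ∃ (C : Subgroup G) (S : Finset G), S.card ≤ j ∧ C ⊔ Subgroup.closure (S : Set G) = H ∧ 2 ^ g ≤ Nat.card (Rec C S)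

/-- The intersection of the normal subgroups of odd prime index. -/
def no (G : Type) [Group G] : Subgroup G := sInf {K | K.Normal ∧ ∃ p : ℕ, p.Prime ∧ p ≠ 2 ∧ K.index = p}

/-- The intersection of the normal subgroups of prime index. -/
def na (G : Type) [Group G] : Subgroup G := sInf {K | K.Normal ∧ ∃ p : ℕ, p.Prime ∧ K.index = p}

end Pool.Agent.SvS
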