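import Pool.Agent.SvS.Defs
import Pool.Agent.NilS.SupT

/-!
MP_7fa120_al, solvable subgroups. The number of 2-subgroups of `Γ × S_m` for a 2-group `Γ` of order `2 ^ a`.

Proof by induction on `a`, for all `m`. `a = 0`: `Γ` is trivial. `a + 1`: let `Z` be a central subgroup of order 2 of `Γ`. For a 2-subgroup
`B` of `Γ × S_m` let `B'` be its image in `(Γ / Z) × S_m`, and `P` the preimage of `B'` in `Γ × S_m`, so `P / (Z × 1) ≅ B'` and
`B (Z × 1) = P`. Either `B = P`, or `B` is a complement of the central subgroup `Z × 1` of order 2 in `P`; if `B₀` is one such complement the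
others correspond to the homomorphisms `B' → C_2`. So over `B'` there are at most `1 + |Hom (B', C_2)|` groups `B`. On the other hand the
2-subgroups of `C_2 × ((Γ / Z) × S_m)` with image `B'` in the second factor are `C_2 × B'` and the graphs of the homomorphisms
`B' → C_2`: exactly `1 + |Hom (B', C_2)|`. So the number in question is at most the number of 2-subgroups of
`C_2 × (Γ / Z) × S_m`, and `C_2 × S_m` embeds in `S_(m + 2)`, so it is at most the number of 2-subgroups of `(Γ / Z) × S_(m + 2)`, at most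
`nTwo (m + 2 + 2 * a)` by induction.
-/

set_option autoImplicit false

namespace Pool.Agent.SvS

open Equiv Pool.Agent.NilS

private theorem count_inj {A B : Type} [Group A] [Group B] [Finite B] (φ : A →* B)
    (hφ : Function.Injective φ) :
    Nat.card {H : Subgroup A // ∃ k : ℕ, Nat.card H = 2 ^ k} ≤
      Nat.card {H : Subgroup B // ∃ k : ℕ, Nat.card H = 2 ^ k} := by
  refine Nat.card_le_card_of_injective
    (fun H : {H : Subgroup A // ∃ k : ℕ, Nat.card H = 2 ^ k} =>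
      (⟨H.1.map φ, by
        obtain ⟨k, hk⟩ := H.2
        exact ⟨k, by
          rw [← hk]
          exact (Nat.card_congr (H.1.equivMapOfInjective φ hφ).toEquiv).symm⟩⟩ :
        {H : Subgroup B // ∃ k : ℕ, Nat.card H = 2 ^ k})) ?_
  intro H K h
  exact Subtype.ext (Subgroup.map_injective hφ (congrArg Subtype.val h))

open Classical in
/-- A subgroup with image `B'` which avoids the kernel, if there is one. -/
private noncomputable def sect {G Q : Type} [Group G] [Group Q] (π : G →* Q) (B' : Subgroup Q) :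
    Subgroup G :=
  if h : ∃ B : Subgroup G, B.map π = B' ∧ Disjoint B π.ker then h.choose else B'.comap π

private theorem sect_lift {G Q : Type} [Group G] [Group Q] (π : G →* Q) (B : Subgroup G) {b : G}
    (hb : b ∈ B) : ∃ c ∈ sect π (B.map π), π c = π b := by
  unfold sect
  split_ifs with h
  · have h1 := h.choose_spec.1
    have h2 : π b ∈ h.choose.map π := by
      rw [h1]
      exact ⟨b, hb, rfl⟩
    obtain ⟨c, hc, hc'⟩ := h2
    exact ⟨c, hc, hc'⟩
  · exact ⟨b, ⟨b, hb, rfl⟩, rfl⟩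

private theorem sect_disj {G Q : Type} [Group G] [Group Q] (π : G →* Q) (B : Subgroup G)
    (hB : Disjoint B π.ker) : Disjoint (sect π (B.map π)) π.ker := by
  unfold sect
  have h : ∃ C : Subgroup G, C.map π = B.map π ∧ Disjoint C π.ker := ⟨B, rfl, hB⟩
  rw [dif_pos h]
  exact h.choose_spec.2

/-- The subgroup of `ker π × Q` which records `B`. -/
private noncomputable def grf {G Q : Type} [Group G] [Group Q] (π : G →* Q)
    (hc : ∀ k ∈ π.ker, ∀ g : G, k * g = g * k) (B : Subgroup G) : Subgroup (π.ker × Q) where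
  carrier := {x | ∃ b ∈ sect π (B.map π), π b = x.2 ∧ (x.1 : G) * b ∈ B}
  one_mem' := ⟨1, one_mem _, by simp, by simp [one_mem]⟩
  mul_mem' := by
    rintro x y ⟨b, hb, hb1, hb2⟩ ⟨c, hc0, hc1, hc2⟩
    refine ⟨b * c, mul_mem hb hc0, by rw [map_mul, hb1, hc1]; rfl, ?_⟩
    have h : ((x * y).1 : G) * (b * c) = ((x.1 : G) * b) * ((y.1 : G) * c) := by
      have h1 := hc y.1 y.1.2 b
      calc ((x * y).1 : G) * (b * c) = (x.1 : G) * ((y.1 : G) * b) * c := by
            simp only [Prod.fst_mul, Subgroup.coe_mul, mul_assoc]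
        _ = (x.1 : G) * (b * (y.1 : G)) * c := by rw [h1]
        _ = _ := by simp only [mul_assoc]
    rw [h]
    exact mul_mem hb2 hc2
  inv_mem' := by
    rintro x ⟨b, hb, hb1, hb2⟩
    refine ⟨b⁻¹, inv_mem hb, by rw [map_inv, hb1]; rfl, ?_⟩
    have h : ((x⁻¹).1 : G) * b⁻¹ = ((x.1 : G) * b)⁻¹ := by
      have h1 := hc x.1 x.1.2 b
      rw [h1, mul_inv_rev]
      rfl
    rw [h]
    exact inv_mem hb2

private theorem mem_grf {G Q : Type} [Group G] [Group Q] (π : G →* Q)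
    (hc : ∀ k ∈ π.ker, ∀ g : G, k * g = g * k) (B : Subgroup G) {x : π.ker × Q} :
    x ∈ grf π hc B ↔ ∃ b ∈ sect π (B.map π), π b = x.2 ∧ (x.1 : G) * b ∈ B := Iff.rfl

private theorem map_le_of_grf {G Q : Type} [Group G] [Group Q] (π : G →* Q)
    (hc : ∀ k ∈ π.ker, ∀ g : G, k * g = g * k) {B C : Subgroup G} (h : grf π hc B = grf π hc C) :
    B.map π ≤ C.map π := by
  rintro q ⟨b, hb, rfl⟩
  obtain ⟨b₀, hb₀, hq⟩ := sect_lift π B hb
  have hk : b * b₀⁻¹ ∈ π.ker := by rw [MonoidHom.mem_ker, map_mul, map_inv, hq, mul_inv_cancel]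
  have h1 : ((⟨b * b₀⁻¹, hk⟩ : π.ker), π b) ∈ grf π hc B := by
    rw [mem_grf]
    refine ⟨b₀, hb₀, hq, ?_⟩
    show b * b₀⁻¹ * b₀ ∈ B
    rw [inv_mul_cancel_right]
    exact hb
  rw [h, mem_grf] at h1
  obtain ⟨c₀, hc₀, hq', hC⟩ := h1
  refine ⟨_, hC, ?_⟩
  have hk' := π.mem_ker.1 hk
  show π (b * b₀⁻¹ * c₀) = π b
  rw [map_mul, hk', one_mul]
  exact hq'

private theorem le_of_grf {G Q : Type} [Group G] [Group Q] (π : G →* Q)
    (hc : ∀ k ∈ π.ker, ∀ g : G, k * g = g * k) (h2 : Nat.card π.ker = 2) {B C : Subgroup G}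
    (h : grf π hc B = grf π hc C) : B ≤ C := by
  have hBC : B.map π = C.map π := le_antisymm (map_le_of_grf π hc h) (map_le_of_grf π hc h.symm)
  intro b hb
  obtain ⟨b₀, hb₀, hq⟩ := sect_lift π B hb
  have hk : b * b₀⁻¹ ∈ π.ker := by rw [MonoidHom.mem_ker, map_mul, map_inv, hq, mul_inv_cancel]
  have h1 : ((⟨b * b₀⁻¹, hk⟩ : π.ker), π b) ∈ grf π hc B := by
    rw [mem_grf]
    refine ⟨b₀, hb₀, hq, ?_⟩
    show b * b₀⁻¹ * b₀ ∈ B
    rw [inv_mul_cancel_right]
    exact hb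
  rw [h, mem_grf] at h1
  obtain ⟨c₀, hc₀, hq', hC⟩ := h1
  have hC' : b * b₀⁻¹ * c₀ ∈ C := hC
  have hq'' : π c₀ = π b := hq'
  rw [hBC] at hb₀
  have hk2 : c₀⁻¹ * b₀ ∈ π.ker := by
    rw [MonoidHom.mem_ker, map_mul, map_inv, hq'', hq, inv_mul_cancel]
  by_cases hd : Disjoint C π.ker
  · have h3 := sect_disj π C hd
    have h4 : c₀⁻¹ * b₀ = 1 := Subgroup.disjoint_def.1 h3 (mul_mem (inv_mem hc₀) hb₀) hk2
    have h5 : c₀ = b₀ := (inv_mul_eq_one.1 h4)
    rw [h5, inv_mul_cancel_right] at hC'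
    exact hC'
  · have : Fact (Nat.card π.ker).Prime := ⟨by rw [h2]; exact Nat.prime_two⟩
    have h3 : π.ker ≤ C := by
      rcases Subgroup.eq_bot_or_eq_top_of_prime_card (C.subgroupOf π.ker) with h3 | h3
      · exact absurd (Subgroup.subgroupOf_eq_bot.1 h3) hd
      · exact Subgroup.subgroupOf_eq_top.1 h3
    have h4 : b = b * b₀⁻¹ * c₀ * (c₀⁻¹ * b₀) := by group
    rw [h4]
    exact mul_mem hC' (h3 hk2)

private theorem grf_card {G Q : Type} [Group G] [Group Q] [Finite G] [Finite Q] (π : G →* Q)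
    (hc : ∀ k ∈ π.ker, ∀ g : G, k * g = g * k) (h2 : Nat.card π.ker = 2) {B : Subgroup G}
    (hB : ∃ k : ℕ, Nat.card B = 2 ^ k) : ∃ k : ℕ, Nat.card (grf π hc B) = 2 ^ k := by
  obtain ⟨k, hk⟩ := hB
  have h1 : grf π hc B ≤ (⊤ : Subgroup π.ker).prod (B.map π) := by
    intro x hx
    rw [mem_grf] at hx
    obtain ⟨b, hb, hb1, hb2⟩ := hx
    refine Subgroup.mem_prod.2 ⟨Subgroup.mem_top _, ?_⟩
    refine ⟨_, hb2, ?_⟩
    rw [map_mul, π.mem_ker.1 x.1.2, one_mul]
    exact hb1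
  have h3 := Subgroup.card_dvd_of_le h1
  have h4 : Nat.card ((⊤ : Subgroup π.ker).prod (B.map π)) = 2 * Nat.card (B.map π) := by
    rw [Nat.card_congr ((⊤ : Subgroup π.ker).prodEquiv (B.map π)).toEquiv, Nat.card_prod,
      Subgroup.card_top, h2]
  have h5 : Nat.card (grf π hc B) ∣ 2 ^ (k + 1) := by
    refine h3.trans ?_
    rw [h4, pow_succ, mul_comm]
    exact Nat.mul_dvd_mul_right (hk ▸ Subgroup.card_map_dvd (H := B) π) 2
  obtain ⟨j, -, hj⟩ := (Nat.dvd_prime_pow Nat.prime_two).1 h5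
  exact ⟨j, hj⟩

private theorem count_ext {G Q : Type} [Group G] [Group Q] [Finite G] [Finite Q] (π : G →* Q)
    (hc : ∀ k ∈ π.ker, ∀ g : G, k * g = g * k) (h2 : Nat.card π.ker = 2) :
    Nat.card {B : Subgroup G // ∃ k : ℕ, Nat.card B = 2 ^ k} ≤
      Nat.card {D : Subgroup (π.ker × Q) // ∃ k : ℕ, Nat.card D = 2 ^ k} := by
  refine Nat.card_le_card_of_injective
    (fun B : {B : Subgroup G // ∃ k : ℕ, Nat.card B = 2 ^ k} =>
      (⟨grf π hc B.1, grf_card π hc h2 B.2⟩ :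
        {D : Subgroup (π.ker × Q) // ∃ k : ℕ, Nat.card D = 2 ^ k})) ?_
  intro B C h
  have h1 : grf π hc B.1 = grf π hc C.1 := congrArg Subtype.val h
  exact Subtype.ext (le_antisymm (le_of_grf π hc h2 h1) (le_of_grf π hc h2 h1.symm))

/-- `C_2 × S_m` embeds in `S_(m + 2)`. -/
private theorem exists_emb {K : Type} [Group K] (hK : Nat.card K = 2) (m : ℕ) :
    ∃ f : K × Perm (Fin m) →* Perm (Fin (m + 2)), Function.Injective f := by
  have : Fact (Nat.Prime 2) := ⟨Nat.prime_two⟩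
  have hP : Nat.card (Perm (Fin 2)) = 2 := by
    rw [Nat.card_eq_fintype_card, Fintype.card_perm, Fintype.card_fin]
    rfl
  let e : K ≃* Perm (Fin 2) := mulEquivOfPrimeCardEq (p := 2) hK hP
  let f : K × Perm (Fin m) →* Perm (Fin (m + 2)) :=
    ((finSumFinEquiv (m := m) (n := 2)).permCongrHom.toMonoidHom.comp
      (Perm.sumCongrHom (Fin m) (Fin 2))).comp
      (MonoidHom.prod (MonoidHom.snd K (Perm (Fin m))) (e.toMonoidHom.comp (MonoidHom.fst K (Perm (Fin m)))))
  refine ⟨f, ?_⟩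
  refine ((finSumFinEquiv (m := m) (n := 2)).permCongrHom.injective.comp
    Perm.sumCongrHom_injective).comp ?_
  intro x y h
  have h1 : x.2 = y.2 := congrArg Prod.fst h
  have h2 : e x.1 = e y.1 := congrArg Prod.snd h
  exact Prod.ext (e.injective h2) h1

theorem ext_count (a : ℕ) : ∀ (Γ : Type) [Group Γ] [Finite Γ] (_ : Nat.card Γ = 2 ^ a) (m : ℕ),
    Nat.card {B : Subgroup (Γ × Perm (Fin m)) // ∃ k : ℕ, Nat.card B = 2 ^ k} ≤ nTwo (m + 2 * a) := by
  induction a with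
  | zero =>
    intro Γ _ _ hΓ m
    rw [pow_zero] at hΓ
    have hs : Subsingleton Γ := (Nat.card_eq_one_iff_unique.1 hΓ).1
    refine count_inj (MonoidHom.snd Γ (Perm (Fin m))) ?_
    intro x y h
    exact Prod.ext (Subsingleton.elim _ _) h
  | succ a ih =>
    intro Γ _ _ hΓ m
    have : Fact (Nat.Prime 2) := ⟨Nat.prime_two⟩
    have hp : IsPGroup 2 Γ := IsPGroup.of_card hΓ
    have hnt : Nontrivial Γ := by
      have h1 : 1 < Nat.card Γ := by
        rw [hΓ]
        exact Nat.one_lt_two_pow (Nat.succ_ne_zero a)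
      exact Finite.one_lt_card_iff_nontrivial.1 h1
    have hcn := hp.center_nontrivial
    have hpc : IsPGroup 2 (Subgroup.center Γ) := hp.to_subgroup _
    have hd : 2 ∣ Nat.card (Subgroup.center Γ) := by
      obtain ⟨n, hn⟩ := IsPGroup.iff_card.1 hpc
      have h1 : 1 < Nat.card (Subgroup.center Γ) := Finite.one_lt_card_iff_nontrivial.2 hcn
      rw [hn] at h1 ⊢
      exact dvd_pow_self 2 (by rintro rfl; simp at h1)
    obtain ⟨z, hz⟩ := exists_prime_orderOf_dvd_card' 2 hd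
    let Z : Subgroup Γ := Subgroup.zpowers (z : Γ)
    have hZc : Z ≤ Subgroup.center Γ := by
      rw [Subgroup.zpowers_le]
      exact z.2
    have hZ2 : Nat.card Z = 2 := by
      rw [Nat.card_zpowers, Subgroup.orderOf_coe, hz]
    have hcomm : ∀ k ∈ Z, ∀ g : Γ, k * g = g * k := fun k hk g =>
      (Subgroup.mem_center_iff.1 (hZc hk) g).symm
    have hN : Z.Normal := ⟨fun k hk g => by
      rw [← hcomm k hk g, mul_inv_cancel_right]
      exact hk⟩
    have hQ : Nat.card (Γ ⧸ Z) = 2 ^ a := by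
      have h1 := Subgroup.card_eq_card_quotient_mul_card_subgroup Z
      rw [hΓ, hZ2, pow_succ] at h1
      exact (Nat.eq_of_mul_eq_mul_right (by norm_num) h1).symm
    let π : Γ × Perm (Fin m) →* (Γ ⧸ Z) × Perm (Fin m) :=
      MonoidHom.prodMap (QuotientGroup.mk' Z) (MonoidHom.id (Perm (Fin m)))
    have hker : ∀ x : Γ × Perm (Fin m), x ∈ π.ker ↔ x.1 ∈ Z ∧ x.2 = 1 := by
      intro x
      rw [MonoidHom.mem_ker]
      show (((x.1 : Γ) : Γ ⧸ Z), x.2) = 1 ↔ _
      rw [Prod.mk_eq_one, QuotientGroup.eq_one_iff]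
    have hkc : ∀ k ∈ π.ker, ∀ g : Γ × Perm (Fin m), k * g = g * k := by
      intro k hk g
      obtain ⟨h1, h2⟩ := (hker k).1 hk
      refine Prod.ext (hcomm _ h1 _) ?_
      show k.2 * g.2 = g.2 * k.2
      rw [h2, one_mul, mul_one]
    have hk2 : Nat.card π.ker = 2 := by
      rw [← hZ2]
      refine Nat.card_congr ⟨fun x => ⟨x.1.1, ((hker _).1 x.2).1⟩, fun x => ⟨(x.1, 1), (hker _).2 ⟨x.2, rfl⟩⟩,
        fun x => ?_, fun x => rfl⟩
      exact Subtype.ext (Prod.ext rfl ((hker _).1 x.2).2.symm)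
    refine (count_ext π hkc hk2).trans ?_
    obtain ⟨f, hf⟩ := exists_emb (K := π.ker) hk2 m
    let φ : π.ker × ((Γ ⧸ Z) × Perm (Fin m)) →* (Γ ⧸ Z) × Perm (Fin (m + 2)) :=
      MonoidHom.prod ((MonoidHom.fst (Γ ⧸ Z) (Perm (Fin m))).comp (MonoidHom.snd _ _))
        (f.comp (MonoidHom.prod (MonoidHom.fst _ _)
          ((MonoidHom.snd (Γ ⧸ Z) (Perm (Fin m))).comp (MonoidHom.snd _ _))))
    have hφ : Function.Injective φ := by
      intro x y h
      have h0 : (φ x).1 = (φ y).1 := by rw [h]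
      have h0' : (φ x).2 = (φ y).2 := by rw [h]
      have h1 : x.2.1 = y.2.1 := h0
      have h2 : f (x.1, x.2.2) = f (y.1, y.2.2) := h0'
      have h3 := Prod.mk.inj (hf h2)
      have h4 : x.1 = y.1 := h3.1
      have h5 : x.2.2 = y.2.2 := h3.2
      exact Prod.ext h4 (Prod.ext h1 h5)
    refine (count_inj φ hφ).trans ?_
    have h6 := ih (Γ ⧸ Z) hQ (m + 2)
    have h7 : m + 2 + 2 * a = m + 2 * (a + 1) := by ring
    rw [h7] at h6
    exact h6

end Pool.Agent.SvS
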