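import Pool.Agent.SvS.Gen

/-!
MP_7fa120_al, solvable subgroups. Complements of a chief factor: the subgroup `L ⊓ C`.

`L ⊓ M = N` is `cm_inf`. `C` is normal in `G` (as `N` and `M` are), `M ≤ C` (`chief_comm`). `C = C ⊓ L M = (C ⊓ L) M` (Dedekind), and
`(L ⊓ C) ⊓ M = N`. `L ⊓ C` is normalised by `L`, and by `M`: for `m ∈ M`, `c ∈ L ⊓ C`, `m c m⁻¹ c⁻¹ = (c m c⁻¹ m⁻¹)⁻¹` up to conjugation is in `N ≤ L ⊓ C`
(as `c ∈ C`). So it is normal in `G = L M`. `C / (L ⊓ C)` is isomorphic to `M / N` (second isomorphism theorem) and the isomorphism is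
compatible with conjugation by `G`: a normal subgroup `T` with `L ⊓ C ≤ T ≤ C` satisfies `T = (L ⊓ C) (T ⊓ M)`, and `T ⊓ M` is `N` or `M`; so
`Chief (L ⊓ C) C`. The index: `(L ⊓ C).relIndex C = ((L ⊓ C) ⊓ M).relIndex M = N.relIndex M`. Finally if `[g, c] ∈ L ⊓ C` for all `c ∈ C` then for
`m ∈ M ≤ C`, `[g, m] ∈ L ⊓ M = N`, so `g ∈ C`; if `g ∈ C` and `c = l m ∈ C` with `l ∈ L ⊓ C`, `m ∈ M` then modulo the normal subgroup `L ⊓ C`,
`[g, c] ≡ [g, m] ∈ N`.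
-/

set_option autoImplicit false

namespace Pool.Agent.SvS

theorem ext_a {G : Type} [Group G] [Finite G] (hs : Group.IsSolvable G) {C N M : Subgroup G} (h : Chief N M) (hC : Czr C N M)
    {L : Subgroup G} (h1 : N ≤ L) (h2 : L ⊔ M = ⊤) (h3 : L ≠ ⊤) :
    C.Normal ∧ M ≤ C ∧ (L ⊓ C) ⊔ M = C ∧ (L ⊓ C) ⊓ M = N ∧ Chief (L ⊓ C) C ∧ (L ⊓ C).relIndex C = N.relIndex M ∧
      ∀ g : G, g ∈ C ↔ ∀ c ∈ C, g * c * g⁻¹ * c⁻¹ ∈ L ⊓ C := by
  have hcomm := chief_comm hs h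
  have hinf := cm_inf hs h h1 h2 h3
  obtain ⟨hN, hM, hlt, hch⟩ := h
  have hCn : C.Normal := by
    refine ⟨fun g hg x => (hC _).2 fun m hm => ?_⟩
    have e1 : x * g * x⁻¹ * m * (x * g * x⁻¹)⁻¹ * m⁻¹ =
        x * (g * (x⁻¹ * m * x⁻¹⁻¹) * g⁻¹ * (x⁻¹ * m * x⁻¹⁻¹)⁻¹) * x⁻¹ := by group
    rw [e1]
    exact hN.conj_mem _ ((hC g).1 hg _ (hM.conj_mem m hm x⁻¹)) x
  have hMC : M ≤ C := fun a ha => (hC a).2 fun m hm => hcomm a ha m hm
  have hdec : ∀ g : G, ∃ l ∈ L, ∃ m ∈ M, l * m = g := by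
    intro g
    have hg : g ∈ L ⊔ M := by rw [h2]; exact Subgroup.mem_top g
    exact Subgroup.mem_sup_of_normal_right.1 hg
  have hsup : (L ⊓ C) ⊔ M = C := by
    refine le_antisymm (sup_le inf_le_right hMC) fun c hc => ?_
    obtain ⟨l, hl, m, hm, rfl⟩ := hdec c
    have hl' : l ∈ C := by
      have e1 : l = l * m * m⁻¹ := by group
      rw [e1]
      exact mul_mem hc (inv_mem (hMC hm))
    exact mul_mem (Subgroup.mem_sup_left ⟨hl, hl'⟩) (Subgroup.mem_sup_right hm)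
  have hKM : (L ⊓ C) ⊓ M = N := by
    rw [inf_assoc, inf_eq_right.2 hMC, hinf]
  have hNK : N ≤ L ⊓ C := hKM ▸ inf_le_left
  have hKn : (L ⊓ C).Normal := by
    refine ⟨fun k hk g => ?_⟩
    obtain ⟨l, hl, m, hm, rfl⟩ := hdec g
    have h4 : m * k * m⁻¹ ∈ L ⊓ C := by
      have e1 : m * k * m⁻¹ = (k * m * k⁻¹ * m⁻¹)⁻¹ * k := by group
      rw [e1]
      exact mul_mem (inv_mem (hNK ((hC k).1 hk.2 m hm))) hk
    have e2 : l * m * k * (l * m)⁻¹ = l * (m * k * m⁻¹) * l⁻¹ := by group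
    rw [e2]
    exact Subgroup.mem_inf.2 ⟨mul_mem (mul_mem hl h4.1) (inv_mem hl), hCn.conj_mem _ h4.2 l⟩
  have hkm : ∀ c ∈ C, ∃ k ∈ L ⊓ C, ∃ m ∈ M, k * m = c := by
    intro c hc
    rw [← hsup] at hc
    exact Subgroup.mem_sup_of_normal_right.1 hc
  refine ⟨hCn, hMC, hsup, hKM, ⟨hKn, hCn, ?_, ?_⟩, ?_, ?_⟩
  · refine lt_of_le_of_ne inf_le_right fun heq => h3 ?_
    have h4 : M ≤ L := fun m hm => by
      have h5 := hMC hm
      rw [← heq] at h5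
      exact h5.1
    rw [← h2]
    exact (sup_eq_left.2 h4).symm
  · intro T hT hKT hTC
    have hTM : (T ⊓ M).Normal := Subgroup.normal_inf_normal T M
    rcases hch (T ⊓ M) hTM (le_inf (hNK.trans hKT) hlt.le) inf_le_right with h4 | h4
    · left
      refine le_antisymm (fun t ht => ?_) hKT
      obtain ⟨k, hk, m, hm, rfl⟩ := hkm t (hTC ht)
      have h5 : m ∈ T ⊓ M := by
        refine Subgroup.mem_inf.2 ⟨?_, hm⟩
        have e1 : m = k⁻¹ * (k * m) := by group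
        rw [e1]
        exact mul_mem (inv_mem (hKT hk)) ht
      rw [h4] at h5
      exact mul_mem hk (hNK h5)
    · right
      have h5 : M ≤ T := inf_eq_right.1 h4
      refine le_antisymm hTC ?_
      rw [← hsup]
      exact sup_le hKT h5
  · have h4 : (L ⊓ C).relIndex (M ⊔ (L ⊓ C)) = (L ⊓ C).relIndex M :=
      Subgroup.relIndex_sup_right _ _
    have h5 : ((L ⊓ C) ⊓ M).relIndex M = (L ⊓ C).relIndex M := Subgroup.inf_relIndex_right _ _
    rw [hKM] at h5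
    rw [sup_comm, hsup] at h4
    rw [h4, h5]
  · intro g
    constructor
    · intro hg c hc
      obtain ⟨k, hk, m, hm, rfl⟩ := hkm c hc
      have e1 : g * (k * m) * g⁻¹ * (k * m)⁻¹ =
          (g * k * g⁻¹) * (g * m * g⁻¹ * m⁻¹) * k⁻¹ := by group
      rw [e1]
      exact mul_mem (mul_mem (hKn.conj_mem k hk g) (hNK ((hC g).1 hg m hm))) (inv_mem hk)
    · intro hg
      refine (hC g).2 fun m hm => ?_
      rw [← hKM]
      exact Subgroup.mem_inf.2 ⟨hg m (hMC hm), mul_mem (hM.conj_mem m hm g) (inv_mem hm)⟩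

end Pool.Agent.SvS
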