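import Pool.Agent.SvS.ExtA

/-!
MP_7fa120_al, solvable subgroups. The number of complements `L` with the same `L ⊓ C`.

Proof. If there is no such `L` nothing to do; otherwise `ext_a` applies to every such `L`, `K = L ⊓ C` is normal in `G`. If `C = ⊤` then `L = K`, at most one
group. Let `C ≠ ⊤`. `M / N` is an elementary abelian `p`-group (chief factor of a solvable group), and `C / K` has the same order `q`, a power
of `p`. Let `M₁ / C` be a minimal normal subgroup of the solvable group `G / C`, an elementary abelian `r`-group (`M₁ > C` normal in `G`; it is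
enough that `M₁ / C` is a nontrivial `r`-group). Claim `r ≠ p`: otherwise the `p`-group `M₁ / C` acts on the `p`-group `M / N` and has nontrivial
fixed points there; the group `{m ∈ M : [g, m] ∈ N for all g ∈ M₁}` is normal in `G`, contains `N` properly, so it is `M`, hence `M₁ ≤ C`, a contradiction.
The same argument shows for `r ≠ p` that (*) `{m ∈ M : [g, m] ∈ N for all g ∈ M₁} = N` (it is normal in `G`, not `M`).
Let `S_L = L ⊓ M₁`. `C S_L = M₁` (Dedekind, `C L = G`) and `S_L ⊓ C = K`. So `S_L / K` is a Sylow `r`-subgroup of `M₁ / K` (order `|M₁ / C|`, index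
`|C / K| = q`), and Sylow subgroups are conjugate; as `M₁ = C S_L` they are conjugate by elements of `C`, and by elements of `K` trivially, so
`S_(L') = c S_L c⁻¹` with `c` in a set of representatives of `C / K`: at most `q` possibilities for `S_L` once one of them is fixed. And `L` is the
normaliser of `S_L` in `G`: `L` normalises `S_L`. If `g ∈ G = L M` normalises `S_L`, write `g = l m`, `m ∈ M` normalises `S_L`. For
`s ∈ S_L`: `[m, s] ∈ S_L ⊓ M` (as `M` is normal) `= L ⊓ M = N`. For `g' ∈ M₁ = C S_L`, `g' = c s`: `[m, g'] ∈ N` too, because `c ∈ C`. So by (*)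
`m ∈ N ≤ L`. Hence `L` is determined by `S_L`, at most `q = N.relIndex M` groups `L`.
-/

set_option autoImplicit false

namespace Pool.Agent.SvS

/-- A chief factor of a finite solvable group has prime exponent. -/
private theorem chief_pow {G : Type} [Group G] [Finite G] (hs : Group.IsSolvable G) {N M : Subgroup G}
    (h : Chief N M) : ∃ p : ℕ, p.Prime ∧ ∀ x ∈ M, x ^ p ∈ N := by
  have hc := chief_comm hs h
  obtain ⟨hN, hM, hlt, hmin⟩ := h
  obtain ⟨x, hxM, hxN⟩ := SetLike.exists_of_lt hlt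
  have hx1 : ((x : G) : G ⧸ N) ≠ 1 := fun hh => hxN ((QuotientGroup.eq_one_iff x).1 hh)
  have hn1 : orderOf ((x : G) : G ⧸ N) ≠ 1 := fun hh => hx1 (orderOf_eq_one_iff.1 hh)
  have hn0 : 0 < orderOf ((x : G) : G ⧸ N) := orderOf_pos _
  set n := orderOf ((x : G) : G ⧸ N) with hn
  have hp := Nat.minFac_prime hn1
  obtain ⟨k, hk⟩ := Nat.minFac_dvd n
  have hk0 : k ≠ 0 := by
    rintro rfl
    rw [mul_zero] at hk
    omega
  have hkn : k < n := by
    have h2 := hp.two_le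
    have h3 : 0 < k := Nat.pos_of_ne_zero hk0
    have h4 : 2 * k ≤ n.minFac * k := Nat.mul_le_mul_right k h2
    omega
  have hy : x ^ k ∉ N := by
    intro hh
    have h2 := (QuotientGroup.eq_one_iff (x ^ k)).2 hh
    rw [QuotientGroup.mk_pow] at h2
    exact pow_ne_one_of_lt_orderOf hk0 hkn h2
  have hyp : (x ^ k) ^ n.minFac ∈ N := by
    rw [← pow_mul, mul_comm, ← hk]
    refine (QuotientGroup.eq_one_iff (x ^ n)).1 ?_
    rw [QuotientGroup.mk_pow]
    exact pow_orderOf_eq_one _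
  refine ⟨n.minFac, hp, ?_⟩
  let E : Subgroup G :=
    { carrier := {z | z ∈ M ∧ z ^ n.minFac ∈ N}
      one_mem' := ⟨one_mem _, by rw [one_pow]; exact one_mem _⟩
      mul_mem' := by
        rintro a b ⟨ha, ha'⟩ ⟨hb, hb'⟩
        refine ⟨mul_mem ha hb, ?_⟩
        refine (QuotientGroup.eq_one_iff _).1 ?_
        have h1 := (QuotientGroup.eq_one_iff _).2 (hc a ha b hb)
        rw [QuotientGroup.mk_mul, QuotientGroup.mk_mul, QuotientGroup.mk_mul, QuotientGroup.mk_inv,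
          QuotientGroup.mk_inv] at h1
        have h2 : Commute ((a : G) : G ⧸ N) ((b : G) : G ⧸ N) := by
          rw [mul_inv_eq_one, mul_inv_eq_iff_eq_mul] at h1
          exact h1
        rw [QuotientGroup.mk_pow, QuotientGroup.mk_mul, h2.mul_pow, ← QuotientGroup.mk_pow,
          ← QuotientGroup.mk_pow, (QuotientGroup.eq_one_iff _).2 ha',
          (QuotientGroup.eq_one_iff _).2 hb', one_mul]
      inv_mem' := by
        rintro a ⟨ha, ha'⟩
        exact ⟨inv_mem ha, by rw [inv_pow]; exact inv_mem ha'⟩ }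
  have hE : E.Normal := by
    refine ⟨?_⟩
    rintro a ⟨ha, ha'⟩ g
    exact ⟨hM.conj_mem a ha g, by rw [conj_pow]; exact hN.conj_mem _ ha' g⟩
  have hNE : N ≤ E := fun z hz => ⟨hlt.le hz, pow_mem hz _⟩
  have hEM : E ≤ M := fun z hz => hz.1
  rcases hmin E hE hNE hEM with h1 | h1
  · exfalso
    have h2 : x ^ k ∈ E := ⟨pow_mem hxM k, hyp⟩
    rw [h1] at h2
    exact hy h2
  · intro z hz
    rw [← h1] at hz
    exact hz.2

/-- Complements of a self-centralising minimal normal subgroup are conjugate. -/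
private theorem conj_compl {G : Type} [Group G] [Finite G] (hs : Group.IsSolvable G) {C : Subgroup G}
    (hC : Chief ⊥ C) (hz : ∀ g : G, g ∈ C ↔ ∀ c ∈ C, g * c = c * g)
    {L L₀ : Subgroup G} (h1 : L ⊓ C = ⊥) (h2 : L ⊔ C = ⊤) (h3 : L₀ ⊓ C = ⊥) (h4 : L₀ ⊔ C = ⊤) :
    ∃ c ∈ C, ∀ x : G, x ∈ L ↔ c⁻¹ * x * c ∈ L₀ := by
  obtain ⟨p, hp, hCp⟩ := chief_pow hs hC
  obtain ⟨-, hCn, hClt, hCmin⟩ := hC
  by_cases hT : C = ⊤
  · refine ⟨1, one_mem _, fun x => ?_⟩
    rw [hT, inf_top_eq] at h1 h3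
    rw [h1, h3, inv_one, one_mul, mul_one]
  have hne : ({T : Subgroup G | T.Normal ∧ C < T}).Nonempty :=
    ⟨⊤, inferInstance, lt_top_iff_ne_top.2 hT⟩
  obtain ⟨M, hM⟩ := (Set.toFinite {T : Subgroup G | T.Normal ∧ C < T}).exists_minimal hne
  have hMn : M.Normal := hM.prop.1
  have hCM : C < M := hM.prop.2
  have hch : Chief C M := by
    refine ⟨hCn, hMn, hCM, fun T hT h5 h6 => ?_⟩
    rcases h5.lt_or_eq with h7 | h7
    · exact Or.inr (le_antisymm h6 (hM.le_of_le ⟨hT, h7⟩ h6))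
    · exact Or.inl h7.symm
  obtain ⟨r, hr, hMr⟩ := chief_pow hs hch
  have hcp : ∀ c ∈ C, c ^ p = 1 := fun c hc => Subgroup.mem_bot.1 (hCp c hc)
  -- no element of `C` commutes with `M`
  have hD : ∀ c ∈ C, (∀ g ∈ M, g * c = c * g) → c = 1 := by
    let D : Subgroup G :=
      { carrier := {c | c ∈ C ∧ ∀ g ∈ M, g * c = c * g}
        one_mem' := ⟨one_mem _, fun g _ => by rw [mul_one, one_mul]⟩
        mul_mem' := by
          rintro a b ⟨ha, ha'⟩ ⟨hb, hb'⟩
          refine ⟨mul_mem ha hb, fun g hg => ?_⟩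
          rw [← mul_assoc, ha' g hg, mul_assoc, hb' g hg, mul_assoc]
        inv_mem' := by
          rintro a ⟨ha, ha'⟩
          refine ⟨inv_mem ha, fun g hg => ?_⟩
          rw [mul_inv_eq_iff_eq_mul, mul_assoc, ha' g hg, inv_mul_cancel_left] }
    have hDn : D.Normal := by
      refine ⟨?_⟩
      rintro a ⟨ha, ha'⟩ h
      refine ⟨hCn.conj_mem a ha h, fun g hg => ?_⟩
      have h5 := ha' (h⁻¹ * g * h) (hMn.conj_mem' g hg h)
      calc g * (h * a * h⁻¹) = h * ((h⁻¹ * g * h) * a) * h⁻¹ := by group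
        _ = h * (a * (h⁻¹ * g * h)) * h⁻¹ := by rw [h5]
        _ = h * a * h⁻¹ * g := by group
    rcases hCmin D hDn bot_le (fun z hz => hz.1) with h5 | h5
    · intro c hc hc'
      have h6 : c ∈ D := ⟨hc, hc'⟩
      rw [h5] at h6
      exact Subgroup.mem_bot.1 h6
    · exfalso
      refine not_le_of_gt hCM (fun g hg => (hz g).2 fun c hc => ?_)
      rw [← h5] at hc
      exact hc.2 g hg
  -- `L` is a normaliser
  have key : ∀ L : Subgroup G, L ⊓ C = ⊥ → L ⊔ C = ⊤ → ∀ x : G,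
      x ∈ L ↔ ∀ s, s ∈ L → s ∈ M → x * s * x⁻¹ ∈ L := by
    intro L h1 h2 x
    refine ⟨fun hx s hs _ => mul_mem (mul_mem hx hs) (inv_mem hx), fun hx => ?_⟩
    have h5 : x ∈ L ⊔ C := by rw [h2]; exact Subgroup.mem_top x
    obtain ⟨l, hl, c, hc, rfl⟩ := Subgroup.mem_sup_of_normal_right.1 h5
    have h6 : ∀ s, s ∈ L → s ∈ M → s * c = c * s := by
      intro s hs hsM
      have h7 := hx s hs hsM
      have h8 : c * s * c⁻¹ ∈ L := by
        have h9 := mul_mem (mul_mem (inv_mem hl) h7) hl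
        have h10 : l⁻¹ * (l * c * s * (l * c)⁻¹) * l = c * s * c⁻¹ := by group
        rwa [h10] at h9
      have h9 : c * s * c⁻¹ * s⁻¹ ∈ L ⊓ C := by
        refine ⟨L.mul_mem h8 (L.inv_mem hs), ?_⟩
        have h10 : c * s * c⁻¹ * s⁻¹ = c * (s * c⁻¹ * s⁻¹) := by group
        rw [h10]
        exact mul_mem hc (hCn.conj_mem _ (inv_mem hc) s)
      rw [h1, Subgroup.mem_bot, mul_inv_eq_one, mul_inv_eq_iff_eq_mul] at h9
      exact h9.symm
    have h7 : c = 1 := by
      refine hD c hc fun g hg => ?_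
      have h8 : g ∈ L ⊔ C := by rw [h2]; exact Subgroup.mem_top g
      obtain ⟨s, hs, d, hd, rfl⟩ := Subgroup.mem_sup_of_normal_right.1 h8
      have h9 : s ∈ M := by
        have h10 := M.mul_mem hg (M.inv_mem (hCM.le hd))
        rwa [mul_inv_cancel_right] at h10
      have h10 : d * c = c * d := (hz d).1 hd c hc
      calc s * d * c = s * (d * c) := mul_assoc _ _ _
        _ = s * c * d := by rw [h10, mul_assoc]
        _ = c * (s * d) := by rw [h6 s hs h9, mul_assoc]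
    rw [h7, mul_one]
    exact hl
  have hrf : Fact r.Prime := ⟨hr⟩
  have hpf : Fact p.Prime := ⟨hp⟩
  -- the primes are different
  have hrp : r ≠ p := by
    rintro rfl
    have hMp : IsPGroup r M := by
      rw [IsPGroup.iff_orderOf]
      intro x
      have h5 : x ^ (r ^ 2) = 1 := by
        apply Subtype.ext
        rw [Subgroup.coe_pow, pow_two, pow_mul]
        exact hcp _ (hMr x x.2)
      obtain ⟨k, -, hk⟩ := (Nat.dvd_prime_pow hr).1 (orderOf_dvd_of_pow_eq_one h5)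
      exact ⟨k, hk⟩
    obtain ⟨x, hxC, hx⟩ := SetLike.exists_of_lt hClt
    have hx' : x ≠ 1 := fun h => hx (Subgroup.mem_bot.2 h)
    have hdvd : r ∣ Nat.card C := by
      have h5 : orderOf (⟨x, hxC⟩ : C) = r :=
        orderOf_eq_prime (Subtype.ext (hcp x hxC)) fun h => hx' (congrArg Subtype.val h)
      rw [← h5]
      exact orderOf_dvd_natCard _
    let act : MulAction M C :=
      MulAction.compHom C ((MulAut.conjNormal (H := C)).comp M.subtype)
    have hsm : ∀ (g : M) (c : C), ((g • c : C) : G) = g * c * (g : G)⁻¹ := fun g c => rfl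
    have h1f : (1 : C) ∈ MulAction.fixedPoints M C := by
      intro g
      apply Subtype.ext
      rw [hsm, Subgroup.coe_one, mul_one, mul_inv_cancel]
    obtain ⟨b, hb, hb1⟩ := hMp.exists_fixed_point_of_prime_dvd_card_of_fixed_point C hdvd h1f
    refine hb1 (Subtype.ext (hD b b.2 fun g hg => ?_)).symm
    have h5 := congrArg Subtype.val (hb ⟨g, hg⟩)
    rw [hsm] at h5
    exact mul_inv_eq_iff_eq_mul.1 h5
  have hcop : ∀ k : ℕ, Nat.Coprime (r ^ k) p := fun k =>
    Nat.Coprime.pow_left k ((Nat.coprime_primes hr hp).2 hrp)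
  -- Sylow subgroups
  have syl : ∀ L : Subgroup G, L ⊓ C = ⊥ → L ⊔ C = ⊤ →
      ∃ P : Sylow r M, ∀ y : M, y ∈ P ↔ (y : G) ∈ L := by
    intro L h1 h2
    have hLr : ∀ x ∈ L, x ∈ M → x ^ r = 1 := by
      intro x hx hxM
      have h5 : x ^ r ∈ L ⊓ C := ⟨pow_mem hx r, hMr x hxM⟩
      rw [h1] at h5
      exact Subgroup.mem_bot.1 h5
    refine ⟨⟨L.subgroupOf M, ?_, ?_⟩, fun y => Subgroup.mem_subgroupOf⟩
    · rw [IsPGroup.iff_orderOf]
      intro x
      have h5 : x ^ (r ^ 1) = 1 := by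
        apply Subtype.ext
        apply Subtype.ext
        rw [pow_one]
        exact hLr _ (Subgroup.mem_subgroupOf.1 x.2) x.1.2
      obtain ⟨k, -, hk⟩ := (Nat.dvd_prime_pow hr).1 (orderOf_dvd_of_pow_eq_one h5)
      exact ⟨k, hk⟩
    · intro Q hQ hle
      refine le_antisymm (fun x hx => ?_) hle
      rw [Subgroup.mem_subgroupOf]
      have h5 : (x : G) ∈ L ⊔ C := by rw [h2]; exact Subgroup.mem_top _
      obtain ⟨l, hl, c, hc, hlc⟩ := Subgroup.mem_sup_of_normal_right.1 h5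
      have hcM : c ∈ M := hCM.le hc
      have hlM : l ∈ M := by
        have h6 : l = x * c⁻¹ := by rw [← hlc, mul_inv_cancel_right]
        rw [h6]
        exact mul_mem x.2 (inv_mem hcM)
      have h7 : (⟨l, hlM⟩ : M) ∈ Q := hle (Subgroup.mem_subgroupOf.2 hl)
      have h8 : (⟨c, hcM⟩ : M) ∈ Q := by
        have h9 : (⟨c, hcM⟩ : M) = (⟨l, hlM⟩ : M)⁻¹ * x := by
          apply Subtype.ext
          show c = l⁻¹ * x
          rw [← hlc, inv_mul_cancel_left]
        rw [h9]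
        exact mul_mem (inv_mem h7) hx
      obtain ⟨k, hk⟩ := hQ ⟨_, h8⟩
      have h9 : c ^ (r ^ k) = 1 := congrArg (fun z : Q => ((z : M) : G)) hk
      have h10 : c = 1 := by
        have h11 : orderOf c ∣ Nat.gcd (r ^ k) p :=
          Nat.dvd_gcd (orderOf_dvd_of_pow_eq_one h9) (orderOf_dvd_of_pow_eq_one (hcp c hc))
        rw [Nat.Coprime.gcd_eq_one (hcop k), Nat.dvd_one] at h11
        exact orderOf_eq_one_iff.1 h11
      rw [← hlc, h10, mul_one]
      exact hl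
  obtain ⟨P, hP⟩ := syl L h1 h2
  obtain ⟨P₀, hP₀⟩ := syl L₀ h3 h4
  obtain ⟨g, hg⟩ := MulAction.exists_smul_eq M P₀ P
  have hgy : ∀ y : M, (y : G) ∈ L ↔ (g : G)⁻¹ * y * g ∈ L₀ := by
    intro y
    rw [← hP y, ← hg]
    have h5 : y ∈ g • P₀ ↔ g⁻¹ * y * g ∈ P₀ := by
      show y ∈ ((g • P₀ : Sylow r M) : Subgroup M) ↔ g⁻¹ * y * g ∈ (P₀ : Subgroup M)
      rw [Sylow.coe_subgroup_smul, Subgroup.mem_pointwise_smul_iff_inv_smul_mem]
      have h6 : (MulAut.conj g)⁻¹ • y = g⁻¹ * y * g := by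
        rw [← map_inv, MulAut.smul_def, MulAut.conj_apply, inv_inv]
      rw [h6]
    rw [h5, hP₀]
    rfl
  -- the conjugating element may be taken in `C`
  have h5 : (g : G)⁻¹ ∈ L₀ ⊔ C := by rw [h4]; exact Subgroup.mem_top _
  obtain ⟨l, hl, c, hc, hlc⟩ := Subgroup.mem_sup_of_normal_right.1 h5
  have hgc : (g : G) = c⁻¹ * l⁻¹ := by
    rw [← mul_inv_rev, hlc, inv_inv]
  have hcy : ∀ y ∈ M, y ∈ L ↔ c * y * c⁻¹ ∈ L₀ := by
    intro y hy
    rw [hgy ⟨y, hy⟩]
    show (g : G)⁻¹ * y * g ∈ L₀ ↔ _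
    have h6 : (g : G)⁻¹ * y * g = l * (c * y * c⁻¹) * l⁻¹ := by
      rw [hgc]
      group
    rw [h6, Subgroup.mul_mem_cancel_right _ (inv_mem hl), Subgroup.mul_mem_cancel_left _ hl]
  refine ⟨c⁻¹, inv_mem hc, fun x => ?_⟩
  rw [inv_inv, key L h1 h2 x, key L₀ h3 h4 (c * x * c⁻¹)]
  constructor
  · intro hx s hs hsM
    have h6 : c⁻¹ * s * c ∈ M := hMn.conj_mem' s hsM c
    have h7 : c⁻¹ * s * c ∈ L := by
      rw [hcy _ h6]
      have h8 : c * (c⁻¹ * s * c) * c⁻¹ = s := by group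
      rw [h8]
      exact hs
    have h8 := hx _ h7 h6
    rw [hcy _ (hMn.conj_mem _ h6 x)] at h8
    have h9 : c * (x * (c⁻¹ * s * c) * x⁻¹) * c⁻¹ = c * x * c⁻¹ * s * (c * x * c⁻¹)⁻¹ := by group
    rwa [h9] at h8
  · intro hx s hs hsM
    have h6 : c * s * c⁻¹ ∈ M := hMn.conj_mem s hsM c
    have h7 : c * s * c⁻¹ ∈ L₀ := (hcy s hsM).1 hs
    have h8 := hx _ h7 h6
    rw [hcy _ (hMn.conj_mem _ hsM x)]
    have h9 : c * (x * s * x⁻¹) * c⁻¹ = c * x * c⁻¹ * (c * s * c⁻¹) * (c * x * c⁻¹)⁻¹ := by group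
    rwa [h9]

theorem ext_b {G : Type} [Group G] [Finite G] (hs : Group.IsSolvable G) {C N M : Subgroup G} (h : Chief N M) (hC : Czr C N M)
    (K : Subgroup G) :
    Nat.card {L : Subgroup G // N ≤ L ∧ L ⊔ M = ⊤ ∧ L ≠ ⊤ ∧ L ⊓ C = K} ≤ N.relIndex M := by
  by_cases hne : Nonempty {L : Subgroup G // N ≤ L ∧ L ⊔ M = ⊤ ∧ L ≠ ⊤ ∧ L ⊓ C = K}
  swap
  · rw [not_nonempty_iff] at hne
    rw [Nat.card_of_isEmpty]
    exact Nat.zero_le _
  obtain ⟨L₀, a1, a2, a3, a4⟩ := hne
  obtain ⟨hCn, hMC, -, -, hch, hidx, hcz⟩ := ext_a hs h hC a1 a2 a3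
  rw [a4] at hch hidx hcz
  obtain ⟨hKn, -, hKC, hmin⟩ := hch
  have hmk : ∀ {x : G}, x ∈ K ↔ ((x : G) : G ⧸ K) = 1 := fun {x} => (QuotientGroup.eq_one_iff x).symm
  let π : G →* G ⧸ K := QuotientGroup.mk' K
  have hπ : Function.Surjective π := QuotientGroup.mk'_surjective K
  have hker : π.ker = K := QuotientGroup.ker_mk' K
  have hcomap : ∀ L : Subgroup G, K ≤ L → (L.map π).comap π = L := by
    intro L hL
    rw [Subgroup.comap_map_eq, hker, sup_eq_left]
    exact hL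
  have hmem : ∀ L : Subgroup G, K ≤ L → ∀ x : G, π x ∈ L.map π ↔ x ∈ L := by
    intro L hL x
    rw [← Subgroup.mem_comap, hcomap L hL]
  have hsq : Group.IsSolvable (G ⧸ K) := by
    have := hs
    infer_instance
  have hchq : Chief (⊥ : Subgroup (G ⧸ K)) (C.map π) := by
    refine ⟨inferInstance, hCn.map π hπ, ?_, ?_⟩
    · rw [bot_lt_iff_ne_bot]
      intro h5
      obtain ⟨x, hx, hx'⟩ := SetLike.exists_of_lt hKC
      have h6 : π x ∈ C.map π := ⟨x, hx, rfl⟩
      rw [h5, Subgroup.mem_bot] at h6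
      exact hx' ((QuotientGroup.eq_one_iff x).1 h6)
    · intro T hT _ hTC
      have h5 : K ≤ T.comap π := by
        intro x hx
        rw [Subgroup.mem_comap]
        have h6 : π x = 1 := (QuotientGroup.eq_one_iff x).2 hx
        rw [h6]
        exact one_mem T
      have h6 : T.comap π ≤ C := by
        rw [← hcomap C hKC.le]
        exact Subgroup.comap_mono hTC
      have h7 : (T.comap π).map π = T := Subgroup.map_comap_eq_self_of_surjective hπ T
      rcases hmin (T.comap π) (hT.comap π) h5 h6 with h8 | h8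
      · left
        rw [← h7, h8]
        exact (Subgroup.map_eq_bot_iff _).2 hker.ge
      · right
        rw [← h7, h8]
  have hzq : ∀ g : G ⧸ K, g ∈ C.map π ↔ ∀ c ∈ C.map π, g * c = c * g := by
    intro g
    obtain ⟨g, rfl⟩ := hπ g
    rw [hmem C hKC.le, hcz g]
    constructor
    · rintro h5 _ ⟨c, hc, rfl⟩
      have h6 : π (g * c * g⁻¹ * c⁻¹) = 1 := (QuotientGroup.eq_one_iff _).2 (h5 c hc)
      rw [map_mul, map_mul, map_mul, map_inv, map_inv, mul_inv_eq_one, mul_inv_eq_iff_eq_mul] at h6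
      exact h6
    · intro h5 c hc
      refine (QuotientGroup.eq_one_iff _).1 ?_
      show π (g * c * g⁻¹ * c⁻¹) = 1
      rw [map_mul, map_mul, map_mul, map_inv, map_inv, mul_inv_eq_one, mul_inv_eq_iff_eq_mul]
      exact h5 (π c) ⟨c, hc, rfl⟩
  have hq : ∀ L : Subgroup G, L ⊔ M = ⊤ → L ⊓ C = K → K ≤ L ∧ L.map π ⊓ C.map π = ⊥ ∧ L.map π ⊔ C.map π = ⊤ := by
    intro L h5 h6
    have hKL : K ≤ L := by
      rw [← h6]
      exact inf_le_left
    refine ⟨hKL, ?_, ?_⟩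
    · rw [eq_bot_iff]
      intro x hx
      obtain ⟨x, rfl⟩ := hπ x
      have h7 : x ∈ L ⊓ C := ⟨(hmem L hKL x).1 hx.1, (hmem C hKC.le x).1 hx.2⟩
      rw [h6] at h7
      exact Subgroup.mem_bot.2 ((QuotientGroup.eq_one_iff x).2 h7)
    · rw [← Subgroup.map_sup]
      have h7 : L ⊔ C = ⊤ := by
        rw [eq_top_iff, ← h5]
        exact sup_le_sup_left hMC L
      rw [h7]
      exact Subgroup.map_top_of_surjective π hπ
  obtain ⟨hK0, b1, b2⟩ := hq L₀ a2 a4
  have hmain : ∀ L : {L : Subgroup G // N ≤ L ∧ L ⊔ M = ⊤ ∧ L ≠ ⊤ ∧ L ⊓ C = K},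
      ∃ c : C, ∀ x : G, x ∈ L.1 ↔ (c : G)⁻¹ * x * c ∈ L₀ := by
    rintro ⟨L, -, c2, -, c4⟩
    obtain ⟨hKL, d1, d2⟩ := hq L c2 c4
    obtain ⟨c, ⟨c, hc, rfl⟩, hc'⟩ := conj_compl hsq hchq hzq d1 d2 b1 b2
    refine ⟨⟨c, hc⟩, fun x => ?_⟩
    have h5 := hc' (π x)
    rw [hmem L hKL, ← map_inv, ← map_mul, ← map_mul, hmem L₀ hK0] at h5
    exact h5
  choose f hf using hmain
  rw [← hidx]
  show _ ≤ Nat.card (C ⧸ K.subgroupOf C)
  refine Nat.card_le_card_of_injective (fun L => ((f L : C) : C ⧸ K.subgroupOf C)) ?_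
  intro L L' hLL
  have h5 : (f L)⁻¹ * f L' ∈ K.subgroupOf C := QuotientGroup.eq.1 hLL
  rw [Subgroup.mem_subgroupOf] at h5
  have h6 : ((f L : C) : G)⁻¹ * (f L' : C) ∈ L₀ := hK0 h5
  apply Subtype.ext
  ext x
  rw [hf L x, hf L' x]
  have h7 : ((f L' : C) : G)⁻¹ * x * (f L' : C) =
      (((f L : C) : G)⁻¹ * (f L' : C))⁻¹ * (((f L : C) : G)⁻¹ * x * (f L : C)) *
        (((f L : C) : G)⁻¹ * (f L' : C)) := by group
  rw [h7, Subgroup.mul_mem_cancel_right _ h6, Subgroup.mul_mem_cancel_left _ (inv_mem h6)]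

end Pool.Agent.SvS
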