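import Pool.Agent.SvS.ExtB

/-!
MP_7fa120_al, solvable subgroups. Many complements give many independent isomorphic chief factors.

Proof. Let `q = N.relIndex M ≥ 2`, `C` the centraliser of `M / N` (a subgroup, `N` and `M` are normal), `F` the (finite) set of the groups `L ⊓ C` for
`L` in `Cm Y N M`; every `K ∈ F` has the properties of `ext_a`: `K ⊔ M = C`, `K ⊓ M = N`, `Chief K C`, index `q`, centraliser `C`. Choose a subset
`K_1, …, K_δ` of `F` (distinct, indexed by `Fin δ`) with `C ⊓ ⨅ K_i = C ⊓ ⨅ F =: K₀` and `δ` minimal. Then no `K_i` contains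
`C ⊓ ⨅_{j ≠ i} K_j` (otherwise omit `K_i`). This is `Indep C q δ K`.
Claim: `F.card ≤ q ^ δ`. Choose `v_i ∈ C ⊓ ⨅_{j ≠ i} K_j`, `v_i ∉ K_i`. For `K ∈ F` there are `m_i ∈ M` with `v_i * m_i⁻¹ ∈ K` (`K ⊔ M = C`, `K` normal); map
`K` to the cosets of `m_i` in `M ⧸ N.subgroupOf M`. If `K` and `K'` have the same image then (as `N ≤ K ⊓ K'`) there are common
`m_i ∈ M` with `v_i * m_i⁻¹ ∈ K ⊓ K'`. Let `E = (K ⊓ K') M`, a normal subgroup of `G`, `E ≤ C`; it contains `K₀` and all `v_i`. By descending induction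
on the set `J ⊆ Fin δ`, `C ⊓ ⨅_{j ∈ J} K_j ≤ E`: for `J = Fin δ` this is `K₀ ≤ E`. Let `i ∈ J`, `T = C ⊓ ⨅_{j ∈ J, j ≠ i} K_j`; `T ⊓ K_i ≤ E` by induction;
`(T ⊓ E) K_i` is normal in `G`, between `K_i` and `C`, and contains `v_i ∉ K_i`, so it is `C`, and so `T = (T ⊓ E) (T ⊓ K_i) ≤ E`. For `J = ∅`: `E = C`.
Then `q = |C : K| ≤ |C : K ⊓ K'| = |(K ⊓ K') M : K ⊓ K'| = |M : M ⊓ K ⊓ K'| = |M : N| = q`, so `K = K ⊓ K'`, and by symmetry `K = K'`.
By `ext_b`, `q ^ k ≤ Nat.card (Cm Y N M) ≤ q * F.card ≤ q ^ (δ + 1)`, so `k ≤ δ + 1`.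
-/

set_option autoImplicit false

namespace Pool.Agent.SvS

private theorem exists_czr {G : Type} [Group G] {N M : Subgroup G} (hM : M.Normal) :
    ∃ C : Subgroup G, Czr C N M := by
  refine ⟨{ carrier := {g | ∀ m ∈ M, g * m * g⁻¹ * m⁻¹ ∈ N}, mul_mem' := ?_, one_mem' := ?_,
            inv_mem' := ?_ }, fun g => Iff.rfl⟩
  · intro a b ha hb m hm
    have h1 : b * m * b⁻¹ ∈ M := hM.conj_mem m hm b
    have h4 := N.mul_mem (ha _ h1) (hb m hm)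
    have h5 : a * (b * m * b⁻¹) * a⁻¹ * (b * m * b⁻¹)⁻¹ * (b * m * b⁻¹ * m⁻¹) =
        a * b * m * (a * b)⁻¹ * m⁻¹ := by group
    rwa [h5] at h4
  · intro m _
    simp
  · intro a ha m hm
    have h1 : a⁻¹ * m * a ∈ M := by
      have h2 := hM.conj_mem m hm a⁻¹
      simpa using h2
    have h2 := N.inv_mem (ha _ h1)
    have h5 : (a * (a⁻¹ * m * a) * a⁻¹ * (a⁻¹ * m * a)⁻¹)⁻¹ = a⁻¹ * m * a⁻¹⁻¹ * m⁻¹ := by group
    rwa [h5] at h2

/-- The descending induction. -/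
private theorem desc {G : Type} [Group G] {C E : Subgroup G} (hC : C.Normal) (hE : E.Normal)
    (S : Finset (Subgroup G)) (v : Subgroup G → G) (hS : ∀ K ∈ S, Chief K C)
    (hv : ∀ K ∈ S, v K ∈ C ∧ (∀ K' ∈ S, K' ≠ K → v K ∈ K') ∧ v K ∉ K ∧ v K ∈ E)
    (h0 : ∀ x ∈ C, (∀ K ∈ S, x ∈ K) → x ∈ E) : C ≤ E := by
  classical
  have key : ∀ D : Finset (Subgroup G), D ⊆ S → ∀ x ∈ C, (∀ K ∈ S, K ∉ D → x ∈ K) → x ∈ E := by
    intro D
    induction D using Finset.induction_on with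
    | empty =>
      intro _ x hx h
      exact h0 x hx (fun K hK => h K hK (Finset.notMem_empty K))
    | insert K D _ ih =>
      intro hDS x hx h
      have hKS : K ∈ S := hDS (Finset.mem_insert_self K D)
      have hDS' : D ⊆ S := fun _ h' => hDS (Finset.mem_insert_of_mem h')
      obtain ⟨T, hT⟩ : ∃ T : Subgroup G, ∀ y, y ∈ T ↔ y ∈ C ∧ ∀ K' ∈ S, K' ∉ insert K D → y ∈ K' := by
        refine ⟨C ⊓ ⨅ K' ∈ {K' : Subgroup G | K' ∈ S ∧ K' ∉ insert K D}, K', fun y => ?_⟩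
        simp only [Subgroup.mem_inf, Subgroup.mem_iInf, Set.mem_ofPred_eq, and_imp]
      have hTn : T.Normal := by
        refine ⟨fun y hy g => ?_⟩
        rw [hT] at hy ⊢
        exact ⟨hC.conj_mem y hy.1 g, fun K' h1 h2 => (hS K' h1).1.conj_mem y (hy.2 K' h1 h2) g⟩
      obtain ⟨hKn, _, hKC, hmin⟩ := hS K hKS
      have hW : ((T ⊓ E) ⊔ K).Normal := by
        have := hTn
        have := hE
        have := hKn
        infer_instance
      have hWC : (T ⊓ E) ⊔ K ≤ C :=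
        sup_le (fun y hy => ((hT y).1 hy.1).1) hKC.le
      obtain ⟨hv1, hv2, hv3, hv4⟩ := hv K hKS
      have hvT : v K ∈ T := by
        rw [hT]
        refine ⟨hv1, fun K' h1 h2 => hv2 K' h1 ?_⟩
        rintro rfl
        exact h2 (Finset.mem_insert_self _ _)
      have hWeq : (T ⊓ E) ⊔ K = C := by
        rcases hmin _ hW le_sup_right hWC with h1 | h1
        · have h2 : v K ∈ (T ⊓ E) ⊔ K := (le_sup_left : T ⊓ E ≤ (T ⊓ E) ⊔ K) ⟨hvT, hv4⟩
          rw [h1] at h2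
          exact absurd h2 hv3
        · exact h1
      have hxT : x ∈ T := (hT x).2 ⟨hx, h⟩
      have hxW : x ∈ (T ⊓ E) ⊔ K := by rw [hWeq]; exact hx
      have := hKn
      obtain ⟨e, he, k, hk, rfl⟩ := Subgroup.mem_sup_of_normal_right.1 hxW
      have hkT : k ∈ T := by
        have h1 := T.mul_mem (T.inv_mem he.1) hxT
        simpa using h1
      have hkE : k ∈ E := by
        refine ih hDS' k (hKC.le hk) (fun K' h1 h2 => ?_)
        by_cases h3 : K' = K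
        · rw [h3]; exact hk
        · refine ((hT k).1 hkT).2 K' h1 ?_
          rw [Finset.mem_insert]
          rintro (h4 | h4)
          · exact h3 h4
          · exact h2 h4
      exact E.mul_mem he.2 hkE
  intro x hx
  exact key S (Finset.Subset.refl S) x hx (fun K h1 h2 => absurd h1 h2)

/-- Two members of the family with the same code: one inclusion. -/
private theorem code_le {G : Type} [Group G] {C N M A B : Subgroup G} (hM : M.Normal)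
    (hC : C.Normal) (hAn : A.Normal) (hBn : B.Normal) (hNB : N ≤ B) (hA2 : A ⊓ M = N)
    (S : Finset (Subgroup G)) (v : Subgroup G → G) (hS : ∀ K ∈ S, Chief K C) (hAC : A ≤ C)
    (hv : ∀ K ∈ S, v K ∈ C ∧ (∀ K' ∈ S, K' ≠ K → v K ∈ K') ∧ v K ∉ K)
    (h0 : ∀ x ∈ C, (∀ K ∈ S, x ∈ K) → x ∈ A ∧ x ∈ B)
    (hm : ∀ K ∈ S, ∃ m ∈ M, v K * m⁻¹ ∈ A ∧ v K * m⁻¹ ∈ B) : A ≤ B := by
  have := hAn
  have := hBn
  have := hM
  have hE : ((A ⊓ B) ⊔ M).Normal := inferInstance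
  have hCE : C ≤ (A ⊓ B) ⊔ M := by
    refine desc hC hE S v hS (fun K hK => ?_) (fun x hx h => ?_)
    · obtain ⟨m, hmM, h1, h2⟩ := hm K hK
      obtain ⟨h3, h4, h5⟩ := hv K hK
      refine ⟨h3, h4, h5, ?_⟩
      have h6 : v K = (v K * m⁻¹) * m := by group
      rw [h6]
      exact Subgroup.mul_mem _ ((le_sup_left : A ⊓ B ≤ (A ⊓ B) ⊔ M) ⟨h1, h2⟩)
        ((le_sup_right : M ≤ (A ⊓ B) ⊔ M) hmM)
    · exact (le_sup_left : A ⊓ B ≤ (A ⊓ B) ⊔ M) (h0 x hx h)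
  intro a ha
  obtain ⟨x, hx, m, hmM, rfl⟩ := Subgroup.mem_sup_of_normal_right.1 (hCE (hAC ha))
  have h1 : m ∈ A := by
    have h2 := A.mul_mem (A.inv_mem hx.1) ha
    simpa using h2
  have h3 : m ∈ N := by
    rw [← hA2]
    exact ⟨h1, hmM⟩
  exact B.mul_mem hx.2 (hNB h3)

/-- The number of members of the family. -/
private theorem code {G : Type} [Group G] [Finite G] {C N M : Subgroup G} (hN : N.Normal)
    (hM : M.Normal) (F S : Finset (Subgroup G)) (hSF : S ⊆ F)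
    (hF : ∀ K ∈ F, C.Normal ∧ M ≤ C ∧ K ⊔ M = C ∧ K ⊓ M = N ∧ Chief K C)
    (v : Subgroup G → G)
    (hv : ∀ K ∈ S, v K ∈ C ∧ (∀ K' ∈ S, K' ≠ K → v K ∈ K') ∧ v K ∉ K)
    (h0 : ∀ x ∈ C, (∀ K ∈ S, x ∈ K) → ∀ K ∈ F, x ∈ K) : F.card ≤ (N.relIndex M) ^ S.card := by
  classical
  have hex : ∀ A : F, ∀ K : S, ∃ m : M, v K.1 * (m : G)⁻¹ ∈ A.1 := by
    intro A K
    obtain ⟨h1, h2, h3, h4, h5⟩ := hF A.1 A.2
    have h6 : v K.1 ∈ A.1 ⊔ M := by rw [h3]; exact (hv K.1 K.2).1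
    have := hM
    obtain ⟨x, hx, m, hm, hxm⟩ := Subgroup.mem_sup_of_normal_right.1 h6
    refine ⟨⟨m, hm⟩, ?_⟩
    rw [← hxm]
    simpa using hx
  choose m hm using hex
  let Φ : F → (S → M ⧸ N.subgroupOf M) := fun A K => (m A K : M ⧸ N.subgroupOf M)
  have hinj : Function.Injective Φ := by
    intro A B hAB
    have hcommon : ∀ K ∈ S, ∃ y ∈ M, v K * y⁻¹ ∈ A.1 ∧ v K * y⁻¹ ∈ B.1 := by
      intro K hK
      refine ⟨m A ⟨K, hK⟩, (m A ⟨K, hK⟩).2, hm A ⟨K, hK⟩, ?_⟩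
      have h1 : (m A ⟨K, hK⟩ : M ⧸ N.subgroupOf M) = (m B ⟨K, hK⟩ : M ⧸ N.subgroupOf M) :=
        congrFun hAB ⟨K, hK⟩
      rw [QuotientGroup.eq, Subgroup.mem_subgroupOf] at h1
      have h2 : (m A ⟨K, hK⟩ : G)⁻¹ * (m B ⟨K, hK⟩ : G) ∈ N := h1
      have h3 : (m B ⟨K, hK⟩ : G) * (m A ⟨K, hK⟩ : G)⁻¹ ∈ N := by
        have h4 := hN.conj_mem _ h2 (m A ⟨K, hK⟩ : G)
        have h5 : (m A ⟨K, hK⟩ : G) * ((m A ⟨K, hK⟩ : G)⁻¹ * (m B ⟨K, hK⟩ : G)) *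
            (m A ⟨K, hK⟩ : G)⁻¹ = (m B ⟨K, hK⟩ : G) * (m A ⟨K, hK⟩ : G)⁻¹ := by group
        rwa [h5] at h4
      have hNB : N ≤ B.1 := by
        rw [← (hF B.1 B.2).2.2.2.1]
        exact inf_le_left
      have h6 := B.1.mul_mem (hm B ⟨K, hK⟩) (hNB h3)
      have h7 : v K * (m B ⟨K, hK⟩ : G)⁻¹ * ((m B ⟨K, hK⟩ : G) * (m A ⟨K, hK⟩ : G)⁻¹) =
          v K * (m A ⟨K, hK⟩ : G)⁻¹ := by group
      rwa [h7] at h6
    have hle : ∀ A B : F, (∀ K ∈ S, ∃ y ∈ M, v K * y⁻¹ ∈ A.1 ∧ v K * y⁻¹ ∈ B.1) → A.1 ≤ B.1 := by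
      intro A B hc
      obtain ⟨h1, h2, h3, h4, h5⟩ := hF A.1 A.2
      obtain ⟨g1, g2, g3, g4, g5⟩ := hF B.1 B.2
      have hNB : N ≤ B.1 := by
        rw [← g4]
        exact inf_le_left
      exact code_le hM h1 h5.1 g5.1 hNB h4 S v (fun K hK => (hF K (hSF hK)).2.2.2.2)
        h5.2.2.1.le hv (fun x hx h => ⟨h0 x hx h A.1 A.2, h0 x hx h B.1 B.2⟩) hc
    refine Subtype.ext (le_antisymm (hle A B hcommon) (hle B A fun K hK => ?_))
    obtain ⟨y, h1, h2, h3⟩ := hcommon K hK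
    exact ⟨y, h1, h3, h2⟩
  have h1 : Nat.card F ≤ Nat.card (S → M ⧸ N.subgroupOf M) :=
    Nat.card_le_card_of_injective Φ hinj
  have h2 : Nat.card F = F.card := by simp
  have h3 : Nat.card (S → M ⧸ N.subgroupOf M) = (N.relIndex M) ^ S.card := by
    rw [Nat.card_fun]
    have h4 : Nat.card S = S.card := by simp
    rw [h4]
    rfl
  rw [h2, h3] at h1
  exact h1

theorem extr {G : Type} [Group G] [Finite G] (hs : Group.IsSolvable G) (Y N M : Subgroup G) (h : Chief N M) (k : ℕ)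
    (hk : (N.relIndex M) ^ k ≤ Nat.card (Cm Y N M)) :
    ∃ (C : Subgroup G) (δ : ℕ) (K : Fin δ → Subgroup G), Czr C N M ∧ Indep C (N.relIndex M) δ K ∧ k ≤ δ + 1 := by
  classical
  obtain ⟨C, hC⟩ := exists_czr (N := N) h.2.1
  have : Finite (Cm Y N M) := by
    unfold Cm
    infer_instance
  have : Fintype (Cm Y N M) := Fintype.ofFinite _
  let f : Cm Y N M → Subgroup G := fun L => L.1 ⊓ C
  obtain ⟨F, hFdef⟩ : ∃ F : Finset (Subgroup G), F = Finset.univ.image f := ⟨_, rfl⟩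
  have hF : ∀ K ∈ F, C.Normal ∧ M ≤ C ∧ K ⊔ M = C ∧ K ⊓ M = N ∧ Chief K C ∧
      K.relIndex C = N.relIndex M ∧ ∀ g : G, g ∈ C ↔ ∀ c ∈ C, g * c * g⁻¹ * c⁻¹ ∈ K := by
    intro K hK
    rw [hFdef] at hK
    obtain ⟨L, _, hL⟩ := Finset.mem_image.1 hK
    rw [← hL]
    exact ext_a hs h hC L.2.1 L.2.2.2.1 L.2.2.2.2
  have hcount : Nat.card (Cm Y N M) ≤ (N.relIndex M) * F.card := by
    rw [hFdef, Nat.card_eq_fintype_card]
    refine Finset.card_le_mul_card_image (s := Finset.univ) (f := f) (n := N.relIndex M) ?_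
    intro K _
    refine le_trans ?_ (ext_b hs h hC K)
    rw [← Nat.card_eq_finsetCard]
    refine Nat.card_le_card_of_injective
      (fun L : (Finset.univ.filter (fun L => f L = K) : Finset (Cm Y N M)) =>
        (⟨L.1.1, L.1.2.1, L.1.2.2.2.1, L.1.2.2.2.2, (Finset.mem_filter.1 L.2).2⟩ :
          {L : Subgroup G // N ≤ L ∧ L ⊔ M = ⊤ ∧ L ≠ ⊤ ∧ L ⊓ C = K})) ?_
    intro a b hab
    have h2 := congrArg Subtype.val hab
    exact Subtype.ext (Subtype.ext h2)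
  obtain ⟨S, hS, hmin⟩ := Finset.exists_min_image
    (F.powerset.filter (fun S => ∀ x ∈ C, (∀ K ∈ S, x ∈ K) → ∀ K ∈ F, x ∈ K)) Finset.card
    ⟨F, Finset.mem_filter.2 ⟨Finset.mem_powerset.2 (Finset.Subset.refl F), fun x _ hx => hx⟩⟩
  obtain ⟨hSF, hSP⟩ := Finset.mem_filter.1 hS
  rw [Finset.mem_powerset] at hSF
  have hirr : ∀ K ∈ S, ∃ v, v ∈ C ∧ (∀ K' ∈ S, K' ≠ K → v ∈ K') ∧ v ∉ K := by
    intro K hK
    by_contra hcon
    push Not at hcon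
    have h1 : S.erase K ∈ F.powerset.filter
        (fun S => ∀ x ∈ C, (∀ K ∈ S, x ∈ K) → ∀ K ∈ F, x ∈ K) := by
      rw [Finset.mem_filter, Finset.mem_powerset]
      refine ⟨(Finset.erase_subset _ _).trans hSF, fun x hx hx2 => hSP x hx (fun K' hK' => ?_)⟩
      by_cases h3 : K' = K
      · rw [h3]
        exact hcon x hx (fun K'' h4 h5 => hx2 K'' (Finset.mem_erase.2 ⟨h5, h4⟩))
      · exact hx2 K' (Finset.mem_erase.2 ⟨h3, hK'⟩)
    exact absurd (hmin _ h1) (not_le.2 (Finset.card_erase_lt_of_mem hK))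
  choose! v hv using hirr
  refine ⟨C, S.card, fun i => (S.equivFin.symm i).1, hC, ⟨fun i => ?_, fun i hi => ?_⟩, ?_⟩
  · obtain ⟨_, _, _, _, h5, h6, h7⟩ := hF _ (hSF (S.equivFin.symm i).2)
    exact ⟨h5, h6, h7⟩
  · obtain ⟨h1, h2, h3⟩ := hv _ (S.equivFin.symm i).2
    refine h3 (hi (Subgroup.mem_inf.2 ⟨h1, ?_⟩))
    rw [Subgroup.mem_iInf]
    intro j
    rw [Subgroup.mem_iInf]
    intro hj
    exact h2 _ (S.equivFin.symm j).2
      (fun h4 => hj (S.equivFin.symm.injective (Subtype.ext h4)))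
  · have h1 : F.card ≤ (N.relIndex M) ^ S.card :=
      code h.1 h.2.1 F S hSF (fun K hK => ⟨(hF K hK).1, (hF K hK).2.1, (hF K hK).2.2.1,
        (hF K hK).2.2.2.1, (hF K hK).2.2.2.2.1⟩) v hv hSP
    have hq0 : N.relIndex M ≠ 0 := Subgroup.index_ne_zero_of_finite (H := N.subgroupOf M)
    have hq1 : N.relIndex M ≠ 1 := by
      intro h2
      exact absurd (Subgroup.relIndex_eq_one.1 h2) (not_le_of_gt h.2.2.1)
    have hq : 1 < N.relIndex M := by omega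
    have h2 : (N.relIndex M) ^ k ≤ (N.relIndex M) ^ (S.card + 1) := by
      calc (N.relIndex M) ^ k ≤ Nat.card (Cm Y N M) := hk
        _ ≤ (N.relIndex M) * F.card := hcount
        _ ≤ (N.relIndex M) * (N.relIndex M) ^ S.card := Nat.mul_le_mul_left _ h1
        _ = (N.relIndex M) ^ (S.card + 1) := by rw [pow_succ, mul_comm]
    exact (Nat.pow_le_pow_iff_right hq).1 h2

end Pool.Agent.SvS
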