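import Pool.Agent.SvS.StepB

/-!
MP_7fa120_al, solvable subgroups. The first step.

Proof. Let `G = H` (as a group) and apply `gen` with `Y = D.subgroupOf H`, `R = (oddGen H).subgroupOf H` (normal; `D ≤ H`, `Y ⊔ R = ⊤`). In the first
alternative map `S` to `Perm (Fin n)`. In the second one, `extr` gives `C`, `δ`, `K` with `q = N.relIndex M`, `k ≤ δ + 1`. If `q` is not prime use `type_m`
(`Nat.card (Perm (Fin n)) = n !`). Let `q` be prime. `q ≠ 2`: `Cm Y N M` is not empty, let `L` be in it; the index of `L` in `G` is that of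
`L ⊓ M = N` in `M` (`cm_inf`), so it is `q`; if `q = 2`, `L` is a normal subgroup of index 2, it contains every element of odd order, so it contains `R ≥ M`
and `L = ⊤`, a contradiction. `prime_x` (for `K 0`, `δ ≥ 2`) gives `x` and `prime_b` gives `2 ^ δ ≤ (no C).index`; `no_iso` for the image of `C` in
`Perm (Fin n)`.
-/

set_option autoImplicit false

namespace Pool.Agent.SvS

open Equiv Pool.Agent.NilS Pool.Agent.BdO

private theorem fb_map {n : ℕ} (H : Subgroup (Perm (Fin n))) :
    oddGen H = (oddGen (⊤ : Subgroup H)).map H.subtype := by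
  unfold oddGen
  rw [MonoidHom.map_closure]
  congr 1
  ext g
  constructor
  · rintro ⟨hg, r, j, hr, hr2, ho⟩
    exact ⟨⟨g, hg⟩, ⟨Subgroup.mem_top _, r, j, hr, hr2, by rw [Subgroup.orderOf_mk]; exact ho⟩, rfl⟩
  · rintro ⟨g', ⟨-, r, j, hr, hr2, ho⟩, rfl⟩
    exact ⟨g'.2, r, j, hr, hr2, by rw [← ho]; exact Subgroup.orderOf_coe g'⟩

private theorem fb_normal (G : Type) [Group G] : (oddGen (⊤ : Subgroup G)).Normal := by
  constructor
  intro n hn g
  have h1 : oddGen (⊤ : Subgroup G) ≤ (oddGen (⊤ : Subgroup G)).comap (MulAut.conj g).toMonoidHom := by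
    conv_lhs => unfold oddGen
    rw [Subgroup.closure_le]
    rintro x ⟨-, r, j, hr, hr2, hx⟩
    rw [SetLike.mem_coe, Subgroup.mem_comap]
    refine Subgroup.subset_closure ⟨Subgroup.mem_top _, r, j, hr, hr2, ?_⟩
    rw [← hx]
    exact MulEquiv.orderOf_eq (MulAut.conj g) x
  have h2 := h1 hn
  rw [Subgroup.mem_comap] at h2
  exact h2

private theorem fb_index {G : Type} [Group G] [Finite G] {L M N : Subgroup G} (hM : M.Normal) (h1 : L ⊔ M = ⊤)
    (h2 : L ⊓ M = N) : L.index = N.relIndex M := by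
  have e1 : Nat.card N * M.relIndex L = Nat.card L := by
    have h3 := (M.subgroupOf L).card_mul_index
    have h4 : Nat.card (M.subgroupOf L) = Nat.card N := by
      rw [← h2, ← Subgroup.inf_subgroupOf_left M L]
      exact Nat.card_congr (Subgroup.subgroupOfEquivOfLe inf_le_left).toEquiv
    rw [h4] at h3
    exact h3
  have e2 : Nat.card N * N.relIndex M = Nat.card M := by
    have h3 := (N.subgroupOf M).card_mul_index
    have h4 : Nat.card (N.subgroupOf M) = Nat.card N :=
      Nat.card_congr (Subgroup.subgroupOfEquivOfLe (h2 ▸ inf_le_right)).toEquiv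
    rw [h4] at h3
    exact h3
  have e3 : M.relIndex L = M.index := by
    rw [← Subgroup.relIndex_sup_left, sup_comm, h1, Subgroup.relIndex_top_right]
  have e4 := M.card_mul_index
  have e5 := L.card_mul_index
  have h6 : 0 < Nat.card L := Nat.card_pos
  rw [e3] at e1
  apply Nat.eq_of_mul_eq_mul_left h6
  rw [e5, ← e4, ← e2, ← e1]
  ring

private theorem fb_two {G : Type} [Group G] (L : Subgroup G) (h : L.index = 2) : oddGen (⊤ : Subgroup G) ≤ L := by
  unfold oddGen
  rw [Subgroup.closure_le]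
  rintro x ⟨-, r, j, hr, hr2, hx⟩
  have hodd : Odd (orderOf x) := by
    rw [hx]
    exact (hr.odd_of_ne_two hr2).pow
  obtain ⟨m, hm⟩ := hodd
  have h1 : x ^ 2 ∈ L := Subgroup.sq_mem_of_index_two h x
  have h2 : x = (x ^ 2) ^ (m + 1) := by
    rw [← pow_mul]
    have h3 : 2 * (m + 1) = orderOf x + 1 := by omega
    rw [h3, pow_succ, pow_orderOf_eq_one, one_mul]
  rw [h2]
  exact pow_mem h1 _

theorem first_b {n : ℕ} (H D : Subgroup (Perm (Fin n))) (hs : Group.IsSolvable H) (hR : oddGen H ⊔ D = H) (k : ℕ) (hk : 3 ≤ k) :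
    (∃ S : Finset (Perm (Fin n)), (∀ x ∈ S, x ∈ oddGen H) ∧ S.card ≤ k ∧
      D ⊔ Subgroup.closure (S : Set (Perm (Fin n))) = H) ∨
    Many H (ga k) (ja (Nat.log 2 n.factorial) k) ∨
    ∃ (C : Subgroup (Perm (Fin n))) (x : Perm (Fin n)), C ≤ H ∧ C ⊔ Subgroup.zpowers x = H ∧ 2 ^ (k - 1) ≤ (no C).index := by
  have hDH : D ≤ H := by
    rw [← hR]
    exact le_sup_right
  have hinj := Subgroup.subtype_injective H
  have hRn := fb_normal H
  have hmap := fb_map H
  have hDmap : (D.subgroupOf H).map H.subtype = D := Subgroup.map_subgroupOf_eq_of_le hDH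
  have htop : (⊤ : Subgroup H).map H.subtype = H := by
    rw [← MonoidHom.range_eq_map, Subgroup.range_subtype]
  have hY : D.subgroupOf H ⊔ oddGen (⊤ : Subgroup H) = ⊤ := by
    apply Subgroup.map_injective hinj
    rw [Subgroup.map_sup, hDmap, ← hmap, htop, sup_comm, hR]
  rcases gen H hs (D.subgroupOf H) (oddGen (⊤ : Subgroup H)) hRn hY k with ⟨S, hS1, hS2, hS3⟩ | ⟨N, M, hch, hMR, hcard⟩
  · left
    refine ⟨S.map ⟨H.subtype, hinj⟩, ?_, ?_, ?_⟩
    · intro x hx
      obtain ⟨y, hy, rfl⟩ := Finset.mem_map.1 hx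
      rw [hmap]
      exact Subgroup.mem_map_of_mem _ (hS1 y hy)
    · rw [Finset.card_map]
      exact hS2
    · rw [Finset.coe_map]
      change D ⊔ Subgroup.closure (H.subtype '' (S : Set H)) = H
      rw [← MonoidHom.map_closure]
      conv_lhs => rw [← hDmap]
      rw [← Subgroup.map_sup, hS3, htop]
  · right
    obtain ⟨C, δ, K, hC, hI, hδ⟩ := extr hs (D.subgroupOf H) N M hch k hcard
    by_cases hq : (N.relIndex M).Prime
    · right
      have hne : Nonempty (Cm (D.subgroupOf H) N M) := by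
        by_contra hcon
        rw [not_nonempty_iff] at hcon
        have h1 : Nat.card (Cm (D.subgroupOf H) N M) = 0 := Nat.card_of_isEmpty
        rw [h1] at hcard
        have h2 := pow_pos hq.pos k
        omega
      obtain ⟨L, hNL, hYL, hLM, hLt⟩ := hne
      have hinf := cm_inf hs hch hNL hLM hLt
      have hidx := fb_index hch.2.1 hLM hinf
      have hq2 : N.relIndex M ≠ 2 := by
        intro h2
        apply hLt
        have h3 := fb_two L (hidx.trans h2)
        rw [← hLM]
        exact (sup_eq_left.2 (hMR.trans h3)).symm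
      have hδ0 : 0 < δ := by omega
      have hI0 := hI.1 ⟨0, hδ0⟩
      obtain ⟨⟨x, hx⟩, -, -⟩ := prime_x hI0.1 hI0.2.1 hq hI0.2.2
      have hb := prime_b hI hq hq2
      refine ⟨C.map H.subtype, H.subtype x, Subgroup.map_subtype_le _, ?_, ?_⟩
      · rw [← MonoidHom.map_zpowers, ← Subgroup.map_sup, hx, htop]
      · rw [← no_iso (C.equivMapOfInjective H.subtype hinj)]
        exact le_trans (Nat.pow_le_pow_right (by norm_num) (by omega)) hb
    · left
      have h1 := type_m H C (N.relIndex M) δ K hI hq k hk hδ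
      have h2 : Nat.card (Perm (Fin n)) = n.factorial := by
        rw [Nat.card_perm, Nat.card_fin]
      rwa [h2] at h1

end Pool.Agent.SvS
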