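import Pool.Agent.SvS.Defs2

/-!
MP_7fa120_al, solvable subgroups. Few generators or many complements of a chief factor.

Proof. Let `T` be minimal among the normal subgroups of `G` contained in `R` for which there is `x : Fin k → G` with all `x j ∈ R` and
`Y ⊔ closure (range x) ⊔ T = ⊤` (`T = R`, `x = 1` is possible). If `T = ⊥` the first alternative holds. Let `T ≠ ⊥`, `M = T`, and let `N` be maximal
among the normal subgroups of `G` properly contained in `M` (`⊥` is one): `Chief N M`. Fix `x` for `M`. For `m : Fin k → M` let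
`L m = Y ⊔ closure {x j * m j} ⊔ N`. By the minimality of `T`, `L m ≠ ⊤` (`x j * m j ∈ R`), and `L m ⊔ M = ⊤` (it contains `Y`, `M` and all `x j`). So
`L m` is in `Cm Y N M`. Claim: if `L m = L m' = L` then `(m j)⁻¹ * m' j ∈ N` for all `j`; so `Cm Y N M` has at least `(N.relIndex M) ^ k` elements
(functions from `Fin k` to `M ⧸ N.subgroupOf M`; choose representatives). Indeed `(m j)⁻¹ * m' j = (x j * m j)⁻¹ * (x j * m' j) ∈ L ⊓ M`. And
`L ⊓ M = N`: `M / N` is abelian (`G` is solvable and `M / N` is a chief factor: the commutator subgroup of `M` together with `N` is a normal subgroup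
of `G` between `N` and `M`; if it is `M` then by induction `M` is the join of `N` and of every term of the derived series of `M`, so `M = N`), so
`L ⊓ M ≥ N` is normalised by `M`, and it is normalised by `L`; so it is normal in `G = L M`, hence equal to `N` or to `M`; `M ≤ L` would give
`L = ⊤`. The fact that a chief factor of a solvable group is abelian is `chief_comm`.
-/

set_option autoImplicit false

namespace Pool.Agent.SvS

open scoped commutatorElement in
theorem chief_comm {G : Type} [Group G] (hs : Group.IsSolvable G) {N M : Subgroup G} (h : Chief N M) :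
    ∀ a ∈ M, ∀ b ∈ M, a * b * a⁻¹ * b⁻¹ ∈ N := by
  obtain ⟨hN, hM, hlt, hmax⟩ := h
  have hT : (⁅M, M⁆ ⊔ N).Normal := Subgroup.sup_normal _ _
  have hle : ⁅M, M⁆ ≤ M := Subgroup.commutator_le_left M M
  have key : ⁅M, M⁆ ≤ N := by
    rcases hmax _ hT le_sup_right (sup_le hle hlt.le) with h1 | h1
    · rw [← h1]
      exact le_sup_left
    · exfalso
      have h2 : M.map (QuotientGroup.mk' N) ≠ ⊥ := by
        intro h3
        rw [Subgroup.map_eq_bot_iff, QuotientGroup.ker_mk'] at h3
        exact hlt.not_ge h3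
      have h3 := Group.IsSolvable.commutator_lt_of_ne_bot h2
      have h4 := congrArg (Subgroup.map (QuotientGroup.mk' N)) h1
      rw [Subgroup.map_sup, Subgroup.map_commutator] at h4
      have h5 : N.map (QuotientGroup.mk' N) = ⊥ := by
        rw [Subgroup.map_eq_bot_iff, QuotientGroup.ker_mk']
      rw [h5, sup_bot_eq] at h4
      rw [h4] at h3
      exact lt_irrefl _ h3
  intro a ha b hb
  have h1 := key (Subgroup.commutator_mem_commutator ha hb)
  rwa [commutatorElement_def] at h1

theorem cm_inf {G : Type} [Group G] (hs : Group.IsSolvable G) {N M : Subgroup G} (h : Chief N M) {L : Subgroup G} (h1 : N ≤ L)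
    (h2 : L ⊔ M = ⊤) (h3 : L ≠ ⊤) : L ⊓ M = N := by
  have hc := chief_comm hs h
  obtain ⟨hN, hM, hlt, hmax⟩ := h
  have hconj : ∀ g : G, ∀ x ∈ L ⊓ M, g * x * g⁻¹ ∈ L ⊓ M := by
    intro g
    have hg : g ∈ L ⊔ M := by
      rw [h2]
      exact Subgroup.mem_top g
    obtain ⟨l, hl, m, hm, rfl⟩ := Subgroup.mem_sup_of_normal_right.1 hg
    intro x hx
    have hx1 : m * x * m⁻¹ ∈ L ⊓ M := by
      have h4 : m * x * m⁻¹ * x⁻¹ ∈ L ⊓ M := ⟨h1 (hc m hm x hx.2), hlt.le (hc m hm x hx.2)⟩
      have h5 := mul_mem h4 hx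
      rwa [inv_mul_cancel_right] at h5
    have h6 : l * m * x * (l * m)⁻¹ = l * (m * x * m⁻¹) * l⁻¹ := by group
    rw [h6]
    exact ⟨L.mul_mem (L.mul_mem hl hx1.1) (L.inv_mem hl), hM.conj_mem _ hx1.2 l⟩
  have hT : (L ⊓ M).Normal := ⟨fun x hx g => hconj g x hx⟩
  rcases hmax _ hT (le_inf h1 hlt.le) inf_le_right with h4 | h4
  · exact h4
  · exfalso
    have h5 : M ≤ L := by
      rw [← h4]
      exact inf_le_left
    rw [sup_eq_left.2 h5] at h2
    exact h3 h2

theorem gen (G : Type) [Group G] [Finite G] (hs : Group.IsSolvable G) (Y R : Subgroup G) (hR : R.Normal) (hY : Y ⊔ R = ⊤)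
    (k : ℕ) :
    (∃ S : Finset G, (∀ x ∈ S, x ∈ R) ∧ S.card ≤ k ∧ Y ⊔ Subgroup.closure (S : Set G) = ⊤) ∨
    (∃ N M : Subgroup G, Chief N M ∧ M ≤ R ∧ (N.relIndex M) ^ k ≤ Nat.card (Cm Y N M)) := by
  classical
  obtain ⟨T, hT, hTmin⟩ := WellFounded.has_min (wellFounded_lt : WellFounded (α := Subgroup G) (· < ·))
    {T : Subgroup G | T.Normal ∧ T ≤ R ∧ ∃ x : Fin k → G, (∀ j, x j ∈ R) ∧
      Y ⊔ Subgroup.closure (Set.range x) ⊔ T = ⊤} ⟨R, hR, le_rfl, fun _ => 1, fun _ => one_mem R, by
      rw [sup_right_comm, hY, top_sup_eq]⟩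
  obtain ⟨hTn, hTR, x, hx, hxT⟩ := hT
  by_cases hb : T = ⊥
  · left
    refine ⟨Finset.univ.image x, ?_, ?_, ?_⟩
    · intro y hy
      obtain ⟨j, -, rfl⟩ := Finset.mem_image.1 hy
      exact hx j
    · refine Finset.card_image_le.trans ?_
      rw [Finset.card_univ, Fintype.card_fin]
    · rw [Finset.coe_image, Finset.coe_univ, Set.image_univ]
      rwa [hb, sup_bot_eq] at hxT
  · right
    obtain ⟨N, hN, hNmax⟩ := WellFounded.has_min (wellFounded_gt : WellFounded (α := Subgroup G) (· > ·))
      {N : Subgroup G | N.Normal ∧ N < T} ⟨⊥, Subgroup.normal_bot, bot_lt_iff_ne_bot.2 hb⟩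
    obtain ⟨hNn, hNT⟩ := hN
    have hch : Chief N T := by
      refine ⟨hNn, hTn, hNT, ?_⟩
      intro T' hT' h1 h2
      rcases h2.eq_or_lt with h3 | h3
      · exact Or.inr h3
      · left
        have h4 := hNmax T' ⟨hT', h3⟩
        by_contra h5
        exact h4 (lt_of_le_of_ne h1 fun h => h5 h.symm)
    refine ⟨N, T, hch, hTR, ?_⟩
    obtain ⟨L, hL⟩ : ∃ L : (Fin k → T) → Subgroup G, L = fun m => Y ⊔ Subgroup.closure
      (Set.range fun j => x j * (m j : G)) ⊔ N := ⟨_, rfl⟩
    have hL' : ∀ m, L m = Y ⊔ Subgroup.closure (Set.range fun j => x j * (m j : G)) ⊔ N := by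
      intro m
      rw [hL]
    have hmem : ∀ (m : Fin k → T) j, x j * (m j : G) ∈ L m := by
      intro m j
      rw [hL']
      exact le_sup_left (a := Y ⊔ Subgroup.closure (Set.range fun j => x j * (m j : G)))
        (le_sup_right (a := Y) (Subgroup.subset_closure ⟨j, rfl⟩))
    have hLcm : ∀ m, N ≤ L m ∧ Y ≤ L m ∧ L m ⊔ T = ⊤ ∧ L m ≠ ⊤ := by
      intro m
      refine ⟨?_, ?_, ?_, ?_⟩
      · rw [hL']
        exact le_sup_right
      · rw [hL']
        exact le_sup_left.trans le_sup_left
      · rw [eq_top_iff, ← hxT]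
        refine sup_le (sup_le ?_ ?_) le_sup_right
        · refine le_trans ?_ le_sup_left
          rw [hL']
          exact le_sup_left.trans le_sup_left
        · rw [Subgroup.closure_le]
          rintro y ⟨j, rfl⟩
          have h1 : x j = x j * (m j : G) * (m j : G)⁻¹ := by group
          rw [h1]
          exact mul_mem ((le_sup_left : L m ≤ L m ⊔ T) (hmem m j))
            (inv_mem ((le_sup_right : T ≤ L m ⊔ T) (m j).2))
      · intro h1
        refine hTmin N ⟨hNn, hNT.le.trans hTR, fun j => x j * (m j : G), ?_, ?_⟩ hNT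
        · exact fun j => mul_mem (hx j) (hTR (m j).2)
        · rw [← hL', h1]
    have hinj : ∀ m m' : Fin k → T, L m = L m' → ∀ j, (m j)⁻¹ * m' j ∈ N.subgroupOf T := by
      intro m m' h j
      rw [Subgroup.mem_subgroupOf]
      have h1 : (((m j)⁻¹ * m' j : T) : G) = (x j * (m j : G))⁻¹ * (x j * (m' j : G)) := by
        push_cast
        group
      have h2 : (((m j)⁻¹ * m' j : T) : G) ∈ L m ⊓ T := by
        refine ⟨?_, ((m j)⁻¹ * m' j).2⟩
        rw [h1]
        refine (L m).mul_mem ((L m).inv_mem (hmem m j)) ?_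
        rw [h]
        exact hmem m' j
      rwa [cm_inf hs hch (hLcm m).1 (hLcm m).2.2.1 (hLcm m).2.2.2] at h2
    have hfin : Finite (Cm Y N T) := by
      unfold Cm
      infer_instance
    have h1 := Nat.card_le_card_of_injective
      (fun q : Fin k → T ⧸ N.subgroupOf T => (⟨L (fun j => (q j).out), hLcm _⟩ : Cm Y N T)) (by
        intro q q' h
        have h2 : L (fun j => (q j).out) = L (fun j => (q' j).out) := congrArg Subtype.val h
        funext j
        have h3 := hinj _ _ h2 j
        rw [← QuotientGroup.eq, QuotientGroup.out_eq', QuotientGroup.out_eq'] at h3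
        exact h3)
    rw [Nat.card_fun, Nat.card_fin] at h1
    exact h1

end Pool.Agent.SvS
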