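import Pool.Agent.SvS.HallE

/-!
MP_7fa120_al, solvable subgroups. Subgroups of odd order are conjugate to subgroups of a given Hall subgroup of odd order.

By induction on `|G|`. Let `G ≠ 1`, `A` a minimal normal subgroup, an elementary abelian `p`-group (it is enough that `A` is a nontrivial
normal `p`-subgroup). Let `T` be of odd order. `Q A / A` is a Hall subgroup of odd order of `G / A`, so by induction `g T g⁻¹ ≤ Q A` for some
`g`; replace `T` by this conjugate. If `p` is odd then `Q A = Q` (`A` is normal of odd order, so `Q A` has odd order and `|Q|` is the full odd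
part of `|G|`), done. Let `p = 2`; if `Q A ≠ G` use induction in `Q A` (it contains `Q` and `T`). Let `Q A = G`. If `T A ≠ G`: `T A ⊓ Q` has order
`|T A| |Q| / |G| = |T|`, so it is a Hall subgroup of odd order of `T A < G`, and by induction in `T A`, `T` is conjugate to a subgroup of
`T A ⊓ Q ≤ Q`. If `T A = G`, then `|T| = |Q| = |G / A|`. If `|G / A| = 1` then `T = 1`. Otherwise let `N > A` be a normal subgroup of `G` such that
`N / A` is an `r`-group, `N / A ≠ 1`, `r` an odd prime (`G / A` is solvable of odd order, not trivial); `Q ⊓ N` and `T ⊓ N` are Sylow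
`r`-subgroups of `N` (complements of `A` in `N`), so conjugate in `N`; after conjugation `S = Q ⊓ N = T ⊓ N ≠ 1`, and both `Q` and `T` are contained
in the normaliser of `S` (as `N` is normal). If it is not `G` use induction in the normaliser. If it is `G`, `S` is a nontrivial normal subgroup of
`G`, contained in `Q` and in `T`, and use induction in `G / S`.
-/

set_option autoImplicit false

namespace Pool.Agent.SvS

open scoped Pointwise

/-- The statement for groups of order `n`. -/
private def HL (n : ℕ) : Prop :=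
  ∀ (G : Type) [Group G] [Finite G], Nat.card G = n → Group.IsSolvable G →
    ∀ (Q : Subgroup G) (a : ℕ), Odd (Nat.card Q) → Nat.card G = 2 ^ a * Nat.card Q →
      ∀ T : Subgroup G, Odd (Nat.card T) → ∃ g : G, ∀ t ∈ T, g * t * g⁻¹ ∈ Q

private theorem hcard_sub {G : Type} [Group G] {Q K : Subgroup G} (h : Q ≤ K) :
    Nat.card (Q.subgroupOf K) = Nat.card Q :=
  Nat.card_congr (Subgroup.subgroupOfEquivOfLe h).toEquiv

private theorem pow_of_dvd_two {m e : ℕ} (h : m ∣ 2 ^ e) : ∃ c, m = 2 ^ c := by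
  obtain ⟨c, -, hc⟩ := (Nat.dvd_prime_pow Nat.prime_two).mp h
  exact ⟨c, hc⟩

/-- The part of a complement. -/
private theorem card_inf_compl {G : Type} [Group G] {Q A M : Subgroup G} [hA : A.Normal]
    (hQA : Q ⊔ A = ⊤) (hdis : Q ⊓ A = ⊥) (hAM : A ≤ M) :
    Nat.card M = Nat.card A * Nat.card (M ⊓ Q : Subgroup G) := by
  rw [mul_comm, ← Nat.card_prod]
  refine (Nat.card_congr (Equiv.ofBijective
    (fun p : (M ⊓ Q : Subgroup G) × A => (⟨(p.1 : G) * (p.2 : G),
      M.mul_mem (Subgroup.mem_inf.1 p.1.2).1 (hAM p.2.2)⟩ : M)) ⟨?_, ?_⟩)).symm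
  · rintro ⟨q, a⟩ ⟨q', a'⟩ h
    have h1 : (q : G) * (a : G) = (q' : G) * (a' : G) := congrArg Subtype.val h
    have h2 : (q' : G)⁻¹ * (q : G) = (a' : G) * (a : G)⁻¹ := by
      rw [inv_mul_eq_iff_eq_mul, ← mul_assoc, ← h1, mul_inv_cancel_right]
    have h3 : (q' : G)⁻¹ * (q : G) ∈ Q ⊓ A := by
      refine Subgroup.mem_inf.2 ⟨?_, ?_⟩
      · exact Q.mul_mem (Q.inv_mem (Subgroup.mem_inf.1 q'.2).2) (Subgroup.mem_inf.1 q.2).2
      · rw [h2]
        exact A.mul_mem a'.2 (A.inv_mem a.2)
    rw [hdis, Subgroup.mem_bot] at h3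
    have h4 : (q : G) = (q' : G) := (inv_mul_eq_one.1 h3).symm
    rw [h3] at h2
    have h5 : (a' : G) = (a : G) := mul_inv_eq_one.1 h2.symm
    exact Prod.ext (Subtype.ext h4) (Subtype.ext h5.symm)
  · rintro ⟨m, hm⟩
    have h1 : m ∈ Q ⊔ A := by
      rw [hQA]
      exact Subgroup.mem_top m
    rw [Subgroup.mem_sup_of_normal_right] at h1
    obtain ⟨q, hq, a, ha, rfl⟩ := h1
    have h2 : q ∈ M := by
      have := M.mul_mem hm (M.inv_mem (hAM ha))
      rwa [mul_inv_cancel_right] at this
    exact ⟨⟨⟨q, Subgroup.mem_inf.2 ⟨h2, hq⟩⟩, ⟨a, ha⟩⟩, rfl⟩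

/-- Induction in a proper subgroup. -/
private theorem step_sub {G : Type} [Group G] [Finite G] (hs : Group.IsSolvable G)
    (ih : ∀ m < Nat.card G, HL m) {K Q T : Subgroup G} (hK : K ≠ ⊤) (hQK : Q ≤ K) (hTK : T ≤ K)
    (ho : Odd (Nat.card Q)) {a : ℕ} (hQ : Nat.card K = 2 ^ a * Nat.card Q)
    (hT : Odd (Nat.card T)) : ∃ u : G, ∀ t ∈ T, u * t * u⁻¹ ∈ Q := by
  have hlt : Nat.card K < Nat.card G := by
    rcases Nat.lt_or_ge (Nat.card K) (Nat.card G) with h | h
    · exact h
    · exact absurd (Subgroup.eq_top_of_le_card K h) hK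
  have hKs : Group.IsSolvable K := inferInstance
  obtain ⟨u, hu⟩ := ih _ hlt K rfl hKs (Q.subgroupOf K) a (by rw [hcard_sub hQK]; exact ho)
    (by rw [hcard_sub hQK]; exact hQ) (T.subgroupOf K) (by rw [hcard_sub hTK]; exact hT)
  refine ⟨u, fun t ht => ?_⟩
  have := hu ⟨t, hTK ht⟩ (Subgroup.mem_subgroupOf.mpr ht)
  exact Subgroup.mem_subgroupOf.mp this

/-- Induction in a quotient. -/
private theorem step_quot {G : Type} [Group G] [Finite G] (hs : Group.IsSolvable G)
    (ih : ∀ m < Nat.card G, HL m) (N : Subgroup G) [hN : N.Normal] (hN1 : N ≠ ⊥) {Q T : Subgroup G}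
    (ho : Odd (Nat.card Q)) {a : ℕ} (hQ : Nat.card G = 2 ^ a * Nat.card Q)
    (hT : Odd (Nat.card T)) : ∃ g : G, ∀ t ∈ T, g * t * g⁻¹ ∈ Q ⊔ N := by
  have hmul : Nat.card G = Nat.card (G ⧸ N) * Nat.card N :=
    Subgroup.card_eq_card_quotient_mul_card_subgroup N
  have hN2 : 1 < Nat.card N := by
    rcases Nat.lt_or_ge 1 (Nat.card N) with h | h
    · exact h
    · exfalso
      have h0 : 0 < Nat.card N := Nat.card_pos
      exact hN1 (Subgroup.card_eq_one.1 (by omega))
  have hq0 : 0 < Nat.card (G ⧸ N) := Nat.card_pos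
  have hlt : Nat.card (G ⧸ N) < Nat.card G := by
    rw [hmul]
    nlinarith
  have hodd : ∀ T : Subgroup G, Odd (Nat.card T) → Odd (Nat.card (T.map (QuotientGroup.mk' N))) := by
    intro T hT
    exact hT.of_dvd_nat (Subgroup.card_map_dvd _ _)
  have hidx : Q.index = 2 ^ a := by
    have h1 := Subgroup.card_mul_index Q
    have h2 : 0 < Nat.card Q := Nat.card_pos
    rw [hQ, mul_comm (2 ^ a)] at h1
    exact Nat.eq_of_mul_eq_mul_left h2 h1
  obtain ⟨c, hc⟩ : ∃ c, (Q.map (QuotientGroup.mk' N)).index = 2 ^ c := by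
    refine pow_of_dvd_two (e := a) ?_
    rw [← hidx]
    exact Subgroup.index_map_dvd _ (QuotientGroup.mk'_surjective N)
  have hc2 : Nat.card (G ⧸ N) = 2 ^ c * Nat.card (Q.map (QuotientGroup.mk' N)) := by
    rw [← hc, mul_comm, Subgroup.card_mul_index]
  obtain ⟨g', hg'⟩ := ih _ hlt (G ⧸ N) rfl inferInstance (Q.map (QuotientGroup.mk' N)) c
    (hodd Q ho) hc2 (T.map (QuotientGroup.mk' N)) (hodd T hT)
  obtain ⟨g, rfl⟩ := QuotientGroup.mk_surjective g'
  refine ⟨g, fun t ht => ?_⟩
  have h1 := hg' (QuotientGroup.mk' N t) (Subgroup.mem_map_of_mem _ ht)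
  have h2 : g * t * g⁻¹ ∈ (Q.map (QuotientGroup.mk' N)).comap (QuotientGroup.mk' N) := by
    rw [Subgroup.mem_comap]
    exact h1
  rw [Subgroup.comap_map_eq, QuotientGroup.ker_mk'] at h2
  exact h2

/-- Conjugacy of Sylow subgroups. -/
private theorem conj_sylow {G : Type} [Group G] [Finite G] {r j k : ℕ} (hr : r.Prime) (hr2 : r ≠ 2)
    {P T : Subgroup G} (hP : Nat.card P = r ^ j) (hT : Nat.card T = r ^ j)
    (hG : Nat.card G = 2 ^ k * r ^ j) : ∃ u : G, ∀ t ∈ T, u * t * u⁻¹ ∈ P := by
  have : Fact r.Prime := ⟨hr⟩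
  have hf : (Nat.card G).factorization r = j := by
    rw [hG, Nat.factorization_mul (by positivity) (pow_ne_zero _ hr.ne_zero),
      Finsupp.add_apply, Nat.factorization_pow, Nat.factorization_pow, Finsupp.smul_apply,
      Finsupp.smul_apply, hr.factorization_self, Nat.factorization_eq_zero_of_not_dvd]
    · simp
    · intro h
      exact hr2 ((Nat.prime_dvd_prime_iff_eq hr Nat.prime_two).1 h)
  set P' : Sylow r G := Sylow.ofCard P (by rw [hP, hf]) with hP'
  set T' : Sylow r G := Sylow.ofCard T (by rw [hT, hf]) with hT'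
  obtain ⟨u, hu⟩ := MulAction.exists_smul_eq G T' P'
  refine ⟨u, fun t ht => ?_⟩
  have h1 : ((u • T' : Sylow r G) : Subgroup G) = P := by
    rw [hu]
    rfl
  rw [Sylow.coe_subgroup_smul] at h1
  have h2 : (MulAut.conj u • t : G) ∈ MulAut.conj u • (T' : Subgroup G) :=
    Subgroup.smul_mem_pointwise_smul _ _ _ ht
  rw [h1] at h2
  exact h2

private theorem card_conj {G : Type} [Group G] (T : Subgroup G) (g : G) :
    Nat.card (T.map (MulAut.conj g).toMonoidHom) = Nat.card T :=
  Subgroup.card_map_of_injective (MulAut.conj g).injective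

/-- It is enough to conjugate a conjugate of `T`. -/
private theorem of_conj {G : Type} [Group G] {Q T : Subgroup G} (g : G)
    (h : ∃ u : G, ∀ t ∈ T.map (MulAut.conj g).toMonoidHom, u * t * u⁻¹ ∈ Q) :
    ∃ u : G, ∀ t ∈ T, u * t * u⁻¹ ∈ Q := by
  obtain ⟨u, hu⟩ := h
  refine ⟨u * g, fun t ht => ?_⟩
  have h1 := hu (g * t * g⁻¹) ⟨t, ht, rfl⟩
  have h2 : u * g * t * (u * g)⁻¹ = u * (g * t * g⁻¹) * u⁻¹ := by group
  rw [h2]
  exact h1

private theorem conj_le_of {G : Type} [Group G] {K T : Subgroup G} {g : G}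
    (h : ∀ t ∈ T, g * t * g⁻¹ ∈ K) : T.map (MulAut.conj g).toMonoidHom ≤ K := by
  rintro _ ⟨t, ht, rfl⟩
  exact h t ht

private theorem btw {G : Type} [Group G] [Finite G] {Q K : Subgroup G} (h1 : Q ≤ K) {b : ℕ}
    (h : Nat.card G = 2 ^ b * Nat.card Q) : ∃ e, Nat.card K = 2 ^ e * Nat.card Q := by
  obtain ⟨m, hm⟩ := Subgroup.card_dvd_of_le h1
  obtain ⟨l, hl⟩ := Subgroup.card_subgroup_dvd_card K
  have hQ : 0 < Nat.card Q := Nat.card_pos
  have h3 : m * l = 2 ^ b := by
    have : Nat.card Q * (m * l) = Nat.card Q * 2 ^ b := by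
      rw [← mul_assoc, ← hm, ← hl, h, mul_comm]
    exact Nat.eq_of_mul_eq_mul_left hQ this
  obtain ⟨e, he⟩ := pow_of_dvd_two (Dvd.intro _ h3)
  exact ⟨e, by rw [hm, he, mul_comm]⟩

private theorem disj_of_coprime {G : Type} [Group G] [Finite G] {Q A : Subgroup G} {k : ℕ}
    (ho : Odd (Nat.card Q)) (hA : Nat.card A = 2 ^ k) : Q ⊓ A = ⊥ := by
  apply Subgroup.card_eq_one.1
  have h1 : Nat.card (Q ⊓ A : Subgroup G) ∣ Nat.card Q := Subgroup.card_dvd_of_le inf_le_left
  have h2 : Nat.card (Q ⊓ A : Subgroup G) ∣ Nat.card A := Subgroup.card_dvd_of_le inf_le_right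
  rw [hA] at h2
  obtain ⟨c, hc⟩ := pow_of_dvd_two h2
  have h3 := ho.of_dvd_nat h1
  rw [hc] at h3 ⊢
  rcases Nat.eq_zero_or_pos c with h4 | h4
  · rw [h4, pow_zero]
  · exfalso
    have h5 : Even (2 ^ c) := (Nat.even_pow.2 ⟨even_two, by omega⟩)
    exact (Nat.not_odd_iff_even.2 h5) h3

/-- The last case: `Q` and `T` are complements of the normal 2-group `A`. -/
private theorem last_case {G : Type} [Group G] [Finite G] (hs : Group.IsSolvable G)
    (ih : ∀ m < Nat.card G, HL m) {A Q T : Subgroup G} [hA : A.Normal] {k : ℕ}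
    (hcA : Nat.card A = 2 ^ k) (ho : Odd (Nat.card Q)) {a : ℕ}
    (hQ : Nat.card G = 2 ^ a * Nat.card Q) (hT : Odd (Nat.card T)) (hQA : Q ⊔ A = ⊤)
    (hTA : T ⊔ A = ⊤) : ∃ u : G, ∀ t ∈ T, u * t * u⁻¹ ∈ Q := by
  have hdQ := disj_of_coprime ho hcA
  have hdT := disj_of_coprime hT hcA
  have hq0 : 0 < 2 ^ k := by positivity
  have hcG : Nat.card G = Nat.card A * Nat.card Q := by
    have := card_inf_compl hQA hdQ (M := ⊤) le_top
    rw [top_inf_eq, Subgroup.card_top] at this
    exact this
  have hcG' : Nat.card G = Nat.card A * Nat.card T := by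
    have := card_inf_compl hTA hdT (M := ⊤) le_top
    rw [top_inf_eq, Subgroup.card_top] at this
    exact this
  have hcQ : Nat.card (G ⧸ A) = Nat.card Q := by
    have h1 : Nat.card G = Nat.card (G ⧸ A) * Nat.card A :=
      Subgroup.card_eq_card_quotient_mul_card_subgroup A
    rw [hcG, hcA, mul_comm] at h1
    exact (Nat.eq_of_mul_eq_mul_right hq0 h1).symm
  have hcTQ : Nat.card T = Nat.card Q := by
    rw [hcG, hcA] at hcG'
    exact (Nat.eq_of_mul_eq_mul_left hq0 hcG').symm
  rcases subsingleton_or_nontrivial (G ⧸ A) with h | h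
  · have h1 : Nat.card T = 1 := by
      rw [hcTQ, ← hcQ]
      exact Nat.card_unique
    have h2 : T = ⊥ := Subgroup.card_eq_one.1 h1
    refine ⟨1, fun t ht => ?_⟩
    rw [h2, Subgroup.mem_bot] at ht
    rw [ht]
    simp
  · obtain ⟨N', r, j, hr, hN', hN'bot, hcN'⟩ := exists_normal_pGroup (G ⧸ A) inferInstance
    have hr2 : r ≠ 2 := by
      rintro rfl
      have h1 : Nat.card N' ∣ Nat.card (G ⧸ A) := Subgroup.card_subgroup_dvd_card N'
      rw [hcQ] at h1
      have h3 := ho.of_dvd_nat h1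
      rcases Nat.eq_zero_or_pos j with h4 | h4
      · rw [h4, pow_zero] at hcN'
        exact hN'bot (Subgroup.card_eq_one.1 hcN')
      · rw [hcN'] at h3
        exact (Nat.not_odd_iff_even.2 (Nat.even_pow.2 ⟨even_two, by omega⟩)) h3
    set N : Subgroup G := N'.comap (QuotientGroup.mk' A) with hN
    have hAN : A ≤ N := by
      intro x hx
      rw [hN, Subgroup.mem_comap, QuotientGroup.mk'_apply, (QuotientGroup.eq_one_iff x).2 hx]
      exact one_mem _
    have hNn : N.Normal := by
      rw [hN]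
      infer_instance
    have hcN : Nat.card N = Nat.card A * r ^ j := by
      have h1 : N.index = N'.index :=
        Subgroup.index_comap_of_surjective N' (QuotientGroup.mk'_surjective A)
      have h2 : Nat.card N * N.index = Nat.card G := Subgroup.card_mul_index N
      have h3 : Nat.card N' * N'.index = Nat.card (G ⧸ A) := Subgroup.card_mul_index N'
      have h4 : 0 < N'.index := Nat.pos_of_ne_zero Subgroup.index_ne_zero_of_finite
      rw [hcQ] at h3
      rw [h1, hcG, ← h3, hcN'] at h2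
      have h5 : Nat.card N * N'.index = (Nat.card A * r ^ j) * N'.index := by
        rw [h2]
        ring
      exact Nat.eq_of_mul_eq_mul_right h4 h5
    have hA0 : 0 < Nat.card A := Nat.card_pos
    have hNQ : Nat.card (N ⊓ Q : Subgroup G) = r ^ j := by
      have h1 := card_inf_compl hQA hdQ hAN
      rw [hcN] at h1
      exact (Nat.eq_of_mul_eq_mul_left hA0 h1).symm
    have hNT : Nat.card (N ⊓ T : Subgroup G) = r ^ j := by
      have h1 := card_inf_compl hTA hdT hAN
      rw [hcN] at h1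
      exact (Nat.eq_of_mul_eq_mul_left hA0 h1).symm
    obtain ⟨u, hu⟩ := conj_sylow (G := N) hr hr2 (P := (N ⊓ Q).subgroupOf N)
      (T := (N ⊓ T).subgroupOf N) (j := j) (k := k)
      (by rw [hcard_sub inf_le_left]; exact hNQ) (by rw [hcard_sub inf_le_left]; exact hNT)
      (by rw [hcN, hcA])
    refine of_conj (u : G) ?_
    set T1 : Subgroup G := T.map (MulAut.conj (u : G)).toMonoidHom with hT1
    have hT1o : Odd (Nat.card T1) := by
      rw [hT1, card_conj]
      exact hT
    have hle : (N ⊓ T).map (MulAut.conj (u : G)).toMonoidHom ≤ N ⊓ Q := by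
      refine conj_le_of fun t ht => ?_
      have h1 := hu ⟨t, (Subgroup.mem_inf.1 ht).1⟩ (Subgroup.mem_subgroupOf.2 ht)
      exact Subgroup.mem_subgroupOf.1 h1
    have heq : (N ⊓ T).map (MulAut.conj (u : G)).toMonoidHom = N ⊓ Q := by
      refine Subgroup.eq_of_le_of_card_ge hle ?_
      rw [card_conj, hNQ, hNT]
    have hT1N : N ⊓ T1 = N ⊓ Q := by
      rw [← heq]
      ext x
      constructor
      · intro hx
        obtain ⟨hx1, hx2⟩ := Subgroup.mem_inf.1 hx
        obtain ⟨t, ht, rfl⟩ := hx2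
        refine ⟨t, Subgroup.mem_inf.2 ⟨?_, ht⟩, rfl⟩
        have h1 := hNn.conj_mem _ hx1 (u : G)⁻¹
        have h2 : (u : G)⁻¹ * ((MulAut.conj (u : G)).toMonoidHom t) * (u : G)⁻¹⁻¹ = t := by
          change (u : G)⁻¹ * ((u : G) * t * (u : G)⁻¹) * (u : G)⁻¹⁻¹ = t
          group
        rwa [h2] at h1
      · rintro ⟨t, ht, rfl⟩
        refine Subgroup.mem_inf.2 ⟨hNn.conj_mem t (Subgroup.mem_inf.1 ht).1 (u : G), ?_⟩
        exact ⟨t, (Subgroup.mem_inf.1 ht).2, rfl⟩
    have hnz : ∀ X : Subgroup G, X ≤ Subgroup.normalizer ((N ⊓ X : Subgroup G) : Set G) := by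
      intro X x hx
      rw [Subgroup.mem_normalizer_iff]
      intro y
      constructor
      · intro hy
        obtain ⟨h1, h2⟩ := Subgroup.mem_inf.1 hy
        exact Subgroup.mem_inf.2 ⟨hNn.conj_mem y h1 x, X.mul_mem (X.mul_mem hx h2) (X.inv_mem hx)⟩
      · intro hy
        obtain ⟨h1, h2⟩ := Subgroup.mem_inf.1 hy
        have h3 := hNn.conj_mem _ h1 x⁻¹
        have h4 := X.mul_mem (X.mul_mem (X.inv_mem hx) h2) hx
        have e1 : x⁻¹ * (x * y * x⁻¹) * x⁻¹⁻¹ = y := by group
        have e2 : x⁻¹ * (x * y * x⁻¹) * x = y := by group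
        rw [e1] at h3
        rw [e2] at h4
        exact Subgroup.mem_inf.2 ⟨h3, h4⟩
    have hQP := hnz Q
    have hTP := hnz T1
    rw [hT1N] at hTP
    by_cases hP : Subgroup.normalizer ((N ⊓ Q : Subgroup G) : Set G) = ⊤
    · have hSn : (N ⊓ Q).Normal := Subgroup.normalizer_eq_top_iff.1 hP
      have hS1 : N ⊓ Q ≠ ⊥ := by
        intro h1
        rw [h1, Subgroup.card_bot, ← hcN'] at hNQ
        exact hN'bot (Subgroup.card_eq_one.1 hNQ.symm)
      obtain ⟨g, hg⟩ := step_quot hs ih (N ⊓ Q) hS1 ho hQ hT1o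
      refine ⟨g, fun t ht => ?_⟩
      have h1 := hg t ht
      rwa [sup_eq_left.2 inf_le_right] at h1
    · obtain ⟨e, he⟩ := btw hQP hQ
      exact step_sub hs ih hP hQP hTP ho he hT1o

private theorem hall_all (n : ℕ) : HL n := by
  induction n using Nat.strong_induction_on with
  | _ n ih =>
    intro G _ _ hn hs Q a ho hQ T hT
    subst hn
    rcases subsingleton_or_nontrivial G with hG | hG
    · exact ⟨1, fun t _ => by
        have : (1 : G) * t * 1⁻¹ = 1 := Subsingleton.elim _ _
        rw [this]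
        exact one_mem _⟩
    · obtain ⟨A, p, k, hp, hA, hAbot, hcardA⟩ := exists_normal_pGroup G hs
      obtain ⟨g, hg⟩ := step_quot hs ih A hAbot ho hQ hT
      refine of_conj g ?_
      have hle := conj_le_of hg
      have hT1o : Odd (Nat.card (T.map (MulAut.conj g).toMonoidHom)) := by
        rw [card_conj]
        exact hT
      set T1 := T.map (MulAut.conj g).toMonoidHom with hT1
      obtain ⟨e, he⟩ := btw (K := Q ⊔ A) le_sup_left hQ
      by_cases hp2 : p = 2
      · subst hp2
        by_cases hK : Q ⊔ A = ⊤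
        · by_cases hM : T1 ⊔ A = ⊤
          · exact last_case hs ih hcardA ho hQ hT1o hK hM
          · have h1 := card_inf_compl hK (disj_of_coprime ho hcardA) (M := T1 ⊔ A) le_sup_right
            have h2 : Odd (Nat.card ((T1 ⊔ A) ⊓ Q : Subgroup G)) :=
              ho.of_dvd_nat (Subgroup.card_dvd_of_le inf_le_right)
            rw [hcardA] at h1
            obtain ⟨u, hu⟩ := step_sub hs ih hM inf_le_left le_sup_left h2 h1 hT1o
            exact ⟨u, fun t ht => (Subgroup.mem_inf.1 (hu t ht)).2⟩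
        · exact step_sub hs ih hK le_sup_left hle ho he hT1o
      · -- `p` odd
        have hodd : Odd (Nat.card (Q ⊔ A : Subgroup G)) := by
          have h1 : Nat.card (Q ⊔ A : Subgroup G) ∣ Nat.card Q * Nat.card A := by
            have h2 : (Q ⊔ A : Subgroup G) = (Q.map (QuotientGroup.mk' A)).comap
                (QuotientGroup.mk' A) := by
              rw [Subgroup.comap_map_eq, QuotientGroup.ker_mk']
            have h3 : Nat.card (Q ⊔ A : Subgroup G) =
                Nat.card (Q.map (QuotientGroup.mk' A)) * Nat.card A := by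
              have h1 : (Q ⊔ A).index = (Q.map (QuotientGroup.mk' A)).index := by
                rw [h2]
                exact Subgroup.index_comap_of_surjective _ (QuotientGroup.mk'_surjective A)
              have h2 : Nat.card (Q ⊔ A : Subgroup G) * (Q ⊔ A).index = Nat.card G :=
                Subgroup.card_mul_index _
              have h3 : Nat.card (Q.map (QuotientGroup.mk' A)) *
                  (Q.map (QuotientGroup.mk' A)).index = Nat.card (G ⧸ A) :=
                Subgroup.card_mul_index _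
              have h4 : 0 < (Q.map (QuotientGroup.mk' A)).index :=
                Nat.pos_of_ne_zero Subgroup.index_ne_zero_of_finite
              have h6 : Nat.card G = Nat.card (G ⧸ A) * Nat.card A :=
                Subgroup.card_eq_card_quotient_mul_card_subgroup A
              rw [h1, h6, ← h3] at h2
              have h5 : Nat.card (Q ⊔ A : Subgroup G) * (Q.map (QuotientGroup.mk' A)).index =
                  (Nat.card (Q.map (QuotientGroup.mk' A)) * Nat.card A) *
                    (Q.map (QuotientGroup.mk' A)).index := by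
                rw [h2]
                ring
              exact Nat.eq_of_mul_eq_mul_right h4 h5
            rw [h3]
            exact Nat.mul_dvd_mul (Subgroup.card_map_dvd _ _) dvd_rfl
          refine Odd.of_dvd_nat ?_ h1
          rw [hcardA]
          exact ho.mul ((hp.odd_of_ne_two hp2).pow)
        have he0 : e = 0 := by
          by_contra h0
          rw [he] at hodd
          have h5 : Even (2 ^ e) := Nat.even_pow.2 ⟨even_two, h0⟩
          exact (Nat.not_odd_iff_even.2 (h5.mul_right _)) hodd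
        rw [he0, pow_zero, one_mul] at he
        have heq : Q = Q ⊔ A := Subgroup.eq_of_le_of_card_ge le_sup_left he.le
        refine ⟨1, fun t ht => ?_⟩
        rw [one_mul, inv_one, mul_one, heq]
        exact hle ht

theorem hall_le (G : Type) [Group G] [Finite G] (hs : Group.IsSolvable G) (Q : Subgroup G) (a : ℕ) (ho : Odd (Nat.card Q))
    (hQ : Nat.card G = 2 ^ a * Nat.card Q) (T : Subgroup G) (hT : Odd (Nat.card T)) :
    ∃ g : G, ∀ t ∈ T, g * t * g⁻¹ ∈ Q :=
  hall_all _ G rfl hs Q a ho hQ T hT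

end Pool.Agent.SvS
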