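import Pool.Agent.SvS.Defs

/-!
MP_7fa120_al, solvable subgroups. Existence of Hall subgroups of odd order in finite solvable groups.

By induction on `|G|`. Let `G ≠ 1`, `A` a nontrivial normal `p`-subgroup (`exists_normal_pGroup`: the elements of order dividing `p`
in the last nontrivial term of the derived series); `G / A` has a Hall subgroup `B / A` of odd order. If `p` is odd, `Q = B` works.
If `p = 2`, then `A` is a normal subgroup of `B` of coprime order and index: Schur-Zassenhaus
(`Subgroup.exists_right_complement'_of_coprime`).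
-/

set_option autoImplicit false

namespace Pool.Agent.SvS

/-- A nontrivial finite solvable group has a nontrivial normal subgroup of prime power order. -/
theorem exists_normal_pGroup (G : Type) [Group G] [Finite G] [Nontrivial G]
    (hs : Group.IsSolvable G) :
    ∃ (A : Subgroup G) (p k : ℕ), p.Prime ∧ A.Normal ∧ A ≠ ⊥ ∧ Nat.card A = p ^ k := by
  classical
  have hex : ∃ n, derivedSeries G n = ⊥ := hs.solvable
  set n := Nat.find hex with hn
  have h0 : derivedSeries G n = ⊥ := Nat.find_spec hex
  have hn0 : n ≠ 0 := by
    intro h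
    rw [h, derivedSeries_zero] at h0
    exact top_ne_bot h0
  obtain ⟨m, hm⟩ := Nat.exists_eq_succ_of_ne_zero hn0
  have hD : derivedSeries G m ≠ ⊥ := Nat.find_min hex (by omega)
  have hD' : ∀ x ∈ derivedSeries G m, ∀ y ∈ derivedSeries G m, x * y = y * x := by
    intro x hx y hy
    have h1 : ⁅derivedSeries G m, derivedSeries G m⁆ = ⊥ := by
      rw [← derivedSeries_succ, ← Nat.succ_eq_add_one, ← hm, h0]
    have h2 := Subgroup.commutator_eq_bot_iff_le_centralizer.1 h1 hx
    exact (Subgroup.mem_centralizer_iff.1 h2 y hy).symm
  have hnorm : (derivedSeries G m).Normal := derivedSeries_normal G m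
  have hcard : Nat.card (derivedSeries G m) ≠ 1 := by
    intro h
    exact hD (Subgroup.card_eq_one.1 h)
  have hp : (Nat.card (derivedSeries G m)).minFac.Prime := Nat.minFac_prime hcard
  set p := (Nat.card (derivedSeries G m)).minFac with hpdef
  have : Fact p.Prime := ⟨hp⟩
  obtain ⟨x, hx⟩ := exists_prime_orderOf_dvd_card' (G := derivedSeries G m) p
    (Nat.minFac_dvd _)
  let A : Subgroup G :=
    { carrier := {x | x ∈ derivedSeries G m ∧ x ^ p = 1}
      one_mem' := ⟨one_mem _, one_pow _⟩
      mul_mem' := by
        rintro a b ⟨ha, ha'⟩ ⟨hb, hb'⟩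
        refine ⟨mul_mem ha hb, ?_⟩
        rw [(show Commute a b from hD' a ha b hb).mul_pow, ha', hb', one_mul]
      inv_mem' := by
        rintro a ⟨ha, ha'⟩
        exact ⟨inv_mem ha, by rw [inv_pow, ha', inv_one]⟩ }
  have hA : A.Normal := by
    refine ⟨fun a ha g => ⟨hnorm.conj_mem a ha.1 g, ?_⟩⟩
    rw [conj_pow, ha.2, mul_one, mul_inv_cancel]
  have hAp : IsPGroup p A := by
    intro a
    refine ⟨1, ?_⟩
    rw [pow_one]
    exact Subtype.ext a.2.2
  obtain ⟨k, hk⟩ := IsPGroup.iff_card.1 hAp
  refine ⟨A, p, k, hp, hA, ?_, hk⟩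
  intro hbot
  have h1 : (x : G) ∈ A := by
    refine ⟨x.2, ?_⟩
    have h2 := pow_orderOf_eq_one x
    rw [hx] at h2
    have h3 := congrArg Subtype.val h2
    simpa using h3
  rw [hbot, Subgroup.mem_bot] at h1
  have h4 : x = 1 := Subtype.ext h1
  rw [h4, orderOf_one] at hx
  exact hp.one_lt.ne hx

theorem hall_exists (G : Type) [Group G] [Finite G] (hs : Group.IsSolvable G) :
    ∃ (Q : Subgroup G) (a : ℕ), Odd (Nat.card Q) ∧ Nat.card G = 2 ^ a * Nat.card Q := by
  suffices H : ∀ (n : ℕ) (G : Type) [Group G] [Finite G], Nat.card G = n → Group.IsSolvable G →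
      ∃ (Q : Subgroup G) (a : ℕ), Odd (Nat.card Q) ∧ Nat.card G = 2 ^ a * Nat.card Q from
    H _ G rfl hs
  intro n
  induction n using Nat.strong_induction_on with
  | _ n ih =>
    intro G _ _ hn hs
    rcases subsingleton_or_nontrivial G with hG | hG
    · refine ⟨⊥, 0, by simp, ?_⟩
      simp
    · obtain ⟨A, p, k, hp, hA, hAbot, hcardA⟩ := exists_normal_pGroup G hs
      have hmul : Nat.card G = Nat.card (G ⧸ A) * Nat.card A :=
        Subgroup.card_eq_card_quotient_mul_card_subgroup A
      have hA1 : 1 < Nat.card A := by
        rcases Nat.lt_or_ge 1 (Nat.card A) with h | h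
        · exact h
        · exfalso
          have h0 : 0 < Nat.card A := Nat.card_pos
          exact hAbot (Subgroup.card_eq_one.1 (by omega))
      have hq0 : 0 < Nat.card (G ⧸ A) := Nat.card_pos
      have hlt : Nat.card (G ⧸ A) < n := by
        rw [← hn, hmul]
        nlinarith
      obtain ⟨Q', a, hQ', hc⟩ := ih _ hlt (G ⧸ A) rfl inferInstance
      set B : Subgroup G := Q'.comap (QuotientGroup.mk' A) with hB
      have hAB : A ≤ B := by
        intro x hx
        rw [hB, Subgroup.mem_comap, QuotientGroup.mk'_apply, (QuotientGroup.eq_one_iff x).2 hx]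
        exact one_mem _
      have hcardB : Nat.card B = Nat.card Q' * Nat.card A := by
        have h1 : B.index = Q'.index :=
          Subgroup.index_comap_of_surjective Q' (QuotientGroup.mk'_surjective A)
        have h2 : Nat.card B * B.index = Nat.card G := Subgroup.card_mul_index B
        have h3 : Nat.card Q' * Q'.index = Nat.card (G ⧸ A) := Subgroup.card_mul_index Q'
        have h4 : 0 < Q'.index := Nat.pos_of_ne_zero Subgroup.index_ne_zero_of_finite
        rw [h1, hmul, ← h3] at h2
        have h5 : Nat.card B * Q'.index = (Nat.card Q' * Nat.card A) * Q'.index := by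
          rw [h2]
          ring
        exact Nat.eq_of_mul_eq_mul_right h4 h5
      by_cases hp2 : p = 2
      · subst hp2
        have hN : (A.subgroupOf B).Normal := inferInstance
        have hcN : Nat.card (A.subgroupOf B) = Nat.card A :=
          Nat.card_congr (Subgroup.subgroupOfEquivOfLe hAB).toEquiv
        have hidx : (A.subgroupOf B).index = Nat.card Q' := by
          have h1 : Nat.card (A.subgroupOf B) * (A.subgroupOf B).index = Nat.card B :=
            Subgroup.card_mul_index _
          rw [hcN, hcardB, mul_comm (Nat.card Q')] at h1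
          exact Nat.eq_of_mul_eq_mul_left (by omega) h1
        have hcop : Nat.Coprime (Nat.card (A.subgroupOf B)) (A.subgroupOf B).index := by
          rw [hcN, hidx, hcardA]
          exact Nat.Coprime.pow_left k (Nat.coprime_two_left.2 hQ')
        obtain ⟨L, hL⟩ := Subgroup.exists_right_complement'_of_coprime hcop
        have hcL : Nat.card L = Nat.card Q' := by
          have h1 := hL.card_mul_card
          rw [hcN, hcardB, mul_comm (Nat.card Q')] at h1
          exact Nat.eq_of_mul_eq_mul_left (by omega) h1
        refine ⟨L.map B.subtype, a + k, ?_, ?_⟩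
        · rw [Subgroup.card_map_of_injective B.subtype_injective, hcL]
          exact hQ'
        · rw [Subgroup.card_map_of_injective B.subtype_injective, hcL, hmul, hc, hcardA]
          ring
      · refine ⟨B, a, ?_, ?_⟩
        · rw [hcardB, hcardA]
          exact hQ'.mul ((hp.odd_of_ne_two hp2).pow)
        · rw [hcardB, hmul, hc]
          ring

end Pool.Agent.SvS
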