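import Pool.Agent.SvS.Hall

/-!
MP_7fa120_al, solvable subgroups. The pair `(Q, D)` for a solvable permutation group.

Proof. Let `R = oddGen H`, normal in `H`, with `H / R` a 2-group (every element of odd prime power order is in `R`; compare
`Pool.Agent.BdO.exists_frat`). Let `Q` be a Hall subgroup of odd order of `R` (`hall_exists`); so `|R| = 2 ^ b |Q|` and
`|H| = 2 ^ a |Q|`. For `h ∈ H`, `h Q h⁻¹` is another Hall subgroup of odd order of `R`, so conjugate to `Q` in `R` (`hall_le` and equal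
orders); hence `H = R N`, `N` the normaliser of `Q` in `H`. Let `D` be a Sylow 2-subgroup of `N`; as `N / (N ⊓ R) ≅ H / R` is a 2-group,
`N = (N ⊓ R) D` and `R D = H`.
Support. Let `Γ` be an orbit of `R` with more than one point, `F` the set of the points of `Γ` fixed by `Q`. Claim `2 * F.card ≤ Γ.card`.
If `F` is empty this is clear. Let `x ∈ F`. `Q ≤ R_x`, so `Γ.card = |R : R_x|` divides `|R : Q| = 2 ^ b`. `F ≠ Γ`: otherwise all conjugates of
`Q` in `R` fix `Γ` pointwise, and by `hall_le` every element of odd prime power order of `H` (it is in `R`) is in such a conjugate, so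
`R` would fix `Γ` pointwise. The normaliser `N_R` of `Q` in `R` acts transitively on `F`: if `y = g x ∈ F`, `g ∈ R`, then `Q` and `g Q g⁻¹` are
Hall subgroups of odd order of `R_y` (as `|R_y : Q|` is a power of two), so `Q = u g Q g⁻¹ u⁻¹` with `u ∈ R_y` and `u g ∈ N_R` maps `x` to `y`.
So `F.card` divides `|N_R : Q|`, a power of two; `F.card < Γ.card` are both powers of two, which proves the claim. Sum over `Γ`:
`(mv R).card ≤ 2 * (mv Q).card`.
-/

set_option autoImplicit false

namespace Pool.Agent.SvS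

open Equiv Pool.Agent.NilS Pool.Agent.BdO

private theorem two_or' {m : ℕ} (hm : m ≠ 0) (h : ∀ p : ℕ, p.Prime → p ∣ m → p = 2) :
    ∃ k : ℕ, m = 2 ^ k :=
  ⟨_, Nat.eq_prime_pow_of_unique_prime_dvd hm fun {d} hd hdm => h d hd hdm⟩

private theorem opp_of_order' {G : Type} [Group G] {g : G} {r j : ℕ} (hr : r.Prime) (hr2 : r ≠ 2)
    (h : orderOf g = r ^ j) : Opp g := ⟨r, j, hr, hr2, h⟩

private theorem quot_two' {G : Type} [Group G] [Finite G] (N : Subgroup G) [N.Normal]
    (hN : ∀ g : G, Opp g → g ∈ N) : ∃ k : ℕ, Nat.card (G ⧸ N) = 2 ^ k := by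
  refine two_or' Nat.card_pos.ne' fun p hp hdvd => ?_
  by_contra hp2
  have : Fact p.Prime := ⟨hp⟩
  obtain ⟨x, hx⟩ := exists_prime_orderOf_dvd_card' p hdvd
  obtain ⟨g, rfl⟩ := QuotientGroup.mk_surjective x
  obtain ⟨a, m, hm, hgm⟩ := Nat.exists_eq_pow_mul_and_not_dvd (isOfFinOrder_of_finite g).orderOf_pos.ne' p
    hp.ne_one
  have hm0 : m ≠ 0 := by
    rintro rfl
    exact hm (dvd_zero p)
  have h1 : orderOf (g ^ m) = p ^ a := by
    rw [orderOf_pow_of_dvd hm0 (by rw [hgm]; exact dvd_mul_left m _), hgm,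
      Nat.mul_div_cancel _ (Nat.pos_of_ne_zero hm0)]
  have h2 : g ^ m ∈ N := hN _ (opp_of_order' hp hp2 h1)
  have h3 : ((g : G ⧸ N)) ^ m = 1 := by
    rw [← QuotientGroup.mk_pow]
    exact (QuotientGroup.eq_one_iff _).mpr h2
  rw [← orderOf_dvd_iff_pow_eq_one, hx] at h3
  exact hm h3

private theorem pow_of_mul {a m e : ℕ} (h : a * m = 2 ^ e) : ∃ c, a = 2 ^ c := by
  obtain ⟨c, -, hc⟩ := (Nat.dvd_prime_pow Nat.prime_two).mp (Dvd.intro _ h)
  exact ⟨c, hc⟩

private theorem between {G : Type} [Group G] [Finite G] {Q K R : Subgroup G} (h1 : Q ≤ K) (h2 : K ≤ R)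
    {b : ℕ} (h : Nat.card R = 2 ^ b * Nat.card Q) : ∃ e, Nat.card K = 2 ^ e * Nat.card Q := by
  obtain ⟨m, hm⟩ := Subgroup.card_dvd_of_le h1
  obtain ⟨l, hl⟩ := Subgroup.card_dvd_of_le h2
  have hQ : 0 < Nat.card Q := Nat.card_pos
  have h3 : m * l = 2 ^ b := by
    have : Nat.card Q * (m * l) = Nat.card Q * 2 ^ b := by
      rw [← mul_assoc, ← hm, ← hl, h, mul_comm]
    exact Nat.eq_of_mul_eq_mul_left hQ this
  obtain ⟨e, he⟩ := pow_of_mul h3
  exact ⟨e, by rw [hm, he, mul_comm]⟩

private theorem card_sub {G : Type} [Group G] {Q K : Subgroup G} (h : Q ≤ K) :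
    Nat.card (Q.subgroupOf K) = Nat.card Q :=
  Nat.card_congr (Subgroup.subgroupOfEquivOfLe h).toEquiv

private theorem conj_le {G : Type} [Group G] [Finite G] {K Q T : Subgroup G} (hK : Group.IsSolvable K)
    (hQK : Q ≤ K) (hTK : T ≤ K) (ho : Odd (Nat.card Q)) {a : ℕ} (hQ : Nat.card K = 2 ^ a * Nat.card Q)
    (hT : Odd (Nat.card T)) : ∃ u ∈ K, ∀ t ∈ T, u * t * u⁻¹ ∈ Q := by
  obtain ⟨u, hu⟩ := hall_le K hK (Q.subgroupOf K) a (by rw [card_sub hQK]; exact ho)
    (by rw [card_sub hQK]; exact hQ) (T.subgroupOf K) (by rw [card_sub hTK]; exact hT)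
  refine ⟨u, u.2, fun t ht => ?_⟩
  have := hu ⟨t, hTK ht⟩ (Subgroup.mem_subgroupOf.mpr ht)
  exact Subgroup.mem_subgroupOf.mp this

private theorem conj_eq {G : Type} [Group G] [Finite G] {K Q T : Subgroup G} (hK : Group.IsSolvable K)
    (hQK : Q ≤ K) (hTK : T ≤ K) (ho : Odd (Nat.card Q)) {a : ℕ} (hQ : Nat.card K = 2 ^ a * Nat.card Q)
    (hc : Nat.card T = Nat.card Q) : ∃ u ∈ K, ∀ t, u * t * u⁻¹ ∈ Q ↔ t ∈ T := by
  obtain ⟨u, huK, hu⟩ := conj_le hK hQK hTK ho hQ (by rw [hc]; exact ho)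
  refine ⟨u, huK, fun t => ⟨fun h => ?_, hu t⟩⟩
  have h1 : T.map (MulAut.conj u).toMonoidHom ≤ Q := by
    rintro _ ⟨t, ht, rfl⟩
    exact hu t ht
  have h2 : T.map (MulAut.conj u).toMonoidHom = Q := by
    refine Subgroup.eq_of_le_of_card_ge h1 ?_
    rw [Subgroup.card_map_of_injective (MulAut.conj u).injective, hc]
  have h3 : (MulAut.conj u).toMonoidHom t ∈ T.map (MulAut.conj u).toMonoidHom := by
    rw [h2]
    exact h
  obtain ⟨t', ht', he⟩ := h3
  have : t' = t := (MulAut.conj u).injective he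
  rwa [← this]

/-- Frattini: an element which maps `Q` into a group where both are Hall subgroups. -/
private theorem conj_norm {G : Type} [Group G] [Finite G] {K Q : Subgroup G} (hK : Group.IsSolvable K)
    (hQK : Q ≤ K) (ho : Odd (Nat.card Q)) {a : ℕ} (hQ : Nat.card K = 2 ^ a * Nat.card Q) (g : G)
    (hg : ∀ q ∈ Q, g * q * g⁻¹ ∈ K) : ∃ u ∈ K, u * g ∈ Subgroup.normalizer (Q : Set G) := by
  have hTK : Q.map (MulAut.conj g).toMonoidHom ≤ K := by
    rintro _ ⟨q, hq, rfl⟩
    exact hg q hq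
  obtain ⟨u, hu, hT⟩ := conj_eq hK hQK hTK ho hQ
    (Subgroup.card_map_of_injective (MulAut.conj g).injective)
  refine ⟨u, hu, ?_⟩
  rw [Subgroup.mem_normalizer_iff]
  intro q
  have h1 := hT (g * q * g⁻¹)
  have h2 : u * g * q * (u * g)⁻¹ = u * (g * q * g⁻¹) * u⁻¹ := by group
  rw [h2, h1]
  constructor
  · intro hq
    exact ⟨q, hq, rfl⟩
  · rintro ⟨q', hq', he⟩
    have : q' = q := (MulAut.conj g).injective he
    rwa [← this]

private theorem hall_aux (G : Type) [Group G] [Finite G] (hs : Group.IsSolvable G) :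
    ∃ (Q D : Subgroup G) (a : ℕ), Q ≤ oddGen (⊤ : Subgroup G) ∧ Odd (Nat.card Q) ∧
      Nat.card G = 2 ^ a * Nat.card Q ∧ (∃ k : ℕ, Nat.card D = 2 ^ k) ∧ Nz D Q ∧
      oddGen (⊤ : Subgroup G) ⊔ D = ⊤ := by
  set N := oddGen (⊤ : Subgroup G) with hNdef
  have hN : ∀ g : G, Opp g → g ∈ N := fun g hg => Subgroup.subset_closure ⟨Subgroup.mem_top g, hg⟩
  have hnorm : N.Normal := by
    constructor
    intro n hn g
    have h1 : N ≤ N.comap (MulAut.conj g).toMonoidHom := by
      rw [hNdef]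
      unfold oddGen
      rw [Subgroup.closure_le]
      rintro x ⟨-, r, j, hr, hr2, hx⟩
      rw [SetLike.mem_coe, Subgroup.mem_comap]
      refine Subgroup.subset_closure ⟨Subgroup.mem_top _, r, j, hr, hr2, ?_⟩
      rw [← hx]
      exact MulEquiv.orderOf_eq (MulAut.conj g) x
    have h2 := h1 hn
    rw [Subgroup.mem_comap] at h2
    exact h2
  have hNs : Group.IsSolvable N := inferInstance
  obtain ⟨Q0, b, hQo, hQc⟩ := hall_exists N hNs
  set Q := Q0.map N.subtype with hQdef
  have cQ : Nat.card Q = Nat.card Q0 := Subgroup.card_map_of_injective (Subgroup.subtype_injective N)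
  have hQN : Q ≤ N := Subgroup.map_subtype_le _
  have hQo' : Odd (Nat.card Q) := by rw [cQ]; exact hQo
  have hQc' : Nat.card N = 2 ^ b * Nat.card Q := by rw [cQ]; exact hQc
  obtain ⟨k, hk⟩ := quot_two' N hN
  have hfrat : Subgroup.normalizer (Q : Set G) ⊔ N = ⊤ := by
    rw [eq_top_iff]
    intro g _
    obtain ⟨u, hu, hug⟩ := conj_norm hNs hQN hQo' hQc' g fun q hq => hnorm.conj_mem q (hQN hq) g
    have h2 : g = (u * g) * (g⁻¹ * u⁻¹ * g) := by group
    rw [h2]
    refine mul_mem (Subgroup.mem_sup_left hug) (Subgroup.mem_sup_right ?_)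
    have h3 := hnorm.conj_mem u⁻¹ (inv_mem hu) g⁻¹
    rwa [inv_inv] at h3
  set M := Subgroup.normalizer (Q : Set G) with hM
  obtain ⟨D0⟩ : Nonempty (Sylow 2 M) := inferInstance
  refine ⟨Q, (D0 : Subgroup M).map M.subtype, k + b, hQN, hQo', ?_, ?_, ?_, ?_⟩
  · have h1 := Subgroup.card_mul_index N
    have h2 : N.index = 2 ^ k := by rw [← hk]; rfl
    rw [← h1, h2, hQc']
    ring
  · rw [Subgroup.card_map_of_injective (Subgroup.subtype_injective M)]
    exact IsPGroup.exists_card_eq D0.isPGroup'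
  · rintro l hl o ho
    obtain ⟨l', -, rfl⟩ := Subgroup.mem_map.mp hl
    exact (Subgroup.mem_normalizer_iff.mp l'.2 o).mp ho
  · have hQ2 : IsPGroup 2 (G ⧸ N) := IsPGroup.of_card hk
    set f : M →* G ⧸ N := (QuotientGroup.mk' N).comp M.subtype with hf
    have hsurj : Function.Surjective f := by
      rw [← MonoidHom.range_eq_top, hf, MonoidHom.range_comp, Subgroup.range_subtype]
      have h1 := congrArg (Subgroup.map (QuotientGroup.mk' N)) hfrat
      rw [Subgroup.map_sup, QuotientGroup.map_mk'_self, sup_bot_eq] at h1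
      rw [h1, ← MonoidHom.range_eq_map, MonoidHom.range_eq_top]
      exact QuotientGroup.mk'_surjective N
    have h2 : (D0 : Subgroup M).map f = ⊤ := by
      have h3 := (D0.mapSurjective hsurj).is_maximal' (hQ2.to_subgroup ⊤) le_top
      rw [h3]
      rfl
    rw [← Subgroup.map_map] at h2
    rw [eq_top_iff]
    intro g _
    have h3 : (QuotientGroup.mk' N g) ∈ ((D0 : Subgroup M).map M.subtype).map (QuotientGroup.mk' N) := by
      rw [h2]
      exact Subgroup.mem_top _
    obtain ⟨d, hd, hdg⟩ := Subgroup.mem_map.mp h3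
    have h4 : d⁻¹ * g ∈ N := QuotientGroup.eq.mp hdg
    have h5 : g = d * (d⁻¹ * g) := by group
    rw [h5]
    exact mul_mem (Subgroup.mem_sup_right hd) (Subgroup.mem_sup_left h4)

private theorem solv_le {G : Type} [Group G] {K H : Subgroup G} (h : K ≤ H) (hs : Group.IsSolvable H) :
    Group.IsSolvable K :=
  Group.isSolvable_of_isSolvable_injective (Subgroup.inclusion_injective h)

private theorem orbit_pow {n : ℕ} {K Q : Subgroup (Perm (Fin n))} (hQK : Q ≤ K) {x : Fin n}
    (hx : ∀ q ∈ Q, q x = x) {e : ℕ} (hc : Nat.card K = 2 ^ e * Nat.card Q) :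
    ∃ c, (MulAction.orbit K x).ncard = 2 ^ c := by
  have h := Subgroup.card_mul_index (MulAction.stabilizer K x)
  rw [MulAction.index_stabilizer] at h
  have hle : Q.subgroupOf K ≤ MulAction.stabilizer K x := by
    intro q hq
    rw [MulAction.mem_stabilizer_iff]
    exact hx q (Subgroup.mem_subgroupOf.mp hq)
  obtain ⟨m, hm⟩ := Subgroup.card_dvd_of_le hle
  rw [card_sub hQK] at hm
  rw [hm, hc] at h
  have hQ : 0 < Nat.card Q := Nat.card_pos
  have h2 : (MulAction.orbit K x).ncard * m = 2 ^ e := by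
    have h3 : Nat.card Q * ((MulAction.orbit K x).ncard * m) = Nat.card Q * 2 ^ e := by
      calc Nat.card Q * ((MulAction.orbit K x).ncard * m)
          = Nat.card Q * m * (MulAction.orbit K x).ncard := by ring
        _ = 2 ^ e * Nat.card Q := h
        _ = Nat.card Q * 2 ^ e := by ring
    exact Nat.eq_of_mul_eq_mul_left hQ h3
  exact pow_of_mul h2

private theorem inv_self {n : ℕ} (g : Perm (Fin n)) (x : Fin n) : g⁻¹ (g x) = x :=
  g.symm_apply_apply x

private theorem mem_orb {n : ℕ} {K : Subgroup (Perm (Fin n))} {x y : Fin n} :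
    y ∈ MulAction.orbit K x ↔ ∃ g ∈ K, g x = y := by
  constructor
  · rintro ⟨g, hg⟩
    exact ⟨g, g.2, hg⟩
  · rintro ⟨g, hg, rfl⟩
    exact ⟨⟨g, hg⟩, rfl⟩

private theorem support {n : ℕ} (H Q : Subgroup (Perm (Fin n))) (hs : Group.IsSolvable H)
    (hQ : Q ≤ oddGen H) (ho : Odd (Nat.card Q)) {a : ℕ} (hc : Nat.card H = 2 ^ a * Nat.card Q) :
    (mv (oddGen H)).card ≤ 2 * (mv Q).card := by
  classical
  set R := oddGen H with hR
  have hRH : R ≤ H := by
    rw [hR]
    unfold oddGen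
    rw [Subgroup.closure_le]
    exact fun g hg => hg.1
  obtain ⟨b, hb⟩ := between hQ hRH hc
  have hRs := solv_le hRH hs
  set NR := Subgroup.normalizer (Q : Set (Perm (Fin n))) ⊓ R with hNR
  have hQN : Q ≤ NR := le_inf Subgroup.le_normalizer hQ
  have hNRR : NR ≤ R := inf_le_right
  obtain ⟨b', hb'⟩ := between hQN hNRR hb
  -- the claim for a point
  have claim : ∀ x, x ∈ mv R → x ∉ mv Q →
      2 * (MulAction.orbit NR x).ncard ≤ (MulAction.orbit R x).ncard ∧
      ∀ y ∈ MulAction.orbit R x, y ∉ mv Q → y ∈ MulAction.orbit NR x := by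
    intro x hxR hxQ
    have hfix : ∀ q ∈ Q, q x = x := by
      intro q hq
      by_contra hne
      exact hxQ (mem_mv.mpr ⟨q, hq, hne⟩)
    obtain ⟨c, hc⟩ := orbit_pow hQ hfix hb
    obtain ⟨d, hd⟩ := orbit_pow hQN hfix hb'
    have hfixN : ∀ y ∈ MulAction.orbit NR x, ∀ q ∈ Q, q y = y := by
      intro y hy q hq
      obtain ⟨g, hg, rfl⟩ := mem_orb.mp hy
      have h1 := (Subgroup.mem_normalizer_iff''.mp hg.1 q).mp hq
      have h2 := hfix _ h1
      rw [Perm.mul_apply, Perm.mul_apply, Perm.inv_eq_iff_eq] at h2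
      exact h2
    have hsub : MulAction.orbit NR x ⊆ MulAction.orbit R x := by
      intro y hy
      obtain ⟨g, hg, rfl⟩ := mem_orb.mp hy
      exact mem_orb.mpr ⟨g, hNRR hg, rfl⟩
    have hne : MulAction.orbit NR x ≠ MulAction.orbit R x := by
      intro he
      rw [he] at hfixN
      have hall : ∀ g ∈ R, ∀ y ∈ MulAction.orbit R x, g y = y := by
        intro g hg
        rw [hR] at hg
        unfold oddGen at hg
        induction hg using Subgroup.closure_induction with
        | mem g hg =>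
          obtain ⟨hgH, r, j, hr, hr2, hord⟩ := hg
          intro y hy
          have hgR : g ∈ R := Subgroup.subset_closure ⟨hgH, r, j, hr, hr2, hord⟩
          have hT : Odd (Nat.card (Subgroup.zpowers g)) := by
            rw [Nat.card_zpowers, hord]
            exact (hr.odd_of_ne_two hr2).pow
          obtain ⟨u, hu, hu2⟩ := conj_le hRs hQ
            (Subgroup.zpowers_le.mpr hgR) ho hb hT
          have h1 := hu2 g (Subgroup.mem_zpowers g)
          obtain ⟨k, hk, rfl⟩ := mem_orb.mp hy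
          have h2 : u (k x) ∈ MulAction.orbit R x :=
            mem_orb.mpr ⟨u * k, mul_mem hu hk, rfl⟩
          have h3 := hfixN _ h2 _ h1
          rw [Perm.mul_apply, Perm.mul_apply, inv_self] at h3
          exact u.injective h3
        | one => intro y _; rfl
        | mul g h _ _ ih1 ih2 =>
          intro y hy
          rw [Perm.mul_apply, ih2 y hy, ih1 y hy]
        | inv g _ ih =>
          intro y hy
          rw [Perm.inv_eq_iff_eq]
          exact (ih y hy).symm
      obtain ⟨q, hq, hqx⟩ := mem_mv.mp hxR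
      exact hqx (hall q hq x (MulAction.mem_orbit_self x))
    have hlt : (MulAction.orbit NR x).ncard < (MulAction.orbit R x).ncard :=
      Set.ncard_lt_ncard (hsub.ssubset_of_ne hne) (Set.toFinite _)
    refine ⟨?_, ?_⟩
    · rw [hc, hd] at hlt ⊢
      have hdc : d < c := (Nat.pow_lt_pow_iff_right (by norm_num)).mp hlt
      calc 2 * 2 ^ d = 2 ^ (d + 1) := by ring
        _ ≤ 2 ^ c := Nat.pow_le_pow_right (by norm_num) hdc
    · intro y hy hyQ
      obtain ⟨g, hg, rfl⟩ := mem_orb.mp hy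
      have hfy : ∀ q ∈ Q, q (g x) = g x := by
        intro q hq
        by_contra hne
        exact hyQ (mem_mv.mpr ⟨q, hq, hne⟩)
      set K := R ⊓ MulAction.stabilizer (Perm (Fin n)) (g x) with hK
      have hQK : Q ≤ K := le_inf hQ fun q hq => hfy q hq
      have hKR : K ≤ R := inf_le_left
      obtain ⟨e, he⟩ := between hQK hKR hb
      obtain ⟨u, hu, hug⟩ := conj_norm (solv_le hKR hRs) hQK ho he g (by
        intro q hq
        refine Subgroup.mem_inf.mpr ⟨R.mul_mem (R.mul_mem hg (hQ hq)) (R.inv_mem hg), ?_⟩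
        rw [MulAction.mem_stabilizer_iff]
        change (g * q * g⁻¹) (g x) = g x
        rw [Perm.mul_apply, Perm.mul_apply, inv_self, hfix q hq])
      refine mem_orb.mpr ⟨u * g, ⟨hug, mul_mem hu.1 hg⟩, ?_⟩
      have h1 : u (g x) = g x := hu.2
      rw [Perm.mul_apply, h1]
  -- sum over the orbits
  set F := (mv R).filter (fun y => y ∉ mv Q) with hF
  have hsum : 2 * F.card ≤ (mv R).card := by
    rw [Finset.card_eq_sum_card_fiberwise (f := fun y => MulAction.orbit R y) (s := F)
      (t := Finset.univ) (fun _ _ => Finset.mem_coe.mpr (Finset.mem_univ _)),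
      Finset.card_eq_sum_card_fiberwise (f := fun y => MulAction.orbit R y) (s := mv R)
      (t := Finset.univ) (fun _ _ => Finset.mem_coe.mpr (Finset.mem_univ _)), Finset.mul_sum]
    refine Finset.sum_le_sum fun Γ _ => ?_
    by_cases hemp : (F.filter fun y => MulAction.orbit R y = Γ) = ∅
    · rw [hemp, Finset.card_empty]
      exact Nat.zero_le _
    · obtain ⟨x, hx⟩ := Finset.nonempty_iff_ne_empty.mpr hemp
      rw [Finset.mem_filter, hF, Finset.mem_filter] at hx
      obtain ⟨⟨hxR, hxQ⟩, rfl⟩ := hx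
      obtain ⟨h1, h2⟩ := claim x hxR hxQ
      have h3 : (F.filter fun y => MulAction.orbit R y = MulAction.orbit R x).card ≤
          (MulAction.orbit NR x).ncard := by
        rw [← Set.ncard_coe_finset]
        refine Set.ncard_le_ncard ?_ (Set.toFinite _)
        intro y hy
        rw [Finset.mem_coe, Finset.mem_filter, hF, Finset.mem_filter] at hy
        refine h2 y ?_ hy.1.2
        rw [← hy.2]
        exact MulAction.mem_orbit_self y
      have h4 : (MulAction.orbit R x).ncard ≤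
          ((mv R).filter fun y => MulAction.orbit R y = MulAction.orbit R x).card := by
        rw [← Set.ncard_coe_finset]
        refine Set.ncard_le_ncard ?_ (Set.toFinite _)
        intro y hy
        rw [Finset.mem_coe, Finset.mem_filter]
        refine ⟨?_, MulAction.orbit_eq_iff.mpr hy⟩
        obtain ⟨g, hg, rfl⟩ := mem_orb.mp hy
        obtain ⟨r, hr, hrx⟩ := mem_mv.mp hxR
        refine mem_mv.mpr ⟨g * r * g⁻¹, mul_mem (mul_mem hg hr) (inv_mem hg), ?_⟩
        rw [Perm.mul_apply, Perm.mul_apply, inv_self]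
        exact fun h => hrx (g.injective h)
      calc 2 * (F.filter fun y => MulAction.orbit R y = MulAction.orbit R x).card
          ≤ 2 * (MulAction.orbit NR x).ncard := Nat.mul_le_mul_left _ h3
        _ ≤ _ := h1
        _ ≤ _ := h4
  have hsplit : (mv R).card ≤ (mv Q).card + F.card := by
    have h1 : mv R ⊆ mv Q ∪ F := by
      intro y hy
      by_cases hyQ : y ∈ mv Q
      · exact Finset.mem_union_left _ hyQ
      · exact Finset.mem_union_right _ (Finset.mem_filter.mpr ⟨hy, hyQ⟩)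
    exact (Finset.card_le_card h1).trans (Finset.card_union_le _ _)
  omega

theorem exists_hall {n : ℕ} (H : Subgroup (Perm (Fin n))) (hs : Group.IsSolvable H) :
    ∃ (Q D : Subgroup (Perm (Fin n))) (a : ℕ), Q ≤ oddGen H ∧ Odd (Nat.card Q) ∧ Nat.card H = 2 ^ a * Nat.card Q ∧
      Two D ∧ Nz D Q ∧ oddGen H ⊔ D = H ∧ (mv (oddGen H)).card ≤ 2 * (mv Q).card := by
  obtain ⟨Q, D, a, h1, h2, h3, h4, h5, h6⟩ := hall_aux H hs
  have hgen : oddGen H = (oddGen (⊤ : Subgroup H)).map H.subtype := by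
    unfold oddGen
    rw [MonoidHom.map_closure]
    congr 1
    ext g
    constructor
    · rintro ⟨hg, r, j, hr, hr2, ho⟩
      exact ⟨⟨g, hg⟩, ⟨Subgroup.mem_top _, r, j, hr, hr2, by rw [Subgroup.orderOf_mk]; exact ho⟩, rfl⟩
    · rintro ⟨g', ⟨-, r, j, hr, hr2, ho⟩, rfl⟩
      exact ⟨g'.2, r, j, hr, hr2, by rw [← ho]; exact Subgroup.orderOf_coe g'⟩
  have hinj := Subgroup.subtype_injective H
  have cQ : Nat.card (Q.map H.subtype) = Nat.card Q := Subgroup.card_map_of_injective hinj
  have k1 : Q.map H.subtype ≤ oddGen H := by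
    rw [hgen]
    exact Subgroup.map_mono h1
  have k2 : Odd (Nat.card (Q.map H.subtype)) := by rw [cQ]; exact h2
  have k3 : Nat.card H = 2 ^ a * Nat.card (Q.map H.subtype) := by rw [cQ]; exact h3
  refine ⟨Q.map H.subtype, D.map H.subtype, a, k1, k2, k3, ?_, ?_, ?_, support H _ hs k1 k2 k3⟩
  · unfold Two
    rw [Subgroup.card_map_of_injective hinj]
    exact h4
  · rintro l hl o ho
    obtain ⟨l', hl', rfl⟩ := Subgroup.mem_map.mp hl
    obtain ⟨o', ho', rfl⟩ := Subgroup.mem_map.mp ho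
    exact ⟨l' * o' * l'⁻¹, h5 l' hl' o' ho', rfl⟩
  · rw [hgen, ← Subgroup.map_sup, h6, ← MonoidHom.range_eq_map, Subgroup.range_subtype]

end Pool.Agent.SvS
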