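import Pool.Agent.SvS.Defs2

/-!
MP_7fa120_al, solvable subgroups. Simple consequences of `Indep`.

`indep_step`: `T = C ⊓ ⨅_{j ∈ J} K j` with `i ∉ J`: `T K_i` is normal in `G`, between `K_i` and `C`, and it is not `K_i` (as `T` contains
`C ⊓ ⨅_{j ≠ i} K j`); so `T K_i = C`, i.e. `(T ⊓ K i).relIndex T = q`. Hence (`indep_index`) by induction on `J` the index of `C ⊓ ⨅_{j ∈ J} K j` in `C` is `q ^ J.card`,
and (`indep_card`) `q ^ δ ≤ |C| ≤ |G|`. `indep_gen`: for `v i ∈ C ⊓ ⨅_{j ≠ i} K j`, `v i ∉ K i`, a normal subgroup `E` of `G` containing `C ⊓ ⨅ K j` and all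
`v i` contains `C`: by descending induction on `J`, `C ⊓ ⨅_{j ∈ J} K j ≤ E`: let `i ∈ J`, `T = C ⊓ ⨅_{j ∈ J, j ≠ i} K j`; `T ⊓ K i ≤ E`, and
`(T ⊓ E) K_i` is normal in `G`, between `K_i` and `C`, and contains `v i ∉ K i`, so it is `C`, and `T = (T ⊓ E) (T ⊓ K i) ≤ E` (Dedekind).
-/

set_option autoImplicit false

namespace Pool.Agent.SvS

private theorem mem_T {G : Type} [Group G] {C : Subgroup G} {δ : ℕ} {K : Fin δ → Subgroup G} {J : Finset (Fin δ)}
    {x : G} : x ∈ C ⊓ ⨅ j ∈ J, K j ↔ x ∈ C ∧ ∀ j ∈ J, x ∈ K j := by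
  simp only [Subgroup.mem_inf, Subgroup.mem_iInf]

private theorem normal_T {G : Type} [Group G] {C : Subgroup G} {q δ : ℕ} {K : Fin δ → Subgroup G} (h : Indep C q δ K)
    (i : Fin δ) (J : Finset (Fin δ)) : (C ⊓ ⨅ j ∈ J, K j).Normal := by
  constructor
  intro x hx g
  rw [mem_T] at hx ⊢
  exact ⟨(h.1 i).1.2.1.conj_mem x hx.1 g, fun j hj => (h.1 j).1.1.conj_mem x (hx.2 j hj) g⟩

/-- A normal subgroup `T ≤ C` which is not in `K i` generates `C` together with `K i`. -/
private theorem sup_eq {G : Type} [Group G] {C : Subgroup G} {q δ : ℕ} {K : Fin δ → Subgroup G} (h : Indep C q δ K)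
    (i : Fin δ) (T : Subgroup G) (hT : T.Normal) (hTC : T ≤ C) (hn : ¬ T ≤ K i) : T ⊔ K i = C := by
  obtain ⟨hKn, hCn, hlt, hch⟩ := (h.1 i).1
  rcases hch (T ⊔ K i) (Subgroup.sup_normal T (K i)) le_sup_right (sup_le hTC hlt.le) with h1 | h1
  · exact absurd (h1 ▸ le_sup_left : T ≤ K i) hn
  · exact h1

theorem indep_step {G : Type} [Group G] {C : Subgroup G} {q δ : ℕ} {K : Fin δ → Subgroup G} (h : Indep C q δ K)
    (J : Finset (Fin δ)) (i : Fin δ) (hi : i ∉ J) : (C ⊓ ⨅ j ∈ J, K j) ⊔ K i = C := by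
  refine sup_eq h i _ (normal_T h i J) inf_le_left fun hle => h.2 i (le_trans ?_ hle)
  intro x hx
  rw [Subgroup.mem_inf, Subgroup.mem_iInf] at hx
  rw [mem_T]
  refine ⟨hx.1, fun j hj => ?_⟩
  have h1 := hx.2 j
  rw [Subgroup.mem_iInf] at h1
  exact h1 (fun hji => hi (hji ▸ hj))

theorem indep_index {G : Type} [Group G] [Finite G] {C : Subgroup G} {q δ : ℕ} {K : Fin δ → Subgroup G} (h : Indep C q δ K)
    (J : Finset (Fin δ)) : (C ⊓ ⨅ j ∈ J, K j).relIndex C = q ^ J.card := by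
  classical
  induction J using Finset.induction_on with
  | empty => simp
  | insert i J hi ih =>
    have hKn := (h.1 i).1.1
    have e1 : (C ⊓ ⨅ j ∈ insert i J, K j) = K i ⊓ (C ⊓ ⨅ j ∈ J, K j) := by
      ext x
      rw [mem_T, Subgroup.mem_inf, mem_T]
      constructor
      · rintro ⟨h1, h2⟩
        exact ⟨h2 i (Finset.mem_insert_self i J), h1, fun j hj => h2 j (Finset.mem_insert_of_mem hj)⟩
      · rintro ⟨h1, h2, h3⟩
        refine ⟨h2, fun j hj => ?_⟩
        rcases Finset.mem_insert.1 hj with rfl | hj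
        · exact h1
        · exact h3 j hj
    rw [e1, ← Subgroup.relIndex_mul_relIndex _ (C ⊓ ⨅ j ∈ J, K j) C inf_le_right inf_le_left, ih,
      Subgroup.inf_relIndex_right, Finset.card_insert_of_notMem hi, pow_succ, mul_comm]
    congr 1
    have h1 := Subgroup.relIndex_sup_right (C ⊓ ⨅ j ∈ J, K j) (K i)
    rw [indep_step h J i hi, (h.1 i).2.1] at h1
    exact h1.symm

theorem indep_card {G : Type} [Group G] [Finite G] {C : Subgroup G} {q δ : ℕ} {K : Fin δ → Subgroup G} (h : Indep C q δ K) :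
    q ^ δ ≤ Nat.card G := by
  have h1 := indep_index h Finset.univ
  rw [Finset.card_univ, Fintype.card_fin] at h1
  rw [← h1]
  refine le_trans (Nat.le_of_dvd Nat.card_pos (Subgroup.relIndex_dvd_card _ _)) ?_
  exact Subgroup.card_le_card_group C

theorem indep_gen {G : Type} [Group G] [Finite G] {C : Subgroup G} {q δ : ℕ} {K : Fin δ → Subgroup G} (h : Indep C q δ K)
    (v : Fin δ → G) (hv : ∀ i, v i ∈ C ∧ (∀ j, j ≠ i → v i ∈ K j) ∧ v i ∉ K i) (E : Subgroup G) (hE : E.Normal)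
    (h0 : C ⊓ ⨅ j, K j ≤ E) (h1 : ∀ i, v i ∈ E) : C ≤ E := by
  classical
  have key : ∀ S : Finset (Fin δ), (C ⊓ ⨅ j ∈ Sᶜ, K j) ≤ E := by
    intro S
    induction S using Finset.induction_on with
    | empty =>
      refine le_trans ?_ h0
      intro x hx
      rw [mem_T] at hx
      rw [Subgroup.mem_inf, Subgroup.mem_iInf]
      exact ⟨hx.1, fun j => hx.2 j (by simp)⟩
    | insert i S hi ih =>
      have hKn := (h.1 i).1.1
      have hTn := normal_T h i ((insert i S)ᶜ)
      set T : Subgroup G := C ⊓ ⨅ j ∈ (insert i S)ᶜ, K j with hT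
      have h2 : ∀ x, x ∈ T → x ∈ K i → x ∈ E := by
        intro x hx hxi
        apply ih
        rw [hT, mem_T] at hx
        rw [mem_T]
        refine ⟨hx.1, fun j hj => ?_⟩
        by_cases hji : j = i
        · rw [hji]
          exact hxi
        · refine hx.2 j ?_
          rw [Finset.mem_compl] at hj ⊢
          rw [Finset.mem_insert, not_or]
          exact ⟨hji, hj⟩
      have hv1 : v i ∈ T := by
        rw [hT, mem_T]
        refine ⟨(hv i).1, fun j hj => (hv i).2.1 j fun hji => ?_⟩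
        rw [Finset.mem_compl, hji] at hj
        exact hj (Finset.mem_insert_self i S)
      have h3 : (T ⊓ E) ⊔ K i = C := by
        refine sup_eq h i _ (Subgroup.normal_inf_normal T E) (inf_le_left.trans inf_le_left) fun hle => ?_
        exact (hv i).2.2 (hle (Subgroup.mem_inf.2 ⟨hv1, h1 i⟩))
      intro t ht
      have htC : t ∈ (T ⊓ E) ⊔ K i := by
        rw [h3]
        exact (mem_T.1 ht).1
      obtain ⟨e, he, k, hk, hek⟩ := Subgroup.mem_sup_of_normal_right.1 htC
      rw [Subgroup.mem_inf] at he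
      have hkT : k ∈ T := by
        have h4 : k = e⁻¹ * t := by
          rw [← hek, inv_mul_cancel_left]
        rw [h4]
        exact T.mul_mem (T.inv_mem he.1) ht
      rw [← hek]
      exact E.mul_mem he.2 (h2 k hkT hk)
  have h2 := key Finset.univ
  intro x hx
  refine h2 (mem_T.2 ⟨hx, fun j hj => ?_⟩)
  simp at hj

end Pool.Agent.SvS
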