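import Pool.Agent.SvS.NormK

/-!
MP_7fa120_al, solvable subgroups. The number of 2-groups normalising `U` when there are long orbits.

Proof. Let `k₁` be the number of the orbits of `U` with more than one and at most `L` points, `k₂` the number and `s₂` the sum of the
lengths of those with more than `L` points, `W` the union of the latter (`s₂` points). Then `(mv U).card ≤ L * k₁ + s₂`, `L * k₂ ≤ s₂`,
`k₁ + s₂ ≤ n`. If `k₂ = 0` use `norm_k_on` with `W = univ`. In general choose a point `m_E` in every orbit `E ⊆ W`.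
Let `D` be a 2-group normalising `U`; it permutes the orbits of `U`. For `d ∈ D` let `π d` be the permutation with `(π d) x = d x` for
`x ∉ W`, `(π d) m_E = m_(d E)`, and fixing the other points of `W`. `π` is a homomorphism on `D`; let `D' = π D`, a 2-group moving only
points of `W' = (univ \ W) ∪ {m_E}`, `W'.card = n - s₂ + k₂`. Let `U₁` be the group of the elements of `U` which are the identity on `W`. As
`AbS.hat U = U`, its orbits outside `W` are those of `U`, so `mv U₁` is the union of the `k₁` short orbits. `D` normalises `U₁`, hence so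
does `D'`. By `norm_k_on` (with the set `W'`, and `k₁`) there are at most `n ^ k₁ * nTwo (n - s₂ + k₂ - k₁)` groups `D'`.
The number of `D` with given `D' = π D`: `D'` has order at most `2 ^ n` (the 2-part of `n !` is less than `2 ^ n`), so it is generated by `n`
elements `g_1, …, g_n` (with repetitions; chosen once for every `D'`); `D` is generated by preimages `d_i ∈ D` of the `g_i` and by `n` elements
generating the kernel of `π` on `D` (again of order at most `2 ^ n`). An element `d ∈ D` with given `π d` is determined by its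
restrictions to the orbits `E ⊆ W`; it maps `E` to the orbit `E'` with `(π d) m_E = m_(E')`, and its restriction is determined by
`d m_E ∈ E'` and the isomorphism `u ↦ d u d⁻¹` from `U|E` to `U|E'` (`d (u m_E) = (d u d⁻¹) (d m_E)`), and `U|E` has order `E.card ≤ n`, so it
is generated by at most `Nat.log 2 n` elements; so there are at most `n * n ^ (Nat.log 2 n)` possibilities for every `E`, and
`n ^ ((Nat.log 2 n + 1) * k₂)` for `d`. Altogether at most `(n ^ ((Nat.log 2 n + 1) * k₂)) ^ (2 * n)` groups `D` over `D'`.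
-/

set_option autoImplicit false

namespace Pool.Agent.SvS

open Equiv Pool.Agent.NilS Pool.Agent.BdO Finset

/-! ### Generators -/

private theorem card_double {G : Type} [Group G] [Finite G] {A B : Subgroup G} (h : A < B) :
    2 * Nat.card A ≤ Nat.card B := by
  obtain ⟨k, hk⟩ := Subgroup.card_dvd_of_le h.le
  have hA : 0 < Nat.card A := Nat.card_pos
  have hB : 0 < Nat.card B := Nat.card_pos
  have hk2 : 2 ≤ k := by
    by_contra hcon
    have : k = 0 ∨ k = 1 := by omega
    rcases this with rfl | rfl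
    · omega
    · rw [mul_one] at hk
      exact h.ne (Subgroup.eq_of_le_of_card_ge h.le hk.le)
  rw [hk, mul_comm]
  exact Nat.mul_le_mul_left _ hk2

private theorem exists_gen_aux {G : Type} [Group G] [Finite G] (H : Subgroup G) (j : ℕ) :
    ∃ g : Fin j → G, (∀ i, g i ∈ H) ∧ (Subgroup.closure (Set.range g) = H ∨
      2 ^ j ≤ Nat.card (Subgroup.closure (Set.range g))) := by
  induction j with
  | zero =>
    refine ⟨Fin.elim0, fun i => i.elim0, Or.inr ?_⟩
    rw [pow_zero]
    exact Nat.card_pos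
  | succ j ih =>
    obtain ⟨g, hg, h⟩ := ih
    by_cases hc : Subgroup.closure (Set.range g) = H
    · refine ⟨Fin.cons 1 g, ?_, Or.inl ?_⟩
      · intro i
        refine Fin.cases ?_ ?_ i
        · rw [Fin.cons_zero]
          exact H.one_mem
        · intro i
          rw [Fin.cons_succ]
          exact hg i
      · rw [Fin.range_cons, Subgroup.closure_insert_one, hc]
    · have hle : Subgroup.closure (Set.range g) ≤ H := by
        rw [Subgroup.closure_le]
        rintro _ ⟨i, rfl⟩
        exact hg i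
      obtain ⟨x, hxH, hx⟩ := SetLike.exists_of_lt (lt_of_le_of_ne hle hc)
      refine ⟨Fin.cons x g, ?_, Or.inr ?_⟩
      · intro i
        refine Fin.cases ?_ ?_ i
        · rw [Fin.cons_zero]
          exact hxH
        · intro i
          rw [Fin.cons_succ]
          exact hg i
      · rw [Fin.range_cons]
        have h1 : Subgroup.closure (Set.range g) < Subgroup.closure (insert x (Set.range g)) := by
          refine lt_of_le_of_ne (Subgroup.closure_mono (Set.subset_insert _ _)) fun he => hx ?_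
          rw [he]
          exact Subgroup.subset_closure (Set.mem_insert _ _)
        have h2 := card_double h1
        have h3 := h.resolve_left hc
        rw [pow_succ]
        omega

private theorem exists_gen {G : Type} [Group G] [Finite G] (H : Subgroup G) (j : ℕ)
    (h : Nat.card H < 2 ^ (j + 1)) :
    ∃ g : Fin j → G, (∀ i, g i ∈ H) ∧ Subgroup.closure (Set.range g) = H := by
  obtain ⟨g, hg, h1⟩ := exists_gen_aux H j
  refine ⟨g, hg, ?_⟩
  by_contra hc
  have hle : Subgroup.closure (Set.range g) ≤ H := by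
    rw [Subgroup.closure_le]
    rintro _ ⟨i, rfl⟩
    exact hg i
  have h2 := card_double (lt_of_le_of_ne hle hc)
  have h3 := h1.resolve_left hc
  rw [pow_succ] at h
  omega

/-- An abelian group acting on the orbit of `m`. -/
private theorem exists_gen_orb {n : ℕ} {U : Subgroup (Perm (Fin n))} (hab : ∀ a ∈ U, ∀ b ∈ U, a * b = b * a)
    (m : Fin n) : ∃ g : Fin (Nat.log 2 n) → Perm (Fin n), (∀ i, g i ∈ U) ∧
      ∀ u ∈ U, ∃ v ∈ Subgroup.closure (Set.range g), v m = u m := by
  have hn : n ≠ 0 := fun h => by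
    subst h
    exact m.elim0
  let S : Subgroup U := MulAction.stabilizer U m
  have hS : S.Normal := ⟨fun s hs g => by
    have h1 : g * s * g⁻¹ = s := by
      have h2 : g * s = s * g := Subtype.ext (hab g.1 g.2 s.1 s.2)
      rw [h2, mul_assoc, mul_inv_cancel, mul_one]
    rw [h1]
    exact hs⟩
  have hcard : Nat.card (U ⧸ S) < 2 ^ (Nat.log 2 n + 1) := by
    have h1 : Nat.card (U ⧸ S) = Nat.card (MulAction.orbit U m) :=
      Nat.card_congr (MulAction.orbitEquivQuotientStabilizer U m).symm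
    have h2 : Nat.card (MulAction.orbit U m) ≤ Nat.card (Fin n) :=
      Nat.card_le_card_of_injective _ Subtype.val_injective
    rw [Nat.card_fin] at h2
    exact (h1.trans_le h2).trans_lt (Nat.lt_pow_succ_log_self (by norm_num) n)
  obtain ⟨g', -, hg'⟩ := exists_gen (⊤ : Subgroup (U ⧸ S)) (Nat.log 2 n) (by rwa [Subgroup.card_top])
  choose g hg using fun i => QuotientGroup.mk_surjective (g' i)
  refine ⟨fun i => (g i : Perm (Fin n)), fun i => (g i).2, fun u hu => ?_⟩
  have h1 : (Subgroup.closure (Set.range g)).map (QuotientGroup.mk' S) = ⊤ := by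
    rw [MonoidHom.map_closure, ← hg', ← Set.range_comp]
    congr 2
    funext i
    exact hg i
  have h2 : (QuotientGroup.mk' S) ⟨u, hu⟩ ∈ (Subgroup.closure (Set.range g)).map (QuotientGroup.mk' S) := by
    rw [h1]
    trivial
  obtain ⟨v, hv, hvu⟩ := h2
  refine ⟨(v : Perm (Fin n)), ?_, ?_⟩
  · have h3 : (v : Perm (Fin n)) ∈ (Subgroup.closure (Set.range g)).map U.subtype := ⟨v, hv, rfl⟩
    rw [MonoidHom.map_closure, ← Set.range_comp] at h3
    exact h3
  · have h3 : v⁻¹ * ⟨u, hu⟩ ∈ S := QuotientGroup.eq.1 hvu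
    have h4 : (v⁻¹ * ⟨u, hu⟩ : U) • m = m := h3
    have h5 : (v : Perm (Fin n))⁻¹ (u m) = m := h4
    rw [Perm.inv_eq_iff_eq] at h5
    exact h5.symm

private theorem two_le {n : ℕ} {D : Subgroup (Perm (Fin n))} (h : Two D) : Nat.card D ≤ 2 ^ n := by
  obtain ⟨k, hk⟩ := h
  rw [hk]
  refine Nat.pow_le_pow_right (by norm_num) ?_
  have h1 : Nat.card D ∣ Nat.card (Perm (Fin n)) := Subgroup.card_subgroup_dvd_card D
  rw [hk, Nat.card_perm, Nat.card_fin] at h1
  have : Fact (Nat.Prime 2) := ⟨Nat.prime_two⟩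
  have h2 : k ≤ padicValNat 2 n.factorial :=
    (padicValNat_dvd_iff_le (Nat.factorial_ne_zero n)).1 h1
  have h3 := sub_one_mul_padicValNat_factorial (p := 2) n
  omega

/-! ### Orbits -/

private def rl {n : ℕ} (U : Subgroup (Perm (Fin n))) (x y : Fin n) : Prop := ∃ u ∈ U, u x = y

private theorem rl_refl {n : ℕ} (U : Subgroup (Perm (Fin n))) (x : Fin n) : rl U x x := ⟨1, U.one_mem, rfl⟩

private theorem rl_symm {n : ℕ} {U : Subgroup (Perm (Fin n))} {x y : Fin n} (h : rl U x y) : rl U y x := by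
  obtain ⟨c, hc, rfl⟩ := h
  exact ⟨c⁻¹, U.inv_mem hc, by simp⟩

private theorem rl_trans {n : ℕ} {U : Subgroup (Perm (Fin n))} {x y z : Fin n} (h : rl U x y) (h' : rl U y z) :
    rl U x z := by
  obtain ⟨c, hc, rfl⟩ := h
  obtain ⟨d, hd, rfl⟩ := h'
  exact ⟨d * c, U.mul_mem hd hc, rfl⟩

/-- The orbit of `x`. -/
private noncomputable def ob {n : ℕ} (U : Subgroup (Perm (Fin n))) (x : Fin n) : Finset (Fin n) := by
  classical
  exact univ.filter (fun y => rl U x y)

private theorem mem_ob {n : ℕ} {U : Subgroup (Perm (Fin n))} {x y : Fin n} : y ∈ ob U x ↔ rl U x y := by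
  simp [ob]

private theorem ob_eq {n : ℕ} {U : Subgroup (Perm (Fin n))} {x y : Fin n} (h : rl U x y) : ob U x = ob U y := by
  ext z
  rw [mem_ob, mem_ob]
  exact ⟨fun h1 => rl_trans (rl_symm h) h1, fun h1 => rl_trans h h1⟩

/-- The chosen point of the orbit. -/
private noncomputable def rp {n : ℕ} (U : Subgroup (Perm (Fin n))) (x : Fin n) : Fin n :=
  (ob U x).min' ⟨x, mem_ob.2 (rl_refl U x)⟩

private theorem rl_rp {n : ℕ} (U : Subgroup (Perm (Fin n))) (x : Fin n) : rl U x (rp U x) :=
  mem_ob.1 (Finset.min'_mem _ _)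

private theorem rp_eq {n : ℕ} {U : Subgroup (Perm (Fin n))} {x y : Fin n} (h : rl U x y) : rp U x = rp U y := by
  unfold rp
  simp only [ob_eq h]

private theorem rp_rp {n : ℕ} (U : Subgroup (Perm (Fin n))) (x : Fin n) : rp U (rp U x) = rp U x :=
  (rp_eq (rl_rp U x)).symm

/-- The normaliser. -/
private def nn {n : ℕ} (U : Subgroup (Perm (Fin n))) : Subgroup (Perm (Fin n)) where
  carrier := {d | ∀ u ∈ U, d * u * d⁻¹ ∈ U ∧ d⁻¹ * u * d ∈ U}
  mul_mem' := by
    intro a b ha hb u hu
    constructor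
    · have h1 := (ha _ (hb u hu).1).1
      have h2 : a * (b * u * b⁻¹) * a⁻¹ = a * b * u * (a * b)⁻¹ := by group
      rwa [h2] at h1
    · have h1 := (hb _ (ha u hu).2).2
      have h2 : b⁻¹ * (a⁻¹ * u * a) * b = (a * b)⁻¹ * u * (a * b) := by group
      rwa [h2] at h1
  one_mem' := by
    intro u hu
    simpa using hu
  inv_mem' := by
    intro a ha u hu
    refine ⟨?_, ?_⟩
    · rw [inv_inv]
      exact (ha u hu).2
    · rw [inv_inv]
      exact (ha u hu).1

private theorem le_nn {n : ℕ} {U D : Subgroup (Perm (Fin n))} (h : Nz D U) : D ≤ nn U := by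
  intro d hd u hu
  refine ⟨h d hd u hu, ?_⟩
  have := h d⁻¹ (D.inv_mem hd) u hu
  rwa [inv_inv] at this

private theorem rl_map {n : ℕ} {U : Subgroup (Perm (Fin n))} {d : Perm (Fin n)} (hd : d ∈ nn U) {x y : Fin n}
    (h : rl U x y) : rl U (d x) (d y) := by
  obtain ⟨c, hc, rfl⟩ := h
  exact ⟨d * c * d⁻¹, (hd c hc).1, by simp⟩

private theorem ob_map {n : ℕ} {U : Subgroup (Perm (Fin n))} {d : Perm (Fin n)} (hd : d ∈ nn U) (x : Fin n) :
    (ob U (d x)).card = (ob U x).card := by
  classical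
  have h1 : ob U (d x) = (ob U x).map d.toEmbedding := by
    ext y
    rw [mem_ob, Finset.mem_map]
    constructor
    · intro h
      refine ⟨d⁻¹ y, ?_, by simp⟩
      rw [mem_ob]
      have := rl_map ((nn U).inv_mem hd) h
      simpa using this
    · rintro ⟨z, hz, rfl⟩
      rw [mem_ob] at hz
      exact rl_map hd hz
  rw [h1, Finset.card_map]

private theorem mv_map {n : ℕ} {U : Subgroup (Perm (Fin n))} {d : Perm (Fin n)} (hd : d ∈ nn U) {x : Fin n}
    (h : x ∈ mv U) : d x ∈ mv U := by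
  rw [mem_mv] at h ⊢
  obtain ⟨c, hc, hx⟩ := h
  refine ⟨d * c * d⁻¹, (hd c hc).1, ?_⟩
  simpa using hx

private theorem sub_nn {n : ℕ} (U : Subgroup (Perm (Fin n))) : U ≤ nn U := by
  intro a ha u hu
  exact ⟨U.mul_mem (U.mul_mem ha hu) (U.inv_mem ha), U.mul_mem (U.mul_mem (U.inv_mem ha) hu) ha⟩

/-- The points in long orbits. -/
private noncomputable def lw {n : ℕ} (U : Subgroup (Perm (Fin n))) (L : ℕ) : Finset (Fin n) :=
  (mv U).filter fun x => L < (ob U x).card

private theorem mem_lw {n : ℕ} {U : Subgroup (Perm (Fin n))} {L : ℕ} {x : Fin n} :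
    x ∈ lw U L ↔ x ∈ mv U ∧ L < (ob U x).card := by
  unfold lw
  rw [mem_filter]

private theorem lw_map {n : ℕ} {U : Subgroup (Perm (Fin n))} {L : ℕ} {d : Perm (Fin n)} (hd : d ∈ nn U) {x : Fin n} :
    d x ∈ lw U L ↔ x ∈ lw U L := by
  have h1 : ∀ e ∈ nn U, ∀ y, y ∈ lw U L → e y ∈ lw U L := by
    intro e he y hy
    rw [mem_lw] at hy ⊢
    exact ⟨mv_map he hy.1, by rw [ob_map he]; exact hy.2⟩
  refine ⟨fun h => ?_, h1 d hd x⟩
  have := h1 d⁻¹ ((nn U).inv_mem hd) _ h
  simpa using this

private theorem lw_rl {n : ℕ} {U : Subgroup (Perm (Fin n))} {L : ℕ} {x y : Fin n} (h : rl U x y) :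
    y ∈ lw U L ↔ x ∈ lw U L := by
  obtain ⟨u, hu, rfl⟩ := h
  exact lw_map (sub_nn U hu)

/-! ### Collapsing the long orbits -/

private noncomputable def fn {n : ℕ} (U : Subgroup (Perm (Fin n))) (L : ℕ) (d : Perm (Fin n)) (x : Fin n) : Fin n := by
  classical
  exact if x ∈ lw U L then (if rp U x = x then rp U (d x) else x) else d x

private theorem fn_out {n : ℕ} {U : Subgroup (Perm (Fin n))} {L : ℕ} (d : Perm (Fin n)) {x : Fin n}
    (hx : x ∉ lw U L) : fn U L d x = d x := by
  classical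
  unfold fn
  rw [if_neg hx]

private theorem fn_rp {n : ℕ} {U : Subgroup (Perm (Fin n))} {L : ℕ} (d : Perm (Fin n)) {x : Fin n}
    (hx : x ∈ lw U L) (h : rp U x = x) : fn U L d x = rp U (d x) := by
  classical
  unfold fn
  rw [if_pos hx, if_pos h]

private theorem fn_in {n : ℕ} {U : Subgroup (Perm (Fin n))} {L : ℕ} (d : Perm (Fin n)) {x : Fin n}
    (hx : x ∈ lw U L) (h : rp U x ≠ x) : fn U L d x = x := by
  classical
  unfold fn
  rw [if_pos hx, if_neg h]

private theorem fn_one {n : ℕ} (U : Subgroup (Perm (Fin n))) (L : ℕ) (x : Fin n) : fn U L 1 x = x := by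
  by_cases hx : x ∈ lw U L
  · by_cases h : rp U x = x
    · rw [fn_rp 1 hx h, Perm.one_apply, h]
    · rw [fn_in 1 hx h]
  · rw [fn_out 1 hx, Perm.one_apply]

private theorem fn_mem {n : ℕ} {U : Subgroup (Perm (Fin n))} {L : ℕ} {d : Perm (Fin n)} (hd : d ∈ nn U) {x : Fin n} :
    fn U L d x ∈ lw U L ↔ x ∈ lw U L := by
  by_cases hx : x ∈ lw U L
  · by_cases h : rp U x = x
    · rw [fn_rp d hx h, lw_rl (rl_rp U (d x)), lw_map hd]
    · rw [fn_in d hx h]
  · rw [fn_out d hx, lw_map hd]

private theorem fn_mul {n : ℕ} {U : Subgroup (Perm (Fin n))} {L : ℕ} {d e : Perm (Fin n)} (hd : d ∈ nn U)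
    (he : e ∈ nn U) (x : Fin n) : fn U L (d * e) x = fn U L d (fn U L e x) := by
  by_cases hx : x ∈ lw U L
  · by_cases h : rp U x = x
    · have h1 : rp U (e x) ∈ lw U L := by rw [lw_rl (rl_rp U (e x)), lw_map he]; exact hx
      rw [fn_rp (d * e) hx h, fn_rp e hx h, fn_rp d h1 (rp_rp U _), Perm.mul_apply]
      exact rp_eq (rl_map hd (rl_rp U (e x)))
    · rw [fn_in _ hx h, fn_in e hx h, fn_in d hx h]
  · have h1 : e x ∉ lw U L := by rw [lw_map he]; exact hx
    rw [fn_out _ hx, fn_out e hx, fn_out d h1, Perm.mul_apply]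

/-- The homomorphism which collapses the long orbits. -/
private noncomputable def ph {n : ℕ} (U : Subgroup (Perm (Fin n))) (L : ℕ) : nn U →* Perm (Fin n) where
  toFun d :=
    { toFun := fn U L d
      invFun := fn U L (d : Perm (Fin n))⁻¹
      left_inv := fun x => by
        rw [← fn_mul ((nn U).inv_mem d.2) d.2, inv_mul_cancel, fn_one]
      right_inv := fun x => by
        rw [← fn_mul d.2 ((nn U).inv_mem d.2), mul_inv_cancel, fn_one] }
  map_one' := by
    ext1 x
    exact fn_one U L x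
  map_mul' d e := by
    ext1 x
    exact fn_mul d.2 e.2 x

private theorem ph_apply {n : ℕ} (U : Subgroup (Perm (Fin n))) (L : ℕ) (d : nn U) (x : Fin n) :
    ph U L d x = fn U L d x := rfl

/-- The chosen points of the long orbits. -/
private noncomputable def lm {n : ℕ} (U : Subgroup (Perm (Fin n))) (L : ℕ) : Finset (Fin n) :=
  (lw U L).filter fun x => rp U x = x

private theorem card_ker {n : ℕ} {U : Subgroup (Perm (Fin n))} (hab : ∀ a ∈ U, ∀ b ∈ U, a * b = b * a) (L : ℕ) :
    Nat.card (ph U L).ker ≤ n ^ ((Nat.log 2 n + 1) * (lm U L).card) := by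
  classical
  choose g hg hg' using fun m : Fin n => exists_gen_orb hab m
  let F : (ph U L).ker → ({x // x ∈ lm U L} → Fin n × (Fin (Nat.log 2 n) → Fin n)) := fun d m =>
    ((d.1 : Perm (Fin n)) m.1, fun i => (d.1 : Perm (Fin n)) (g m.1 i m.1))
  have hF : Function.Injective F := by
    intro d e hde
    have key : ∀ x, (d.1 : Perm (Fin n)) x = (e.1 : Perm (Fin n)) x := by
      intro x
      by_cases hx : x ∈ lw U L
      · have hm : rp U x ∈ lm U L := by
          unfold lm
          rw [mem_filter, lw_rl (rl_rp U x)]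
          exact ⟨hx, rp_rp U x⟩
        set m := rp U x with hmdef
        have h1 : F d ⟨m, hm⟩ = F e ⟨m, hm⟩ := by rw [hde]
        have h2 : (d.1 : Perm (Fin n)) m = (e.1 : Perm (Fin n)) m := congrArg Prod.fst h1
        have h3 : ∀ i, (d.1 : Perm (Fin n)) (g m i m) = (e.1 : Perm (Fin n)) (g m i m) := fun i =>
          congrFun (congrArg Prod.snd h1) i
        obtain ⟨u, hu, hux⟩ := rl_symm (rl_rp U x)
        obtain ⟨v, hv, hvu⟩ := hg' m u hu
        have h4 : Subgroup.closure (Set.range (g m)) ≤ U := by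
          rw [Subgroup.closure_le]
          rintro _ ⟨i, rfl⟩
          exact hg m i
        set a : Perm (Fin n) := (d.1 : Perm (Fin n)) with ha
        set b : Perm (Fin n) := (e.1 : Perm (Fin n)) with hb
        have haN : a ∈ nn U := d.1.2
        have hbN : b ∈ nn U := e.1.2
        let S : Subgroup (Perm (Fin n)) :=
          { carrier := {w | w ∈ U ∧ (a * w * a⁻¹) (a m) = (b * w * b⁻¹) (a m)}
            mul_mem' := by
              rintro w z ⟨hw, hw'⟩ ⟨hz, hz'⟩
              refine ⟨U.mul_mem hw hz, ?_⟩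
              have e1 : a * (w * z) * a⁻¹ = (a * w * a⁻¹) * (a * z * a⁻¹) := by group
              have e2 : b * (w * z) * b⁻¹ = (b * z * b⁻¹) * (b * w * b⁻¹) := by
                have := hab w hw z hz
                rw [this]
                group
              have e3 : (a * w * a⁻¹) * (b * z * b⁻¹) = (b * z * b⁻¹) * (a * w * a⁻¹) :=
                hab _ (haN w hw).1 _ (hbN z hz).1
              rw [e1, e2, Perm.mul_apply, hz', ← Perm.mul_apply, e3, Perm.mul_apply, hw', ← Perm.mul_apply]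
            one_mem' := ⟨U.one_mem, by simp⟩
            inv_mem' := by
              rintro w ⟨hw, hw'⟩
              refine ⟨U.inv_mem hw, ?_⟩
              have e1 : a * w⁻¹ * a⁻¹ = (a * w * a⁻¹)⁻¹ := by group
              have e2 : b * w⁻¹ * b⁻¹ = (b * w * b⁻¹)⁻¹ := by group
              have e3 : (a * w * a⁻¹)⁻¹ * (b * w * b⁻¹)⁻¹ = (b * w * b⁻¹)⁻¹ * (a * w * a⁻¹)⁻¹ :=
                hab _ (U.inv_mem (haN w hw).1) _ (U.inv_mem (hbN w hw).1)
              have e5 : ∀ (P : Perm (Fin n)) (y : Fin n), P⁻¹ (P y) = y := fun P y => by simp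
              have e4 : (b * w * b⁻¹)⁻¹ ((a * w * a⁻¹)⁻¹ ((a * w * a⁻¹) (a m))) =
                  (b * w * b⁻¹)⁻¹ ((a * w * a⁻¹)⁻¹ ((b * w * b⁻¹) (a m))) := by rw [hw']
              rw [e5, ← Perm.mul_apply (b * w * b⁻¹)⁻¹ (a * w * a⁻¹)⁻¹, ← e3, Perm.mul_apply, e5] at e4
              rw [e1, e2]
              exact e4.symm }
        have h5 : Subgroup.closure (Set.range (g m)) ≤ S := by
          rw [Subgroup.closure_le]
          rintro _ ⟨i, rfl⟩
          refine ⟨hg m i, ?_⟩
          have e1 : (a * g m i * a⁻¹) (a m) = a (g m i m) := by simp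
          have e2 : (b * g m i * b⁻¹) (a m) = b (g m i m) := by rw [h2]; simp
          rw [e1, e2]
          exact h3 i
        have h6 := (h5 hv).2
        have e1 : (a * v * a⁻¹) (a m) = a (v m) := by simp
        have e2 : (b * v * b⁻¹) (a m) = b (v m) := by rw [h2]; simp
        rw [e1, e2, hvu, hux] at h6
        exact h6
      · have h1 : ph U L d.1 x = x := by
          have := d.2
          rw [MonoidHom.mem_ker] at this
          rw [this, Perm.one_apply]
        have h2 : ph U L e.1 x = x := by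
          have := e.2
          rw [MonoidHom.mem_ker] at this
          rw [this, Perm.one_apply]
        rw [ph_apply, fn_out _ hx] at h1 h2
        rw [h1, h2]
    exact Subtype.ext (Subtype.ext (Perm.ext key))
  refine (Nat.card_le_card_of_injective F hF).trans (le_of_eq ?_)
  rw [Nat.card_fun, Nat.card_prod, Nat.card_fun, Nat.card_fin, Nat.card_fin, Nat.card_eq_fintype_card,
    Fintype.card_coe, pow_mul]
  congr 1
  rw [pow_succ, mul_comm]

/-! ### The short orbits -/

private theorem cut {n : ℕ} {U : Subgroup (Perm (Fin n))} (hU : Full U) (L : ℕ) {u : Perm (Fin n)} (hu : u ∈ U) :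
    ∃ v ∈ fx U (lw U L), ∀ x, x ∉ lw U L → v x = u x := by
  classical
  have hw : ∀ w ∈ U, ∀ x, w x ∈ lw U L ↔ x ∈ lw U L := fun w hw x => lw_map (sub_nn U hw)
  let v : Perm (Fin n) :=
    { toFun := fun x => if x ∈ lw U L then x else u x
      invFun := fun x => if x ∈ lw U L then x else u⁻¹ x
      left_inv := fun x => by
        by_cases hx : x ∈ lw U L
        · simp only [if_pos hx]
        · have h1 : u x ∉ lw U L := by rw [hw u hu]; exact hx
          simp only [if_neg hx, if_neg h1]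
          simp
      right_inv := fun x => by
        by_cases hx : x ∈ lw U L
        · simp only [if_pos hx]
        · have h1 : u⁻¹ x ∉ lw U L := by rw [hw _ (U.inv_mem hu)]; exact hx
          simp only [if_neg hx, if_neg h1]
          simp }
  have hv1 : ∀ x ∈ lw U L, v x = x := fun x hx => if_pos hx
  have hv2 : ∀ x, x ∉ lw U L → v x = u x := fun x hx => if_neg hx
  refine ⟨v, mem_fx.2 ⟨?_, hv1⟩, hv2⟩
  rw [← hU.2.2, AbS.mem_hat]
  intro x
  by_cases hx : x ∈ lw U L
  · refine ⟨1, U.one_mem, fun y hy => ?_⟩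
    obtain ⟨w, rfl⟩ := hy
    have h1 : w • x ∈ lw U L := (hw w.1 w.2 x).2 hx
    exact hv1 _ h1
  · refine ⟨u, hu, fun y hy => ?_⟩
    obtain ⟨w, rfl⟩ := hy
    have h1 : w • x ∉ lw U L := fun h => hx ((hw w.1 w.2 x).1 h)
    exact hv2 _ h1

private theorem mv_fx {n : ℕ} {U : Subgroup (Perm (Fin n))} (hU : Full U) (L : ℕ) (x : Fin n) :
    x ∈ mv (fx U (lw U L)) ↔ x ∈ mv U ∧ x ∉ lw U L := by
  rw [mem_mv, mem_mv]
  constructor
  · rintro ⟨q, hq, hx⟩
    exact ⟨⟨q, (mem_fx.1 hq).1, hx⟩, fun h => hx ((mem_fx.1 hq).2 x h)⟩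
  · rintro ⟨⟨q, hq, hx⟩, h⟩
    obtain ⟨v, hv, hv'⟩ := cut hU L hq
    exact ⟨v, hv, by rw [hv' x h]; exact hx⟩

/-- The chosen points of the short orbits. -/
private noncomputable def st {n : ℕ} (U : Subgroup (Perm (Fin n))) (L : ℕ) : Finset (Fin n) :=
  (mv U).filter fun x => x ∉ lw U L ∧ rp U x = x

private theorem mem_st {n : ℕ} {U : Subgroup (Perm (Fin n))} {L : ℕ} {x : Fin n} :
    x ∈ st U L ↔ x ∈ mv U ∧ x ∉ lw U L ∧ rp U x = x := by
  unfold st
  rw [mem_filter]

private theorem mem_lm {n : ℕ} {U : Subgroup (Perm (Fin n))} {L : ℕ} {x : Fin n} :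
    x ∈ lm U L ↔ x ∈ lw U L ∧ rp U x = x := by
  unfold lm
  rw [mem_filter]

private theorem tr_st {n : ℕ} {U : Subgroup (Perm (Fin n))} (hU : Full U) (L : ℕ) :
    ∃ T : Finset (Fin n), T ⊆ mv (fx U (lw U L)) ∧ T.card = (st U L).card ∧
      ∀ x ∈ mv (fx U (lw U L)), ∃! y, y ∈ T ∧ ∃ u ∈ fx U (lw U L), u x = y := by
  refine ⟨st U L, fun x hx => ?_, rfl, fun x hx => ?_⟩
  · rw [mem_st] at hx
    rw [mv_fx hU]
    exact ⟨hx.1, hx.2.1⟩
  · rw [mv_fx hU] at hx
    obtain ⟨u, hu, hux⟩ := rl_rp U x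
    obtain ⟨v, hv, hv'⟩ := cut hU L hu
    refine ⟨rp U x, ⟨mem_st.2 ⟨?_, ?_, rp_rp U x⟩, v, hv, by rw [hv' x hx.2, hux]⟩, ?_⟩
    · rw [← hux]
      exact mv_map (sub_nn U hu) hx.1
    · rw [lw_rl (rl_rp U x)]
      exact hx.2
    · rintro y ⟨hy, w, hw, rfl⟩
      rw [mem_st] at hy
      rw [← hy.2.2]
      exact (rp_eq ⟨w, (mem_fx.1 hw).1, rfl⟩).symm

/-! ### Counting points -/

private theorem card_mv {n : ℕ} (U : Subgroup (Perm (Fin n))) (L : ℕ) :
    (mv U).card ≤ L * (st U L).card + (lw U L).card := by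
  classical
  have h1 : ((mv U).filter fun x => x ∉ lw U L).card ≤ L * (st U L).card := by
    refine Finset.card_le_mul_card_image_of_maps_to (f := rp U) ?_ L ?_
    · intro x hx
      rw [mem_filter] at hx
      rw [mem_st]
      obtain ⟨u, hu, hux⟩ := rl_rp U x
      refine ⟨?_, ?_, rp_rp U x⟩
      · rw [← hux]
        exact mv_map (sub_nn U hu) hx.1
      · rw [lw_rl (rl_rp U x)]
        exact hx.2
    · intro y hy
      rw [mem_st, mem_lw] at hy
      have h2 : (ob U y).card ≤ L := by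
        by_contra hcon
        exact hy.2.1 ⟨hy.1, not_le.1 hcon⟩
      refine (Finset.card_le_card ?_).trans h2
      intro x hx
      rw [mem_filter] at hx
      rw [mem_ob, ← hx.2]
      exact rl_symm (rl_rp U x)
  have h2 : (mv U).card = ((mv U).filter fun x => x ∉ lw U L).card + ((mv U).filter fun x => x ∈ lw U L).card := by
    have := Finset.card_filter_add_card_filter_not (s := mv U) (fun x => x ∈ lw U L)
    omega
  have h3 : ((mv U).filter fun x => x ∈ lw U L).card ≤ (lw U L).card := by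
    refine Finset.card_le_card fun x hx => ?_
    exact (mem_filter.1 hx).2
  omega

private theorem card_lm {n : ℕ} (U : Subgroup (Perm (Fin n))) (L : ℕ) :
    L * (lm U L).card ≤ (lw U L).card := by
  classical
  have h1 := Finset.mul_card_image_le_card_of_maps_to (s := lw U L) (t := lm U L) (f := rp U) (fun x hx => by
    rw [mem_lm, lw_rl (rl_rp U x)]
    exact ⟨hx, rp_rp U x⟩) L (fun y hy => by
    rw [mem_lm, mem_lw] at hy
    refine hy.1.2.le.trans (Finset.card_le_card fun x hx => ?_)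
    rw [mem_ob] at hx
    rw [mem_filter]
    refine ⟨(lw_rl hx).2 (mem_lw.2 hy.1), ?_⟩
    rw [← rp_eq hx, hy.2])
  exact h1

private theorem card_sum {n : ℕ} (U : Subgroup (Perm (Fin n))) (L : ℕ) :
    (st U L).card + (lw U L).card ≤ n := by
  classical
  have h1 : Disjoint (st U L) (lw U L) := by
    rw [Finset.disjoint_left]
    intro x hx h
    exact (mem_st.1 hx).2.1 h
  rw [← Finset.card_union_of_disjoint h1]
  exact (Finset.card_le_univ _).trans (by rw [Fintype.card_fin])

/-! ### The collapsed group -/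

/-- The remaining points. -/
private noncomputable def wp {n : ℕ} (U : Subgroup (Perm (Fin n))) (L : ℕ) : Finset (Fin n) := by
  classical
  exact univ.filter fun x => x ∈ lw U L → rp U x = x

private theorem mem_wp {n : ℕ} {U : Subgroup (Perm (Fin n))} {L : ℕ} {x : Fin n} :
    x ∈ wp U L ↔ (x ∈ lw U L → rp U x = x) := by
  unfold wp
  rw [mem_filter]
  simp

private theorem card_wp {n : ℕ} (U : Subgroup (Perm (Fin n))) (L : ℕ) :
    (wp U L).card = n - (lw U L).card + (lm U L).card := by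
  classical
  have h1 : wp U L = (lw U L)ᶜ ∪ lm U L := by
    ext x
    rw [mem_wp, mem_union, mem_compl, mem_lm]
    tauto
  have h2 : Disjoint (lw U L)ᶜ (lm U L) := by
    rw [Finset.disjoint_left]
    intro x hx h
    exact (mem_compl.1 hx) (mem_lm.1 h).1
  rw [h1, Finset.card_union_of_disjoint h2, Finset.card_compl, Fintype.card_fin]

private noncomputable def cl {n : ℕ} (U : Subgroup (Perm (Fin n))) (L : ℕ) (D : Subgroup (Perm (Fin n))) :
    Subgroup (Perm (Fin n)) := (D.subgroupOf (nn U)).map (ph U L)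

private theorem cl_two {n : ℕ} (U : Subgroup (Perm (Fin n))) (L : ℕ) {D : Subgroup (Perm (Fin n))} (h : Two D) :
    Two (cl U L D) := by
  obtain ⟨k, hk⟩ := h
  have h1 : Nat.card (cl U L D) ∣ Nat.card (D.subgroupOf (nn U)) := Subgroup.card_map_dvd _ _
  have h2 : Nat.card (D.subgroupOf (nn U)) ∣ Nat.card D := by
    have h3 : Nat.card ((D.subgroupOf (nn U)).map (nn U).subtype) = Nat.card (D.subgroupOf (nn U)) :=
      Subgroup.card_map_of_injective (nn U).subtype_injective
    rw [← h3, Subgroup.subgroupOf_map_subtype]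
    exact Subgroup.card_dvd_of_le inf_le_left
  have h3 := h1.trans h2
  rw [hk] at h3
  obtain ⟨j, -, hj⟩ := (Nat.dvd_prime_pow Nat.prime_two).1 h3
  exact ⟨j, hj⟩

private theorem cl_nz {n : ℕ} (U : Subgroup (Perm (Fin n))) (L : ℕ) (D : Subgroup (Perm (Fin n))) :
    Nz (cl U L D) (fx U (lw U L)) := by
  rintro _ ⟨d, -, rfl⟩ u hu
  rw [mem_fx] at hu
  have h1 : ph U L d * u * (ph U L d)⁻¹ = (d : Perm (Fin n)) * u * (d : Perm (Fin n))⁻¹ := by
    rw [mul_inv_eq_iff_eq_mul]
    ext1 x
    rw [Perm.mul_apply, Perm.mul_apply, Perm.mul_apply, Perm.mul_apply, ph_apply, ph_apply]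
    by_cases hx : x ∈ lw U L
    · have h2 : (d : Perm (Fin n))⁻¹ (fn U L d x) ∈ lw U L := by
        rw [lw_map ((nn U).inv_mem d.2), fn_mem d.2]
        exact hx
      rw [hu.2 x hx, hu.2 _ h2]
      simp
    · have h2 : u x ∉ lw U L := by rw [lw_map (sub_nn U hu.1)]; exact hx
      rw [fn_out _ hx, fn_out _ h2]
      simp
  rw [h1, mem_fx]
  refine ⟨(d.2 u hu.1).1, fun x hx => ?_⟩
  have h2 : (d : Perm (Fin n))⁻¹ x ∈ lw U L := by rw [lw_map ((nn U).inv_mem d.2)]; exact hx
  rw [Perm.mul_apply, Perm.mul_apply, hu.2 _ h2]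
  simp

private theorem cl_out {n : ℕ} (U : Subgroup (Perm (Fin n))) (L : ℕ) (D : Subgroup (Perm (Fin n))) :
    ∀ d ∈ cl U L D, ∀ x, x ∉ wp U L → d x = x := by
  rintro _ ⟨d, -, rfl⟩ x hx
  rw [mem_wp] at hx
  push Not at hx
  rw [ph_apply]
  exact fn_in _ hx.1 hx.2

private theorem count {n : ℕ} (U : Subgroup (Perm (Fin n))) (L : ℕ) :
    Nat.card {D : Subgroup (Perm (Fin n)) // Two D ∧ Nz D U} ≤
      Nat.card {D : Subgroup (Perm (Fin n)) // Two D ∧ Nz D (fx U (lw U L)) ∧ ∀ d ∈ D, ∀ x, x ∉ wp U L → d x = x} *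
        (Nat.card (ph U L).ker ^ n * Nat.card (ph U L).ker ^ n) := by
  classical
  -- generators of the collapsed groups
  have hgen : ∀ D : {D : Subgroup (Perm (Fin n)) // Two D ∧ Nz D (fx U (lw U L)) ∧
      ∀ d ∈ D, ∀ x, x ∉ wp U L → d x = x}, ∃ g : Fin n → Perm (Fin n), (∀ i, g i ∈ D.1) ∧
      Subgroup.closure (Set.range g) = D.1 := fun D =>
    exists_gen D.1 n ((two_le D.2.1).trans_lt (Nat.pow_lt_pow_right (by norm_num) (Nat.lt_succ_self n)))
  choose g hg hgc using hgen
  have hlift : ∀ p : Perm (Fin n), ∃ d : nn U, (∃ e : nn U, ph U L e = p) → ph U L d = p := by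
    intro p
    by_cases h : ∃ e : nn U, ph U L e = p
    · obtain ⟨e, he⟩ := h
      exact ⟨e, fun _ => he⟩
    · exact ⟨1, fun h' => absurd h' h⟩
  choose ℓ hℓ using hlift
  let X : Type := {D : Subgroup (Perm (Fin n)) // Two D ∧ Nz D (fx U (lw U L)) ∧
      ∀ d ∈ D, ∀ x, x ∉ wp U L → d x = x} × ((Fin n → (ph U L).ker) × (Fin n → (ph U L).ker))
  let Ψ : X → Subgroup (Perm (Fin n)) := fun t =>
    (Subgroup.closure (Set.range (fun i => ℓ (g t.1 i) * (t.2.1 i : nn U)) ∪
      Set.range (fun i => (t.2.2 i : nn U)))).map (nn U).subtype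
  have hΨ : ∀ D : {D : Subgroup (Perm (Fin n)) // Two D ∧ Nz D U}, ∃ t : X, Ψ t = D.1 := by
    rintro ⟨D, hD, hDU⟩
    have hDN : D ≤ nn U := le_nn hDU
    let E : Subgroup (nn U) := D.subgroupOf (nn U)
    have hE : E.map (nn U).subtype = D := by
      rw [Subgroup.subgroupOf_map_subtype]
      exact inf_eq_left.2 hDN
    let D' : {D : Subgroup (Perm (Fin n)) // Two D ∧ Nz D (fx U (lw U L)) ∧ ∀ d ∈ D, ∀ x, x ∉ wp U L → d x = x} :=
      ⟨cl U L D, cl_two U L hD, cl_nz U L D, cl_out U L D⟩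
    have h1 : ∀ i, ∃ d ∈ E, ph U L d = g D' i := fun i => hg D' i
    choose d hdE hd using h1
    have h2 : ∀ i, ph U L (ℓ (g D' i)) = g D' i := fun i => hℓ _ ⟨d i, hd i⟩
    have h3 : ∀ i, (ℓ (g D' i))⁻¹ * d i ∈ (ph U L).ker := fun i => by
      rw [MonoidHom.mem_ker, map_mul, map_inv, h2, hd, inv_mul_cancel]
    have hcard : Nat.card ((ph U L).ker ⊓ E : Subgroup (nn U)) < 2 ^ (n + 1) := by
      have h4 : Nat.card ((ph U L).ker ⊓ E : Subgroup (nn U)) ≤ Nat.card E :=
        Nat.card_le_card_of_injective _ (Subgroup.inclusion_injective inf_le_right)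
      have h5 : Nat.card E = Nat.card D := by
        rw [← hE]
        exact (Subgroup.card_map_of_injective (nn U).subtype_injective).symm
      rw [h5] at h4
      exact (h4.trans (two_le hD)).trans_lt (Nat.pow_lt_pow_right (by norm_num) (Nat.lt_succ_self n))
    obtain ⟨e, he, hec⟩ := exists_gen ((ph U L).ker ⊓ E) n hcard
    refine ⟨(D', (fun i => ⟨(ℓ (g D' i))⁻¹ * d i, h3 i⟩, fun i => ⟨e i, (he i).1⟩)), ?_⟩
    have h4 : Subgroup.closure (Set.range (fun i => ℓ (g D' i) * ((ℓ (g D' i))⁻¹ * d i)) ∪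
      Set.range (fun i => e i)) = E := by
      have h5 : (fun i => ℓ (g D' i) * ((ℓ (g D' i))⁻¹ * d i)) = d := by
        funext i
        rw [mul_inv_cancel_left]
      rw [h5]
      refine le_antisymm ?_ ?_
      · rw [Subgroup.closure_le]
        rintro x (⟨i, rfl⟩ | ⟨i, rfl⟩)
        · exact hdE i
        · exact (he i).2
      · intro x hx
        have h6 : ph U L x ∈ (Subgroup.closure (Set.range d)).map (ph U L) := by
          rw [MonoidHom.map_closure, ← Set.range_comp]
          have h7 : (ph U L) ∘ d = g D' := funext hd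
          rw [h7, hgc]
          exact ⟨x, hx, rfl⟩
        obtain ⟨y, hy, hyx⟩ := h6
        have hyE : y ∈ E := by
          have h7 : Subgroup.closure (Set.range d) ≤ E := by
            rw [Subgroup.closure_le]
            rintro _ ⟨i, rfl⟩
            exact hdE i
          exact h7 hy
        have h7 : y⁻¹ * x ∈ (ph U L).ker ⊓ E := by
          refine ⟨?_, E.mul_mem (E.inv_mem hyE) hx⟩
          show y⁻¹ * x ∈ (ph U L).ker
          rw [MonoidHom.mem_ker, map_mul, map_inv, hyx, inv_mul_cancel]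
        rw [← hec] at h7
        have h8 : x = y * (y⁻¹ * x) := by rw [mul_inv_cancel_left]
        rw [h8]
        refine Subgroup.mul_mem _ ?_ ?_
        · exact Subgroup.closure_mono Set.subset_union_left hy
        · exact Subgroup.closure_mono Set.subset_union_right h7
    show (Subgroup.closure (Set.range (fun i => ℓ (g D' i) * ((ℓ (g D' i))⁻¹ * d i)) ∪
      Set.range (fun i => e i))).map (nn U).subtype = D
    rw [h4, hE]
  choose F hF using hΨ
  have hinj : Function.Injective F := by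
    intro D₁ D₂ h
    refine Subtype.ext ?_
    rw [← hF D₁, ← hF D₂, h]
  refine (Nat.card_le_card_of_injective F hinj).trans (le_of_eq ?_)
  show Nat.card X = _
  simp only [X]
  rw [Nat.card_prod, Nat.card_prod, Nat.card_fun, Nat.card_fin]

theorem large {n : ℕ} (U : Subgroup (Perm (Fin n))) (hU : Full U) (L : ℕ) :
    ∃ k₁ k₂ s₂ : ℕ, (mv U).card ≤ L * k₁ + s₂ ∧ L * k₂ ≤ s₂ ∧ k₁ + s₂ ≤ n ∧
      Nat.card {D : Subgroup (Perm (Fin n)) // Two D ∧ Nz D U} ≤
        n ^ k₁ * n ^ ((Nat.log 2 n + 1) * k₂ * (2 * n)) * nTwo (n - s₂ + k₂ - k₁) := by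
  refine ⟨(st U L).card, (lm U L).card, (lw U L).card, card_mv U L, card_lm U L, card_sum U L, ?_⟩
  have ho : Odd (Nat.card (fx U (lw U L))) := by
    have h1 : fx U (lw U L) ≤ U := fun x hx => (mem_fx.1 hx).1
    exact Odd.of_dvd_nat hU.2.1 (Subgroup.card_dvd_of_le h1)
  have hW : mv (fx U (lw U L)) ⊆ wp U L := by
    intro x hx
    rw [mv_fx hU] at hx
    rw [mem_wp]
    exact fun h => absurd h hx.2
  have h1 := norm_k_on (fx U (lw U L)) ho (wp U L) hW (st U L).card (tr_st hU L)
  rw [card_wp] at h1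
  have h2 := card_ker hU.1 L
  refine (count U L).trans ?_
  refine (Nat.mul_le_mul h1 (Nat.mul_le_mul (Nat.pow_le_pow_left h2 n) (Nat.pow_le_pow_left h2 n))).trans
    (le_of_eq ?_)
  rw [← pow_mul, ← pow_add]
  ring_nf

end Pool.Agent.SvS
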