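import Pool.Agent.SvS.PStr2
import Pool.Agent.NilS.PCnt

/-!
MP_7fa120_al, solvable subgroups. Counting the commuting pairs `(P, Q)` such that `Q` moves at least `q` points.

Proof as for `Pool.Agent.NilS` (`NilS/PCnt.lean`, proved there; copy it), with `exists_str2`: `q ≤ (mv Q).card ≤ 2 * Z.card`, so only `s = Z.card` with
`q ≤ 2 * s` occurs.
-/

set_option autoImplicit false

namespace Pool.Agent.SvS

open Equiv Pool.Agent.NilS Pool.Agent.NilS.PCnt

private theorem pair_count2_aux (n m : ℕ) :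
    Nat.card {p : Subgroup (Perm (Fin n)) × Subgroup (Perm (Fin n)) // CP p.1 p.2 ∧ p.2 ≠ ⊥ ∧ m ≤ (mv p.2).card} ≤
      ∑ s ∈ (Finset.Icc 2 n).filter (fun s => m ≤ 2 * s), n ^ (5 * s) * nTwo (n - s) * nOdn s := by
  classical
  have _ : Fintype (Subgroup (Perm (Fin n))) := Fintype.ofFinite _
  -- the groups
  let TS : Finset (Fin n) → Finset (Subgroup (Perm (Fin n))) := fun D =>
    Finset.univ.filter fun H => Two H ∧ ∀ h ∈ H, ∀ x, x ∉ D → h x = x
  let OS : Finset (Fin n) → Finset (Subgroup (Perm (Fin n))) := fun D =>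
    Finset.univ.filter fun H => Odn H ∧ ∀ h ∈ H, ∀ x, x ∉ D → h x = x
  have hTS : ∀ D, (TS D).card ≤ nTwo D.card := by
    intro D
    refine le_trans (le_of_eq ?_) (two_support n D)
    rw [Nat.card_eq_fintype_card, Fintype.card_subtype]
  have hOS : ∀ D, (OS D).card ≤ nOdn D.card := by
    intro D
    refine le_trans (le_of_eq ?_) (odn_support n D)
    rw [Nat.card_eq_fintype_card, Fintype.card_subtype]
  let W : Finset (Da n × Subgroup (Perm (Fin n)) × Subgroup (Perm (Fin n))) :=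
    ((Finset.Icc 2 n).filter (fun s => m ≤ 2 * s)).biUnion fun s => (Ds n s).biUnion fun d =>
      ({d} : Finset (Da n)) ×ˢ (TS (Finset.univ \ d.1) ×ˢ OS d.2.1)
  have hW : W.card ≤ ∑ s ∈ (Finset.Icc 2 n).filter (fun s => m ≤ 2 * s), n ^ (5 * s) * nTwo (n - s) * nOdn s := by
    refine Finset.card_biUnion_le.trans (Finset.sum_le_sum fun s hs => ?_)
    rw [Finset.mem_filter, Finset.mem_Icc] at hs
    replace hs := hs.1
    have h1 : ((Ds n s).biUnion fun d =>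
        ({d} : Finset (Da n)) ×ˢ (TS (Finset.univ \ d.1) ×ˢ OS d.2.1)).card ≤
        (Ds n s).card * (nTwo (n - s) * nOdn s) := by
      refine Finset.card_biUnion_le.trans ?_
      rw [← smul_eq_mul, ← Finset.sum_const]
      refine Finset.sum_le_sum fun d hd => ?_
      obtain ⟨c1, c2, -, -⟩ := mem_Ds.1 hd
      rw [Finset.card_product, Finset.card_product, Finset.card_singleton, one_mul]
      refine Nat.mul_le_mul ?_ ?_
      · refine (hTS _).trans (le_of_eq ?_)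
        rw [Finset.card_sdiff_of_subset (Finset.subset_univ _), Finset.card_univ, Fintype.card_fin, c1]
      · exact (hOS _).trans (nOdn_mono c2)
    refine h1.trans ?_
    rw [mul_assoc]
    exact Nat.mul_le_mul_right _ (card_Ds (by omega) s)
  refine le_trans ?_ hW
  -- the data of a pair
  have key : ∀ q : Subgroup (Perm (Fin n)) × Subgroup (Perm (Fin n)), CP q.1 q.2 ∧ q.2 ≠ ⊥ ∧ m ≤ (mv q.2).card →
      ∃ (Z B' : Finset (Fin n)) (τ ρ : Fin n → Fin n), (mv q.2).card ≤ 2 * Z.card ∧ 2 ≤ Z.card ∧ B'.card ≤ Z.card ∧ Inv q.1 Z ∧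
      Inv q.2 B' ∧
      (∀ p ∈ q.1, ∀ x ∈ Z, ρ (p x) = ρ x ∧ (τ x ∉ Z → τ (p x) = p (τ x)) ∧ (τ x ∈ Z → p x = x)) ∧
      (∀ x ∈ Z, ∀ y ∈ Z, τ x = τ y → ρ x = ρ y → x = y) ∧
      ∀ x, (∃ p ∈ q.2, p x ≠ x) → ∃ p ∈ q.1, p x ∈ B' := fun q hq => exists_str2 q.1 q.2 hq.1 hq.2.1
  choose Z B τ ρ k0 k1 k2 k3 k4 k5 k6 k7 using key
  let cut : Finset (Fin n) → (Fin n → Fin n) → Fin n → Fin n := fun D f x => if x ∈ D then f x else x
  let F : {PQ : Subgroup (Perm (Fin n)) × Subgroup (Perm (Fin n)) // CP PQ.1 PQ.2 ∧ PQ.2 ≠ ⊥ ∧ m ≤ (mv PQ.2).card} →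
      Da n × Subgroup (Perm (Fin n)) × Subgroup (Perm (Fin n)) := fun q =>
    ((Z q.1 q.2, B q.1 q.2, cut (Z q.1 q.2) (τ q.1 q.2), cut (Z q.1 q.2) (ρ q.1 q.2)),
      (res q.1.1 (Finset.univ \ Z q.1 q.2), res q.1.2 (B q.1 q.2)))
  have hFW : ∀ q, F q ∈ W := by
    rintro ⟨q, hq⟩
    have e1 : (Z q hq).card ≤ n := by
      have := Finset.card_le_univ (Z q hq)
      rwa [Fintype.card_fin] at this
    refine Finset.mem_biUnion.2 ⟨(Z q hq).card, Finset.mem_filter.2 ⟨Finset.mem_Icc.2 ⟨k1 q hq, e1⟩, hq.2.2.trans (k0 q hq)⟩, ?_⟩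
    refine Finset.mem_biUnion.2 ⟨(Z q hq, B q hq, cut (Z q hq) (τ q hq), cut (Z q hq) (ρ q hq)), ?_, ?_⟩
    · rw [mem_Ds]
      exact ⟨rfl, k2 q hq, fun x hx => if_neg hx, fun x hx => if_neg hx⟩
    · rw [Finset.mem_product, Finset.mem_product]
      refine ⟨Finset.mem_singleton.2 rfl, ?_, ?_⟩
      · refine Finset.mem_filter.2 ⟨Finset.mem_univ _, two_res hq.1.1 (inv_compl (k3 q hq)), ?_⟩
        exact fun h hh x hx => (mem_res.1 hh).1 x hx
      · refine Finset.mem_filter.2 ⟨Finset.mem_univ _, odn_res hq.1.2.1 (k4 q hq), ?_⟩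
        exact fun h hh x hx => (mem_res.1 hh).1 x hx
  have hFinj : Function.Injective F := by
    rintro ⟨⟨P₁, Q₁⟩, hq⟩ ⟨⟨P₂, Q₂⟩, hq'⟩ he
    simp only [F, Prod.mk.injEq] at he
    obtain ⟨⟨eZ, eB, eτ, eρ⟩, eP, eQ⟩ := he
    have hτ : ∀ x ∈ Z (P₁, Q₁) hq, τ (P₁, Q₁) hq x = τ (P₂, Q₂) hq' x := by
      intro x hx
      have h1 := congrFun eτ x
      simp only [cut] at h1
      rwa [if_pos hx, if_pos (by rw [← eZ]; exact hx)] at h1
    have hρ : ∀ x ∈ Z (P₁, Q₁) hq, ρ (P₁, Q₁) hq x = ρ (P₂, Q₂) hq' x := by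
      intro x hx
      have h1 := congrFun eρ x
      simp only [cut] at h1
      rwa [if_pos hx, if_pos (by rw [← eZ]; exact hx)] at h1
    have a3 := k3 _ hq
    have a4 := k4 _ hq
    have a5 := k5 _ hq
    have a6 := k6 _ hq
    have a7 := k7 _ hq
    have b3 := k3 _ hq'
    have b4 := k4 _ hq'
    have b5 := k5 _ hq'
    have b6 := k6 _ hq'
    have b7 := k7 _ hq'
    rw [← eZ] at b3 b5 b6 eP
    rw [← eB] at b4 b7 eQ
    have hP : P₁ = P₂ := by
      apply le_antisymm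
      · exact det_P a3 b3 a5 b5 a6 hτ hρ eP.le
      · exact det_P b3 a3 b5 a5 b6 (fun x hx => (hτ x hx).symm) (fun x hx => (hρ x hx).symm) eP.ge
    subst hP
    have hQ : Q₁ = Q₂ := by
      apply le_antisymm
      · exact det_Q hq.1.2.2 hq'.1.2.2 a4 a7 b7 eQ.le
      · exact det_Q hq'.1.2.2 hq.1.2.2 b4 b7 a7 eQ.ge
    subst hQ
    rfl
  rw [Nat.card_eq_fintype_card, ← Finset.card_univ]
  exact Finset.card_le_card_of_injOn F (fun q _ => Finset.mem_coe.2 (hFW q)) hFinj.injOn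

theorem pair_count2 (n q : ℕ) :
    Nat.card {p : Subgroup (Perm (Fin n)) × Subgroup (Perm (Fin n)) // CP p.1 p.2 ∧ p.2 ≠ ⊥ ∧ q ≤ (mv p.2).card} ≤
      ∑ s ∈ (Finset.Icc 2 n).filter (fun s => q ≤ 2 * s), n ^ (5 * s) * nTwo (n - s) * nOdn s := by
  exact pair_count2_aux n q

end Pool.Agent.SvS
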