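import Pool.Agent.SvS.IndC

/-!
MP_7fa120_al, solvable subgroups. Case (b): factors of prime order.

`prime_x`. `C` and `K` are normal, `C / K` has prime order `q`, `G` acts on it by conjugation with kernel `C`, so `G / C` embeds in the automorphism group
of a group of prime order `q`, which is cyclic of order `q - 1` (the action of `g` is `c ↦ c ^ (a g)` with `a g ∈ (ZMod q)ˣ`). So `G / C` is cyclic and its
order divides `q - 1`; in particular `C = ⊤` if `q = 2`.
`prime_b`. Every `K i` (as a subgroup of `C`) is normal of odd prime index `q`, so `no C` is contained in all `K i` and its index is at least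
the index of `C ⊓ ⨅ K i`, which is `q ^ δ ≥ 2 ^ δ` (`indep_index`).
-/

set_option autoImplicit false

namespace Pool.Agent.SvS

theorem prime_x {G : Type} [Group G] [Finite G] {C K : Subgroup G} {q : ℕ} (h : Chief K C) (hi : K.relIndex C = q) (hq : q.Prime)
    (hC : ∀ g : G, g ∈ C ↔ ∀ c ∈ C, g * c * g⁻¹ * c⁻¹ ∈ K) :
    (∃ x : G, C ⊔ Subgroup.zpowers x = ⊤) ∧ C.index ≤ q - 1 ∧ (C ≠ ⊤ → q ≠ 2) := by
  obtain ⟨hK, hCn, -, -⟩ := h
  set D : Subgroup (G ⧸ K) := C.map (QuotientGroup.mk' K) with hD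
  have hDn : D.Normal := Subgroup.Normal.map hCn _ (QuotientGroup.mk'_surjective K)
  have hDc : Nat.card D = q := by
    rw [hD, ← Subgroup.relIndex_ker, QuotientGroup.ker_mk', hi]
  have hDp : (Nat.card D).Prime := by rw [hDc]; exact hq
  have : Fact (Nat.card D).Prime := ⟨hDp⟩
  have hcyc : IsCyclic D := isCyclic_of_prime_card (p := Nat.card D) rfl
  set ψ : G →* MulAut D := (MulAut.conjNormal (H := D)).comp (QuotientGroup.mk' K) with hψ
  have hker : ψ.ker = C := by
    ext g
    rw [MonoidHom.mem_ker, hC]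
    constructor
    · intro h1 c hc
      have hcD : QuotientGroup.mk' K c ∈ D := ⟨c, hc, rfl⟩
      have h2 := congrArg (fun a : MulAut D => ((a ⟨QuotientGroup.mk' K c, hcD⟩ : D) : G ⧸ K)) h1
      simp only [hψ, MonoidHom.comp_apply, MulAut.conjNormal_apply, MulAut.one_apply] at h2
      rw [← map_mul, ← map_inv, ← map_mul] at h2
      have h3 : QuotientGroup.mk' K (g * c * g⁻¹ * c⁻¹) = 1 := by
        rw [map_mul, h2, ← map_mul, mul_inv_cancel, map_one]
      exact (QuotientGroup.eq_one_iff _).mp h3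
    · intro h1
      apply MulEquiv.ext
      rintro ⟨d, hd⟩
      obtain ⟨c, hc, rfl⟩ := hd
      apply Subtype.ext
      simp only [hψ, MonoidHom.comp_apply, MulAut.conjNormal_apply, MulAut.one_apply]
      rw [← map_mul, ← map_inv, ← map_mul]
      have h3 : QuotientGroup.mk' K (g * c * g⁻¹ * c⁻¹) = 1 := (QuotientGroup.eq_one_iff _).mpr (h1 c hc)
      rw [map_mul, map_inv, mul_inv_eq_one] at h3
      exact h3
  have hcA : Nat.card (MulAut D) = q - 1 := by
    have e : Nat.card (MulAut D) = Nat.card (ZMod (Nat.card D))ˣ :=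
      Nat.card_congr (IsCyclic.mulAutMulEquiv D).toEquiv
    rw [e, Nat.card_eq_fintype_card, ZMod.card_units, hDc]
  have hindex : C.index = Nat.card ψ.range := by
    rw [← hker, Subgroup.index_ker]
  have hfin : Finite (MulAut D) := by
    have : Finite (ZMod (Nat.card D))ˣ := inferInstance
    exact Finite.of_equiv _ (IsCyclic.mulAutMulEquiv D).symm.toEquiv
  have hle : C.index ≤ q - 1 := by
    rw [hindex, ← hcA]
    exact Subgroup.card_le_card_group _
  have hcycA : IsCyclic (MulAut D) :=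
    isCyclic_of_injective (IsCyclic.mulAutMulEquiv D).toMonoidHom (IsCyclic.mulAutMulEquiv D).injective
  have hcycR : IsCyclic ψ.range := inferInstance
  refine ⟨?_, hle, ?_⟩
  · obtain ⟨⟨_, x, rfl⟩, hx⟩ := hcycR.exists_generator
    refine ⟨x, ?_⟩
    rw [eq_top_iff]
    intro g _
    obtain ⟨n, hn⟩ := Subgroup.mem_zpowers_iff.mp (hx ⟨ψ g, g, rfl⟩)
    have h1 : ψ x ^ n = ψ g := congrArg Subtype.val hn
    have h2 : (x ^ n)⁻¹ * g ∈ C := by
      rw [← hker, MonoidHom.mem_ker, map_mul, map_inv, map_zpow, h1, inv_mul_cancel]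
    have h3 : g = x ^ n * ((x ^ n)⁻¹ * g) := by group
    rw [h3]
    exact mul_mem (Subgroup.mem_sup_right (Subgroup.zpow_mem _ (Subgroup.mem_zpowers x) n))
      (Subgroup.mem_sup_left h2)
  · intro hne h2
    rw [h2] at hle
    apply hne
    rw [← Subgroup.index_eq_one]
    have : C.index ≠ 0 := Subgroup.index_ne_zero_of_finite
    omega

theorem prime_b {G : Type} [Group G] [Finite G] {C : Subgroup G} {q δ : ℕ} {K : Fin δ → Subgroup G} (h : Indep C q δ K)
    (hq : q.Prime) (h2 : q ≠ 2) : 2 ^ δ ≤ (no C).index := by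
  have h1 : ∀ i, no C ≤ (K i).subgroupOf C := by
    intro i
    refine sInf_le ⟨?_, q, hq, h2, ?_⟩
    · have := (h.1 i).1.1
      infer_instance
    · exact (h.1 i).2.1
  have h3 : no C ≤ (C ⊓ ⨅ j ∈ (Finset.univ : Finset (Fin δ)), K j).subgroupOf C := by
    intro x hx
    rw [Subgroup.mem_subgroupOf, Subgroup.mem_inf]
    refine ⟨x.2, ?_⟩
    rw [Subgroup.mem_iInf]
    intro i
    rw [Subgroup.mem_iInf]
    intro _
    exact Subgroup.mem_subgroupOf.mp (h1 i hx)
  have h4 := Subgroup.index_antitone h3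
  have h5 := indep_index h Finset.univ
  rw [Finset.card_univ, Fintype.card_fin] at h5
  unfold Subgroup.relIndex at h5
  rw [h5] at h4
  exact (Nat.pow_le_pow_left hq.two_le δ).trans h4

end Pool.Agent.SvS
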