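import Pool.Agent.SvS.StepB

/-!
MP_7fa120_al, solvable subgroups. The process.

Proof. Let `b = Nat.log 2 (Nat.card X)`. By induction on `t`: for every solvable `H` with `2 ^ (b + 1) ≤ (no H).index * 2 ^ ((t + 1) * (k - 2))`,
`Nil H (no H).index (k + t) ∨ Many H (ga k) (ja b k + t)`. Apply `step_b`. In the third case `(no H').index ≤ |H'| ≤ |X| < 2 ^ (b + 1)`, which is
impossible if `t = 0`; for `t + 1` apply the induction hypothesis to `H'` (solvable) and `nil_up` (with `(no H).index ≤ (no H').index`) or `many_up`, with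
`T = {x}`. Take `t = ta b k = b / (k - 2)`: `(t + 1) * (k - 2) > b` and `(no H).index ≥ 1`.
-/

set_option autoImplicit false

namespace Pool.Agent.SvS

private theorem proc_aux {X : Type} [Group X] [Finite X] (k : ℕ) (hk : 3 ≤ k) : ∀ (t : ℕ) (H : Subgroup X),
    Group.IsSolvable H →
    2 ^ (Nat.log 2 (Nat.card X) + 1) ≤ (no H).index * 2 ^ ((t + 1) * (k - 2)) →
    Nil H (no H).index (k + t) ∨ Many H (ga k) (ja (Nat.log 2 (Nat.card X)) k + t) := by
  intro t
  induction t with
  | zero =>
    intro H hs h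
    rcases step_b H hs k hk with h1 | h1 | ⟨H', x, h1, h2, h3⟩
    · exact Or.inl h1
    · exact Or.inr h1
    · exfalso
      have h4 : (no H').index ≤ Nat.card X :=
        (Nat.le_of_dvd Nat.card_pos (Subgroup.index_dvd_card _)).trans
          (Nat.le_of_dvd Nat.card_pos (Subgroup.card_subgroup_dvd_card H'))
      have h5 : Nat.card X < 2 ^ (Nat.log 2 (Nat.card X) + 1) :=
        Nat.lt_pow_succ_log_self (by norm_num) _
      rw [zero_add, one_mul] at h
      omega
  | succ t ih =>
    intro H hs h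
    rcases step_b H hs k hk with h1 | h1 | ⟨H', x, h1, h2, h3⟩
    · refine Or.inl (nil_up h1 le_rfl ∅ (Nat.zero_le _) ?_)
      rw [Finset.coe_empty, Subgroup.closure_empty, sup_bot_eq]
    · exact Or.inr (many_mono h1 le_rfl (Nat.le_add_right _ _))
    · have hs' : Group.IsSolvable H' :=
        solvable_of_solvable_injective (Subgroup.inclusion_injective h1)
      have h4 : 2 ^ (Nat.log 2 (Nat.card X) + 1) ≤ (no H').index * 2 ^ ((t + 1) * (k - 2)) :=
        calc 2 ^ (Nat.log 2 (Nat.card X) + 1) ≤ (no H).index * 2 ^ ((t + 1 + 1) * (k - 2)) := h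
          _ = (no H).index * 2 ^ (k - 2) * 2 ^ ((t + 1) * (k - 2)) := by
            rw [mul_assoc, ← pow_add]
            congr 2
            ring
          _ ≤ (no H').index * 2 ^ ((t + 1) * (k - 2)) := Nat.mul_le_mul_right _ h3
      have h5 : (no H).index ≤ (no H').index := by
        refine le_trans ?_ h3
        exact Nat.le_mul_of_pos_right _ (by positivity)
      have h6 : H' ⊔ Subgroup.closure ((({x} : Finset X)) : Set X) = H := by
        rw [Finset.coe_singleton, ← Subgroup.zpowers_eq_closure, h2]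
      rcases ih H' hs' h4 with h7 | h7
      · exact Or.inl (nil_up (t := 1) h7 h5 {x} (by rw [Finset.card_singleton]) h6)
      · exact Or.inr (many_up (t := 1) h7 {x} (by rw [Finset.card_singleton]) h6)

theorem proc_b {X : Type} [Group X] [Finite X] (k : ℕ) (hk : 3 ≤ k) (H : Subgroup X) (hs : Group.IsSolvable H) :
    Nil H (no H).index (k + ta (Nat.log 2 (Nat.card X)) k) ∨
      Many H (ga k) (ja (Nat.log 2 (Nat.card X)) k + ta (Nat.log 2 (Nat.card X)) k) := by
  refine proc_aux k hk _ H hs ?_
  have h1 : Nat.log 2 (Nat.card X) + 1 ≤ (ta (Nat.log 2 (Nat.card X)) k + 1) * (k - 2) := by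
    have h2 := Nat.lt_mul_div_succ (Nat.log 2 (Nat.card X)) (show 0 < k - 2 by omega)
    unfold ta
    rw [mul_comm]
    exact h2
  have h3 : 1 ≤ (no H).index := Nat.one_le_iff_ne_zero.2 Subgroup.index_ne_zero_of_finite
  calc 2 ^ (Nat.log 2 (Nat.card X) + 1) ≤
        2 ^ ((ta (Nat.log 2 (Nat.card X)) k + 1) * (k - 2)) := Nat.pow_le_pow_right (by norm_num) h1
    _ ≤ (no H).index * 2 ^ ((ta (Nat.log 2 (Nat.card X)) k + 1) * (k - 2)) :=
        Nat.le_mul_of_pos_left _ h3

end Pool.Agent.SvS
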