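import Pool.Agent.SvS.FirstB
import Pool.Agent.SvS.ProcB
import Pool.Agent.SvS.HallP
import Pool.Agent.SvS.ULem

/-!
MP_7fa120_al, solvable subgroups. The cases.

Proof. `exists_hall` gives `Q`, `D`, and `exists_U` gives `U` with `Full U`, `Nz D U`, `mv U = mv Q` (`Q ≤ oddGen H ≤ H` is solvable; `mv Q ⊆ mv (oddGen H)`).
Apply `first_b` with `k'`. First alternative: the first or the second case. Second: `many_mono` (`ga k ≤ ga k'`, `ja b k' ≤ ja b k`). Third:
`C` is solvable and `proc_b` applies to it (`Nat.card (Perm (Fin n)) = n !`), then `nil_up` (`2 ^ (k' - 1) ≤ (no C).index`) and `many_up` with `T = {x}`.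
-/

set_option autoImplicit false

namespace Pool.Agent.SvS

open Equiv Pool.Agent.NilS Pool.Agent.BdO

private theorem ga_mono {k k' : ℕ} (h : k ≤ k') : ga k ≤ ga k' := by
  unfold ga
  exact Nat.mul_le_mul (by omega) (by omega)

private theorem ja_anti (b : ℕ) {k k' : ℕ} (hk : 3 ≤ k) (h : k ≤ k') : ja b k' ≤ ja b k := by
  unfold ja
  have h1 : b / (k' - 1) ≤ b / (k - 1) := Nat.div_le_div_left (by omega) (by omega)
  exact Nat.pow_le_pow_left (Nat.add_le_add_right h1 1) 2

private theorem sol_le {G : Type} [Group G] {K H : Subgroup G} (h : K ≤ H) (hs : Group.IsSolvable H) :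
    Group.IsSolvable K :=
  Group.isSolvable_of_isSolvable_injective (Subgroup.inclusion_injective h)

theorem split_sol {n : ℕ} (s₀ k k' : ℕ) (hk : 3 ≤ k) (hkk : k ≤ k') (H : Subgroup (Perm (Fin n))) (hs : Group.IsSolvable H) :
    (mv (oddGen H)).card ≤ s₀ ∨
    (s₀ < (mv (oddGen H)).card ∧
      ∃ (U D : Subgroup (Perm (Fin n))) (S : Finset (Perm (Fin n))), Full U ∧ Two D ∧ Nz D U ∧ mv U ⊆ mv (oddGen H) ∧
        (mv (oddGen H)).card ≤ 2 * (mv U).card ∧ (∀ x ∈ S, x ∈ oddGen H) ∧ S.card ≤ k' ∧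
        D ⊔ Subgroup.closure (S : Set (Perm (Fin n))) = H) ∨
    Many H (ga k) (ja (Nat.log 2 n.factorial) k + ta (Nat.log 2 n.factorial) k + 1) ∨
    Nil H (2 ^ (k' - 1)) (k + ta (Nat.log 2 n.factorial) k + 1) := by
  obtain ⟨Q, D, a, hQ, ho, -, hD, hDQ, hsup, hmv⟩ := exists_hall H hs
  have hR : oddGen H ≤ H := by
    calc oddGen H ≤ oddGen H ⊔ D := le_sup_left
      _ = H := hsup
  obtain ⟨U, hU, hDU, hmU⟩ := exists_U Q D (sol_le (hQ.trans hR) hs) ho hDQ
  rcases first_b H D hs hsup k' (hk.trans hkk) with ⟨S, hS, hSc, hSD⟩ | hM | ⟨C, x, hC, hCx, hi⟩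
  · by_cases hc : (mv (oddGen H)).card ≤ s₀
    · exact Or.inl hc
    · right
      left
      refine ⟨not_le.1 hc, U, D, S, hU, hD, hDU, ?_, ?_, hS, hSc, hSD⟩
      · rw [hmU]
        intro y hy
        obtain ⟨q, hq, hqy⟩ := mem_mv.1 hy
        exact mem_mv.2 ⟨q, hQ hq, hqy⟩
      · rw [hmU]
        exact hmv
  · right
    right
    left
    exact many_mono hM (ga_mono hkk) ((ja_anti _ hk hkk).trans (by omega))
  · have hcard : Nat.card (Perm (Fin n)) = n.factorial := by
      rw [Nat.card_eq_fintype_card, Fintype.card_perm, Fintype.card_fin]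
    have hT : C ⊔ Subgroup.closure (({x} : Finset (Perm (Fin n))) : Set (Perm (Fin n))) = H := by
      rw [Finset.coe_singleton, ← Subgroup.zpowers_eq_closure]
      exact hCx
    have h1 := proc_b k hk C (sol_le hC hs)
    rw [hcard] at h1
    rcases h1 with h1 | h1
    · right
      right
      right
      exact nil_up h1 hi {x} (by simp) hT
    · right
      right
      left
      exact many_up h1 {x} (by simp) hT

end Pool.Agent.SvS
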